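import Mathlib
import Pool.Agent.CH.Stmts

set_option autoImplicit false

/-!
# CU: the theorem of Chen type for all `m` (MP_4011c3_nt, Q2), definitions

`N = n/m` (integer part), tiles `x = n - m q - r`, `0 ≤ r < m`, `q ≤ N`.  For `m ≥ (log n)^B` the
conditions modulo `l` on `q` and on `x` are independent on average over `r`.
-/

namespace Pool.Agent.CU

open Finset Filter Pool.Agent.MT Pool.Agent.CH

/-- weighted count of the primes in the tile of `q` -/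
noncomputable def tl (η : ℝ → ℝ) (N m n q : ℕ) : ℝ :=
  η ((q : ℝ) / N) * ∑ r ∈ range m, lam (n - m * q - r)

/-- primes in the tiles `q = c mod f` -/
noncomputable def TAP (η : ℝ → ℝ) (N m n f c : ℕ) : ℝ :=
  ∑ q ∈ (range (N + 1)).filter (fun q => q % f = c % f), tl η N m n q

/-- character sum over the integers of `(u, u + L]` coprime to `M` -/
noncomputable def JJ (M u L : ℕ) {r : ℕ} (χ : DirichletCharacter ℂ r) : ℂ :=
  ∑ j ∈ (Ioc u (u + L)).filter (fun j => j.Coprime M), χ (j : ZMod r)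

/-- level of distribution for the tiles, error `Err` -/
def Lev (η : ℝ → ℝ) (N m n : ℕ) (θ : ℝ) (K : ℕ) (Err : ℝ) : Prop :=
  ∃ E : ℕ → ℝ, (∀ f, 0 ≤ E f) ∧
    (∀ f c : ℕ, 1 ≤ f → (f : ℝ) ≤ (N : ℝ) ^ θ → c < f →
      |TAP η N m n f c - psi0 (etaR η) (m * N) / f| ≤ E f) ∧
    ∑ f ∈ (Icc 1 N).filter (fun f : ℕ => (f : ℝ) ≤ (N : ℝ) ^ θ),
      (K : ℝ) ^ f.primeFactors.card * E f ≤ Err

/-- classes of `q` removed modulo `l`: `0` and, for `l ≤ w`, the roots of `2` -/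
def OmT (w l : ℕ) : Finset ℕ := (range l).filter (fun c => c = 0 ∨ (l ≤ w ∧ (c ^ 2) % l = 2 % l))

/-- its density -/
noncomputable def gT (w l : ℕ) : ℝ := ((OmT w l).card : ℝ) / l

/-- number of nonzero roots of `2` -/
noncomputable def sT (w l : ℕ) : ℝ :=
  (((range l).filter (fun c => c ≠ 0 ∧ l ≤ w ∧ (c ^ 2) % l = 2 % l)).card : ℝ)

/-- density for the pairs `(q, r)`, `(n - r, m) = 1`, in the switched sum -/
noncomputable def gBT (w m l : ℕ) : ℝ := if l ∣ m then sT w l / ((l : ℝ) - 1) else (1 + sT w l) / l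

/-- hypotheses on the density, both `1/l` and `1/(l-1)` allowed beyond `w` -/
def DnsG (w z J : ℕ) (g : ℕ → ℝ) : Prop :=
  (∀ l : ℕ, l.Prime → 0 ≤ g l ∧ g l ≤ 1 / 2 ∧ g l ≤ 4 / (l : ℝ)) ∧
  (∀ l : ℕ, l.Prime → w < l → l ≤ z → g l = 0 ∨ (1 / (l : ℝ) ≤ g l ∧ g l ≤ 1 / ((l : ℝ) - 1))) ∧
  ((pr z).filter (fun l => w < l ∧ g l = 0)).card ≤ J

/-- unit of measure of the main terms -/
noncomputable def UT (η : ℝ → ℝ) (δ : ℝ) (N m z : ℕ) : ℝ :=
  (∫ t in (0 : ℝ)..1, η t) * (m * N) * VV (gT (wN δ N)) z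

/-- sifted sum over the tiles -/
noncomputable def SS (η : ℝ → ℝ) (w z N m n : ℕ) : ℝ :=
  ∑ q ∈ (range (N + 1)).filter (fun q => ∀ l ∈ pr z, q % l ∉ OmT w l), tl η N m n q

/-- the same with `p ∣ q` -/
noncomputable def SSp (η : ℝ → ℝ) (w z p N m n : ℕ) : ℝ :=
  ∑ q ∈ (range (N + 1)).filter (fun q => (∀ l ∈ pr z, q % l ∉ OmT w l) ∧ p ∣ q), tl η N m n q

/-- `N^{1/12}` and `N^{5/21}` -/
noncomputable def z4 (N : ℕ) : ℕ := ⌊(N : ℝ) ^ (1 / 12 : ℝ)⌋₊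

noncomputable def y4 (N : ℕ) : ℕ := ⌊(N : ℝ) ^ (5 / 21 : ℝ)⌋₊

/-- the tile situation -/
def Tile (N m n : ℕ) : Prop := 1 ≤ m ∧ m * N ≤ n ∧ n < m * (N + 1)

end Pool.Agent.CU
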