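import Mathlib
import Pool.Agent.CU.Defs

set_option autoImplicit false

/-!
# CU: statements of the modules
-/

namespace Pool.Agent.CU

open Finset Filter Pool.Agent.MT Pool.Agent.CH

/-! ### Characters -/

/-- inequality of Polya and Vinogradov -/
def St_PV : Prop := ∃ C : ℝ, 0 < C ∧ ∀ q u v : ℕ, 1 ≤ q → ∀ χ ∈ prim q,
  ‖∑ j ∈ Ioc u v, χ (j : ZMod q)‖ ≤ C * (Real.sqrt q * (1 + Real.log q))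

/-- large sieve for the conductors that are multiples of `e` -/
def St_LSm : Prop := ∃ C : ℝ, 0 < C ∧ ∀ e K u v : ℕ, 1 ≤ e → u ≤ v → ∀ a : ℕ → ℂ,
  ∑ k ∈ Icc 1 K, ∑ χ ∈ prim (e * k), ‖∑ n ∈ Ioc u v, a n * χ (n : ZMod (e * k))‖ ^ 2 ≤
    C * ((v : ℝ) - u + e * (K : ℝ) ^ 2) * ∑ n ∈ Ioc u v, ‖a n‖ ^ 2

/-- bilinear sums for these conductors -/
def St_TIIm : Prop := ∀ η : ℝ → ℝ, IsWt η → ∃ C : ℝ, 0 < C ∧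
  ∀ N e K M : ℕ, 1 ≤ N → 1 ≤ e → 1 ≤ M → ∀ a b : ℕ → ℂ,
    ∑ k ∈ Icc 1 K, ∑ χ ∈ prim (e * k),
      ‖∑ l ∈ Ioc M (2 * M), ∑ j ∈ Icc 1 (N / l), a l * b j *
        (χ ((l * j : ℕ) : ZMod (e * k)) * ((η (((l * j : ℕ) : ℝ) / N) : ℝ) : ℂ))‖ ≤
      C * Real.sqrt (((M : ℝ) + e * (K : ℝ) ^ 2) * ∑ l ∈ Ioc M (2 * M), ‖a l‖ ^ 2) *
        Real.sqrt (((N : ℝ) / M + e * (K : ℝ) ^ 2) * ∑ j ∈ Icc 1 (N / M), ‖b j‖ ^ 2)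

/-- mean value of the prime sums over these conductors -/
def St_LCm : Prop := ∀ η : ℝ → ℝ, IsWt η → ∃ C : ℕ, ∀ X e K U : ℕ, 3 ≤ X → 1 ≤ e → 1 ≤ K →
  1 ≤ U → U ^ 3 ≤ X → ∑ k ∈ Icc 1 K, ∑ χ ∈ prim (e * k), ‖psiChi η X χ‖ ≤
    C * Real.log X ^ C * (1 + Real.log (e * K)) * (X + X * Real.sqrt (e * K ^ 2 / U) +
      e * K ^ 2 * Real.sqrt X + e * K ^ 2 * U * Real.sqrt (e * K))

/-- incomplete sums of imprimitive characters -/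
def St_JB : Prop := ∃ C : ℝ, 0 < C ∧ ∀ m f r u L : ℕ, 1 ≤ m → 1 ≤ f → r ∣ m * f → ∀ χ ∈ prim r,
  ‖JJ (m * f) u L χ‖ ≤
    C * 2 ^ ((m / Nat.gcd r m).primeFactors.card + f.primeFactors.card) *
      (Real.sqrt r * (1 + Real.log r))

/-! ### Distribution of primes in tiles -/

/-- one modulus -/
def St_TRed : Prop := ∀ η : ℝ → ℝ, IsWt η → ∃ C : ℝ, 0 < C ∧ ∀ N m n f c : ℕ, 8 ≤ N →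
  Tile N m n → 1 ≤ f → f ≤ N → c < f →
  |TAP η N m n f c - psi0 (etaR η) (m * N) / f| ≤
    C * (m * (1 + Real.log n) ^ 2 +
      m * N * 2 ^ (m * f).primeFactors.card / ((m * f).totient : ℝ)) +
    1 / ((m * f).totient : ℝ) * ∑ r ∈ (m * f).divisors.erase 1, ∑ χ ∈ prim r,
      ‖JJ (m * f) (n - m * c - m) m χ‖ * ‖psiChi (etaR η) (m * N) χ‖

/-- summation over the moduli -/
def St_TSum : Prop := ∀ (K : ℕ) (ε : ℝ), 0 < ε → ∃ C : ℕ, ∀ (m F : ℕ) (G : ℕ → ℝ),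
  1 ≤ m → 1 ≤ F → (∀ r, 0 ≤ G r) →
  ∑ f ∈ Icc 1 F, (K : ℝ) ^ f.primeFactors.card * (1 / ((m * f).totient : ℝ) *
    ∑ r ∈ (m * f).divisors.erase 1,
      2 ^ ((m / Nat.gcd r m).primeFactors.card + f.primeFactors.card) * G r) ≤
  C * (1 + Real.log (m * F)) ^ C * ∑ e ∈ m.divisors, (2 : ℝ) ^ (m / e).primeFactors.card / m *
    ∑ k ∈ Icc 1 F, (k : ℝ) ^ (-1 + ε) * G (e * k)

/-- level `1/3` for all `m` -/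
def St_TBV3 : Prop := ∀ η : ℝ → ℝ, IsWt η → ∀ θ : ℝ, 0 < θ → θ < 1 / 3 → ∀ A K : ℕ,
  ∃ B : ℕ, ∀ᶠ n : ℕ in atTop, ∀ m N : ℕ, Tile N m n → Real.log n ^ B ≤ m →
    Real.log n ^ B ≤ N → Lev η N m n θ K (m * N / Real.log n ^ A)

/-- level `1/2` for `m ≤ n^κ` -/
def St_TBV2 : Prop := ∀ η : ℝ → ℝ, IsWt η → ∀ θ : ℝ, 0 < θ → θ < 1 / 2 → ∃ κ : ℝ, 0 < κ ∧
  ∀ A K : ℕ, ∃ B : ℕ, ∀ᶠ n : ℕ in atTop, ∀ m N : ℕ, Tile N m n → Real.log n ^ B ≤ m →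
    (m : ℝ) ≤ (n : ℝ) ^ κ → Lev η N m n θ K (m * N / Real.log n ^ A)

/-! ### The linear sieve with both densities -/

/-- upper bound, `1 ≤ s ≤ 3` -/
def St_LGU (A0 : ℝ) : Prop := ∀ ε : ℝ, 0 < ε → ∃ (δ₀ : ℝ) (C : ℕ), 0 < δ₀ ∧
  ∀ δ : ℝ, 0 < δ → δ ≤ δ₀ → ∀ J : ℕ, ∀ᶠ X : ℕ in atTop, ∀ (z : ℕ) (D : ℝ),
  (X : ℝ) ^ (1 / 20 : ℝ) ≤ z → (z : ℝ) ≤ D → D ≤ (z : ℝ) ^ 3 → D ≤ X → ∀ g : ℕ → ℝ,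
  DnsG ⌊(X : ℝ) ^ δ⌋₊ z J g → ∃ c : ℕ → ℝ,
    (∀ d, c d ≠ 0 → Squarefree d ∧ (∀ p ∈ d.primeFactors, p ≤ z) ∧
      (d : ℝ) ≤ D * (X : ℝ) ^ ε) ∧
    (∀ d, |c d| ≤ C * (C : ℝ) ^ d.primeFactors.card) ∧
    (∑ d ∈ Icc 1 (X ^ 2), c d * ∏ p ∈ d.primeFactors, g p ≤
      VV g z * (A0 * Real.log z / Real.log D + ε)) ∧
    ∀ S : Finset ℕ, S ⊆ pr z → (if S = ∅ then (1 : ℝ) else 0) ≤
      ∑ T ∈ S.powerset, c (∏ l ∈ T, l)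

/-- lower bound, `2 ≤ s ≤ 4` -/
def St_LGL (A0 : ℝ) : Prop := ∀ ε : ℝ, 0 < ε → ∃ (δ₀ : ℝ) (C : ℕ), 0 < δ₀ ∧
  ∀ δ : ℝ, 0 < δ → δ ≤ δ₀ → ∀ J : ℕ, ∀ᶠ X : ℕ in atTop, ∀ (z : ℕ) (D : ℝ),
  (X : ℝ) ^ (1 / 20 : ℝ) ≤ z → (z : ℝ) ^ 2 ≤ D → D ≤ (z : ℝ) ^ 4 → D ≤ X → ∀ g : ℕ → ℝ,
  DnsG ⌊(X : ℝ) ^ δ⌋₊ z J g → ∃ c : ℕ → ℝ,
    (∀ d, c d ≠ 0 → Squarefree d ∧ (∀ p ∈ d.primeFactors, p ≤ z) ∧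
      (d : ℝ) ≤ D * (X : ℝ) ^ ε) ∧
    (∀ d, |c d| ≤ C * (C : ℝ) ^ d.primeFactors.card) ∧
    (VV g z * (A0 * (Real.log (Real.log D / Real.log z - 1) * Real.log z / Real.log D) - ε) ≤
      ∑ d ∈ Icc 1 (X ^ 2), c d * ∏ p ∈ d.primeFactors, g p) ∧
    ∀ S : Finset ℕ, S ⊆ pr z → ∑ T ∈ S.powerset, c (∏ l ∈ T, l) ≤
      (if S = ∅ then (1 : ℝ) else 0)

def St_LG : Prop := ∃ A0 : ℝ, 0 < A0 ∧ St_LGU A0 ∧ St_LGL A0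

/-! ### Densities -/

def St_DensT : Prop :=
  (∀ w l : ℕ, l.Prime → (OmT w l).card ≤ 3 ∧ 0 ≤ gT w l ∧ gT w l ≤ 1 / 2 ∧ gT w l ≤ 4 / (l : ℝ) ∧
    (w < l → gT w l = 1 / (l : ℝ))) ∧
  (∀ w m l : ℕ, l.Prime → 0 ≤ gBT w m l ∧ gBT w m l ≤ 1 / 2 ∧ gBT w m l ≤ 4 / (l : ℝ) ∧
    (w < l → ¬ l ∣ m → gBT w m l = 1 / (l : ℝ))) ∧
  (∀ w m n' l : ℕ, l.Prime → n'.Coprime m → (OmB w m n' l).card ≤ 3) ∧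
  (∀ w m z : ℕ, 1 ≤ m → m ≤ w → w ≤ z → VV (gT w) z = (m.totient : ℝ) / m * VV (gBT w m) z)

/-- Mertens for the linear part of the density -/
def St_VRG : Prop := ∀ (δ ε : ℝ), 0 < δ → δ < 1 / 8 → 0 < ε → ∀ᶠ N : ℕ in atTop,
  ∀ g : ℕ → ℝ, DnsG ⌊(N : ℝ) ^ δ⌋₊ (yN N) 0 g → VV g (yN N) ≤ (3 / 8 + ε) * VV g (zN N)

/-! ### Four prime factors, level `1/3` -/

/-- lower bound for the sifted sum -/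
def St_T4A (A0 : ℝ) : Prop := ∀ η : ℝ → ℝ, IsWt η → ∀ ε : ℝ, 0 < ε → ∃ δ₁ : ℝ, 0 < δ₁ ∧
  ∀ δ : ℝ, 0 < δ → δ ≤ δ₁ → ∃ (θ : ℝ) (A K : ℕ), 0 < θ ∧ θ < 1 / 3 ∧
  ∀ᶠ N : ℕ in atTop, ∀ m n : ℕ, Tile N m n → Lev η N m n θ K (m * N / Real.log N ^ A) →
  (A0 * (Real.log 3 / 4) - ε) * UT η δ N m (z4 N) ≤ SS η (wN δ N) (z4 N) N m n

/-- upper bound for the weighted sum over the primes `z4 < p ≤ y4` -/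
def St_T4P (A0 : ℝ) : Prop := ∀ η : ℝ → ℝ, IsWt η → ∀ ε : ℝ, 0 < ε → ∃ δ₁ : ℝ, 0 < δ₁ ∧
  ∀ δ : ℝ, 0 < δ → δ ≤ δ₁ → ∃ (θ : ℝ) (A K : ℕ), 0 < θ ∧ θ < 1 / 3 ∧
  ∀ᶠ N : ℕ in atTop, ∀ m n : ℕ, Tile N m n → Lev η N m n θ K (m * N / Real.log N ^ A) →
  ∑ p ∈ (pr (y4 N)).filter (fun p => z4 N < p),
    (1 - 21 / 5 * (Real.log p / Real.log N)) * SSp η (wN δ N) (z4 N) p N m n ≤
    (A0 / 5 + ε) * UT η δ N m (z4 N)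

/-- the weight detects four prime factors -/
def St_Wt4 : Prop := ∀ N q : ℕ, 1 ≤ q → q < N → (∀ p : ℕ, p.Prime → p ≤ y4 N → ¬ p ^ 2 ∣ q) →
  0 < 1 - 5 / 4 * ∑ p ∈ (pr (y4 N)).filter (fun p => p ∣ q),
    (1 - 21 / 5 * (Real.log p / Real.log N)) → Nat.IsAtMostAlmostPrime 4 q

/-- conclusion for four prime factors -/
def St_Fin4 : Prop := ∃ R B : ℕ, ∀ᶠ n : ℕ in atTop, ∀ m N : ℕ, Tile N m n →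
  Real.log n ^ B ≤ m → Real.log n ^ B ≤ N → ∃ p : ℕ, p.Prime ∧ p < n ∧ 2 ≤ (n - p) / m ∧
    Nat.IsAtMostAlmostPrime 4 ((n - p) / m) ∧ Nat.IsAtMostAlmostPrime R (((n - p) / m) ^ 2 - 2)

/-! ### Two prime factors, `m ≤ n^κ` -/

def St_TSA (A0 : ℝ) : Prop := ∀ η : ℝ → ℝ, IsWt η → ∀ ε : ℝ, 0 < ε → ∃ δ₁ : ℝ, 0 < δ₁ ∧
  ∀ δ : ℝ, 0 < δ → δ ≤ δ₁ → ∃ (θ : ℝ) (A K : ℕ), 0 < θ ∧ θ < 1 / 2 ∧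
  ∀ᶠ N : ℕ in atTop, ∀ m n : ℕ, Tile N m n → Lev η N m n θ K (m * N / Real.log N ^ A) →
  (A0 * (Real.log 3 / 4) - ε) * UT η δ N m (zN N) ≤ SS η (wN δ N) (zN N) N m n

def St_TSP (A0 : ℝ) : Prop := ∀ η : ℝ → ℝ, IsWt η → ∀ ε : ℝ, 0 < ε → ∃ δ₁ : ℝ, 0 < δ₁ ∧
  ∀ δ : ℝ, 0 < δ → δ ≤ δ₁ → ∃ (θ : ℝ) (A K : ℕ), 0 < θ ∧ θ < 1 / 2 ∧
  ∀ᶠ N : ℕ in atTop, ∀ m n : ℕ, Tile N m n → Lev η N m n θ K (m * N / Real.log N ^ A) →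
  ∑ p ∈ (pr (yN N)).filter (fun p => zN N < p), SSp η (wN δ N) (zN N) p N m n ≤
    (A0 * (Real.log 6 / 4) + ε) * UT η δ N m (zN N)

/-- average of the local factors over `r < m` -/
def St_AvgR : Prop := ∃ C : ℕ, ∀ w m n d : ℕ, 1 ≤ m → m ≤ w → m ≤ n → Squarefree d →
  |∑ r ∈ (range m).filter (fun r => (n - r).Coprime m),
      ∏ l ∈ d.primeFactors, ((OmB w m (n - r) l).card : ℝ) -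
    (m.totient : ℝ) * ∏ l ∈ d.primeFactors, (((l : ℝ) - 1) * gBT w m l)| ≤
    (C : ℝ) ^ d.primeFactors.card * 2 ^ m.primeFactors.card

/-- the switched sum: pairs `(q, r)` with `q = p₁ p₂ p₃` -/
noncomputable def SBT (η : ℝ → ℝ) (w z y N m n : ℕ) : ℝ :=
  ∑ q ∈ range (N + 1), bt z y q * η ((q : ℝ) / N) *
    (((range m).filter (fun r => (n - r).Coprime m ∧
      ∀ l ∈ pr y, q % l ∉ OmB w m (n - r) l)).card : ℝ)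

def St_TSB (A0 : ℝ) : Prop := ∀ η : ℝ → ℝ, IsWt η → ∀ ε : ℝ, 0 < ε → ∃ δ₁ : ℝ, 0 < δ₁ ∧
  ∀ δ : ℝ, 0 < δ → δ ≤ δ₁ → ∃ B : ℕ, ∀ᶠ N : ℕ in atTop, ∀ m n : ℕ, Tile N m n →
  Real.log N ^ B ≤ m → m ≤ wN δ N →
  SBT η (wN δ N) (zN N) (yN N) N m n ≤ (A0 * (cB / 4) + ε) * UT η δ N m (zN N) / Real.log N

/-- conclusion for two prime factors -/
def St_FinT : Prop := ∃ (R B : ℕ) (κ : ℝ), 0 < κ ∧ ∀ᶠ n : ℕ in atTop, ∀ m N : ℕ, Tile N m n →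
  Real.log n ^ B ≤ m → (m : ℝ) ≤ (n : ℝ) ^ κ → ∃ p : ℕ, p.Prime ∧ p < n ∧ 2 ≤ (n - p) / m ∧
    Nat.IsAtMostAlmostPrime 2 ((n - p) / m) ∧ Nat.IsAtMostAlmostPrime R (((n - p) / m) ^ 2 - 2)

/-! ### Large `m` -/

/-- primes in intervals of length `n / (log n)^A` -/
def St_PI : Prop := ∀ A : ℕ, ∀ᶠ n : ℕ in atTop, ∀ a m : ℕ, a ≤ n →
  (n : ℝ) ≤ m * Real.log n ^ A → ∃ p : ℕ, p.Prime ∧ a < p ∧ p ≤ a + m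

/-- `q = 2` -/
def St_FinD : Prop := ∀ A : ℕ, ∀ᶠ n : ℕ in atTop, ∀ m : ℕ, 1 ≤ m → 2 * m + 1 < n →
  (n : ℝ) ≤ m * Real.log n ^ A → ∃ p : ℕ, p.Prime ∧ p < n ∧ (n - p) / m = 2

/-! ### Result -/

/-- all but finitely many admissible pairs -/
def St_All : Prop := ∃ (R : ℕ) (κ : ℝ), 0 < κ ∧ ∀ᶠ n : ℕ in atTop, ∀ m : ℕ, Admissible m n →
  ∃ p : ℕ, p.Prime ∧ p < n ∧ 2 ≤ (n - p) / m ∧ Nat.IsAtMostAlmostPrime 4 ((n - p) / m) ∧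
    ((m : ℝ) ≤ (n : ℝ) ^ κ → Nat.IsAtMostAlmostPrime 2 ((n - p) / m)) ∧
    Nat.IsAtMostAlmostPrime R (((n - p) / m) ^ 2 - 2)

end Pool.Agent.CU
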