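import Mathlib
import Pool.Agent.CU.Stmts
import Pool.Agent.CH.Dens

set_option autoImplicit false

/-!
# CU / AvgR

Average over `r < m`, `(n - r, m) = 1`, of the products of the numbers of removed classes.
For a prime `l ∣ m` the number of classes is `s_l`; for the other primes it is
`1 + s_l - [n' mod l is bad]`, with `1 + s_l` bad classes.
-/

namespace Pool.Agent.CU

open Finset Filter Pool.Agent.MT Pool.Agent.CH

/-! ### Counting in an interval -/

theorem avgR_base (a L t c : ℕ) (ht : 0 < t) :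
    |(((Ioc a (a + L)).filter (fun j => j ≡ c [MOD t])).card : ℝ) - (L : ℝ) / t| ≤ 1 := by
  have h := Nat.Ioc_filter_modEq_card a (a + L) ht c
  have ht0 : (0 : ℚ) < t := by exact_mod_cast ht
  set f1 : ℤ := ⌊(((a + L : ℕ) : ℚ) - (c : ℚ)) / (t : ℚ)⌋ with hf1
  set f2 : ℤ := ⌊((a : ℚ) - (c : ℚ)) / (t : ℚ)⌋ with hf2
  have hle : f2 ≤ f1 := by
    rw [hf1, hf2]
    apply Int.floor_le_floor
    apply div_le_div_of_nonneg_right _ ht0.le
    push_cast
    have : (0 : ℚ) ≤ L := by exact_mod_cast Nat.zero_le L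
    linarith
  rw [max_eq_left (by linarith)] at h
  have a1 := Int.floor_le ((((a + L : ℕ) : ℚ) - (c : ℚ)) / (t : ℚ))
  have a2 := Int.lt_floor_add_one ((((a + L : ℕ) : ℚ) - (c : ℚ)) / (t : ℚ))
  have b1 := Int.floor_le (((a : ℚ) - (c : ℚ)) / (t : ℚ))
  have b2 := Int.lt_floor_add_one (((a : ℚ) - (c : ℚ)) / (t : ℚ))
  rw [← hf1] at a1 a2
  rw [← hf2] at b1 b2
  have e : (((a + L : ℕ) : ℚ) - (c : ℚ)) / (t : ℚ) = ((a : ℚ) - (c : ℚ)) / (t : ℚ) + (L : ℚ) / t := by
    push_cast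
    ring
  rw [e] at a1 a2
  have h1 : ((((Ioc a (a + L)).filter (fun j => j ≡ c [MOD t])).card : ℚ)) = f1 - f2 := by
    exact_mod_cast h
  have h2 : |((((Ioc a (a + L)).filter (fun j => j ≡ c [MOD t])).card : ℚ)) - (L : ℚ) / t| ≤ 1 := by
    rw [h1, abs_le]
    constructor <;> linarith
  have h3 : ((|((((Ioc a (a + L)).filter (fun j => j ≡ c [MOD t])).card : ℚ)) - (L : ℚ) / t| : ℚ) : ℝ)
      ≤ ((1 : ℚ) : ℝ) := by exact_mod_cast h2
  push_cast at h3
  exact h3

theorem avgR_P (a L : ℕ) (P : Finset ℕ) : (∀ p ∈ P, p.Prime) → ∀ t c : ℕ, 0 < t →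
    (∀ p ∈ P, t.Coprime p) →
    |(((Ioc a (a + L)).filter (fun j => j ≡ c [MOD t] ∧ ∀ p ∈ P, ¬ p ∣ j)).card : ℝ) -
      (L : ℝ) / t * ∏ p ∈ P, (1 - 1 / (p : ℝ))| ≤ 2 ^ P.card := by
  classical
  induction P using Finset.induction_on with
  | empty =>
    intro _ t c ht _
    have h := avgR_base a L t c ht
    simpa using h
  | insert q P hq ih =>
    intro hP t c ht hcop
    have hqp : q.Prime := hP q (mem_insert_self _ _)
    have hP' : ∀ p ∈ P, p.Prime := fun p hp => hP p (mem_insert_of_mem hp)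
    have hcop' : ∀ p ∈ P, t.Coprime p := fun p hp => hcop p (mem_insert_of_mem hp)
    have htq : t.Coprime q := hcop q (mem_insert_self _ _)
    obtain ⟨c', hc1, hc2⟩ := Nat.chineseRemainder htq c 0
    have ih1 := ih hP' t c ht hcop'
    have ih2 := ih hP' (t * q) c' (Nat.mul_pos ht hqp.pos) (by
      intro p hp
      apply Nat.Coprime.mul_left (hcop' p hp)
      rw [Nat.coprime_primes hqp (hP' p hp)]
      intro h
      exact hq (h ▸ hp))
    have hsplit : ((Ioc a (a + L)).filter (fun j => j ≡ c [MOD t] ∧ ∀ p ∈ P, ¬ p ∣ j)).card =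
        ((Ioc a (a + L)).filter (fun j => j ≡ c [MOD t] ∧ ∀ p ∈ insert q P, ¬ p ∣ j)).card +
        ((Ioc a (a + L)).filter (fun j => j ≡ c' [MOD t * q] ∧ ∀ p ∈ P, ¬ p ∣ j)).card := by
      rw [← card_union_of_disjoint]
      · congr 1
        ext j
        rw [mem_union, mem_filter, mem_filter, mem_filter]
        constructor
        · rintro ⟨h1, h2, h3⟩
          by_cases hqj : q ∣ j
          · right
            refine ⟨h1, ?_, h3⟩
            rw [← Nat.modEq_and_modEq_iff_modEq_mul htq]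
            refine ⟨h2.trans hc1.symm, ?_⟩
            exact ((Nat.modEq_zero_iff_dvd).mpr hqj).trans hc2.symm
          · left
            refine ⟨h1, h2, ?_⟩
            intro p hp
            rcases mem_insert.mp hp with h | h
            · rw [h]; exact hqj
            · exact h3 p h
        · rintro (⟨h1, h2, h3⟩ | ⟨h1, h2, h3⟩)
          · exact ⟨h1, h2, fun p hp => h3 p (mem_insert_of_mem hp)⟩
          · rw [← Nat.modEq_and_modEq_iff_modEq_mul htq] at h2
            exact ⟨h1, h2.1.trans hc1, h3⟩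
      · rw [disjoint_left]
        intro j h1 h2
        rw [mem_filter] at h1 h2
        have h3 := h2.2.1
        rw [← Nat.modEq_and_modEq_iff_modEq_mul htq] at h3
        exact h1.2.2 q (mem_insert_self _ _)
          ((Nat.modEq_zero_iff_dvd).mp (h3.2.trans hc2))
    have hsplitR : ((((Ioc a (a + L)).filter
        (fun j => j ≡ c [MOD t] ∧ ∀ p ∈ insert q P, ¬ p ∣ j)).card : ℕ) : ℝ) =
        (((Ioc a (a + L)).filter (fun j => j ≡ c [MOD t] ∧ ∀ p ∈ P, ¬ p ∣ j)).card : ℝ) -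
        (((Ioc a (a + L)).filter (fun j => j ≡ c' [MOD t * q] ∧ ∀ p ∈ P, ¬ p ∣ j)).card : ℝ) := by
      rw [hsplit]
      push_cast
      ring
    rw [hsplitR, prod_insert hq, card_insert_of_notMem hq]
    set x1 := (((Ioc a (a + L)).filter (fun j => j ≡ c [MOD t] ∧ ∀ p ∈ P, ¬ p ∣ j)).card : ℝ)
    set x2 := (((Ioc a (a + L)).filter (fun j => j ≡ c' [MOD t * q] ∧ ∀ p ∈ P, ¬ p ∣ j)).card : ℝ)
    set Q := ∏ p ∈ P, (1 - 1 / (p : ℝ))
    have hq0 : (q : ℝ) ≠ 0 := by exact_mod_cast hqp.ne_zero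
    have ht0 : (t : ℝ) ≠ 0 := by exact_mod_cast ht.ne'
    have e : x1 - x2 - (L : ℝ) / t * ((1 - 1 / (q : ℝ)) * Q) =
        (x1 - (L : ℝ) / t * Q) - (x2 - (L : ℝ) / ((t * q : ℕ) : ℝ) * Q) := by
      push_cast
      field_simp
      ring
    rw [e]
    refine (abs_sub _ _).trans ?_
    rw [pow_succ]
    linarith

theorem avgR_T (a L : ℕ) (P : Finset ℕ) (hP : ∀ p ∈ P, p.Prime) (Bd : ℕ → Finset ℕ)
    (T : Finset ℕ) : (∀ l ∈ T, l.Prime ∧ l ∉ P ∧ Bd l ⊆ range l) → ∀ t c : ℕ, 0 < t →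
    (∀ p ∈ P, t.Coprime p) → (∀ l ∈ T, t.Coprime l) →
    |(((Ioc a (a + L)).filter (fun j => j ≡ c [MOD t] ∧ (∀ l ∈ T, j % l ∈ Bd l) ∧
        ∀ p ∈ P, ¬ p ∣ j)).card : ℝ) -
      (L : ℝ) / t * (∏ l ∈ T, (((Bd l).card : ℝ) / l)) * ∏ p ∈ P, (1 - 1 / (p : ℝ))| ≤
      (∏ l ∈ T, ((Bd l).card : ℝ)) * 2 ^ P.card := by
  classical
  induction T using Finset.induction_on with
  | empty =>
    intro _ t c ht hcop _
    have h := avgR_P a L P hP t c ht hcop
    simpa using h
  | insert q T hq ih =>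
    intro hT t c ht hcopP hcopT
    obtain ⟨hqp, hqP, hqB⟩ := hT q (mem_insert_self _ _)
    have hT' : ∀ l ∈ T, l.Prime ∧ l ∉ P ∧ Bd l ⊆ range l :=
      fun l hl => hT l (mem_insert_of_mem hl)
    have htq : t.Coprime q := hcopT q (mem_insert_self _ _)
    have hcP : ∀ p ∈ P, (t * q).Coprime p := by
      intro p hp
      apply Nat.Coprime.mul_left (hcopP p hp)
      rw [Nat.coprime_primes hqp (hP p hp)]
      intro h
      exact hqP (h ▸ hp)
    have hcT : ∀ l ∈ T, (t * q).Coprime l := by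
      intro l hl
      apply Nat.Coprime.mul_left (hcopT l (mem_insert_of_mem hl))
      rw [Nat.coprime_primes hqp (hT' l hl).1]
      intro h
      exact hq (h ▸ hl)
    set cb : ℕ → ℕ := fun b => (Nat.chineseRemainder htq c b : ℕ) with hcb
    have hcb1 : ∀ b, cb b ≡ c [MOD t] := fun b => (Nat.chineseRemainder htq c b).2.1
    have hcb2 : ∀ b, cb b ≡ b [MOD q] := fun b => (Nat.chineseRemainder htq c b).2.2
    set S := (Ioc a (a + L)).filter (fun j => j ≡ c [MOD t] ∧ (∀ l ∈ insert q T, j % l ∈ Bd l) ∧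
        ∀ p ∈ P, ¬ p ∣ j) with hS
    have hfib := card_eq_sum_card_fiberwise (s := S) (t := Bd q) (f := fun j => j % q) (by
      intro j hj
      rw [hS, mem_coe, mem_filter] at hj
      exact hj.2.2.1 q (mem_insert_self _ _))
    have hfe : ∀ b ∈ Bd q, (S.filter (fun j => j % q = b)) =
        (Ioc a (a + L)).filter (fun j => j ≡ cb b [MOD t * q] ∧ (∀ l ∈ T, j % l ∈ Bd l) ∧
          ∀ p ∈ P, ¬ p ∣ j) := by
      intro b hb
      have hbq : b < q := mem_range.mp (hqB hb)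
      ext j
      rw [hS, mem_filter, mem_filter, mem_filter]
      constructor
      · rintro ⟨⟨h1, h2, h3, h4⟩, h5⟩
        refine ⟨h1, ?_, fun l hl => h3 l (mem_insert_of_mem hl), h4⟩
        rw [← Nat.modEq_and_modEq_iff_modEq_mul htq]
        refine ⟨h2.trans (hcb1 b).symm, ?_⟩
        have h6 : j ≡ b [MOD q] := by
          unfold Nat.ModEq
          rw [h5, Nat.mod_eq_of_lt hbq]
        exact h6.trans (hcb2 b).symm
      · rintro ⟨h1, h2, h3, h4⟩
        rw [← Nat.modEq_and_modEq_iff_modEq_mul htq] at h2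
        have h6 : j ≡ b [MOD q] := h2.2.trans (hcb2 b)
        have h7 : j % q = b := by
          unfold Nat.ModEq at h6
          rw [Nat.mod_eq_of_lt hbq] at h6
          exact h6
        refine ⟨⟨h1, h2.1.trans (hcb1 b), ?_, h4⟩, h7⟩
        intro l hl
        rcases mem_insert.mp hl with h | h
        · rw [h, h7]; exact hb
        · exact h3 l h
    have hcard : (S.card : ℝ) = ∑ b ∈ Bd q, (((Ioc a (a + L)).filter
        (fun j => j ≡ cb b [MOD t * q] ∧ (∀ l ∈ T, j % l ∈ Bd l) ∧ ∀ p ∈ P, ¬ p ∣ j)).card : ℝ) := by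
      rw [hfib]
      push_cast
      apply sum_congr rfl
      intro b hb
      rw [hfe b hb]
    rw [hcard, prod_insert hq, prod_insert hq]
    set Q := ∏ p ∈ P, (1 - 1 / (p : ℝ))
    set R := ∏ l ∈ T, (((Bd l).card : ℝ) / l)
    set R' := ∏ l ∈ T, ((Bd l).card : ℝ)
    have hq0 : (q : ℝ) ≠ 0 := by exact_mod_cast hqp.ne_zero
    have ht0 : (t : ℝ) ≠ 0 := by exact_mod_cast ht.ne'
    have e : (L : ℝ) / t * (((Bd q).card : ℝ) / q * R) * Q =
        ∑ b ∈ Bd q, (L : ℝ) / ((t * q : ℕ) : ℝ) * R * Q := by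
      rw [sum_const, nsmul_eq_mul]
      push_cast
      field_simp
    rw [e, ← sum_sub_distrib]
    refine (abs_sum_le_sum_abs _ _).trans ?_
    have hle : ∀ b ∈ Bd q, |(((Ioc a (a + L)).filter
        (fun j => j ≡ cb b [MOD t * q] ∧ (∀ l ∈ T, j % l ∈ Bd l) ∧ ∀ p ∈ P, ¬ p ∣ j)).card : ℝ) -
        (L : ℝ) / ((t * q : ℕ) : ℝ) * R * Q| ≤ R' * 2 ^ P.card := by
      intro b _
      exact ih hT' (t * q) (cb b) (Nat.mul_pos ht hqp.pos) hcP hcT
    refine (sum_le_sum hle).trans (le_of_eq ?_)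
    rw [sum_const, nsmul_eq_mul]
    ring

/-! ### The classes -/

/-- the nonzero roots of two, for `l ≤ w` -/
def avgR_R (w l : ℕ) : Finset ℕ :=
  (range l).filter (fun c => c ≠ 0 ∧ l ≤ w ∧ (c ^ 2) % l = 2 % l)

theorem avgR_sT (w l : ℕ) : sT w l = ((avgR_R w l).card : ℝ) := rfl

theorem avgR_R_le (w l : ℕ) (hl : l.Prime) : (avgR_R w l).card ≤ 2 := by
  have hsub : avgR_R w l ⊆ densR l := by
    intro c hc
    unfold avgR_R at hc
    unfold densR
    rw [mem_filter] at hc ⊢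
    exact ⟨hc.1, hc.2.1, hc.2.2.2⟩
  exact (card_le_card hsub).trans (dens_R_card l hl)

/-- the bad classes of `n'` -/
def avgR_Bd (w m l : ℕ) : Finset ℕ := (insert 0 (avgR_R w l)).image (fun c => (m * c) % l)

theorem avgR_Bd_sub (w m l : ℕ) (hl : l.Prime) : avgR_Bd w m l ⊆ range l := by
  intro b hb
  unfold avgR_Bd at hb
  rw [mem_image] at hb
  obtain ⟨c, -, h⟩ := hb
  rw [mem_range, ← h]
  exact Nat.mod_lt _ hl.pos

theorem avgR_zero (w l : ℕ) : 0 ∉ avgR_R w l := by
  unfold avgR_R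
  rw [mem_filter]
  rintro ⟨-, h, -⟩
  exact h rfl

theorem avgR_Bd_card (w m l : ℕ) (hl : l.Prime) (hm : ¬ l ∣ m) :
    (avgR_Bd w m l).card = (avgR_R w l).card + 1 := by
  unfold avgR_Bd
  rw [card_image_of_injOn, card_insert_of_notMem (avgR_zero w l)]
  intro c hc c' hc' h
  have hlt : ∀ x ∈ insert 0 (avgR_R w l), x < l := by
    intro x hx
    rcases mem_insert.mp hx with h | h
    · rw [h]; exact hl.pos
    · unfold avgR_R at h
      rw [mem_filter, mem_range] at h
      exact h.1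
  obtain ⟨a, -, ha⟩ := dens_exists_a m (m * c) l hl hm
  have h1 := (ha c (hlt c hc)).mp rfl
  have h2 := (ha c' (hlt c' hc')).mp h.symm
  rw [h1, h2]

theorem avgR_dvd (w m n' l : ℕ) (hl : l.Prime) (hm : l ∣ m) (_hmw : l ≤ w) (hc : n'.Coprime m) :
    (OmB w m n' l).card = (avgR_R w l).card := by
  have hn : ∀ c : ℕ, (m * c) % l ≠ n' % l := by
    intro c h
    rw [Nat.mod_eq_zero_of_dvd (hm.mul_right c)] at h
    have h1 : l ∣ n' := Nat.dvd_of_mod_eq_zero h.symm
    have h2 := Nat.dvd_gcd h1 hm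
    rw [hc] at h2
    exact hl.one_lt.ne' (Nat.dvd_one.1 h2)
  congr 1
  ext c
  unfold OmB avgR_R
  rw [mem_filter, mem_filter]
  constructor
  · rintro ⟨h1, h2, h3⟩
    exact ⟨h1, h2, h3.resolve_right (hn c)⟩
  · rintro ⟨h1, h2, h3⟩
    exact ⟨h1, h2, Or.inl h3⟩

theorem avgR_ndvd (w m n' l : ℕ) (hl : l.Prime) (hm : ¬ l ∣ m) :
    ((OmB w m n' l).card : ℝ) =
      (1 + sT w l) - (if n' % l ∈ avgR_Bd w m l then (1 : ℝ) else 0) := by
  obtain ⟨a, hal, ha⟩ := dens_exists_a m n' l hl hm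
  have hbad : n' % l ∈ avgR_Bd w m l ↔ a ∈ insert 0 (avgR_R w l) := by
    unfold avgR_Bd
    rw [mem_image]
    constructor
    · rintro ⟨c, hc, h⟩
      have hcl : c < l := by
        rcases mem_insert.mp hc with h | h
        · rw [h]; exact hl.pos
        · unfold avgR_R at h
          rw [mem_filter, mem_range] at h
          exact h.1
      have := (ha c hcl).mp h
      rw [← this]; exact hc
    · intro h
      exact ⟨a, h, (ha a hal).mpr rfl⟩
  by_cases hb : a ∈ insert 0 (avgR_R w l)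
  · rw [if_pos (hbad.mpr hb)]
    have h1 : OmB w m n' l = avgR_R w l := by
      ext c
      unfold OmB
      constructor
      · intro h
        rw [mem_filter, mem_range] at h
        obtain ⟨h1, h2, h3⟩ := h
        rcases h3 with h3 | h3
        · unfold avgR_R
          rw [mem_filter, mem_range]
          exact ⟨h1, h2, h3⟩
        · have h4 := (ha c h1).mp h3
          rw [← h4] at hb
          exact (mem_insert.mp hb).resolve_left h2
      · intro h
        unfold avgR_R at h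
        rw [mem_filter, mem_range] at h
        rw [mem_filter, mem_range]
        exact ⟨h.1, h.2.1, Or.inl h.2.2⟩
    rw [h1, avgR_sT]
    ring
  · rw [if_neg (fun h => hb (hbad.mp h))]
    have ha0 : a ≠ 0 := by
      intro h
      apply hb
      rw [h]
      exact mem_insert_self _ _
    have haR : a ∉ avgR_R w l := fun h => hb (mem_insert_of_mem h)
    have h1 : OmB w m n' l = insert a (avgR_R w l) := by
      ext c
      unfold OmB
      rw [mem_insert]
      constructor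
      · intro h
        rw [mem_filter, mem_range] at h
        obtain ⟨h1, h2, h3⟩ := h
        rcases h3 with h3 | h3
        · right
          unfold avgR_R
          rw [mem_filter, mem_range]
          exact ⟨h1, h2, h3⟩
        · left
          exact (ha c h1).mp h3
      · intro h
        rw [mem_filter, mem_range]
        rcases h with h | h
        · rw [h]
          exact ⟨hal, ha0, Or.inr ((ha a hal).mpr rfl)⟩
        · unfold avgR_R at h
          rw [mem_filter, mem_range] at h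
          exact ⟨h.1, h.2.1, Or.inl h.2.2⟩
    rw [h1, card_insert_of_notMem haR, avgR_sT]
    push_cast
    ring

/-! ### The sum -/

theorem avgR_cop (m j : ℕ) (hm : 1 ≤ m) : (∀ p ∈ m.primeFactors, ¬ p ∣ j) ↔ j.Coprime m := by
  constructor
  · intro h
    apply Nat.coprime_of_dvd
    intro k hk hkj hkm
    exact h k (Nat.mem_primeFactors.mpr ⟨hk, hkm, by omega⟩) hkj
  · intro h p hp hpj
    rw [Nat.mem_primeFactors] at hp
    have h1 := Nat.dvd_gcd hpj hp.2.1
    rw [h] at h1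
    exact hp.1.one_lt.ne' (Nat.dvd_one.1 h1)

/-- change of variable -/
theorem avgR_sum (m n : ℕ) (hm : 1 ≤ m) (hmn : m ≤ n) (F : ℕ → ℝ) :
    ∑ r ∈ (range m).filter (fun r => (n - r).Coprime m), F (n - r) =
      ∑ j ∈ (Ioc (n - m) (n - m + m)).filter (fun j => ∀ p ∈ m.primeFactors, ¬ p ∣ j), F j := by
  refine sum_nbij' (fun r => n - r) (fun j => n - j) ?_ ?_ ?_ ?_ ?_
  · intro r hr
    rw [mem_filter, mem_range] at hr
    rw [mem_filter, mem_Ioc]
    refine ⟨⟨by omega, by omega⟩, ?_⟩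
    rw [avgR_cop m _ hm]
    exact hr.2
  · intro j hj
    rw [mem_filter, mem_Ioc] at hj
    rw [mem_filter, mem_range]
    refine ⟨by omega, ?_⟩
    rw [show n - (n - j) = j by omega, ← avgR_cop m _ hm]
    exact hj.2
  · intro r hr
    rw [mem_filter, mem_range] at hr
    omega
  · intro j hj
    rw [mem_filter, mem_Ioc] at hj
    omega
  · intro r _
    rfl

theorem avgR_tot (m : ℕ) :
    ((m.totient : ℕ) : ℝ) = (m : ℝ) * ∏ p ∈ m.primeFactors, (1 - 1 / (p : ℝ)) := by
  have h2 := Nat.totient_eq_mul_prod_factors m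
  have h3 : ((m.totient : ℚ) : ℝ) = ((m * ∏ p ∈ m.primeFactors, (1 - (p : ℚ)⁻¹) : ℚ) : ℝ) := by
    rw [h2]
  push_cast at h3
  rw [h3]
  congr 1
  refine prod_congr rfl fun p _ => ?_
  rw [one_div]

/-- keep this signature -/
theorem thm_AvgR : St_AvgR := by
  classical
  refine ⟨6, ?_⟩
  intro w m n d hm hmw hmn hd
  set U := d.primeFactors with hU
  set U1 := U.filter (fun l => l ∣ m) with hU1
  set U2 := U.filter (fun l => ¬ l ∣ m) with hU2
  set A : ℝ := ∏ l ∈ U1, sT w l with hA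
  have hprime : ∀ l ∈ U, l.Prime := fun l hl => Nat.prime_of_mem_primeFactors hl
  have hsplitprod : ∀ f : ℕ → ℝ, ∏ l ∈ U, f l = (∏ l ∈ U1, f l) * ∏ l ∈ U2, f l := by
    intro f
    rw [hU1, hU2, prod_filter_mul_prod_filter_not]
  have hs0 : ∀ l, 0 ≤ sT w l := fun l => by rw [avgR_sT]; exact Nat.cast_nonneg _
  have hs2 : ∀ l ∈ U, sT w l ≤ 2 := by
    intro l hl
    rw [avgR_sT]
    exact_mod_cast avgR_R_le w l (hprime l hl)
  have hA0 : 0 ≤ A := prod_nonneg fun l _ => hs0 l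
  -- the product for one class
  have hF : ∀ n' : ℕ, n'.Coprime m → ∏ l ∈ U, ((OmB w m n' l).card : ℝ) =
      A * ∑ T ∈ U2.powerset, ((-1) ^ T.card * ∏ l ∈ U2 \ T, (1 + sT w l)) *
        (if ∀ l ∈ T, n' % l ∈ avgR_Bd w m l then (1 : ℝ) else 0) := by
    intro n' hn'
    rw [hsplitprod]
    have h1 : ∏ l ∈ U1, ((OmB w m n' l).card : ℝ) = A := by
      apply prod_congr rfl
      intro l hl
      rw [hU1, mem_filter] at hl
      have hlm := Nat.le_of_dvd (by omega) hl.2
      rw [avgR_dvd w m n' l (hprime l hl.1) hl.2 (by omega) hn', avgR_sT]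
    have h2 : ∏ l ∈ U2, ((OmB w m n' l).card : ℝ) =
        ∏ l ∈ U2, ((1 + sT w l) - (if n' % l ∈ avgR_Bd w m l then (1 : ℝ) else 0)) := by
      apply prod_congr rfl
      intro l hl
      rw [hU2, mem_filter] at hl
      exact avgR_ndvd w m n' l (hprime l hl.1) hl.2
    rw [h1, h2, prod_sub]
    congr 1
    apply sum_congr rfl
    intro T _
    congr 1
    rw [prod_ite_zero]
    simp
  have hLHS : ∑ r ∈ (range m).filter (fun r => (n - r).Coprime m),
      ∏ l ∈ U, ((OmB w m (n - r) l).card : ℝ) =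
      A * ∑ T ∈ U2.powerset, ((-1) ^ T.card * ∏ l ∈ U2 \ T, (1 + sT w l)) *
        (((Ioc (n - m) (n - m + m)).filter (fun j => j ≡ 0 [MOD 1] ∧
          (∀ l ∈ T, j % l ∈ avgR_Bd w m l) ∧ ∀ p ∈ m.primeFactors, ¬ p ∣ j)).card : ℝ) := by
    rw [avgR_sum m n hm hmn (fun j => ∏ l ∈ U, ((OmB w m j l).card : ℝ))]
    have h1 : ∀ j ∈ (Ioc (n - m) (n - m + m)).filter (fun j => ∀ p ∈ m.primeFactors, ¬ p ∣ j),
        ∏ l ∈ U, ((OmB w m j l).card : ℝ) =
        A * ∑ T ∈ U2.powerset, ((-1) ^ T.card * ∏ l ∈ U2 \ T, (1 + sT w l)) *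
        (if ∀ l ∈ T, j % l ∈ avgR_Bd w m l then (1 : ℝ) else 0) := by
      intro j hj
      rw [mem_filter] at hj
      exact hF j ((avgR_cop m j hm).mp hj.2)
    rw [sum_congr rfl h1, ← mul_sum, sum_comm]
    congr 1
    apply sum_congr rfl
    intro T _
    rw [← mul_sum]
    congr 1
    rw [sum_boole, filter_filter]
    congr 2
    ext j
    rw [mem_filter, mem_filter]
    constructor
    · rintro ⟨h1, h2, h3⟩
      exact ⟨h1, Nat.modEq_one, h3, h2⟩
    · rintro ⟨h1, -, h3, h2⟩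
      exact ⟨h1, h2, h3⟩
  have hMain : (m.totient : ℝ) * ∏ l ∈ U, (((l : ℝ) - 1) * gBT w m l) =
      A * ∑ T ∈ U2.powerset, ((-1) ^ T.card * ∏ l ∈ U2 \ T, (1 + sT w l)) *
        ((m.totient : ℝ) * ∏ l ∈ T, ((1 + sT w l) / l)) := by
    rw [hsplitprod]
    have h1 : ∏ l ∈ U1, (((l : ℝ) - 1) * gBT w m l) = A := by
      apply prod_congr rfl
      intro l hl
      rw [hU1, mem_filter] at hl
      have hl2 : (2 : ℝ) ≤ l := by exact_mod_cast (hprime l hl.1).two_le
      have hl1 : (l : ℝ) - 1 ≠ 0 := by linarith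
      unfold gBT
      rw [if_pos hl.2]
      field_simp
    have h2 : ∏ l ∈ U2, (((l : ℝ) - 1) * gBT w m l) =
        ∏ l ∈ U2, ((1 + sT w l) - (1 + sT w l) / l) := by
      apply prod_congr rfl
      intro l hl
      rw [hU2, mem_filter] at hl
      have hl2 : (2 : ℝ) ≤ l := by exact_mod_cast (hprime l hl.1).two_le
      have hl0 : (l : ℝ) ≠ 0 := by linarith
      unfold gBT
      rw [if_neg hl.2]
      field_simp
    rw [h1, h2, prod_sub]
    rw [mul_left_comm]
    congr 1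
    rw [mul_sum]
    apply sum_congr rfl
    intro T _
    ring
  rw [hLHS, hMain, ← mul_sub, ← sum_sub_distrib, abs_mul, abs_of_nonneg hA0]
  set W : ℝ := 2 ^ m.primeFactors.card with hW
  have hterm : ∀ T ∈ U2.powerset,
      |((-1) ^ T.card * ∏ l ∈ U2 \ T, (1 + sT w l)) *
        (((Ioc (n - m) (n - m + m)).filter (fun j => j ≡ 0 [MOD 1] ∧
          (∀ l ∈ T, j % l ∈ avgR_Bd w m l) ∧ ∀ p ∈ m.primeFactors, ¬ p ∣ j)).card : ℝ) -
        ((-1) ^ T.card * ∏ l ∈ U2 \ T, (1 + sT w l)) *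
        ((m.totient : ℝ) * ∏ l ∈ T, ((1 + sT w l) / l))| ≤
      (∏ l ∈ U2, (1 + sT w l)) * W := by
    intro T hT
    rw [mem_powerset] at hT
    rw [← mul_sub, abs_mul, abs_mul, abs_pow, abs_neg, abs_one, one_pow, one_mul]
    have hp0 : 0 ≤ ∏ l ∈ U2 \ T, (1 + sT w l) := prod_nonneg fun l _ => by
      have := hs0 l
      linarith
    rw [abs_of_nonneg hp0]
    have hTl : ∀ l ∈ T, l.Prime ∧ ¬ l ∣ m := by
      intro l hl
      have h1 := hT hl
      rw [hU2, mem_filter] at h1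
      exact ⟨hprime l h1.1, h1.2⟩
    have hcnt := avgR_T (n - m) m m.primeFactors
      (fun p hp => Nat.prime_of_mem_primeFactors hp) (avgR_Bd w m) T (by
        intro l hl
        refine ⟨(hTl l hl).1, ?_, avgR_Bd_sub w m l (hTl l hl).1⟩
        intro h
        exact (hTl l hl).2 (Nat.dvd_of_mem_primeFactors h)) 1 0 one_pos
      (fun p _ => Nat.coprime_one_left p) (fun l _ => Nat.coprime_one_left l)
    have hc1 : ∏ l ∈ T, (((avgR_Bd w m l).card : ℝ) / l) = ∏ l ∈ T, ((1 + sT w l) / l) := by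
      apply prod_congr rfl
      intro l hl
      rw [avgR_Bd_card w m l (hTl l hl).1 (hTl l hl).2, avgR_sT]
      push_cast
      ring
    have hc2 : ∏ l ∈ T, ((avgR_Bd w m l).card : ℝ) = ∏ l ∈ T, (1 + sT w l) := by
      apply prod_congr rfl
      intro l hl
      rw [avgR_Bd_card w m l (hTl l hl).1 (hTl l hl).2, avgR_sT]
      push_cast
      ring
    rw [hc1, hc2, Nat.cast_one, div_one, mul_right_comm, ← avgR_tot m] at hcnt
    calc _ ≤ (∏ l ∈ U2 \ T, (1 + sT w l)) * ((∏ l ∈ T, (1 + sT w l)) * W) :=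
          mul_le_mul_of_nonneg_left hcnt hp0
      _ = (∏ l ∈ U2, (1 + sT w l)) * W := by
          rw [← mul_assoc, prod_sdiff hT]
  have hsum : |∑ T ∈ U2.powerset, (((-1) ^ T.card * ∏ l ∈ U2 \ T, (1 + sT w l)) *
        (((Ioc (n - m) (n - m + m)).filter (fun j => j ≡ 0 [MOD 1] ∧
          (∀ l ∈ T, j % l ∈ avgR_Bd w m l) ∧ ∀ p ∈ m.primeFactors, ¬ p ∣ j)).card : ℝ) -
        ((-1) ^ T.card * ∏ l ∈ U2 \ T, (1 + sT w l)) *
        ((m.totient : ℝ) * ∏ l ∈ T, ((1 + sT w l) / l)))| ≤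
      2 ^ U2.card * ((∏ l ∈ U2, (1 + sT w l)) * W) := by
    refine (abs_sum_le_sum_abs _ _).trans ((sum_le_sum hterm).trans (le_of_eq ?_))
    rw [sum_const, card_powerset, nsmul_eq_mul]
    push_cast
    ring
  have hW0 : 0 ≤ W := by rw [hW]; positivity
  have hA2 : A ≤ 2 ^ U1.card := by
    rw [hA, ← prod_const]
    apply prod_le_prod (fun l _ => hs0 l)
    intro l hl
    rw [hU1, mem_filter] at hl
    exact hs2 l hl.1
  have hP3 : ∏ l ∈ U2, (1 + sT w l) ≤ 3 ^ U2.card := by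
    rw [← prod_const]
    apply prod_le_prod (fun l _ => by have := hs0 l; linarith)
    intro l hl
    rw [hU2, mem_filter] at hl
    have := hs2 l hl.1
    linarith
  have hcardU : U1.card + U2.card = U.card := by
    rw [hU1, hU2]
    exact card_filter_add_card_filter_not _
  have h26 : (2 : ℝ) ^ U1.card ≤ 6 ^ U1.card := pow_le_pow_left₀ (by norm_num) (by norm_num) _
  calc A * _ ≤ A * (2 ^ U2.card * ((∏ l ∈ U2, (1 + sT w l)) * W)) :=
        mul_le_mul_of_nonneg_left hsum hA0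
    _ ≤ 2 ^ U1.card * (2 ^ U2.card * (3 ^ U2.card * W)) := by
        have hq0 : 0 ≤ ∏ l ∈ U2, (1 + sT w l) := prod_nonneg fun l _ => by
          have := hs0 l
          linarith
        have hq1 : 0 ≤ (2 : ℝ) ^ U2.card * ((∏ l ∈ U2, (1 + sT w l)) * W) := by positivity
        gcongr
    _ = 2 ^ U1.card * (6 ^ U2.card * W) := by
        rw [show (6 : ℝ) = 2 * 3 by norm_num, mul_pow]
        ring
    _ ≤ 6 ^ U1.card * (6 ^ U2.card * W) := by
        gcongr
    _ = ((6 : ℕ) : ℝ) ^ U.card * W := by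
        rw [← hcardU, pow_add]
        push_cast
        ring

end Pool.Agent.CU
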