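import Mathlib
import Pool.Agent.CU.Stmts
import Pool.Agent.CH.Dens

set_option autoImplicit false

/-!
# CU / DensT

The local densities of the tiles.
-/

namespace Pool.Agent.CU

open Finset Filter Pool.Agent.MT Pool.Agent.CH

/-- the nonzero roots of two, for `l ≤ w` -/
def densT_R (w l : ℕ) : Finset ℕ :=
  (range l).filter (fun c => c ≠ 0 ∧ l ≤ w ∧ (c ^ 2) % l = 2 % l)

theorem densT_R_sub (w l : ℕ) : densT_R w l ⊆ densR l := by
  intro c hc
  unfold densT_R at hc
  unfold densR
  rw [mem_filter] at hc ⊢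
  exact ⟨hc.1, hc.2.1, hc.2.2.2⟩

theorem densT_sT (w l : ℕ) : sT w l = ((densT_R w l).card : ℝ) := rfl

theorem densT_card (w l : ℕ) (hl : l.Prime) : (OmT w l).card = (densT_R w l).card + 1 := by
  have h : OmT w l = insert 0 (densT_R w l) := by
    ext c
    unfold OmT densT_R
    rw [mem_insert, mem_filter, mem_filter, mem_range]
    constructor
    · rintro ⟨h1, h2⟩
      by_cases h0 : c = 0
      · exact Or.inl h0
      · refine Or.inr ⟨h1, h0, ?_⟩
        exact h2.resolve_left h0
    · rintro (h | ⟨h1, h2, h3⟩)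
      · subst h
        exact ⟨hl.pos, Or.inl rfl⟩
      · exact ⟨h1, Or.inr h3⟩
  have h0 : 0 ∉ densT_R w l := by
    unfold densT_R
    rw [mem_filter]
    rintro ⟨-, h, -⟩
    exact h rfl
  rw [h, card_insert_of_notMem h0]

theorem densT_le (w l : ℕ) (hl : l.Prime) : (densT_R w l).card ≤ 2 :=
  (card_le_card (densT_R_sub w l)).trans (dens_R_card l hl)

theorem densT_small (w l : ℕ) (hl : l.Prime) (h7 : l < 7) : (densT_R w l).card = 0 := by
  have h := card_le_card (densT_R_sub w l)
  rw [dens_R_small l hl h7, card_empty] at h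
  omega

theorem densT_large (w l : ℕ) (hw : w < l) : (densT_R w l).card = 0 := by
  rw [card_eq_zero]
  unfold densT_R
  rw [filter_eq_empty_iff]
  intro c _ h
  omega

theorem densT_gT (w l : ℕ) (hl : l.Prime) : gT w l = (1 + sT w l) / l := by
  unfold gT
  rw [densT_card w l hl, densT_sT]
  push_cast
  ring

/-- bounds for the number of roots -/
theorem densT_bounds (w l : ℕ) (hl : l.Prime) :
    0 ≤ (1 + sT w l) / (l : ℝ) ∧ (1 + sT w l) / (l : ℝ) ≤ 1 / 2 ∧
      (1 + sT w l) / (l : ℝ) ≤ 4 / (l : ℝ) ∧ 0 ≤ sT w l / ((l : ℝ) - 1) ∧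
      sT w l / ((l : ℝ) - 1) ≤ 1 / 2 ∧ sT w l / ((l : ℝ) - 1) ≤ 4 / (l : ℝ) ∧
      (w < l → sT w l = 0) := by
  have hl2 : (2 : ℝ) ≤ l := by exact_mod_cast hl.two_le
  have hl0 : (0 : ℝ) < l := by linarith
  have hl1 : (0 : ℝ) < (l : ℝ) - 1 := by linarith
  have h0 : (0 : ℝ) ≤ sT w l := by rw [densT_sT]; exact Nat.cast_nonneg _
  have h2 : sT w l ≤ 2 := by
    rw [densT_sT]; exact_mod_cast densT_le w l hl
  have h7 : l < 7 → sT w l = 0 := by
    intro h
    rw [densT_sT, densT_small w l hl h]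
    push_cast
    rfl
  have h7' : (7 : ℝ) ≤ l ∨ sT w l = 0 := by
    by_cases h : l < 7
    · exact Or.inr (h7 h)
    · left
      exact_mod_cast (by omega)
  refine ⟨by positivity, ?_, ?_, by positivity, ?_, ?_, ?_⟩
  · rw [div_le_div_iff₀ hl0 (by norm_num)]
    rcases h7' with h | h
    · linarith
    · rw [h]; linarith
  · gcongr
    linarith
  · rw [div_le_div_iff₀ hl1 (by norm_num)]
    rcases h7' with h | h
    · linarith
    · rw [h]; linarith
  · rw [div_le_div_iff₀ hl1 hl0]
    rcases h7' with h | h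
    · nlinarith
    · rw [h]; linarith
  · intro hw
    rw [densT_sT, densT_large w l hw]
    push_cast
    rfl

/-- keep this signature -/
theorem thm_DensT : St_DensT := by
  refine ⟨?_, ?_, ?_, ?_⟩
  · intro w l hl
    obtain ⟨h1, h2, h3, -, -, -, h4⟩ := densT_bounds w l hl
    refine ⟨?_, ?_, ?_, ?_, ?_⟩
    · rw [densT_card w l hl]
      have := densT_le w l hl
      omega
    · rw [densT_gT w l hl]; exact h1
    · rw [densT_gT w l hl]; exact h2
    · rw [densT_gT w l hl]; exact h3
    · intro hw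
      rw [densT_gT w l hl, h4 hw, add_zero]
  · intro w m l hl
    obtain ⟨h1, h2, h3, h5, h6, h7, h4⟩ := densT_bounds w l hl
    by_cases hd : l ∣ m
    · have hg : gBT w m l = sT w l / ((l : ℝ) - 1) := by unfold gBT; rw [if_pos hd]
      rw [hg]
      exact ⟨h5, h6, h7, fun _ h => absurd hd h⟩
    · have hg : gBT w m l = (1 + sT w l) / l := by unfold gBT; rw [if_neg hd]
      rw [hg]
      refine ⟨h1, h2, h3, fun hw _ => ?_⟩
      rw [h4 hw, add_zero]
  · intro w m n' l hl hc
    have hR := dens_R_card l hl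
    by_cases hd : l ∣ m
    · have h := card_le_card (dens_dvd w m n' l hl hd hc).2
      omega
    · have h := (dens_ndvd w m n' l hl hd).2.1
      omega
  · intro w m z hm hmw hwz
    unfold VV
    have hfac : ∀ l ∈ pr z, 1 - gT w l =
        (if l ∣ m then (1 - (l : ℝ)⁻¹) else 1) * (1 - gBT w m l) := by
      intro l hl
      unfold pr at hl
      rw [mem_filter] at hl
      have hlp := hl.2
      have hl2 : (2 : ℝ) ≤ l := by exact_mod_cast hlp.two_le
      have hl0 : (l : ℝ) ≠ 0 := by linarith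
      have hl1 : (l : ℝ) - 1 ≠ 0 := by linarith
      rw [densT_gT w l hlp]
      unfold gBT
      by_cases hd : l ∣ m
      · rw [if_pos hd, if_pos hd]
        field_simp
        ring
      · rw [if_neg hd, if_neg hd, one_mul]
    rw [prod_congr rfl hfac, prod_mul_distrib]
    congr 1
    have h1 : ∏ l ∈ pr z, (if l ∣ m then (1 - (l : ℝ)⁻¹) else 1) =
        ∏ l ∈ m.primeFactors, (1 - (l : ℝ)⁻¹) := by
      rw [← prod_filter]
      apply prod_congr _ (fun _ _ => rfl)
      ext l
      unfold pr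
      rw [mem_filter, mem_filter, mem_range, Nat.mem_primeFactors]
      constructor
      · rintro ⟨⟨-, h⟩, h'⟩
        exact ⟨h, h', by omega⟩
      · rintro ⟨h, h', -⟩
        have := Nat.le_of_dvd (by omega) h'
        exact ⟨⟨by omega, h⟩, h'⟩
    rw [h1]
    have h2 := Nat.totient_eq_mul_prod_factors m
    have h3 : ((m.totient : ℚ) : ℝ) = ((m * ∏ p ∈ m.primeFactors, (1 - (p : ℚ)⁻¹) : ℚ) : ℝ) := by
      rw [h2]
    push_cast at h3
    have hm0 : (m : ℝ) ≠ 0 := by
      have : (1 : ℝ) ≤ m := by exact_mod_cast hm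
      linarith
    rw [h3]
    field_simp

end Pool.Agent.CU
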