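import Mathlib
import Pool.Agent.CU.Stmts
import Pool.Agent.CH.Fin
import Pool.Agent.MT.Wt

set_option autoImplicit false

/-!
# CU / Fin4

Four prime factors for all `m` with `(log n)^B ≤ m ≤ n / (log n)^B`: the weighted sum over the
tiles is positive after removal of the proper prime powers and of the `q` with a square factor.
-/

namespace Pool.Agent.CU

open Finset Filter Pool.Agent.MT Pool.Agent.CH

/-- the weight -/
noncomputable def fin4_W (y N q : ℕ) : ℝ :=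
  1 - 5 / 4 * ∑ p ∈ (pr y).filter (fun p => p ∣ q), (1 - 21 / 5 * (Real.log p / Real.log N))

/-- double counting with weights -/
theorem fin4_double {N : ℕ} (A : ℕ → Prop) [DecidablePred A] (P : Finset ℕ) (g f : ℕ → ℝ) :
    ∑ p ∈ P, g p * ∑ q ∈ (range (N + 1)).filter (fun q => A q ∧ p ∣ q), f q =
      ∑ q ∈ (range (N + 1)).filter A, f q * ∑ p ∈ P.filter (fun p => p ∣ q), g p := by
  have h1 : ∀ p ∈ P, g p * ∑ q ∈ (range (N + 1)).filter (fun q => A q ∧ p ∣ q), f q =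
      ∑ q ∈ (range (N + 1)).filter A, if p ∣ q then g p * f q else 0 := by
    intro p _
    rw [← filter_filter, sum_filter, mul_sum]
    apply sum_congr rfl
    intro q _
    split_ifs <;> ring
  rw [sum_congr rfl h1, sum_comm]
  apply sum_congr rfl
  intro q _
  rw [← sum_filter, mul_sum]
  apply sum_congr rfl
  intro p _
  ring

theorem fin4_OmT {w z q : ℕ} (hA : ∀ l ∈ pr z, q % l ∉ OmT w l) : ∀ l ∈ pr z, ¬ l ∣ q := by
  intro l hl hd
  obtain ⟨hl1, hl2⟩ := fin_mem_pr.1 hl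
  apply hA l hl
  unfold OmT
  rw [mem_filter, mem_range]
  exact ⟨Nat.mod_lt _ hl2.pos, Or.inl (Nat.mod_eq_zero_of_dvd hd)⟩

theorem fin4_OmT2 {w z q : ℕ} (hwz : w ≤ z) (hq : 2 ≤ q) (hA : ∀ l ∈ pr z, q % l ∉ OmT w l) :
    ∀ l ∈ pr w, ¬ l ∣ q ^ 2 - 2 := by
  intro l hl hd
  obtain ⟨hl1, hl2⟩ := fin_mem_pr.1 hl
  apply hA l (fin_mem_pr.2 ⟨hl1.trans hwz, hl2⟩)
  unfold OmT
  rw [mem_filter, mem_range]
  have h4 : 2 ≤ q ^ 2 := by nlinarith
  refine ⟨Nat.mod_lt _ hl2.pos, Or.inr ⟨hl1, ?_⟩⟩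
  rw [← Nat.pow_mod]
  exact ((Nat.modEq_iff_dvd' h4).2 hd).symm

/-- pairs `(q, r)` such that `x = n - m q - r` is a proper prime power -/
noncomputable def fin4_bad (N m n : ℕ) : Finset (ℕ × ℕ) :=
  ((range (N + 1)) ×ˢ (range m)).filter
    (fun a => lam (n - m * a.1 - a.2) ≠ 0 ∧ ¬ (n - m * a.1 - a.2).Prime)

theorem fin4_card_bad {N m n : ℕ} (hn1 : 1 ≤ n) :
    ((fin4_bad N m n).card : ℝ) ≤ 3 * (Real.sqrt n * Real.log n) := by
  refine le_trans ?_ (GBQ.bad_card_pp hn1)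
  norm_cast
  have hpos : ∀ x : ℕ, lam x ≠ 0 → 0 < x := by
    intro x hx
    rcases Nat.eq_zero_or_pos x with h | h
    · exfalso
      apply hx
      rw [h]
      simp [lam]
    · exact h
  apply card_le_card_of_injOn (fun a => n - m * a.1 - a.2)
  · intro a ha
    obtain ⟨ha1, ha2, ha3⟩ := mem_filter.1 ha
    unfold GBQ.badPP
    rw [mem_coe, mem_filter, mem_Ioc]
    exact ⟨⟨hpos _ ha2, (Nat.sub_le _ _).trans (Nat.sub_le _ _)⟩, ha3, ha2⟩
  · intro a ha b hb hab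
    obtain ⟨ha1, ha2, -⟩ := mem_filter.1 ha
    obtain ⟨hb1, hb2, -⟩ := mem_filter.1 hb
    rw [mem_product, mem_range, mem_range] at ha1 hb1
    have ha3 := hpos _ ha2
    have hb3 := hpos _ hb2
    have hab' : n - m * a.1 - a.2 = n - m * b.1 - b.2 := hab
    have h : m * a.1 + a.2 = m * b.1 + b.2 := by omega
    have hm : 0 < m := by omega
    have h1 : a.1 = b.1 := by
      have e1 : (m * a.1 + a.2) / m = a.1 := by
        rw [Nat.mul_add_div hm, Nat.div_eq_of_lt ha1.2, add_zero]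
      have e2 : (m * b.1 + b.2) / m = b.1 := by
        rw [Nat.mul_add_div hm, Nat.div_eq_of_lt hb1.2, add_zero]
      rw [← e1, ← e2, h]
    have h2 : a.2 = b.2 := by
      rw [h1] at h
      omega
    exact Prod.ext h1 h2

/-- the inequality if there is no good pair -/
theorem fin4_ineq {η : ℝ → ℝ} (hη : IsWt η) {N m n w z y : ℕ} (hn1 : 1 ≤ n)
    (hz : 1 ≤ z) (hw0 : ∀ p ∈ pr y, 0 ≤ 1 - 21 / 5 * (Real.log p / Real.log N))
    (hno : ∀ q ∈ range (N + 1), (∀ l ∈ pr z, q % l ∉ OmT w l) → η ((q : ℝ) / N) ≠ 0 →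
      (∀ p ∈ (pr y).filter (fun p => z < p), ¬ p ^ 2 ∣ q) → ∀ r < m, (n - m * q - r).Prime →
      fin4_W y N q ≤ 0) :
    SS η w z N m n - 5 / 4 * ∑ p ∈ (pr y).filter (fun p => z < p),
      (1 - 21 / 5 * (Real.log p / Real.log N)) * SSp η w z p N m n ≤
      Real.log n * (m * ((N : ℝ) / z)) + Real.log n * (3 * (Real.sqrt n * Real.log n)) := by
  have hL : 0 ≤ Real.log n := Real.log_natCast_nonneg n
  set Q := (range (N + 1)).filter (fun q => ∀ l ∈ pr z, q % l ∉ OmT w l) with hQ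
  set P := (pr y).filter (fun p => z < p) with hP
  set SQ := (Ioc 0 N).filter (fun q => ∃ p ∈ P, p ^ 2 ∣ q) with hSQ
  set g : ℕ → ℝ := fun p => 1 - 21 / 5 * (Real.log p / Real.log N) with hg
  have h1 : ∑ p ∈ P, g p * SSp η w z p N m n =
      ∑ q ∈ Q, tl η N m n q * ∑ p ∈ P.filter (fun p => p ∣ q), g p :=
    fin4_double (fun q => ∀ l ∈ pr z, q % l ∉ OmT w l) P g (fun q => tl η N m n q)
  have h2 : ∀ q ∈ Q, P.filter (fun p => p ∣ q) = (pr y).filter (fun p => p ∣ q) := by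
    intro q hq
    have h3 := fin4_OmT (mem_filter.1 hq).2
    rw [hP, filter_filter]
    apply filter_congr
    intro p hp
    constructor
    · rintro ⟨-, h5⟩
      exact h5
    · intro h5
      refine ⟨?_, h5⟩
      by_contra hcon
      exact h3 p (fin_mem_pr.2 ⟨by omega, (fin_mem_pr.1 hp).2⟩) h5
  have h3 : SS η w z N m n - 5 / 4 * ∑ p ∈ P, g p * SSp η w z p N m n =
      ∑ q ∈ Q, tl η N m n q * fin4_W y N q := by
    rw [h1]
    unfold SS
    rw [← hQ, mul_sum, ← sum_sub_distrib]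
    apply sum_congr rfl
    intro q hq
    rw [h2 q hq]
    unfold fin4_W
    ring
  rw [h3]
  have hlam0 : ∀ x : ℕ, 0 ≤ lam x := fin_lam_nonneg
  have hS0 : ∀ q, 0 ≤ ∑ r ∈ range m, lam (n - m * q - r) := fun q =>
    sum_nonneg fun r _ => hlam0 _
  have htl0 : ∀ q, 0 ≤ tl η N m n q := fun q => mul_nonneg (hη.nonneg _) (hS0 q)
  have htlS : ∀ q, tl η N m n q ≤ ∑ r ∈ range m, lam (n - m * q - r) := fun q => by
    have := mul_le_mul_of_nonneg_right (hη.le_one ((q : ℝ) / N)) (hS0 q)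
    rw [one_mul] at this
    exact this
  have hxn : ∀ q r : ℕ, n - m * q - r ≤ n := fun q r => (Nat.sub_le _ _).trans (Nat.sub_le _ _)
  have hSL : ∀ q, ∑ r ∈ range m, lam (n - m * q - r) ≤ m * Real.log n := fun q => by
    have h4 : ∑ r ∈ range m, lam (n - m * q - r) ≤ ∑ r ∈ range m, Real.log n :=
      sum_le_sum fun r _ => fin_lam_le (hxn q r)
    rw [sum_const, card_range, nsmul_eq_mul] at h4
    exact h4
  have hW1 : ∀ q, fin4_W y N q ≤ 1 := fun q => by
    unfold fin4_W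
    have : 0 ≤ ∑ p ∈ (pr y).filter (fun p => p ∣ q),
        (1 - 21 / 5 * (Real.log p / Real.log N)) :=
      sum_nonneg fun p hp => hw0 p (mem_filter.1 hp).1
    linarith
  have hterm : ∀ q ∈ Q, tl η N m n q * fin4_W y N q ≤
      m * Real.log n * (if q ∈ SQ then (1 : ℝ) else 0) + Real.log n *
        ∑ r ∈ range m, (if lam (n - m * q - r) ≠ 0 ∧ ¬ (n - m * q - r).Prime then (1 : ℝ)
          else 0) := by
    intro q hq
    obtain ⟨hq1, hq2⟩ := mem_filter.1 hq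
    have hr1 : 0 ≤ m * Real.log n * (if q ∈ SQ then (1 : ℝ) else 0) := by
      apply mul_nonneg (mul_nonneg (Nat.cast_nonneg _) hL)
      split_ifs <;> norm_num
    have hr2 : 0 ≤ Real.log n * ∑ r ∈ range m,
        (if lam (n - m * q - r) ≠ 0 ∧ ¬ (n - m * q - r).Prime then (1 : ℝ) else 0) := by
      apply mul_nonneg hL
      apply sum_nonneg
      intro r _
      split_ifs <;> norm_num
    have hfull : tl η N m n q * fin4_W y N q ≤ tl η N m n q := by
      have := mul_le_mul_of_nonneg_left (hW1 q) (htl0 q)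
      rw [mul_one] at this
      exact this
    by_cases hη0 : η ((q : ℝ) / N) = 0
    · have : tl η N m n q = 0 := by
        unfold tl
        rw [hη0, zero_mul]
      rw [this, zero_mul]
      linarith
    by_cases hs : q ∈ SQ
    · rw [if_pos hs, mul_one]
      have := (hfull.trans (htlS q)).trans (hSL q)
      linarith
    by_cases hWq : fin4_W y N q ≤ 0
    · have := mul_nonpos_of_nonneg_of_nonpos (htl0 q) hWq
      linarith
    have hqpos : 0 < q := by
      rcases Nat.eq_zero_or_pos q with h | h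
      · exfalso
        apply hη0
        rw [h]
        apply wt_zero_of_small η hη
        norm_num
      · exact h
    have hsq : ∀ p ∈ P, ¬ p ^ 2 ∣ q := by
      intro p hp hd
      apply hs
      rw [hSQ, mem_filter, mem_Ioc]
      exact ⟨⟨hqpos, Nat.lt_succ_iff.1 (mem_range.1 hq1)⟩, p, hp, hd⟩
    have hnp : ∀ r < m, ¬ (n - m * q - r).Prime := fun r hr hpr =>
      hWq (hno q hq1 hq2 hη0 hsq r hr hpr)
    have h5 : ∑ r ∈ range m, lam (n - m * q - r) ≤ Real.log n *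
        ∑ r ∈ range m, (if lam (n - m * q - r) ≠ 0 ∧ ¬ (n - m * q - r).Prime then (1 : ℝ)
          else 0) := by
      rw [mul_sum]
      apply sum_le_sum
      intro r hr
      by_cases h6 : lam (n - m * q - r) = 0
      · rw [h6]
        apply mul_nonneg hL
        split_ifs <;> norm_num
      · rw [if_pos ⟨h6, hnp r (mem_range.1 hr)⟩, mul_one]
        exact fin_lam_le (hxn q r)
    have := (hfull.trans (htlS q)).trans h5
    linarith
  have hsum := sum_le_sum hterm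
  rw [sum_add_distrib, ← mul_sum, ← mul_sum] at hsum
  refine hsum.trans (add_le_add ?_ ?_)
  · have hsumSQ : ∑ q ∈ Q, (if q ∈ SQ then (1 : ℝ) else 0) ≤ (N : ℝ) / z := by
      refine le_trans ?_ (fin_card_sq (N := N) (z := z) (y := y) hz)
      rw [← sum_filter, sum_const, nsmul_eq_mul, mul_one]
      exact_mod_cast card_le_card (fun q hq => (mem_filter.1 hq).2)
    have := mul_le_mul_of_nonneg_left hsumSQ (mul_nonneg (Nat.cast_nonneg m) hL)
    calc m * Real.log n * ∑ q ∈ Q, (if q ∈ SQ then (1 : ℝ) else 0) ≤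
        m * Real.log n * ((N : ℝ) / z) := this
      _ = Real.log n * (m * ((N : ℝ) / z)) := by ring
  · apply mul_le_mul_of_nonneg_left _ hL
    refine le_trans ?_ (fin4_card_bad (N := N) (m := m) hn1)
    have h6 : ((fin4_bad N m n).card : ℝ) = ∑ q ∈ range (N + 1), ∑ r ∈ range m,
        (if lam (n - m * q - r) ≠ 0 ∧ ¬ (n - m * q - r).Prime then (1 : ℝ) else 0) := by
      rw [← sum_product' (range (N + 1)) (range m) (fun q r =>
        (if lam (n - m * q - r) ≠ 0 ∧ ¬ (n - m * q - r).Prime then (1 : ℝ) else 0)),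
        ← sum_filter, sum_const, nsmul_eq_mul, mul_one]
      rfl
    rw [h6]
    apply sum_le_sum_of_subset_of_nonneg (filter_subset _ _)
    intro q _ _
    apply sum_nonneg
    intro r _
    split_ifs <;> norm_num

/-- numerical end -/
theorem fin4_num {κ c m N n L z U : ℝ} {k : ℕ} (hκ : 0 < κ) (hc : 0 < c) (hm : 1 ≤ m) (hN : 1 ≤ N)
    (hL : 1 ≤ L) (hn : 0 ≤ n) (hnN : n ≤ 2 * (m * N)) (hz : L ^ (k + 3) ≤ 2 * z)
    (hU : 1 / 2 * (m * N) * (c / L ^ k) ≤ U)
    (hsq : 2 * L ^ (k + 4) ≤ Real.sqrt n) (hL2 : 10 < κ * c * L)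
    (h : κ * U ≤ L * (m * (N / z)) + L * (3 * (Real.sqrt n * L))) : False := by
  have hmN : 0 < m * N := by positivity
  have hLk : 0 < L ^ k := by positivity
  have hLk2 : 0 < L ^ (k + 2) := by positivity
  have hz0 : 0 < z := by
    have : 0 < L ^ (k + 3) := by positivity
    linarith
  have h1 : L * (m * (N / z)) ≤ 2 * (m * N) / L ^ (k + 2) := by
    rw [le_div_iff₀ hLk2]
    have e : L * (m * (N / z)) * L ^ (k + 2) = (m * N) * (L ^ (k + 3) / z) := by
      rw [pow_succ L (k + 2)]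
      ring
    rw [e]
    have h2 : L ^ (k + 3) / z ≤ 2 := by
      rw [div_le_iff₀ hz0]
      exact hz
    have := mul_le_mul_of_nonneg_left h2 hmN.le
    linarith
  have h2 : L * (3 * (Real.sqrt n * L)) ≤ 3 * (m * N) / L ^ (k + 2) := by
    rw [le_div_iff₀ hLk2]
    have e : L * (3 * (Real.sqrt n * L)) * L ^ (k + 2) = 3 * (Real.sqrt n * L ^ (k + 4)) := by
      ring
    rw [e]
    have h3 : Real.sqrt n * (2 * L ^ (k + 4)) ≤ Real.sqrt n * Real.sqrt n :=
      mul_le_mul_of_nonneg_left hsq (Real.sqrt_nonneg _)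
    rw [Real.mul_self_sqrt hn] at h3
    linarith
  have h3 : κ * (1 / 2 * (m * N) * (c / L ^ k)) ≤ 5 * (m * N) / L ^ (k + 2) := by
    have h4 := mul_le_mul_of_nonneg_left hU hκ.le
    have h5 : 5 * (m * N) / L ^ (k + 2) = 2 * (m * N) / L ^ (k + 2) + 3 * (m * N) / L ^ (k + 2) := by
      ring
    linarith
  rw [le_div_iff₀ hLk2] at h3
  have h4 : κ * (1 / 2 * (m * N) * (c / L ^ k)) * L ^ (k + 2) = (m * N) * (κ * c * L ^ 2 / 2) := by
    rw [pow_add]
    field_simp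
  rw [h4] at h3
  have h5 : κ * c * L ^ 2 / 2 ≤ 5 := by
    by_contra hcon
    have := mul_lt_mul_of_pos_left (not_le.1 hcon) hmN
    linarith
  have h6 : κ * c * L ≤ κ * c * L ^ 2 := by
    have : 0 < κ * c := mul_pos hκ hc
    have h7 : L ≤ L ^ 2 := by nlinarith
    exact mul_le_mul_of_nonneg_left h7 this.le
  linarith

theorem fin4_Lev_mono {η : ℝ → ℝ} {N m n K : ℕ} {θ e e' : ℝ} (h : Lev η N m n θ K e)
    (hle : e ≤ e') : Lev η N m n θ K e' := by
  obtain ⟨E, h1, h2, h3⟩ := h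
  exact ⟨E, h1, h2, h3.trans hle⟩

/-- a pair of positive weight is good -/
theorem fin4_good (h1 : St_Wt4) {η : ℝ → ℝ} (hη : IsWt η) {N m n w : ℕ} {δ : ℝ}
    (hT : Tile N m n) (hN100 : 100 ≤ N) (hwz : w ≤ z4 N) (hδ : 0 < δ)
    (hwδ : (N : ℝ) ^ δ ≤ (w : ℝ) + 1)
    (hcon : ¬ ∃ p : ℕ, p.Prime ∧ p < n ∧ 2 ≤ (n - p) / m ∧
      Nat.IsAtMostAlmostPrime 4 ((n - p) / m) ∧
      Nat.IsAtMostAlmostPrime ⌈2 / δ⌉₊ (((n - p) / m) ^ 2 - 2)) :
    ∀ q ∈ range (N + 1), (∀ l ∈ pr (z4 N), q % l ∉ OmT w l) → η ((q : ℝ) / N) ≠ 0 →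
      (∀ p ∈ (pr (y4 N)).filter (fun p => z4 N < p), ¬ p ^ 2 ∣ q) → ∀ r < m,
      (n - m * q - r).Prime → fin4_W (y4 N) N q ≤ 0 := by
  intro q hq hA hη0 hsq r hr hpr
  by_contra hW
  rw [not_le] at hW
  have hN0 : (0 : ℝ) < N := by
    have : (100 : ℝ) ≤ N := by exact_mod_cast hN100
    linarith
  obtain ⟨hm, hmN, hmN1⟩ := hT
  obtain ⟨hs1, hs2⟩ := hη.supp _ hη0
  rw [lt_div_iff₀ hN0] at hs1
  rw [div_lt_iff₀ hN0] at hs2
  have hq2 : 8 * q < 7 * N := by
    have : (8 : ℝ) * q < 7 * N := by linarith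
    exact_mod_cast this
  have hq3 : N < 8 * q := by
    have : (N : ℝ) < 8 * q := by linarith
    exact_mod_cast this
  have hmq : m * q + r < n := by
    have h5 : m * (q + 1) ≤ m * N := Nat.mul_le_mul_left m (by omega)
    have h6 : m * (q + 1) = m * q + m := by ring
    omega
  have hr1 := fin4_OmT hA
  have hr2 := fin4_OmT2 hwz (by omega) hA
  have hO := h1 N q (by omega) (by omega) ?_ hW
  · apply hcon
    have hdiv : (n - (n - m * q - r)) / m = q := by
      have h6 : n - (n - m * q - r) = r + m * q := by omega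
      rw [h6, Nat.add_mul_div_left _ _ (by omega), Nat.div_eq_of_lt hr, zero_add]
    have hmq1 : 1 ≤ m * q := Nat.one_le_iff_ne_zero.2 (Nat.mul_ne_zero (by omega) (by omega))
    refine ⟨n - m * q - r, hpr, by omega, ?_, ?_, ?_⟩
    · rw [hdiv]
      omega
    · rw [hdiv]
      exact hO
    · rw [hdiv]
      have h4q : 4 ≤ q := by omega
      have h5 : 2 < q ^ 2 := by nlinarith
      have h6 : q ^ 2 - 2 ≤ N ^ 2 := (Nat.sub_le _ _).trans (Nat.pow_le_pow_left (by omega) 2)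
      have h7 : ((q ^ 2 - 2 : ℕ) : ℝ) ≤ (N : ℝ) ^ (2 : ℝ) := by
        rw [Real.rpow_two]
        exact_mod_cast h6
      have hN1 : (1 : ℝ) < N := by
        have : (100 : ℝ) ≤ N := by exact_mod_cast hN100
        linarith
      exact fin_Omega hN1 hδ (by omega) h7 hwδ (Nat.le_ceil _) hr2
  · intro p hp hpy hd
    by_cases h5 : z4 N < p
    · exact hsq p (mem_filter.2 ⟨fin_mem_pr.2 ⟨hpy, hp⟩, h5⟩) hd
    · exact hr1 p (fin_mem_pr.2 ⟨by omega, hp⟩) ((dvd_pow_self p (by norm_num)).trans hd)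

/-- keep this signature -/
theorem thm_Fin4 (h0 : ∃ A0 : ℝ, 0 < A0 ∧ St_T4A A0 ∧ St_T4P A0) (h1 : St_Wt4) (h2 : St_TBV3) (h3 : St_VLow) (h4 : St_DensT) : St_Fin4 := by
  obtain ⟨A0, hA0, hTA, hTP⟩ := h0
  obtain ⟨η, hη⟩ := exists_wt
  have hlog3 : 1 < Real.log 3 := by
    rw [Real.lt_log_iff_exp_lt (by norm_num)]
    have := Real.exp_one_lt_d9
    linarith
  obtain ⟨ε, hεdef⟩ : ∃ ε : ℝ, ε = A0 * (Real.log 3 - 1) / 20 := ⟨_, rfl⟩
  have hA1 : 0 < A0 * (Real.log 3 - 1) := mul_pos hA0 (by linarith)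
  have hε : 0 < ε := by
    rw [hεdef]
    linarith
  obtain ⟨δa, hδa, hTA⟩ := hTA η hη ε hε
  obtain ⟨δp, hδp, hTP⟩ := hTP η hη ε hε
  obtain ⟨δ, hδ, hδ1, hδ2, hδ4⟩ : ∃ δ : ℝ, 0 < δ ∧ δ ≤ δa ∧ δ ≤ δp ∧ δ ≤ 1 / 20 :=
    ⟨min (min δa δp) (1 / 20), lt_min (lt_min hδa hδp) (by norm_num),
      (min_le_left _ _).trans (min_le_left _ _), (min_le_left _ _).trans (min_le_right _ _),
      min_le_right _ _⟩
  obtain ⟨θa, Aa, Ka, hθa, hθa3, hTA⟩ := hTA δ hδ hδ1
  obtain ⟨θp, Ap, Kp, hθp, hθp3, hTP⟩ := hTP δ hδ hδ2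
  obtain ⟨Ba, hBa⟩ := h2 η hη θa hθa hθa3 Aa Ka
  obtain ⟨Bp, hBp⟩ := h2 η hη θp hθp hθp3 Ap Kp
  obtain ⟨c, k, hc, hVL⟩ := h3
  obtain ⟨B, hBdef⟩ : ∃ B : ℕ, B = Ba + Bp + 12 * (k + 3) + 1 := ⟨_, rfl⟩
  refine ⟨⌈2 / δ⌉₊, B, ?_⟩
  have hκ : 0 < A0 * (Real.log 3 - 1) / 8 := by linarith
  obtain ⟨N₀, hN₀⟩ := eventually_atTop.1 ((hTA.and hTP).and
    ((fin_log_pow 2 0 (show (0 : ℝ) < 1 / 12 by norm_num)).and (eventually_ge_atTop 100)))
  have hlogtop : Tendsto (fun n : ℕ => Real.log n) atTop atTop :=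
    Real.tendsto_log_atTop.comp tendsto_natCast_atTop_atTop
  filter_upwards [hBa, hBp, hlogtop.eventually_ge_atTop ((N₀ : ℝ) + 1),
    hlogtop.eventually_gt_atTop (10 / (A0 * (Real.log 3 - 1) / 8 * c)),
    fin_log_pow 2 (k + 4) (show (0 : ℝ) < 1 / 2 by norm_num),
    eventually_ge_atTop 100] with n hBa hBp hL1 hL2 hsq hn100 m N hT hlm hlN
  have hnr : (100 : ℝ) ≤ n := by exact_mod_cast hn100
  have hn0 : (0 : ℝ) < n := by linarith
  have hL : 1 ≤ Real.log n := by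
    have : (0 : ℝ) ≤ N₀ := Nat.cast_nonneg _
    linarith
  have hpow : ∀ j : ℕ, j ≤ B → Real.log n ^ j ≤ Real.log n ^ B := fun j hj =>
    pow_le_pow_right₀ hL hj
  have hLa := hBa m N hT ((hpow Ba (by omega)).trans hlm) ((hpow Ba (by omega)).trans hlN)
  have hLp := hBp m N hT ((hpow Bp (by omega)).trans hlm) ((hpow Bp (by omega)).trans hlN)
  have hNN : N₀ ≤ N := by
    have h5 : Real.log n ^ 1 ≤ Real.log n ^ B := hpow 1 (by omega)
    rw [pow_one] at h5
    have h6 : (N₀ : ℝ) ≤ N := by linarith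
    exact_mod_cast h6
  obtain ⟨⟨hTA, hTP⟩, hz2', hN100⟩ := hN₀ N hNN
  rw [pow_zero, mul_one] at hz2'
  have hm : 1 ≤ m := hT.1
  have hmN : m * N ≤ n := hT.2.1
  have hmN1 : n < m * (N + 1) := hT.2.2
  have hNr : (100 : ℝ) ≤ N := by exact_mod_cast hN100
  have hN0 : (0 : ℝ) < N := by linarith
  have hN1 : (1 : ℝ) ≤ N := by linarith
  have hmr : (1 : ℝ) ≤ m := by exact_mod_cast hm
  have hNn : N ≤ n := by
    have : N ≤ m * N := Nat.le_mul_of_pos_left _ hm
    omega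
  have hlogN : Real.log N ≤ Real.log n := Real.log_le_log hN0 (by exact_mod_cast hNn)
  have hlogN0 : 0 < Real.log N := Real.log_pos (by linarith)
  have hErr : ∀ A : ℕ, (m : ℝ) * N / Real.log n ^ A ≤ m * N / Real.log N ^ A := fun A =>
    div_le_div_of_nonneg_left (by positivity) (pow_pos hlogN0 A)
      (pow_le_pow_left₀ hlogN0.le hlogN A)
  have hTA := hTA m n hT (fin4_Lev_mono hLa (hErr Aa))
  have hTP := hTP m n hT (fin4_Lev_mono hLp (hErr Ap))
  by_contra hcon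
  -- the parameters
  have hz2 : 2 ≤ z4 N := by
    unfold z4
    apply Nat.le_floor
    exact_mod_cast hz2'.le
  have hzT : (N : ℝ) ^ (1 / 12 : ℝ) ≤ 2 * (z4 N : ℝ) := by
    have h5 : (N : ℝ) ^ (1 / 12 : ℝ) < (z4 N : ℝ) + 1 := Nat.lt_floor_add_one _
    have h6 : (2 : ℝ) ≤ z4 N := by exact_mod_cast hz2
    linarith
  have hzN : (z4 N : ℝ) ≤ (N : ℝ) ^ (1 / 12 : ℝ) := Nat.floor_le (Real.rpow_nonneg hN0.le _)
  have hwz : wN δ N ≤ z4 N := by
    unfold wN z4
    exact Nat.floor_le_floor (Real.rpow_le_rpow_of_exponent_le hN1 (by linarith))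
  have hwδ : (N : ℝ) ^ δ ≤ (wN δ N : ℝ) + 1 := (Nat.lt_floor_add_one _).le
  have hw0 : ∀ p ∈ pr (y4 N), 0 ≤ 1 - 21 / 5 * (Real.log p / Real.log N) := by
    intro p hp
    obtain ⟨hp1, hp2⟩ := fin_mem_pr.1 hp
    have h5 : (p : ℝ) ≤ (N : ℝ) ^ (5 / 21 : ℝ) := by
      have h6 : (y4 N : ℝ) ≤ (N : ℝ) ^ (5 / 21 : ℝ) := Nat.floor_le (Real.rpow_nonneg hN0.le _)
      have h7 : (p : ℝ) ≤ y4 N := by exact_mod_cast hp1
      linarith
    have h6 : Real.log p ≤ 5 / 21 * Real.log N := by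
      have h7 := Real.log_le_log (by exact_mod_cast hp2.pos) h5
      rwa [Real.log_rpow hN0] at h7
    have h7 : Real.log p / Real.log N ≤ 5 / 21 := by
      rw [div_le_iff₀ hlogN0]
      exact h6
    linarith
  have hno := fin4_good h1 hη hT hN100 hwz hδ hwδ hcon
  have hmain := fin4_ineq hη (m := m) (n := n) (N := N) (by omega : 1 ≤ n)
    (by omega : 1 ≤ z4 N) hw0 hno
  -- lower bound for the unit
  have hU : 1 / 2 * ((m : ℝ) * N) * (c / Real.log n ^ k) ≤ UT η δ N m (z4 N) := by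
    unfold UT
    have h5 : c / Real.log (z4 N) ^ k ≤ VV (gT (wN δ N)) (z4 N) :=
      hVL (z4 N) (gT (wN δ N)) hz2 fun l hl => by
        obtain ⟨-, h6, h7, h8, -⟩ := h4.1 (wN δ N) l hl
        exact ⟨h6, h7, h8⟩
    have hz4n : Real.log (z4 N) ≤ Real.log n := by
      refine le_trans ?_ hlogN
      apply Real.log_le_log (by
        have : (2 : ℝ) ≤ z4 N := by exact_mod_cast hz2
        linarith)
      refine hzN.trans ?_
      calc (N : ℝ) ^ (1 / 12 : ℝ) ≤ (N : ℝ) ^ (1 : ℝ) :=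
            Real.rpow_le_rpow_of_exponent_le hN1 (by norm_num)
        _ = N := Real.rpow_one _
    have hz4p : 0 < Real.log (z4 N) := Real.log_pos (by
      have : (2 : ℝ) ≤ z4 N := by exact_mod_cast hz2
      linarith)
    have h6 : c / Real.log n ^ k ≤ c / Real.log (z4 N) ^ k :=
      div_le_div_of_nonneg_left hc.le (pow_pos hz4p k) (pow_le_pow_left₀ hz4p.le hz4n k)
    have h7 : 0 ≤ c / Real.log n ^ k := by positivity
    exact mul_le_mul (mul_le_mul_of_nonneg_right (fin_int hη) (by positivity))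
      (h6.trans h5) h7 (mul_nonneg (le_trans (by norm_num) (fin_int hη)) (by positivity))
  have hU0 : 0 ≤ UT η δ N m (z4 N) := le_trans (by positivity) hU
  have hkey : A0 * (Real.log 3 - 1) / 8 * UT η δ N m (z4 N) ≤
      Real.log n * (m * ((N : ℝ) / z4 N)) + Real.log n * (3 * (Real.sqrt n * Real.log n)) := by
    refine le_trans ?_ hmain
    have h5 : (A0 * (Real.log 3 / 4) - ε) * UT η δ N m (z4 N) -
        5 / 4 * ((A0 / 5 + ε) * UT η δ N m (z4 N)) ≤
        SS η (wN δ N) (z4 N) N m n - 5 / 4 * ∑ p ∈ (pr (y4 N)).filter (fun p => z4 N < p),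
          (1 - 21 / 5 * (Real.log p / Real.log N)) * SSp η (wN δ N) (z4 N) p N m n := by
      linarith
    refine le_trans ?_ h5
    have h6 : (A0 * (Real.log 3 / 4) - ε) * UT η δ N m (z4 N) -
        5 / 4 * ((A0 / 5 + ε) * UT η δ N m (z4 N)) =
        (A0 * (Real.log 3 - 1) / 4 - 9 / 4 * ε) * UT η δ N m (z4 N) := by
      ring
    rw [h6]
    apply mul_le_mul_of_nonneg_right _ hU0
    rw [hεdef]
    linarith
  refine fin4_num (κ := A0 * (Real.log 3 - 1) / 8) (c := c) (m := m) (N := N) (n := n)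
    (L := Real.log n) (z := z4 N) (k := k) hκ hc hmr hN1 hL hn0.le ?_ ?_ hU ?_ ?_ hkey
  · have h5 : (n : ℝ) ≤ m * (N + 1) := by exact_mod_cast hmN1.le
    nlinarith
  · refine le_trans ?_ hzT
    have h5 : Real.log n ^ (12 * (k + 3)) ≤ N := (hpow _ (by omega)).trans hlN
    have h6 : (Real.log n ^ (12 * (k + 3))) ^ (1 / 12 : ℝ) ≤ (N : ℝ) ^ (1 / 12 : ℝ) :=
      Real.rpow_le_rpow (by positivity) h5 (by norm_num)
    have h7 : (Real.log n ^ (12 * (k + 3))) ^ (1 / 12 : ℝ) = Real.log n ^ (k + 3) := by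
      rw [← Real.rpow_natCast (Real.log n) (12 * (k + 3)), ← Real.rpow_mul (by linarith),
        ← Real.rpow_natCast (Real.log n) (k + 3)]
      congr 1
      push_cast
      ring
    rw [h7] at h6
    exact h6
  · rw [Real.sqrt_eq_rpow]
    exact hsq.le
  · rw [div_lt_iff₀ (mul_pos hκ hc)] at hL2
    linarith

end Pool.Agent.CU
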