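import Mathlib
import Pool.Agent.CU.Stmts

set_option autoImplicit false

/-!
# CU / FinD

n <= 3m+1: p = 2, 2m <= n-2 < 3m.  n >= 3m+2: prime p in (n-3m, n-2m] from St_PI (a = n-3m),
2m <= n-p < 3m.
-/

namespace Pool.Agent.CU

open Finset Filter Pool.Agent.MT Pool.Agent.CH

theorem finD_div (x m : ℕ) (h1 : 2 * m ≤ x) (h2 : x < 3 * m) : x / m = 2 := by
  rw [Nat.div_eq_iff (by omega)]
  constructor <;> omega

/-- keep this signature -/
theorem thm_FinD (h : St_PI) : St_FinD := by
  intro A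
  filter_upwards [h A] with n hn m hm h2 h3
  by_cases hc : n ≤ 3 * m + 1
  · refine ⟨2, Nat.prime_two, by omega, ?_⟩
    exact finD_div _ _ (by omega) (by omega)
  · obtain ⟨p, hp, hp1, hp2⟩ := hn (n - 3 * m) m (by omega) h3
    refine ⟨p, hp, by omega, ?_⟩
    exact finD_div _ _ (by omega) (by omega)

end Pool.Agent.CU
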