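import Mathlib
import Pool.Agent.CU.Stmts

set_option autoImplicit false

/-!
# CU / JB

Incomplete sums of imprimitive characters.
-/

namespace Pool.Agent.CU

open Finset Filter Pool.Agent.MT Pool.Agent.CH

theorem jb_sum {r : ℕ} (χ : DirichletCharacter ℂ r) (B : ℝ)
    (hB : ∀ u v : ℕ, ‖∑ j ∈ Ioc u v, χ (j : ZMod r)‖ ≤ B) (T : Finset ℕ)
    (hT : ∀ p ∈ T, p.Prime) : ∀ u v : ℕ,
    ‖∑ j ∈ (Ioc u v).filter (fun j => ∀ p ∈ T, ¬ p ∣ j), χ (j : ZMod r)‖ ≤ 2 ^ T.card * B := by
  classical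
  induction T using Finset.induction_on with
  | empty =>
    intro u v
    simpa using hB u v
  | @insert p T hp ih =>
    intro u v
    have hT' : ∀ l ∈ T, l.Prime := fun l hl => hT l (Finset.mem_insert_of_mem hl)
    have hpp : p.Prime := hT p (Finset.mem_insert_self _ _)
    have ih' := ih hT'
    have e1 : (Ioc u v).filter (fun j => ∀ q ∈ insert p T, ¬ q ∣ j) =
        ((Ioc u v).filter (fun j => ∀ q ∈ T, ¬ q ∣ j)).filter (fun j => ¬ p ∣ j) := by
      ext j
      simp only [Finset.mem_filter, Finset.mem_insert, forall_eq_or_imp]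
      tauto
    have e2 := Finset.sum_filter_add_sum_filter_not
      ((Ioc u v).filter (fun j => ∀ q ∈ T, ¬ q ∣ j)) (fun j => p ∣ j)
      (fun j => χ (j : ZMod r))
    have e3 : ((Ioc u v).filter (fun j => ∀ q ∈ T, ¬ q ∣ j)).filter (fun j => p ∣ j) =
        ((Ioc (u / p) (v / p)).filter (fun j => ∀ q ∈ T, ¬ q ∣ j)).image (fun j => p * j) := by
      ext j
      simp only [Finset.mem_filter, Finset.mem_image, Finset.mem_Ioc]
      constructor
      · rintro ⟨⟨⟨h1, h2⟩, h3⟩, ⟨k, rfl⟩⟩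
        refine ⟨k, ⟨⟨?_, ?_⟩, ?_⟩, rfl⟩
        · rw [Nat.div_lt_iff_lt_mul hpp.pos, mul_comm]
          exact h1
        · rw [Nat.le_div_iff_mul_le hpp.pos, mul_comm]
          exact h2
        · intro q hq hqk
          exact h3 q hq (Dvd.dvd.mul_left hqk p)
      · rintro ⟨k, ⟨⟨h1, h2⟩, h3⟩, rfl⟩
        refine ⟨⟨⟨?_, ?_⟩, ?_⟩, Dvd.intro k rfl⟩
        · rw [Nat.div_lt_iff_lt_mul hpp.pos, mul_comm] at h1
          exact h1
        · rw [Nat.le_div_iff_mul_le hpp.pos, mul_comm] at h2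
          exact h2
        · intro q hq hqk
          rcases (Nat.Prime.dvd_mul (hT' q hq)).1 hqk with h4 | h4
          · have := (Nat.prime_dvd_prime_iff_eq (hT' q hq) hpp).1 h4
            exact hp (this ▸ hq)
          · exact h3 q hq h4
    have e4 : ∑ j ∈ ((Ioc u v).filter (fun j => ∀ q ∈ T, ¬ q ∣ j)).filter (fun j => p ∣ j),
        χ (j : ZMod r) = χ (p : ZMod r) *
          ∑ j ∈ (Ioc (u / p) (v / p)).filter (fun j => ∀ q ∈ T, ¬ q ∣ j), χ (j : ZMod r) := by
      rw [e3, Finset.sum_image, Finset.mul_sum]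
      · apply Finset.sum_congr rfl
        intro j _
        rw [Nat.cast_mul, map_mul]
      · intro a _ b _ hab
        exact Nat.eq_of_mul_eq_mul_left hpp.pos hab
    rw [e4] at e2
    have e5 : ∑ j ∈ (Ioc u v).filter (fun j => ∀ q ∈ insert p T, ¬ q ∣ j), χ (j : ZMod r) =
        ∑ j ∈ (Ioc u v).filter (fun j => ∀ q ∈ T, ¬ q ∣ j), χ (j : ZMod r) -
        χ (p : ZMod r) *
          ∑ j ∈ (Ioc (u / p) (v / p)).filter (fun j => ∀ q ∈ T, ¬ q ∣ j), χ (j : ZMod r) := by
      rw [e1]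
      exact eq_sub_of_add_eq' e2
    rw [e5, Finset.card_insert_of_notMem hp, pow_succ]
    refine (norm_sub_le _ _).trans ?_
    rw [norm_mul]
    have h6 := ih' u v
    have h7 := ih' (u / p) (v / p)
    have h8 := DirichletCharacter.norm_le_one χ (p : ZMod r)
    have h9 : ‖χ (p : ZMod r)‖ * ‖∑ j ∈ (Ioc (u / p) (v / p)).filter
        (fun j => ∀ q ∈ T, ¬ q ∣ j), χ (j : ZMod r)‖ ≤ 1 * (2 ^ T.card * B) := by
      gcongr
    linarith

/-- keep this signature -/
theorem thm_JB (h : St_PV) : St_JB := by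
  classical
  obtain ⟨C, hC, hPV⟩ := h
  refine ⟨C, hC, ?_⟩
  intro m f r u L hm hf hr χ hχ
  have hmf : m * f ≠ 0 := by positivity
  have hr1 : 1 ≤ r := Nat.pos_of_dvd_of_pos hr (Nat.pos_of_ne_zero hmf)
  set T : Finset ℕ := (m * f).primeFactors.filter (fun p => ¬ p ∣ r) with hTdef
  have hTp : ∀ p ∈ T, p.Prime := fun p hp =>
    Nat.prime_of_mem_primeFactors (Finset.mem_filter.1 hp).1
  set B : ℝ := C * (Real.sqrt r * (1 + Real.log r)) with hBdef
  have h1 := jb_sum χ B (fun u v => hPV r u v hr1 χ hχ) T hTp u (u + L)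
  have e1 : JJ (m * f) u L χ =
      ∑ j ∈ (Ioc u (u + L)).filter (fun j => ∀ p ∈ T, ¬ p ∣ j), χ (j : ZMod r) := by
    unfold JJ
    apply Finset.sum_subset_zero_on_sdiff
    · intro j hj
      rw [Finset.mem_filter] at hj ⊢
      refine ⟨hj.1, ?_⟩
      intro p hp hpj
      have h2 : p ∣ m * f := Nat.dvd_of_mem_primeFactors (Finset.mem_filter.1 hp).1
      have h3 := Nat.dvd_gcd hpj h2
      rw [hj.2] at h3
      exact (hTp p hp).one_lt.ne' (Nat.dvd_one.1 h3)
    · intro j hj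
      rw [Finset.mem_sdiff, Finset.mem_filter, Finset.mem_filter] at hj
      obtain ⟨⟨hj1, hj2⟩, hj3⟩ := hj
      have hnc : ¬ j.Coprime r := by
        intro hcop
        apply hj3
        refine ⟨hj1, ?_⟩
        apply Nat.coprime_of_dvd
        intro p hpp hpj hpm
        by_cases hpr : p ∣ r
        · have h3 := Nat.dvd_gcd hpj hpr
          rw [hcop] at h3
          exact hpp.one_lt.ne' (Nat.dvd_one.1 h3)
        · exact hj2 p (Finset.mem_filter.2 ⟨Nat.mem_primeFactors.2 ⟨hpp, hpm, hmf⟩, hpr⟩) hpj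
      apply MulChar.map_nonunit
      rw [ZMod.isUnit_iff_coprime]
      exact hnc
    · intro j _
      rfl
  have hcard : T.card ≤ (m / Nat.gcd r m).primeFactors.card + f.primeFactors.card := by
    refine (Finset.card_le_card ?_).trans (Finset.card_union_le _ _)
    intro p hp
    rw [Finset.mem_union]
    have hpp := hTp p hp
    have hpr : ¬ p ∣ r := (Finset.mem_filter.1 hp).2
    have hpmf : p ∣ m * f := Nat.dvd_of_mem_primeFactors (Finset.mem_filter.1 hp).1
    rcases (Nat.Prime.dvd_mul hpp).1 hpmf with h2 | h2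
    · left
      have hg : Nat.gcd r m ∣ m := Nat.gcd_dvd_right r m
      have hg2 : m = Nat.gcd r m * (m / Nat.gcd r m) := (Nat.mul_div_cancel' hg).symm
      rw [hg2] at h2
      have hne : m / Nat.gcd r m ≠ 0 := by
        intro h0
        rw [h0, mul_zero] at hg2
        omega
      rcases (Nat.Prime.dvd_mul hpp).1 h2 with h3 | h3
      · exact absurd (h3.trans (Nat.gcd_dvd_left r m)) hpr
      · exact Nat.mem_primeFactors.2 ⟨hpp, h3, hne⟩
    · right
      exact Nat.mem_primeFactors.2 ⟨hpp, h2, by omega⟩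
  have hB0 : 0 ≤ Real.sqrt r * (1 + Real.log r) := by
    have h2 : 0 ≤ Real.log r := Real.log_nonneg (by exact_mod_cast hr1)
    positivity
  rw [e1]
  refine h1.trans ?_
  rw [hBdef]
  calc (2 : ℝ) ^ T.card * (C * (Real.sqrt r * (1 + Real.log r))) ≤
      2 ^ ((m / Nat.gcd r m).primeFactors.card + f.primeFactors.card) *
        (C * (Real.sqrt r * (1 + Real.log r))) := by
        gcongr
        norm_num
    _ = _ := by ring

end Pool.Agent.CU
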