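import Mathlib
import Pool.Agent.CU.Stmts
import Pool.Agent.BVX.LargeCond2
import Pool.Agent.MT.Wt

set_option autoImplicit false

/-!
# CU / LCm

Mean value of the prime sums over the characters of conductor `e k`, `k ≤ K`: identity of Vaughan
with `U = V`; the sums of the first type over `a ≤ U` by partial summation from the inequality of
Polya and Vinogradov, all other sums in dyadic blocks.
-/

namespace Pool.Agent.CU

open Finset Filter Pool.Agent.MT Pool.Agent.CH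

private theorem lcm_abel_id (f : ℕ → ℂ) (g : ℕ → ℝ) (K : ℕ) (hK : 1 ≤ K) :
    ∑ k ∈ Icc 1 K, f k * ((g k : ℝ) : ℂ) = (∑ k ∈ Icc 1 K, f k) * ((g K : ℝ) : ℂ) -
      ∑ k ∈ Ico 1 K, (∑ j ∈ Icc 1 k, f j) * (((g (k + 1) - g k : ℝ)) : ℂ) := by
  induction K, hK using Nat.le_induction with
  | base => simp
  | succ K hK ih =>
    rw [sum_Icc_succ_top (by omega), sum_Icc_succ_top (by omega), sum_Ico_succ_top hK, ih]
    push_cast
    ring

private theorem lcm_abel (f : ℕ → ℂ) (g : ℕ → ℝ) (B : ℝ) (hB : ∀ K, ‖∑ k ∈ Icc 1 K, f k‖ ≤ B)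
    (K : ℕ) (hK : 1 ≤ K) :
    ‖∑ k ∈ Icc 1 K, f k * ((g k : ℝ) : ℂ)‖ ≤
      B * (|g K| + ∑ k ∈ Ico 1 K, |g (k + 1) - g k|) := by
  rw [lcm_abel_id f g K hK]
  have hB0 : 0 ≤ B := (norm_nonneg _).trans (hB 0)
  calc _ ≤ ‖(∑ k ∈ Icc 1 K, f k) * ((g K : ℝ) : ℂ)‖ +
        ‖∑ k ∈ Ico 1 K, (∑ j ∈ Icc 1 k, f j) * (((g (k + 1) - g k : ℝ)) : ℂ)‖ := norm_sub_le _ _
    _ ≤ B * |g K| + ∑ k ∈ Ico 1 K, B * |g (k + 1) - g k| := by
        apply add_le_add
        · rw [norm_mul, Complex.norm_real, Real.norm_eq_abs]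
          exact mul_le_mul_of_nonneg_right (hB K) (abs_nonneg _)
        · refine (norm_sum_le _ _).trans (sum_le_sum fun k _ => ?_)
          rw [norm_mul, Complex.norm_real, Real.norm_eq_abs]
          exact mul_le_mul_of_nonneg_right (hB k) (abs_nonneg _)
    _ = _ := by rw [mul_add, mul_sum]

private theorem lcm_lip (η : ℝ → ℝ) (hη : IsWt η) :
    ∃ L : ℝ, 0 ≤ L ∧ ∀ x y, |η x - η y| ≤ L * |x - y| := by
  have hc : HasCompactSupport η := by
    refine HasCompactSupport.intro (isCompact_Icc (a := (1 / 8 : ℝ)) (b := 7 / 8)) ?_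
    intro x hx
    by_contra h
    obtain ⟨h1, h2⟩ := hη.supp x h
    exact hx ⟨h1.le, h2.le⟩
  obtain ⟨L, hL⟩ := hη.smooth.lipschitzWith_of_hasCompactSupport hc (by simp)
  refine ⟨L, L.2, fun x y => ?_⟩
  have := hL.dist_le_mul x y
  rwa [Real.dist_eq, Real.dist_eq] at this

theorem lcm_typeI (η : ℝ → ℝ) (hη : IsWt η) : ∃ C : ℝ, 0 < C ∧ ∀ (N : ℕ), 2 ≤ N → ∀ (q : ℕ)
    (χ : DirichletCharacter ℂ q) (B : ℝ), 0 ≤ B →
    (∀ J : ℕ, ‖∑ k ∈ Icc 1 J, χ ((k : ℕ) : ZMod q)‖ ≤ B) → ∀ m : ℕ, 1 ≤ m →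
    ‖∑ k ∈ Icc 1 (N / m), χ (k : ZMod q) * ((η (((m * k : ℕ) : ℝ) / N) : ℝ) : ℂ)‖ ≤ C * B ∧
    ‖∑ k ∈ Icc 1 (N / m), ((Real.log k : ℝ) : ℂ) *
      (χ (k : ZMod q) * ((η (((m * k : ℕ) : ℝ) / N) : ℝ) : ℂ))‖ ≤ C * B * Real.log N := by
  obtain ⟨L, hL0, hL⟩ := lcm_lip η hη
  refine ⟨L + 2, by linarith, fun N hN q χ B hq0 hS m hm => ?_⟩
  have hN0 : (0 : ℝ) < N := by positivity
  have hm0 : (0 : ℝ) < m := by exact_mod_cast hm
  have hlogN : 0 ≤ Real.log N := Real.log_natCast_nonneg N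
  set K := N / m with hK
  rcases Nat.eq_zero_or_pos K with h0 | hKpos
  · rw [h0]
    simp only [show Icc 1 0 = (∅ : Finset ℕ) from rfl, sum_empty, norm_zero]
    exact ⟨by positivity, by positivity⟩
  have hKm : (K : ℝ) * m ≤ N := by
    have := Nat.div_mul_le_self N m
    exact_mod_cast this
  have hKN : (K : ℝ) ≤ N := by
    have := Nat.div_le_self N m
    exact_mod_cast this
  set g : ℕ → ℝ := fun k => η (((m * k : ℕ) : ℝ) / N) with hg
  have hg0 : ∀ k, 0 ≤ g k := fun k => hη.nonneg _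
  have hg1 : ∀ k, g k ≤ 1 := fun k => hη.le_one _
  have hgd : ∀ k, |g (k + 1) - g k| ≤ L * (m / N) := by
    intro k
    refine (hL _ _).trans (mul_le_mul_of_nonneg_left ?_ hL0)
    have : ((m * (k + 1) : ℕ) : ℝ) / N - ((m * k : ℕ) : ℝ) / N = m / N := by
      push_cast; ring
    rw [this, abs_of_nonneg (by positivity)]
  have hcard : ∑ _k ∈ Ico 1 K, L * ((m : ℝ) / N) ≤ L := by
    rw [sum_const, Nat.card_Ico, nsmul_eq_mul]
    have h1 : ((K - 1 : ℕ) : ℝ) ≤ K := by exact_mod_cast Nat.sub_le K 1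
    have h2 : ((K - 1 : ℕ) : ℝ) * (m / N) ≤ 1 := by
      rw [← mul_div_assoc, div_le_one hN0]
      exact (mul_le_mul_of_nonneg_right h1 hm0.le).trans hKm
    calc ((K - 1 : ℕ) : ℝ) * (L * (m / N)) = L * (((K - 1 : ℕ) : ℝ) * (m / N)) := by ring
      _ ≤ L * 1 := mul_le_mul_of_nonneg_left h2 hL0
      _ = L := mul_one L
  constructor
  · have h1 := lcm_abel (fun k => χ (k : ZMod q)) g B hS K hKpos
    refine h1.trans ?_
    have h2 : ∑ k ∈ Ico 1 K, |g (k + 1) - g k| ≤ L := (sum_le_sum fun k _ => hgd k).trans hcard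
    have h3 : |g K| ≤ 1 := by rw [abs_of_nonneg (hg0 K)]; exact hg1 K
    rw [mul_comm (L + 2) B]
    exact mul_le_mul_of_nonneg_left (by linarith) hq0
  · have h1 := lcm_abel (fun k => χ (k : ZMod q)) (fun k => Real.log k * g k) B hS K hKpos
    have h0 : ∑ k ∈ Icc 1 K, ((Real.log k : ℝ) : ℂ) *
        (χ (k : ZMod q) * ((η (((m * k : ℕ) : ℝ) / N) : ℝ) : ℂ)) =
        ∑ k ∈ Icc 1 K, χ (k : ZMod q) * (((Real.log k * g k : ℝ)) : ℂ) := by
      refine sum_congr rfl fun k _ => ?_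
      rw [hg]; push_cast; ring
    rw [h0]
    refine h1.trans ?_
    have hlogK : Real.log K ≤ Real.log N :=
      Real.log_le_log (by exact_mod_cast hKpos) hKN
    have hlogK0 : 0 ≤ Real.log K := Real.log_natCast_nonneg K
    have h3 : |Real.log K * g K| ≤ Real.log N := by
      rw [abs_of_nonneg (mul_nonneg hlogK0 (hg0 K))]
      calc Real.log K * g K ≤ Real.log K * 1 := mul_le_mul_of_nonneg_left (hg1 K) hlogK0
        _ ≤ Real.log N := by linarith
    have htel : ∑ k ∈ Ico 1 K, (Real.log ((k + 1 : ℕ) : ℝ) - Real.log (k : ℝ)) = Real.log K := by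
      rw [sum_Ico_sub (fun k : ℕ => Real.log (k : ℝ)) hKpos]
      simp
    have h4 : ∑ k ∈ Ico 1 K, |Real.log ((k + 1 : ℕ) : ℝ) * g (k + 1) - Real.log k * g k| ≤
        Real.log N + L * Real.log N := by
      have h5 : ∀ k ∈ Ico 1 K, |Real.log ((k + 1 : ℕ) : ℝ) * g (k + 1) - Real.log k * g k| ≤
          (Real.log ((k + 1 : ℕ) : ℝ) - Real.log (k : ℝ)) + Real.log N * (L * (m / N)) := by
        intro k hk
        rw [mem_Ico] at hk
        have hk0 : (0 : ℝ) < k := by exact_mod_cast hk.1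
        have hk1 : (k : ℝ) ≤ ((k + 1 : ℕ) : ℝ) := by push_cast; linarith
        have hl : Real.log (k : ℝ) ≤ Real.log ((k + 1 : ℕ) : ℝ) := Real.log_le_log hk0 hk1
        have hkK : (k : ℝ) ≤ N := by
          have : (k : ℝ) ≤ K := by exact_mod_cast hk.2.le
          exact this.trans hKN
        have hlk : Real.log (k : ℝ) ≤ Real.log N := Real.log_le_log hk0 hkK
        have hlk0 : 0 ≤ Real.log (k : ℝ) := Real.log_natCast_nonneg k
        have e : Real.log ((k + 1 : ℕ) : ℝ) * g (k + 1) - Real.log k * g k =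
            (Real.log ((k + 1 : ℕ) : ℝ) - Real.log k) * g (k + 1) +
              Real.log k * (g (k + 1) - g k) := by ring
        rw [e]
        refine (abs_add_le _ _).trans (add_le_add ?_ ?_)
        · rw [abs_of_nonneg (mul_nonneg (by linarith) (hg0 _))]
          calc _ ≤ (Real.log ((k + 1 : ℕ) : ℝ) - Real.log k) * 1 :=
                mul_le_mul_of_nonneg_left (hg1 _) (by linarith)
            _ = _ := mul_one _
        · rw [abs_mul, abs_of_nonneg hlk0]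
          exact mul_le_mul hlk (hgd k) (abs_nonneg _) hlogN
      refine (sum_le_sum h5).trans ?_
      rw [sum_add_distrib, htel, ← mul_sum]
      have h6 := mul_le_mul_of_nonneg_left hcard hlogN
      linarith
    have h7 : (L + 2) * B * Real.log N = B * (Real.log N + (Real.log N + L * Real.log N)) := by
      ring
    rw [h7]
    apply mul_le_mul_of_nonneg_left _ hq0
    exact add_le_add h3 h4


/-! ### the coefficients of the second sum -/

/-- `∑_{m l = a} μ(m) Λ(l)`, `m, l ≤ U` -/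
noncomputable def lcmC (U a : ℕ) : ℂ :=
  ∑ p ∈ (Icc 1 U ×ˢ Icc 1 U).filter (fun p => p.1 * p.2 = a),
    (ArithmeticFunction.moebius p.1 : ℂ) * ((ArithmeticFunction.vonMangoldt p.2 : ℝ) : ℂ)

/-- the same, cut off -/
noncomputable def lcmA (U a : ℕ) : ℂ := if a ≤ U * U then lcmC U a else 0

/-- a dyadic block of the second sum -/
noncomputable def lcmB (η : ℝ → ℝ) (N U M : ℕ) {q : ℕ} (χ : DirichletCharacter ℂ q) : ℂ :=
  ∑ l ∈ Ioc M (2 * M), ∑ k ∈ Icc 1 (N / l), lcmA U l * 1 *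
    (χ ((l * k : ℕ) : ZMod q) * ((η (((l * k : ℕ) : ℝ) / N) : ℝ) : ℂ))

theorem lcmC_norm (U a : ℕ) (ha : 1 ≤ a) : ‖lcmC U a‖ ≤ Real.log a := by
  classical
  unfold lcmC
  refine (norm_sum_le _ _).trans ?_
  have h1 : ∑ p ∈ (Icc 1 U ×ˢ Icc 1 U).filter (fun p => p.1 * p.2 = a),
      ‖(ArithmeticFunction.moebius p.1 : ℂ) *
        ((ArithmeticFunction.vonMangoldt p.2 : ℝ) : ℂ)‖ ≤
      ∑ p ∈ (Icc 1 U ×ˢ Icc 1 U).filter (fun p => p.1 * p.2 = a),
        ArithmeticFunction.vonMangoldt p.2 := by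
    refine sum_le_sum fun p _ => ?_
    rw [norm_mul, Complex.norm_real, Real.norm_eq_abs,
      abs_of_nonneg ArithmeticFunction.vonMangoldt_nonneg]
    calc _ ≤ 1 * ArithmeticFunction.vonMangoldt p.2 :=
          mul_le_mul_of_nonneg_right (lc_mu p.1) ArithmeticFunction.vonMangoldt_nonneg
      _ = _ := one_mul _
  refine h1.trans ?_
  have h2 : Set.InjOn Prod.snd
      (((Icc 1 U ×ˢ Icc 1 U).filter (fun p => p.1 * p.2 = a) : Finset (ℕ × ℕ)) :
        Set (ℕ × ℕ)) := by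
    intro p hp p' hp' h
    rw [Finset.mem_coe, Finset.mem_filter, Finset.mem_product, Finset.mem_Icc,
      Finset.mem_Icc] at hp hp'
    have h3 : p.1 * p.2 = p'.1 * p.2 := by
      rw [hp.2, h, hp'.2]
    have h4 : p.1 = p'.1 := Nat.eq_of_mul_eq_mul_right (by omega) h3
    exact Prod.ext h4 h
  rw [← Finset.sum_image (f := fun l => ArithmeticFunction.vonMangoldt l) h2,
    ← ArithmeticFunction.vonMangoldt_sum]
  apply Finset.sum_le_sum_of_subset_of_nonneg
  · intro l hl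
    rw [Finset.mem_image] at hl
    obtain ⟨p, hp, rfl⟩ := hl
    rw [Finset.mem_filter] at hp
    rw [Nat.mem_divisors]
    exact ⟨Dvd.intro_left p.1 hp.2, by omega⟩
  · intro l _ _
    exact ArithmeticFunction.vonMangoldt_nonneg

theorem lcmA_norm (U a : ℕ) (ha : 1 ≤ a) : ‖lcmA U a‖ ≤ Real.log a := by
  unfold lcmA
  split_ifs
  · exact lcmC_norm U a ha
  · rw [norm_zero]
    exact Real.log_natCast_nonneg a

theorem lcm_fiber (U : ℕ) (G : ℕ → ℂ) :
    ∑ m ∈ Icc 1 U, ∑ l ∈ Icc 1 U, (ArithmeticFunction.moebius m : ℂ) *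
      ((ArithmeticFunction.vonMangoldt l : ℝ) : ℂ) * G (m * l) =
    ∑ a ∈ Icc 1 (U * U), lcmC U a * G a := by
  classical
  rw [← Finset.sum_product' (Icc 1 U) (Icc 1 U) (fun m l => (ArithmeticFunction.moebius m : ℂ) *
      ((ArithmeticFunction.vonMangoldt l : ℝ) : ℂ) * G (m * l))]
  rw [← Finset.sum_fiberwise_of_maps_to (s := Icc 1 U ×ˢ Icc 1 U) (t := Icc 1 (U * U))
    (g := fun p => p.1 * p.2)]
  · apply Finset.sum_congr rfl
    intro a _
    unfold lcmC
    rw [Finset.sum_mul]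
    apply Finset.sum_congr rfl
    intro p hp
    rw [Finset.mem_filter] at hp
    rw [hp.2]
  · intro p hp
    rw [Finset.mem_product, Finset.mem_Icc, Finset.mem_Icc] at hp
    rw [Finset.mem_Icc]
    exact ⟨Nat.mul_pos hp.1.1 hp.2.1, Nat.mul_le_mul hp.1.2 hp.2.2⟩

/-- the pointwise bound -/
theorem lcm_single {η : ℝ → ℝ} (hη : IsWt η) {C B : ℝ} (hC : 0 < C) (hB : 0 ≤ B)
    {N U J q : ℕ} (hN : 3 ≤ N) (hU : 1 ≤ U) (hUN : U ≤ N) (hJ : N ≤ 2 ^ J)
    (χ : DirichletCharacter ℂ q)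
    (hI : ∀ m : ℕ, 1 ≤ m →
      ‖∑ k ∈ Icc 1 (N / m), χ (k : ZMod q) * ((η (((m * k : ℕ) : ℝ) / N) : ℝ) : ℂ)‖ ≤ C * B ∧
      ‖∑ k ∈ Icc 1 (N / m), ((Real.log k : ℝ) : ℂ) *
        (χ (k : ZMod q) * ((η (((m * k : ℕ) : ℝ) / N) : ℝ) : ℂ))‖ ≤ C * B * Real.log N) :
    ‖psiChi η N χ‖ ≤ U * Real.log N + U * (C * B * Real.log N) + U * (Real.log N * (C * B)) +
      ∑ i ∈ range J, ‖lcmB η N U (U * 2 ^ i) χ‖ +
      ∑ i ∈ range J, ‖lcB η N U (U * 2 ^ i) χ‖ := by
  have hL : 0 ≤ Real.log N := Real.log_natCast_nonneg N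
  rw [lc_psi, vaughan U U N]
  have t0 : ‖∑ n ∈ (Icc 1 N).filter (fun n => n ≤ U),
      ((ArithmeticFunction.vonMangoldt n : ℝ) : ℂ) * lcF η N χ n‖ ≤ U * Real.log N := by
    refine (norm_sum_le _ _).trans ?_
    have h1 : ∀ n ∈ (Icc 1 N).filter (fun n => n ≤ U),
        ‖((ArithmeticFunction.vonMangoldt n : ℝ) : ℂ) * lcF η N χ n‖ ≤ Real.log N := by
      intro n hn
      rw [mem_filter, mem_Icc] at hn
      rw [norm_mul]
      calc _ ≤ Real.log N * 1 := mul_le_mul (lc_Lam hn.1.1 hn.1.2) (lc_F hη N χ n)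
            (norm_nonneg _) hL
        _ = Real.log N := mul_one _
    refine (sum_le_card_nsmul _ _ _ h1).trans ?_
    rw [nsmul_eq_mul]
    refine mul_le_mul_of_nonneg_right ?_ hL
    have h2 : ((Icc 1 N).filter (fun n => n ≤ U)).card ≤ (Icc 1 U).card := by
      refine card_le_card fun n hn => ?_
      rw [mem_filter, mem_Icc] at hn
      rw [mem_Icc]
      omega
    rw [Nat.card_Icc] at h2
    exact_mod_cast h2.trans (by omega)
  have t1 : ‖∑ m ∈ Icc 1 U, (ArithmeticFunction.moebius m : ℂ) *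
      ∑ k ∈ Icc 1 (N / m), ((Real.log k : ℝ) : ℂ) * lcF η N χ (m * k)‖ ≤
      U * (C * B * Real.log N) := by
    refine (norm_sum_le _ _).trans ?_
    have h1 : ∀ m ∈ Icc 1 U, ‖(ArithmeticFunction.moebius m : ℂ) *
        ∑ k ∈ Icc 1 (N / m), ((Real.log k : ℝ) : ℂ) * lcF η N χ (m * k)‖ ≤ C * B * Real.log N := by
      intro m hm
      rw [mem_Icc] at hm
      have e1 : ∑ k ∈ Icc 1 (N / m), ((Real.log k : ℝ) : ℂ) * lcF η N χ (m * k) =
          χ (m : ZMod q) * ∑ k ∈ Icc 1 (N / m), ((Real.log k : ℝ) : ℂ) *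
            (χ (k : ZMod q) * ((η (((m * k : ℕ) : ℝ) / N) : ℝ) : ℂ)) := by
        rw [mul_sum]
        refine sum_congr rfl fun k _ => ?_
        unfold lcF
        rw [Nat.cast_mul (α := ZMod q) m k, map_mul]
        ring
      rw [e1, norm_mul, norm_mul]
      have h2 := (hI m hm.1).2
      calc _ ≤ 1 * (1 * (C * B * Real.log N)) := by
            refine mul_le_mul (lc_mu m) ?_ (by positivity) (by norm_num)
            exact mul_le_mul (lc_chi χ _) h2 (norm_nonneg _) (by norm_num)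
        _ = C * B * Real.log N := by ring
    refine (sum_le_card_nsmul _ _ _ h1).trans ?_
    rw [nsmul_eq_mul, Nat.card_Icc, Nat.add_sub_cancel]
  have t2 : ‖∑ m ∈ Icc 1 U, ∑ l ∈ Icc 1 U, (ArithmeticFunction.moebius m : ℂ) *
      ((ArithmeticFunction.vonMangoldt l : ℝ) : ℂ) *
      ∑ k ∈ Icc 1 (N / (m * l)), lcF η N χ (m * l * k)‖ ≤ U * (Real.log N * (C * B)) +
        ∑ i ∈ range J, ‖lcmB η N U (U * 2 ^ i) χ‖ := by
    rw [lcm_fiber U (fun a => ∑ k ∈ Icc 1 (N / a), lcF η N χ (a * k))]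
    have hUU : U ≤ U * U := Nat.le_mul_of_pos_left U hU
    have hs : Icc 1 (U * U) = Icc 1 U ∪ Ioc U (U * U) := by
      ext a
      simp only [mem_union, mem_Icc, mem_Ioc]
      omega
    have hd : Disjoint (Icc 1 U) (Ioc U (U * U)) := by
      rw [Finset.disjoint_left]
      intro a ha hb
      rw [mem_Icc] at ha
      rw [mem_Ioc] at hb
      omega
    rw [hs, Finset.sum_union hd]
    refine (norm_add_le _ _).trans (add_le_add ?_ ?_)
    · refine (norm_sum_le _ _).trans ?_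
      have h1 : ∀ a ∈ Icc 1 U, ‖lcmC U a * ∑ k ∈ Icc 1 (N / a), lcF η N χ (a * k)‖ ≤
          Real.log N * (C * B) := by
        intro a ha
        rw [mem_Icc] at ha
        have e1 : ∑ k ∈ Icc 1 (N / a), lcF η N χ (a * k) =
            χ (a : ZMod q) * ∑ k ∈ Icc 1 (N / a),
              (χ (k : ZMod q) * ((η (((a * k : ℕ) : ℝ) / N) : ℝ) : ℂ)) := by
          rw [mul_sum]
          refine sum_congr rfl fun k _ => ?_
          unfold lcF
          rw [Nat.cast_mul (α := ZMod q) a k, map_mul]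
          ring
        have h3 := (hI a ha.1).1
        rw [e1, norm_mul, norm_mul]
        have h4 : Real.log a ≤ Real.log N :=
          Real.log_le_log (by exact_mod_cast ha.1) (by exact_mod_cast ha.2.trans hUN)
        calc _ ≤ Real.log N * (1 * (C * B)) := by
              refine mul_le_mul ((lcmC_norm U a ha.1).trans h4) ?_ (by positivity) hL
              exact mul_le_mul (lc_chi χ _) h3 (norm_nonneg _) (by norm_num)
          _ = Real.log N * (C * B) := by ring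
      refine (sum_le_card_nsmul _ _ _ h1).trans ?_
      rw [nsmul_eq_mul, Nat.card_Icc, Nat.add_sub_cancel]
    · have hUJ : U * U ≤ U * 2 ^ J := Nat.mul_le_mul_left U (hUN.trans hJ)
      have hsub : Ioc U (U * U) ⊆ Ioc U (U * 2 ^ J) := Ioc_subset_Ioc_right hUJ
      have e2 : ∑ a ∈ Ioc U (U * U), lcmC U a * ∑ k ∈ Icc 1 (N / a), lcF η N χ (a * k) =
          ∑ a ∈ Ioc U (U * 2 ^ J), ∑ k ∈ Icc 1 (N / a), lcmA U a * 1 *
            (χ ((a * k : ℕ) : ZMod q) * ((η (((a * k : ℕ) : ℝ) / N) : ℝ) : ℂ)) := by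
        have e3 : ∑ a ∈ Ioc U (U * U), lcmC U a * ∑ k ∈ Icc 1 (N / a), lcF η N χ (a * k) =
            ∑ a ∈ Ioc U (U * U), ∑ k ∈ Icc 1 (N / a), lcmA U a * 1 *
            (χ ((a * k : ℕ) : ZMod q) * ((η (((a * k : ℕ) : ℝ) / N) : ℝ) : ℂ)) := by
          refine sum_congr rfl fun a ha => ?_
          rw [mem_Ioc] at ha
          rw [mul_sum]
          refine sum_congr rfl fun k _ => ?_
          unfold lcmA lcF
          rw [if_pos ha.2]
          ring
        rw [e3]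
        apply sum_subset hsub
        intro a ha ha'
        rw [mem_Ioc] at ha ha'
        apply sum_eq_zero
        intro k _
        unfold lcmA
        rw [if_neg (by omega)]
        ring
      rw [e2, lc_dyadic]
      exact norm_sum_le _ _
  have t3 : ‖∑ l ∈ Ioc U N, ∑ k ∈ Icc 1 (N / l), ((ArithmeticFunction.vonMangoldt l : ℝ) : ℂ) *
      (cU U k : ℂ) * lcF η N χ (l * k)‖ ≤ ∑ i ∈ range J, ‖lcB η N U (U * 2 ^ i) χ‖ := by
    have hJ' : N ≤ U * 2 ^ J := hJ.trans (Nat.le_mul_of_pos_left _ hU)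
    have hsub : Ioc U N ⊆ Ioc U (U * 2 ^ J) := Ioc_subset_Ioc_right hJ'
    rw [sum_subset hsub, lc_dyadic]
    · exact norm_sum_le _ _
    · intro l hl hl'
      rw [mem_Ioc] at hl hl'
      have h0 : N / l = 0 := Nat.div_eq_of_lt (by omega)
      rw [h0]
      simp
  calc _ ≤ ‖∑ n ∈ (Icc 1 N).filter (fun n => n ≤ U),
      ((ArithmeticFunction.vonMangoldt n : ℝ) : ℂ) * lcF η N χ n‖ +
      ‖∑ m ∈ Icc 1 U, (ArithmeticFunction.moebius m : ℂ) *
        ∑ k ∈ Icc 1 (N / m), ((Real.log k : ℝ) : ℂ) * lcF η N χ (m * k)‖ +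
      ‖∑ m ∈ Icc 1 U, ∑ l ∈ Icc 1 U, (ArithmeticFunction.moebius m : ℂ) *
        ((ArithmeticFunction.vonMangoldt l : ℝ) : ℂ) *
        ∑ k ∈ Icc 1 (N / (m * l)), lcF η N χ (m * l * k)‖ +
      ‖∑ l ∈ Ioc U N, ∑ k ∈ Icc 1 (N / l), ((ArithmeticFunction.vonMangoldt l : ℝ) : ℂ) *
        (cU U k : ℂ) * lcF η N χ (l * k)‖ := by
        refine (norm_add_le _ _).trans (add_le_add_left ?_ _)
        refine (norm_sub_le _ _).trans (add_le_add_left ?_ _)
        exact norm_add_le _ _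
    _ ≤ (U * Real.log N + U * (C * B * Real.log N) + (U * (Real.log N * (C * B)) +
        ∑ i ∈ range J, ‖lcmB η N U (U * 2 ^ i) χ‖)) +
        ∑ i ∈ range J, ‖lcB η N U (U * 2 ^ i) χ‖ :=
        add_le_add (add_le_add (add_le_add t0 t1) t2) t3
    _ = _ := by ring

/-- numerical part of the block bound -/
theorem lcm_num (C M X U T A B : ℝ) (hC : 0 < C) (hM : 0 < M) (hX : 0 < X) (hU : 0 < U)
    (hT : 0 ≤ T) (hA : 0 ≤ A) (hB : 0 ≤ B) (hUM : U ≤ M) (hMX : M * U ≤ X) (Sa Sb : ℝ)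
    (hSa : Sa ≤ M * A ^ 2) (hSb : Sb ≤ X / M * B ^ 2) :
    C * Real.sqrt ((M + T) * Sa) * Real.sqrt ((X / M + T) * Sb) ≤
      C * (A * B) * (X + 2 * (X * Real.sqrt (T / U)) + T * Real.sqrt X) := by
  have hNM0 : (0 : ℝ) < X / M := by positivity
  have hsplit : ∀ x : ℝ, 0 ≤ x → Real.sqrt (x + T) ≤ Real.sqrt x + Real.sqrt T := by
    intro x hx
    refine Real.sqrt_le_iff.2 ⟨by positivity, ?_⟩
    have h0 := Real.sq_sqrt hx
    have h1 := Real.sq_sqrt hT
    have h2 : 0 ≤ Real.sqrt x * Real.sqrt T := by positivity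
    nlinarith
  have hXX : Real.sqrt ((M + T) * Sa) ≤ (Real.sqrt M + Real.sqrt T) * (Real.sqrt M * A) := by
    rw [Real.sqrt_mul (by positivity)]
    refine mul_le_mul (hsplit M hM.le) ?_ (Real.sqrt_nonneg _) (by positivity)
    refine Real.sqrt_le_iff.2 ⟨by positivity, hSa.trans (le_of_eq ?_)⟩
    rw [mul_pow (Real.sqrt M), Real.sq_sqrt hM.le]
  have hYY : Real.sqrt ((X / M + T) * Sb) ≤
      (Real.sqrt (X / M) + Real.sqrt T) * (Real.sqrt (X / M) * B) := by
    rw [Real.sqrt_mul (by positivity)]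
    refine mul_le_mul (hsplit _ hNM0.le) ?_ (Real.sqrt_nonneg _) (by positivity)
    refine Real.sqrt_le_iff.2 ⟨by positivity, hSb.trans (le_of_eq ?_)⟩
    rw [mul_pow (Real.sqrt (X / M)), Real.sq_sqrt hNM0.le]
  set s := Real.sqrt M with hs
  set t := Real.sqrt (X / M) with ht
  set r := Real.sqrt T with hr
  have hs0 : 0 < s := Real.sqrt_pos.2 hM
  have ht0 : 0 < t := Real.sqrt_pos.2 hNM0
  have hr0 : 0 ≤ r := Real.sqrt_nonneg _
  have hst : s * t = Real.sqrt X := by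
    rw [hs, ht, ← Real.sqrt_mul hM.le]
    congr 1
    field_simp
  have hNN : Real.sqrt X * Real.sqrt X = X := Real.mul_self_sqrt hX.le
  have hrr : r * r = T := Real.mul_self_sqrt hT
  have hUX : U ≤ X / M := by
    rw [le_div_iff₀ hM]
    linarith
  have hsU : Real.sqrt U ≤ s := Real.sqrt_le_sqrt hUM
  have htU : Real.sqrt U ≤ t := Real.sqrt_le_sqrt hUX
  have hU0 : 0 < Real.sqrt U := Real.sqrt_pos.2 hU
  have hsle : s * Real.sqrt X ≤ X / Real.sqrt U := by
    rw [le_div_iff₀ hU0]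
    calc s * Real.sqrt X * Real.sqrt U ≤ s * Real.sqrt X * t :=
          mul_le_mul_of_nonneg_left htU (by positivity)
      _ = (s * t) * Real.sqrt X := by ring
      _ = X := by rw [hst, hNN]
  have htle : t * Real.sqrt X ≤ X / Real.sqrt U := by
    rw [le_div_iff₀ hU0]
    calc t * Real.sqrt X * Real.sqrt U ≤ t * Real.sqrt X * s :=
          mul_le_mul_of_nonneg_left hsU (by positivity)
      _ = (s * t) * Real.sqrt X := by ring
      _ = X := by rw [hst, hNN]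
  have hTU : Real.sqrt (T / U) = r / Real.sqrt U := by
    rw [Real.sqrt_div hT]
  calc _ ≤ C * ((s + r) * (s * A)) * ((t + r) * (t * B)) := by
        refine mul_le_mul (mul_le_mul_of_nonneg_left hXX hC.le) hYY (Real.sqrt_nonneg _)
          (by positivity)
    _ = C * (A * B) * ((s * t) * (s * t) + r * (s * (s * t)) + r * (t * (s * t)) +
          (r * r) * (s * t)) := by ring
    _ = C * (A * B) * (X + r * (s * Real.sqrt X) + r * (t * Real.sqrt X) +
          T * Real.sqrt X) := by rw [hst, hNN, hrr]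
    _ ≤ C * (A * B) * (X + r * (X / Real.sqrt U) + r * (X / Real.sqrt U) +
          T * Real.sqrt X) := by
        gcongr
    _ = C * (A * B) * (X + 2 * (X * Real.sqrt (T / U)) + T * Real.sqrt X) := by
        rw [hTU]
        ring

/-- the blocks of the second sum -/
theorem lcm_blockB {η : ℝ → ℝ} {C : ℝ} (hC : 0 < C)
    (hII : ∀ N e K M : ℕ, 1 ≤ N → 1 ≤ e → 1 ≤ M → ∀ a b : ℕ → ℂ,
    ∑ k ∈ Icc 1 K, ∑ χ ∈ prim (e * k),
      ‖∑ l ∈ Ioc M (2 * M), ∑ j ∈ Icc 1 (N / l), a l * b j *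
        (χ ((l * j : ℕ) : ZMod (e * k)) * ((η (((l * j : ℕ) : ℝ) / N) : ℝ) : ℂ))‖ ≤
      C * Real.sqrt (((M : ℝ) + e * (K : ℝ) ^ 2) * ∑ l ∈ Ioc M (2 * M), ‖a l‖ ^ 2) *
        Real.sqrt (((N : ℝ) / M + e * (K : ℝ) ^ 2) * ∑ j ∈ Icc 1 (N / M), ‖b j‖ ^ 2))
    {N U M e K : ℕ} (hN : 3 ≤ N) (he : 1 ≤ e) (hU : 1 ≤ U) (hUM : U ≤ M) (hU3 : U ^ 3 ≤ N)
    (hL : 1 ≤ Real.log N) :
    ∑ k ∈ Icc 1 K, ∑ χ ∈ prim (e * k), ‖lcmB η N U M χ‖ ≤
      C * (2 * Real.log N * 1) * (N + 2 * (N * Real.sqrt ((e * (K : ℝ) ^ 2) / U)) +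
        e * (K : ℝ) ^ 2 * Real.sqrt N) := by
  have hM : 1 ≤ M := hU.trans hUM
  have hMR : (0 : ℝ) < M := by exact_mod_cast hM
  have hNR : (0 : ℝ) < N := by exact_mod_cast (by omega : 0 < N)
  have hUR : (0 : ℝ) < U := by exact_mod_cast (by omega : 0 < U)
  set L := Real.log N with hLdef
  rcases Nat.lt_or_ge M (U * U) with hlt | hge
  · have hMU : M * U ≤ N := by
      calc M * U ≤ (U * U) * U := Nat.mul_le_mul_right U hlt.le
        _ = U ^ 3 := by ring
        _ ≤ N := hU3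
    have hMUR : (M : ℝ) * U ≤ N := by exact_mod_cast hMU
    have hMN : M ≤ N := (Nat.le_mul_of_pos_right M hU).trans hMU
    have h1 := hII N e K M (by omega) he hM (fun l => lcmA U l) (fun _ => 1)
    refine le_trans (le_of_eq ?_) (h1.trans ?_)
    · rfl
    apply lcm_num C M N U (e * (K : ℝ) ^ 2) (2 * L) 1 hC hMR hNR hUR (by positivity)
      (by positivity) (by norm_num) (by exact_mod_cast hUM) hMUR
    · have h2 : ∀ l ∈ Ioc M (2 * M), ‖lcmA U l‖ ^ 2 ≤ (2 * L) ^ 2 := by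
        intro l hl
        rw [mem_Ioc] at hl
        refine pow_le_pow_left₀ (norm_nonneg _) ?_ 2
        refine (lcmA_norm U l (by omega)).trans ?_
        have h3 : Real.log l ≤ Real.log ((N ^ 2 : ℕ) : ℝ) := by
          apply Real.log_le_log
          · exact_mod_cast (by omega : 0 < l)
          · have : l ≤ N ^ 2 := by nlinarith
            exact_mod_cast this
        rwa [Nat.cast_pow, Real.log_pow, Nat.cast_ofNat] at h3
      refine (sum_le_card_nsmul _ _ _ h2).trans ?_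
      rw [nsmul_eq_mul, Nat.card_Ioc]
      have : 2 * M - M = M := by omega
      rw [this]
    · simp only [norm_one, one_pow, sum_const, nsmul_eq_mul, mul_one]
      rw [Nat.card_Icc, Nat.add_sub_cancel]
      exact Nat.cast_div_le
  · have hz : ∀ (q : ℕ) (χ : DirichletCharacter ℂ q), lcmB η N U M χ = 0 := by
      intro q χ
      unfold lcmB
      refine sum_eq_zero fun l hl => sum_eq_zero fun k _ => ?_
      rw [mem_Ioc] at hl
      unfold lcmA
      rw [if_neg (by omega)]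
      ring
    refine le_trans (le_of_eq ?_) (by positivity :
      (0 : ℝ) ≤ C * (2 * L * 1) * (N + 2 * (N * Real.sqrt ((e * (K : ℝ) ^ 2) / U)) +
        e * (K : ℝ) ^ 2 * Real.sqrt N))
    refine sum_eq_zero fun q _ => sum_eq_zero fun χ _ => ?_
    rw [hz, norm_zero]

/-- the blocks of the last sum -/
theorem lcm_blockL {η : ℝ → ℝ} {C : ℝ} (hC : 0 < C)
    (hII : ∀ N e K M : ℕ, 1 ≤ N → 1 ≤ e → 1 ≤ M → ∀ a b : ℕ → ℂ,
    ∑ k ∈ Icc 1 K, ∑ χ ∈ prim (e * k),
      ‖∑ l ∈ Ioc M (2 * M), ∑ j ∈ Icc 1 (N / l), a l * b j *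
        (χ ((l * j : ℕ) : ZMod (e * k)) * ((η (((l * j : ℕ) : ℝ) / N) : ℝ) : ℂ))‖ ≤
      C * Real.sqrt (((M : ℝ) + e * (K : ℝ) ^ 2) * ∑ l ∈ Ioc M (2 * M), ‖a l‖ ^ 2) *
        Real.sqrt (((N : ℝ) / M + e * (K : ℝ) ^ 2) * ∑ j ∈ Icc 1 (N / M), ‖b j‖ ^ 2))
    {N U M e K : ℕ} (hN : 3 ≤ N) (he : 1 ≤ e) (hU : 1 ≤ U) (hUM : U ≤ M)
    (hL : 1 ≤ Real.log N) :
    ∑ k ∈ Icc 1 K, ∑ χ ∈ prim (e * k), ‖lcB η N U M χ‖ ≤
      C * (2 * Real.log N * (3 * Real.log N ^ 2)) *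
        (N + 2 * (N * Real.sqrt ((e * (K : ℝ) ^ 2) / U)) + e * (K : ℝ) ^ 2 * Real.sqrt N) := by
  have hM : 1 ≤ M := hU.trans hUM
  have hMR : (0 : ℝ) < M := by exact_mod_cast hM
  have hNR : (0 : ℝ) < N := by exact_mod_cast (by omega : 0 < N)
  have hUR : (0 : ℝ) < U := by exact_mod_cast (by omega : 0 < U)
  set L := Real.log N with hLdef
  rcases Nat.lt_or_ge U (N / M) with hlt | hge
  · have hNM : 1 ≤ N / M := by omega
    have hMN : M ≤ N := by
      by_contra h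
      have : N / M = 0 := Nat.div_eq_of_lt (by omega)
      omega
    have hMU : M * U ≤ N := by
      calc M * U ≤ M * (N / M) := Nat.mul_le_mul_left M hlt.le
        _ ≤ N := Nat.mul_div_le N M
    have hMUR : (M : ℝ) * U ≤ N := by exact_mod_cast hMU
    have hdiv : ((N / M : ℕ) : ℝ) ≤ (N : ℝ) / M := Nat.cast_div_le
    have hNM0 : (0 : ℝ) < (N : ℝ) / M := by positivity
    have h1 := hII N e K M (by omega) he hM
      (fun l => ((ArithmeticFunction.vonMangoldt l : ℝ) : ℂ)) (fun k => (cU U k : ℂ))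
    refine le_trans (le_of_eq ?_) (h1.trans ?_)
    · rfl
    apply lcm_num C M N U (e * (K : ℝ) ^ 2) (2 * L) (3 * L ^ 2) hC hMR hNR hUR (by positivity)
      (by positivity) (by positivity) (by exact_mod_cast hUM) hMUR
    · have h2 : ∀ l ∈ Ioc M (2 * M), ‖((ArithmeticFunction.vonMangoldt l : ℝ) : ℂ)‖ ^ 2 ≤
          (2 * L) ^ 2 := by
        intro l hl
        rw [mem_Ioc] at hl
        refine pow_le_pow_left₀ (norm_nonneg _) ?_ 2
        have h3 := lc_Lam (n := l) (N := N ^ 2) (by omega) (by nlinarith)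
        rwa [Nat.cast_pow, Real.log_pow, Nat.cast_ofNat] at h3
      refine (sum_le_card_nsmul _ _ _ h2).trans ?_
      rw [nsmul_eq_mul, Nat.card_Ioc]
      have : 2 * M - M = M := by omega
      rw [this]
    · have h2 : ∑ k ∈ Icc 1 (N / M), ‖(cU U k : ℂ)‖ ^ 2 ≤
          ∑ k ∈ Icc 1 (N / M), (k.divisors.card : ℝ) ^ 2 := by
        refine sum_le_sum fun k _ => ?_
        refine pow_le_pow_left₀ (norm_nonneg _) ?_ 2
        rw [Complex.norm_intCast]
        have := cU_abs_le U k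
        exact_mod_cast this
      refine h2.trans ((sum_divisors_sq (N / M) hNM).trans ?_)
      have h3 : Real.log ((N / M : ℕ) : ℝ) ≤ L :=
        Real.log_le_log (by exact_mod_cast hNM) (by exact_mod_cast Nat.div_le_self N M)
      have h4 : 0 ≤ Real.log ((N / M : ℕ) : ℝ) := Real.log_natCast_nonneg _
      have h5 : (1 + Real.log ((N / M : ℕ) : ℝ)) ^ 3 ≤ (2 * L) ^ 3 :=
        pow_le_pow_left₀ (by linarith) (by linarith) 3
      have h6 : (2 * L) ^ 3 ≤ (3 * L ^ 2) ^ 2 := by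
        calc (2 * L) ^ 3 = 8 * L ^ 3 := by ring
          _ ≤ 9 * L ^ 4 := by
              refine mul_le_mul (by norm_num) (pow_le_pow_right₀ hL (by norm_num)) (by positivity)
                (by norm_num)
          _ = (3 * L ^ 2) ^ 2 := by ring
      exact mul_le_mul hdiv (h5.trans h6) (by positivity) (by positivity)
  · have hz : ∀ (q : ℕ) (χ : DirichletCharacter ℂ q), lcB η N U M χ = 0 := by
      intro q χ
      unfold lcB
      refine sum_eq_zero fun l hl => sum_eq_zero fun k hk => ?_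
      rw [mem_Ioc] at hl
      rw [mem_Icc] at hk
      have h1 : N / l ≤ N / M := Nat.div_le_div_left hl.1.le (by omega)
      rw [cU_eq_zero U k (by omega)]
      simp
    refine le_trans (le_of_eq ?_) (by positivity :
      (0 : ℝ) ≤ C * (2 * L * (3 * L ^ 2)) *
        (N + 2 * (N * Real.sqrt ((e * (K : ℝ) ^ 2) / U)) + e * (K : ℝ) ^ 2 * Real.sqrt N))
    refine sum_eq_zero fun q _ => sum_eq_zero fun χ _ => ?_
    rw [hz, norm_zero]

/-- number of characters -/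
theorem lcm_card (e K : ℕ) (he : 1 ≤ e) :
    ∑ k ∈ Icc 1 K, ((prim (e * k)).card : ℝ) ≤ e * (K : ℝ) ^ 2 := by
  have h1 : ∀ k ∈ Icc 1 K, ((prim (e * k)).card : ℝ) ≤ e * K := by
    intro k hk
    rw [mem_Icc] at hk
    have hek : 0 < e * k := Nat.mul_pos he hk.1
    have : NeZero (e * k) := ⟨by omega⟩
    have h2 : (prim (e * k)).card ≤ e * K := by
      calc (prim (e * k)).card ≤ Fintype.card (DirichletCharacter ℂ (e * k)) := card_le_univ _
        _ = Nat.card (DirichletCharacter ℂ (e * k)) := (Nat.card_eq_fintype_card).symm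
        _ = (e * k).totient := DirichletCharacter.card_eq_totient_of_hasEnoughRootsOfUnity ℂ _
        _ ≤ e * k := Nat.totient_le _
        _ ≤ e * K := Nat.mul_le_mul_left e hk.2
    exact_mod_cast h2
  refine (sum_le_card_nsmul _ _ _ h1).trans ?_
  rw [nsmul_eq_mul, Nat.card_Icc, Nat.add_sub_cancel]
  apply le_of_eq
  ring

/-- keep this signature -/
theorem thm_LCm (h1 : St_PV) (h2 : St_TIIm) : St_LCm := by
  intro η hη
  obtain ⟨C0, hC0, hPV⟩ := h1
  obtain ⟨C1, hC1, hI⟩ := lcm_typeI η hη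
  obtain ⟨C2, hC2, hII⟩ := h2 η hη
  obtain ⟨C, hC⟩ := exists_nat_ge (1 + 2 * C1 * C0 + 48 * C2)
  refine ⟨C + 4, fun X e K U hX he hK hU hU3 => ?_⟩
  have hXR : (3 : ℝ) ≤ X := by exact_mod_cast hX
  have hL : 1 ≤ Real.log X := by
    rw [Real.le_log_iff_exp_le (by linarith)]
    have h1 := Real.exp_one_lt_d9
    linarith
  have hUX : U ≤ X := (Nat.le_self_pow (by norm_num) U).trans hU3
  obtain ⟨J, hJ, hJL⟩ := lc_J X hX hL
  set L := Real.log X with hLdef
  have hL0 : 0 ≤ L := by linarith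
  have heR : (1 : ℝ) ≤ e := by exact_mod_cast he
  have hKR : (1 : ℝ) ≤ K := by exact_mod_cast hK
  have hUR : (1 : ℝ) ≤ U := by exact_mod_cast hU
  have heK : (1 : ℝ) ≤ (e : ℝ) * K := by nlinarith
  have hlog : 0 ≤ Real.log ((e : ℝ) * K) := Real.log_nonneg heK
  have hsq : 1 ≤ Real.sqrt ((e : ℝ) * K) := by
    rw [Real.one_le_sqrt]
    exact heK
  set B : ℝ := C0 * (Real.sqrt ((e : ℝ) * K) * (1 + Real.log ((e : ℝ) * K))) with hBdef
  have hB0 : 0 ≤ B := by positivity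
  set A : ℝ := U * L + U * (C1 * B * L) + U * (L * (C1 * B)) with hAdef
  have hA0 : 0 ≤ A := by positivity
  set T : ℝ := (e : ℝ) * (K : ℝ) ^ 2 with hTdef
  have hT0 : 0 ≤ T := by positivity
  set W : ℝ := X + 2 * (X * Real.sqrt (T / U)) + T * Real.sqrt X with hWdef
  have hW0 : 0 ≤ W := by positivity
  have step1 : ∑ k ∈ Icc 1 K, ∑ χ ∈ prim (e * k), ‖psiChi η X χ‖ ≤
      ∑ k ∈ Icc 1 K, ∑ χ ∈ prim (e * k), (A + ∑ i ∈ range J, ‖lcmB η X U (U * 2 ^ i) χ‖ +
        ∑ i ∈ range J, ‖lcB η X U (U * 2 ^ i) χ‖) := by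
    refine sum_le_sum fun k hk => sum_le_sum fun χ hχ => ?_
    rw [mem_Icc] at hk
    have hek : 1 ≤ e * k := Nat.mul_pos he hk.1
    have hekR : (1 : ℝ) ≤ ((e * k : ℕ) : ℝ) := by exact_mod_cast hek
    have hekK : ((e * k : ℕ) : ℝ) ≤ (e : ℝ) * K := by
      have : e * k ≤ e * K := Nat.mul_le_mul_left e hk.2
      exact_mod_cast this
    have hSB : ∀ J : ℕ, ‖∑ k_1 ∈ Icc 1 J, χ ((k_1 : ℕ) : ZMod (e * k))‖ ≤ B := by
      intro J'
      have h3 := hPV (e * k) 0 J' hek χ hχ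
      have h4 : Ioc 0 J' = Icc 1 J' := by
        ext x; simp only [mem_Ioc, mem_Icc]; omega
      rw [h4] at h3
      refine h3.trans ?_
      rw [hBdef]
      have h5 : Real.sqrt ((e * k : ℕ) : ℝ) ≤ Real.sqrt ((e : ℝ) * K) := Real.sqrt_le_sqrt hekK
      have h6 : Real.log ((e * k : ℕ) : ℝ) ≤ Real.log ((e : ℝ) * K) :=
        Real.log_le_log (by linarith) hekK
      have h7 : 0 ≤ Real.log ((e * k : ℕ) : ℝ) := Real.log_nonneg hekR
      gcongr
    exact lcm_single hη hC1 hB0 hX hU hUX hJ χ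
      (fun m hm => hI X (by omega) (e * k) χ B hB0 hSB m hm)
  have step3 : ∑ k ∈ Icc 1 K, ∑ χ ∈ prim (e * k),
      (A + ∑ i ∈ range J, ‖lcmB η X U (U * 2 ^ i) χ‖ +
        ∑ i ∈ range J, ‖lcB η X U (U * 2 ^ i) χ‖) =
      (∑ k ∈ Icc 1 K, ((prim (e * k)).card : ℝ)) * A +
        ∑ i ∈ range J, ∑ k ∈ Icc 1 K, ∑ χ ∈ prim (e * k), ‖lcmB η X U (U * 2 ^ i) χ‖ +
        ∑ i ∈ range J, ∑ k ∈ Icc 1 K, ∑ χ ∈ prim (e * k), ‖lcB η X U (U * 2 ^ i) χ‖ := by
    rw [sum_comm (s := range J), sum_comm (s := range J), sum_mul, ← sum_add_distrib,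
      ← sum_add_distrib]
    refine sum_congr rfl fun q _ => ?_
    rw [sum_add_distrib, sum_add_distrib, sum_const, nsmul_eq_mul]
    congr 1
    · congr 1
      rw [sum_comm]
    · rw [sum_comm]
  have step4 : (∑ k ∈ Icc 1 K, ((prim (e * k)).card : ℝ)) * A ≤ T * A :=
    mul_le_mul_of_nonneg_right (lcm_card e K he) hA0
  have step5 : ∑ i ∈ range J, ∑ k ∈ Icc 1 K, ∑ χ ∈ prim (e * k),
      ‖lcmB η X U (U * 2 ^ i) χ‖ ≤ (3 * L) * (C2 * (2 * L * 1) * W) := by
    have h1 : ∀ i ∈ range J, ∑ k ∈ Icc 1 K, ∑ χ ∈ prim (e * k), ‖lcmB η X U (U * 2 ^ i) χ‖ ≤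
        C2 * (2 * L * 1) * W := fun i _ =>
      lcm_blockB hC2 hII hX he hU (Nat.le_mul_of_pos_right _ (by positivity)) hU3 hL
    refine (sum_le_card_nsmul _ _ _ h1).trans ?_
    rw [nsmul_eq_mul, card_range]
    exact mul_le_mul_of_nonneg_right hJL (by positivity)
  have step6 : ∑ i ∈ range J, ∑ k ∈ Icc 1 K, ∑ χ ∈ prim (e * k),
      ‖lcB η X U (U * 2 ^ i) χ‖ ≤ (3 * L) * (C2 * (2 * L * (3 * L ^ 2)) * W) := by
    have h1 : ∀ i ∈ range J, ∑ k ∈ Icc 1 K, ∑ χ ∈ prim (e * k), ‖lcB η X U (U * 2 ^ i) χ‖ ≤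
        C2 * (2 * L * (3 * L ^ 2)) * W := fun i _ =>
      lcm_blockL hC2 hII hX he hU (Nat.le_mul_of_pos_right _ (by positivity)) hL
    refine (sum_le_card_nsmul _ _ _ h1).trans ?_
    rw [nsmul_eq_mul, card_range]
    exact mul_le_mul_of_nonneg_right hJL (by positivity)
  set V : ℝ := T * U * Real.sqrt ((e : ℝ) * K) with hVdef
  have hV0 : 0 ≤ V := by positivity
  set G : ℝ := 1 + Real.log ((e : ℝ) * K) with hGdef
  have hG1 : 1 ≤ G := by linarith
  have step7 : T * A ≤ (1 + 2 * C1 * C0) * L * (G * V) := by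
    have e1 : T * A = T * U * L + 2 * C1 * C0 * L * (G * V) := by
      rw [hAdef, hBdef, hVdef]
      ring
    rw [e1]
    have h3 : T * U * L ≤ 1 * L * (G * V) := by
      have h4 : T * U ≤ G * V := by
        calc T * U = 1 * (T * U * 1) := by ring
          _ ≤ G * V := by
              rw [hVdef]
              gcongr
      calc T * U * L ≤ (G * V) * L := mul_le_mul_of_nonneg_right h4 hL0
        _ = 1 * L * (G * V) := by ring
    nlinarith
  set R : ℝ := X + X * Real.sqrt (T / U) + T * Real.sqrt X with hRdef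
  have hR0 : 0 ≤ R := by positivity
  have hWR : W ≤ 2 * R := by
    rw [hWdef, hRdef]
    have h3 : 0 ≤ T * Real.sqrt X := by positivity
    nlinarith
  have h14 : L ≤ L ^ 4 := by
    calc L = L ^ 1 := (pow_one L).symm
      _ ≤ L ^ 4 := pow_le_pow_right₀ hL (by norm_num)
  have h24 : L ^ 2 ≤ L ^ 4 := pow_le_pow_right₀ hL (by norm_num)
  calc ∑ k ∈ Icc 1 K, ∑ χ ∈ prim (e * k), ‖psiChi η X χ‖ ≤
      (1 + 2 * C1 * C0) * L * (G * V) + (3 * L) * (C2 * (2 * L * 1) * W) +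
        (3 * L) * (C2 * (2 * L * (3 * L ^ 2)) * W) := by
        refine step1.trans ?_
        rw [step3]
        exact add_le_add (add_le_add (step4.trans step7) step5) step6
    _ = (1 + 2 * C1 * C0) * L * (G * V) + 6 * C2 * L ^ 2 * W + 18 * C2 * L ^ 4 * W := by ring
    _ ≤ (1 + 2 * C1 * C0) * L ^ 4 * (G * V) + 6 * C2 * L ^ 4 * (2 * R) +
          18 * C2 * L ^ 4 * (2 * R) := by
        gcongr
    _ ≤ (1 + 2 * C1 * C0) * L ^ 4 * (G * V) + 6 * C2 * L ^ 4 * (2 * (G * R)) +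
          18 * C2 * L ^ 4 * (2 * (G * R)) := by
        have h3 : R ≤ G * R := by
          calc R = 1 * R := (one_mul R).symm
            _ ≤ G * R := mul_le_mul_of_nonneg_right hG1 hR0
        gcongr
    _ = (1 + 2 * C1 * C0) * L ^ 4 * (G * V) + 48 * C2 * L ^ 4 * (G * R) := by ring
    _ ≤ (1 + 2 * C1 * C0 + 48 * C2) * L ^ 4 * (G * (R + V)) := by
        have h3 : 0 ≤ (1 + 2 * C1 * C0) * L ^ 4 * (G * R) := by positivity
        have h4 : 0 ≤ 48 * C2 * L ^ 4 * (G * V) := by positivity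
        nlinarith
    _ ≤ ((C + 4 : ℕ) : ℝ) * L ^ (C + 4) * (G * (R + V)) := by
        have h3 : 1 + 2 * C1 * C0 + 48 * C2 ≤ ((C + 4 : ℕ) : ℝ) := by
          push_cast
          linarith
        have h4 : L ^ 4 ≤ L ^ (C + 4) := pow_le_pow_right₀ hL (by omega)
        gcongr
    _ = ((C + 4 : ℕ) : ℝ) * L ^ (C + 4) * (1 + Real.log ((e : ℝ) * K)) *
          (X + X * Real.sqrt (e * K ^ 2 / U) + e * K ^ 2 * Real.sqrt X +
            e * K ^ 2 * U * Real.sqrt (e * K)) := by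
        rw [hGdef, hRdef, hVdef, hTdef]
        ring

end Pool.Agent.CU
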