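import Mathlib
import Pool.Agent.CU.Stmts
import Pool.Agent.BVX.MulLS

set_option autoImplicit false

/-!
# CU / LSm

Copy of BVX.large_sieve2 (Pool/Agent/BVX/MulLS.lean) with the points b/(e k), 1 <= k <= K, 0 <= b < e k, (b, e k) = 1.  They are different and 1/(e K^2)-spaced modulo 1: |b/(ek) - b'/(ek') - z| = |b k' - b' k - z e k k'|/(e k k') >= 1/(e K^2) as the numerator is a nonzero integer
(zero would give equal reduced fractions, so e k = e k', b = b').  add_ls (BVX/AddLS.lean) with delta = 1/(e K^2), then all_chars/one_mod for the modulus e k as in the original.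
-/

namespace Pool.Agent.CU

open Finset Filter Pool.Agent.MT Pool.Agent.CH

/-- reduced fractions with difference an integer are equal -/
theorem lsm_ne {q b q' b' : ℕ} (hq : 1 ≤ q) (hb : b < q) (hb' : b' < q')
    (hc : b.Coprime q) (hc' : b'.Coprime q') (hne : ¬ (q = q' ∧ b = b')) (m : ℤ) :
    (b : ℤ) * q' - (b' : ℤ) * q - m * (q * q') ≠ 0 := by
  intro h0
  apply hne
  have h1 : (q : ℤ) ∣ (q' : ℤ) := by
    have h2 : (q : ℤ) ∣ (b : ℤ) * q' := by
      refine ⟨(b' : ℤ) + m * q', ?_⟩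
      linear_combination h0
    have h3 : IsCoprime (q : ℤ) (b : ℤ) := (Nat.isCoprime_iff_coprime.mpr hc).symm
    exact h3.dvd_of_dvd_mul_left h2
  have h1' : (q' : ℤ) ∣ (q : ℤ) := by
    have h2 : (q' : ℤ) ∣ (b' : ℤ) * q := by
      refine ⟨(b : ℤ) - m * q, ?_⟩
      linear_combination -h0
    have h3 : IsCoprime (q' : ℤ) (b' : ℤ) := (Nat.isCoprime_iff_coprime.mpr hc').symm
    exact h3.dvd_of_dvd_mul_left h2
  have h4 : q = q' := Nat.dvd_antisymm (Int.natCast_dvd_natCast.mp h1)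
    (Int.natCast_dvd_natCast.mp h1')
  refine ⟨h4, ?_⟩
  subst h4
  have h5 : (b : ℤ) - b' = m * q := by
    have h6 : (q : ℤ) ≠ 0 := by exact_mod_cast (by omega : q ≠ 0)
    apply mul_right_cancel₀ h6
    linear_combination h0
  have h7 : m = 0 := by
    by_contra hm0
    have h8 : (q : ℤ) ≤ |(b : ℤ) - b'| := by
      rw [h5, abs_mul]
      have h9 : 1 ≤ |m| := Int.one_le_abs hm0
      have h10 : |(q : ℤ)| = q := abs_of_nonneg (by positivity)
      rw [h10]
      nlinarith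
    have h11 : |(b : ℤ) - b'| < q := by
      rw [abs_lt]
      constructor <;> omega
    omega
  rw [h7, zero_mul] at h5
  omega

/-- spacing of the fractions whose denominators are multiples of `e` -/
theorem lsm_spacing {e k b k' b' K : ℕ} (he : 1 ≤ e) (hk : 1 ≤ k) (hkK : k ≤ K) (hk' : 1 ≤ k')
    (hkK' : k' ≤ K) (hb : b < e * k) (hb' : b' < e * k') (hc : b.Coprime (e * k))
    (hc' : b'.Coprime (e * k')) (hne : ¬ (k = k' ∧ b = b')) :
    1 / ((e : ℝ) * (K : ℝ) ^ 2) ≤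
      BVX.dd ((b : ℝ) / ((e * k : ℕ) : ℝ) - (b' : ℝ) / ((e * k' : ℕ) : ℝ)) := by
  have he0 : (0 : ℝ) < e := by exact_mod_cast he
  have hk0 : (0 : ℝ) < k := by exact_mod_cast hk
  have hk0' : (0 : ℝ) < k' := by exact_mod_cast hk'
  set m : ℤ := round ((b : ℝ) / ((e * k : ℕ) : ℝ) - (b' : ℝ) / ((e * k' : ℕ) : ℝ)) with hm
  have e1 : ((b : ℝ) / ((e * k : ℕ) : ℝ) - (b' : ℝ) / ((e * k' : ℕ) : ℝ)) - m =
      (((b : ℤ) * k' - (b' : ℤ) * k - m * (e * k * k') : ℤ) : ℝ) / (e * k * k') := by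
    push_cast
    field_simp
  have hnz : (b : ℤ) * k' - (b' : ℤ) * k - m * (e * k * k') ≠ 0 := by
    intro h0
    have h1 := lsm_ne (Nat.mul_pos he hk) hb hb' hc hc' (fun h => hne
      ⟨Nat.eq_of_mul_eq_mul_left he h.1, h.2⟩) m
    apply h1
    push_cast
    linear_combination (e : ℤ) * h0
  have h12 : (1 : ℝ) ≤ |(((b : ℤ) * k' - (b' : ℤ) * k - m * (e * k * k') : ℤ) : ℝ)| := by
    rw [← Int.cast_abs]
    exact_mod_cast Int.one_le_abs hnz
  unfold BVX.dd
  rw [← hm, e1, abs_div, abs_of_pos (mul_pos (mul_pos he0 hk0) hk0')]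
  have hR : (e : ℝ) * k * k' ≤ (e : ℝ) * (K : ℝ) ^ 2 := by
    rw [sq, mul_assoc]
    have e2 : (k : ℝ) ≤ K := by exact_mod_cast hkK
    have e3 : (k' : ℝ) ≤ K := by exact_mod_cast hkK'
    exact mul_le_mul_of_nonneg_left (mul_le_mul e2 e3 hk0'.le (hk0.le.trans e2)) he0.le
  calc 1 / ((e : ℝ) * (K : ℝ) ^ 2) ≤ 1 / (e * k * k') :=
        one_div_le_one_div_of_le (mul_pos (mul_pos he0 hk0) hk0') hR
    _ ≤ _ := div_le_div_of_nonneg_right h12 (mul_pos (mul_pos he0 hk0) hk0').le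

/-- keep this signature -/
theorem thm_LSm : St_LSm := by
  classical
  refine ⟨16, by norm_num, ?_⟩
  intro e K u v he huv a
  rcases Nat.eq_zero_or_pos K with hK | hK
  · subst hK
    have : (u : ℝ) ≤ v := by exact_mod_cast huv
    have h0 : 0 ≤ ∑ n ∈ Ioc u v, ‖a n‖ ^ 2 := sum_nonneg fun _ _ => sq_nonneg _
    simp only [show Icc 1 0 = (∅ : Finset ℕ) from rfl, sum_empty]
    apply mul_nonneg _ h0
    have h1 : (0 : ℝ) ≤ (e : ℝ) * ((0 : ℕ) : ℝ) ^ 2 := by positivity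
    linarith
  have he1 : (1 : ℝ) ≤ e := by exact_mod_cast he
  have hK1 : (1 : ℝ) ≤ K := by exact_mod_cast hK
  have heK : (1 : ℝ) ≤ (e : ℝ) * (K : ℝ) ^ 2 := by nlinarith
  set S : Finset (Σ _ : ℕ, ℕ) :=
    (Icc 1 K).sigma (fun k => (range (e * k)).filter (fun b => b.Coprime (e * k))) with hS
  have hmem : ∀ x ∈ S, 1 ≤ x.1 ∧ x.1 ≤ K ∧ x.2 < e * x.1 ∧ x.2.Coprime (e * x.1) := by
    intro x hx
    rw [hS, mem_sigma, mem_Icc, mem_filter, mem_range] at hx
    exact ⟨hx.1.1, hx.1.2, hx.2.1, hx.2.2⟩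
  have h1 := BVX.add_ls S (fun x => (x.2 : ℝ) / ((e * x.1 : ℕ) : ℝ)) (1 / ((e : ℝ) * (K : ℝ) ^ 2))
    (by positivity)
    (by
      rw [div_le_one (by positivity)]
      exact heK)
    (fun y hy z hz hyz => by
      obtain ⟨y1, y2, y3, y4⟩ := hmem y hy
      obtain ⟨z1, z2, z3, z4⟩ := hmem z hz
      refine lsm_spacing he y1 y2 z1 z2 y3 z3 y4 z4 ?_
      rintro ⟨e1, e2⟩
      apply hyz
      obtain ⟨y1, y2⟩ := y
      obtain ⟨z1, z2⟩ := z
      simp only at e1 e2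
      subst e1
      subst e2
      rfl) u v huv a
  rw [one_div_one_div] at h1
  refine le_trans ?_ h1
  rw [hS, sum_sigma]
  refine sum_le_sum fun k hk => ?_
  rw [mem_Icc] at hk
  have : NeZero (e * k) := ⟨(Nat.mul_pos he hk.1).ne'⟩
  exact BVX.one_mod (Ioc u v) a

end Pool.Agent.CU
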