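import Mathlib
import Pool.Agent.CU.Stmts
import Pool.Agent.LIN.Stmts
import Pool.Agent.CH.MR

set_option autoImplicit false

/-!
# CU / LinG

The linear sieve of the library LIN in the form used in CH and CU.
-/

namespace Pool.Agent.CU

open Finset Filter Pool.Agent.MT Pool.Agent.CH

/-- second theorem of Mertens between integers -/
theorem ling_mert1 (δ η : ℝ) (hδ : 0 < δ) (hη : 0 < η) : ∀ᶠ X : ℕ in atTop, ∀ u v : ℕ,
    ⌊(X : ℝ) ^ δ⌋₊ ≤ u → u ≤ v → v ≤ X →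
    |∑ p ∈ (Ioc u v).filter Nat.Prime, 1 / (p : ℝ) - Real.log (Real.log v / Real.log u)| ≤ η := by
  rcases le_or_gt 1 (δ / 2) with hδ2 | hδ2
  · -- then `w > X`, nothing to prove
    filter_upwards [eventually_ge_atTop 2] with X hX u v hu huv hv
    exfalso
    have hX1 : (1 : ℝ) ≤ X := by exact_mod_cast (by omega : 1 ≤ X)
    have hX2 : (2 : ℝ) ≤ X := by exact_mod_cast hX
    have h1 : (X : ℝ) ^ (2 : ℝ) ≤ (X : ℝ) ^ δ := Real.rpow_le_rpow_of_exponent_le hX1 (by linarith)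
    have h2 : (X : ℝ) ^ (2 : ℝ) = X * X := by
      rw [show (2 : ℝ) = ((2 : ℕ) : ℝ) by norm_num, Real.rpow_natCast]
      ring
    have h3 : (X : ℝ) ^ δ < ⌊(X : ℝ) ^ δ⌋₊ + 1 := Nat.lt_floor_add_one _
    have h4 : ((⌊(X : ℝ) ^ δ⌋₊ : ℕ) : ℝ) ≤ X := by exact_mod_cast hu.trans (huv.trans hv)
    have h5 : 2 * (X : ℝ) ≤ X * X := mul_le_mul_of_nonneg_right hX2 (by linarith)
    rw [h2] at h1
    have h6 : (X : ℝ) * X < X + 1 := lt_of_le_of_lt h1 (lt_of_lt_of_le h3 (by linarith))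
    have h7 : 2 * (X : ℝ) < X + 1 := lt_of_le_of_lt h5 h6
    linarith
  have hbig : ∀ᶠ X : ℕ in atTop, (2 : ℝ) ≤ (X : ℝ) ^ (δ / 2) := by
    have h := (tendsto_rpow_atTop (show (0 : ℝ) < δ / 2 by linarith)).comp
      tendsto_natCast_atTop_atTop
    exact h.eventually_ge_atTop 2
  filter_upwards [thm_MR (δ / 2) 1 1 η (by linarith) hδ2.le hη, hbig, eventually_ge_atTop 3]
    with X hMR hX2 hX3 u v hu huv hv
  have hX0 : (0 : ℝ) < X := by exact_mod_cast (by omega : 0 < X)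
  have hX1 : (1 : ℝ) < X := by exact_mod_cast (by omega : 1 < X)
  have hlX : 0 < Real.log X := Real.log_pos hX1
  have hsq : (X : ℝ) ^ δ = (X : ℝ) ^ (δ / 2) * (X : ℝ) ^ (δ / 2) := by
    rw [← Real.rpow_add hX0]
    congr 1
    ring
  -- `u ≥ X^{δ/2}`
  have hu1 : (X : ℝ) ^ (δ / 2) ≤ u := by
    have h3 : (X : ℝ) ^ δ < ⌊(X : ℝ) ^ δ⌋₊ + 1 := Nat.lt_floor_add_one _
    have h4 : ((⌊(X : ℝ) ^ δ⌋₊ : ℕ) : ℝ) ≤ u := by exact_mod_cast hu
    nlinarith
  have hu2 : (2 : ℝ) ≤ u := hX2.trans hu1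
  have hu0 : (0 : ℝ) < u := by linarith
  have hv2 : (2 : ℝ) ≤ v := hu2.trans (by exact_mod_cast huv)
  have hv0 : (0 : ℝ) < v := by linarith
  have hlu : 0 < Real.log u := Real.log_pos (by linarith)
  have hlv : 0 < Real.log v := Real.log_pos (by linarith)
  have huv' : Real.log u ≤ Real.log v := Real.log_le_log hu0 (by exact_mod_cast huv)
  have hvX : Real.log v ≤ Real.log X := Real.log_le_log hv0 (by exact_mod_cast hv)
  have e1 : (X : ℝ) ^ (Real.log u / Real.log X) = u := by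
    rw [Real.rpow_def_of_pos hX0, mul_div_cancel₀ _ hlX.ne', Real.exp_log hu0]
  have e2 : (X : ℝ) ^ (Real.log v / Real.log X) = v := by
    rw [Real.rpow_def_of_pos hX0, mul_div_cancel₀ _ hlX.ne', Real.exp_log hv0]
  have h1 : δ / 2 ≤ Real.log u / Real.log X := by
    rw [le_div_iff₀ hlX, ← Real.log_rpow hX0]
    exact Real.log_le_log (by positivity) hu1
  have h := hMR (Real.log u / Real.log X) (Real.log v / Real.log X) h1
    (div_le_div_of_nonneg_right huv' hlX.le) ((div_le_one hlX).2 hvX) (fun _ => 1)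
    (fun _ _ _ => by norm_num) (fun x x' _ _ _ _ => by simp)
  rw [e1, e2] at h
  have hset : (range (⌊(X : ℝ) ^ (1 : ℝ)⌋₊ + 1)).filter (fun p : ℕ => p.Prime ∧ (u : ℝ) < p ∧
      (p : ℝ) ≤ (v : ℝ)) = (Ioc u v).filter Nat.Prime := by
    ext p
    rw [mem_filter, mem_filter, mem_range, mem_Ioc, Real.rpow_one, Nat.floor_natCast]
    constructor
    · rintro ⟨_, h2, h3, h4⟩
      exact ⟨⟨by exact_mod_cast h3, by exact_mod_cast h4⟩, h2⟩
    · rintro ⟨⟨h3, h4⟩, h2⟩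
      exact ⟨by omega, h2, by exact_mod_cast h3, by exact_mod_cast h4⟩
  have hint : ∫ x in (Real.log u / Real.log X)..(Real.log v / Real.log X), (1 : ℝ) / x =
      Real.log (Real.log v / Real.log u) := by
    rw [integral_one_div_of_pos (div_pos hlu hlX) (div_pos hlv hlX)]
    congr 1
    field_simp
  rw [hset, hint] at h
  exact h

/-- the hypotheses of LIN for the densities of CH and CU -/
theorem ling_dens (δ η : ℝ) (hδ : 0 < δ) (hη : 0 < η) (J : ℕ) : ∀ᶠ X : ℕ in atTop,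
    ∀ (z : ℕ) (g : ℕ → ℝ), z ≤ X → DnsG ⌊(X : ℝ) ^ δ⌋₊ z J g →
    Pool.Agent.LIN.Dens g ⌊(X : ℝ) ^ δ⌋₊ z η := by
  have hbig : ∀ᶠ X : ℕ in atTop, 2 * ((J : ℝ) + 1) / η + 2 ≤ (X : ℝ) ^ δ := by
    have h := (tendsto_rpow_atTop hδ).comp tendsto_natCast_atTop_atTop
    exact h.eventually_ge_atTop _
  filter_upwards [ling_mert1 δ (η / 2) hδ (by linarith), hbig] with X hM hX z g hz hg
  obtain ⟨hg1, hg2, hg3⟩ := hg
  set w := ⌊(X : ℝ) ^ δ⌋₊ with hw
  have hw1 : 2 * ((J : ℝ) + 1) / η + 1 ≤ w := by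
    have h3 : (X : ℝ) ^ δ < w + 1 := Nat.lt_floor_add_one _
    linarith
  have hJ0 : (0 : ℝ) ≤ J := Nat.cast_nonneg _
  have hq0 : 0 < 2 * ((J : ℝ) + 1) / η := by positivity
  have hwR : (1 : ℝ) < w := by linarith
  have hw0 : (0 : ℝ) < w := by linarith
  refine ⟨fun p hp => (hg1 p hp).1, fun p hp => (hg1 p hp).2.1.trans (by norm_num),
    fun p hp => (hg1 p hp).2.2, fun u v hwu huv hvz => ?_⟩
  have h1 := hM u v hwu huv (hvz.trans hz)
  have huR : (w : ℝ) ≤ u := by exact_mod_cast hwu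
  have hu0 : (0 : ℝ) < u := by linarith
  -- comparison with `1/p`
  have h2 : |∑ p ∈ (Ioc u v).filter Nat.Prime, g p - ∑ p ∈ (Ioc u v).filter Nat.Prime,
      1 / (p : ℝ)| ≤ (J + 1) / w := by
    rw [← sum_sub_distrib]
    refine (abs_sum_le_sum_abs _ _).trans ?_
    have hterm : ∀ p ∈ (Ioc u v).filter Nat.Prime, |g p - 1 / (p : ℝ)| ≤
        (1 / ((p : ℝ) - 1) - 1 / p) + (if g p = 0 then 1 / (w : ℝ) else 0) := by
      intro p hp
      rw [mem_filter, mem_Ioc] at hp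
      obtain ⟨⟨hp1, hp2⟩, hp3⟩ := hp
      have hpw : w < p := lt_of_le_of_lt hwu hp1
      have hpR : (w : ℝ) < p := by exact_mod_cast hpw
      have hp0 : (0 : ℝ) < p := by linarith
      have hp1' : (0 : ℝ) < (p : ℝ) - 1 := by linarith
      have hd : 1 / (p : ℝ) ≤ 1 / ((p : ℝ) - 1) := one_div_le_one_div_of_le hp1' (by linarith)
      by_cases h0 : g p = 0
      · rw [if_pos h0, h0, zero_sub, abs_neg, abs_of_pos (by positivity)]
        have : 1 / (p : ℝ) ≤ 1 / w := one_div_le_one_div_of_le hw0 hpR.le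
        linarith
      · rw [if_neg h0, add_zero]
        rcases hg2 p hp3 hpw (hp2.trans hvz) with h | ⟨h, h'⟩
        · exact absurd h h0
        · rw [abs_of_nonneg (by linarith)]
          linarith
    refine (sum_le_sum hterm).trans ?_
    rw [sum_add_distrib]
    have hA : ∑ p ∈ (Ioc u v).filter Nat.Prime, (1 / ((p : ℝ) - 1) - 1 / p) ≤ 1 / w := by
      have hle : ∑ p ∈ (Ioc u v).filter Nat.Prime, (1 / ((p : ℝ) - 1) - 1 / p) ≤
          ∑ p ∈ Ioc u v, (1 / ((p : ℝ) - 1) - 1 / p) := by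
        apply sum_le_sum_of_subset_of_nonneg (filter_subset _ _)
        intro p hp _
        rw [mem_Ioc] at hp
        have hpR : (w : ℝ) < p := by exact_mod_cast lt_of_le_of_lt hwu hp.1
        have hp1' : (0 : ℝ) < (p : ℝ) - 1 := by linarith
        have hd : 1 / (p : ℝ) ≤ 1 / ((p : ℝ) - 1) := one_div_le_one_div_of_le hp1' (by linarith)
        linarith
      have htel : ∀ v, u ≤ v → ∑ p ∈ Ioc u v, (1 / ((p : ℝ) - 1) - 1 / p) =
          1 / (u : ℝ) - 1 / v := by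
        intro v huv
        induction v, huv using Nat.le_induction with
        | base => simp
        | succ v hv ih =>
          have hins : Ioc u (v + 1) = insert (v + 1) (Ioc u v) := by
            ext x
            simp only [mem_Ioc, mem_insert]
            omega
          rw [hins, sum_insert (by simp), ih]
          push_cast
          have : (v : ℝ) + 1 - 1 = v := by ring
          rw [this]
          ring
      rw [htel v huv] at hle
      have hv0 : (0 : ℝ) < v := lt_of_lt_of_le hu0 (by exact_mod_cast huv)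
      have : 0 < 1 / (v : ℝ) := by positivity
      have : 1 / (u : ℝ) ≤ 1 / w := one_div_le_one_div_of_le hw0 huR
      linarith
    have hB : ∑ p ∈ (Ioc u v).filter Nat.Prime, (if g p = 0 then 1 / (w : ℝ) else 0) ≤ J / w := by
      rw [← sum_filter, sum_const, nsmul_eq_mul]
      have hcard : (((Ioc u v).filter Nat.Prime).filter (fun p => g p = 0)).card ≤ J := by
        refine le_trans (card_le_card ?_) hg3
        intro p hp
        rw [mem_filter, mem_filter, mem_Ioc] at hp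
        rw [mem_filter]
        refine ⟨?_, lt_of_le_of_lt hwu hp.1.1.1, hp.2⟩
        unfold pr
        rw [mem_filter, mem_range]
        exact ⟨by omega, hp.1.2⟩
      have : ((((Ioc u v).filter Nat.Prime).filter (fun p => g p = 0)).card : ℝ) ≤ J := by
        exact_mod_cast hcard
      calc _ ≤ (J : ℝ) * (1 / w) := mul_le_mul_of_nonneg_right this (by positivity)
        _ = J / w := by ring
    calc _ ≤ 1 / (w : ℝ) + J / w := add_le_add hA hB
      _ = (J + 1) / w := by ring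
  have h3 : ((J : ℝ) + 1) / w ≤ η / 2 := by
    rw [div_le_iff₀ hw0]
    have : 2 * ((J : ℝ) + 1) / η ≤ w := by linarith
    rw [div_le_iff₀ hη] at this
    linarith
  have h4 := abs_sub_le (∑ p ∈ (Ioc u v).filter Nat.Prime, g p)
    (∑ p ∈ (Ioc u v).filter Nat.Prime, 1 / (p : ℝ)) (Real.log (Real.log v / Real.log u))
  linarith

theorem ling_VV_nonneg (g : ℕ → ℝ) (z : ℕ) (h : ∀ l : ℕ, l.Prime → g l ≤ 1 / 2) : 0 ≤ VV g z := by
  unfold VV
  apply prod_nonneg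
  intro l hl
  unfold pr at hl
  rw [mem_filter] at hl
  have := h l hl.2
  linarith

theorem ling_rpow (X : ℕ) (hX : 2 ≤ X) (δ : ℝ) (hδ : δ ≤ 1 / 30) (z : ℕ)
    (hz : (X : ℝ) ^ (1 / 20 : ℝ) ≤ z) : ⌊(X : ℝ) ^ δ⌋₊ ≤ z ∧ (1 : ℝ) < z := by
  have hX1 : (1 : ℝ) < X := by exact_mod_cast (by omega : 1 < X)
  constructor
  · have h1 : (X : ℝ) ^ δ ≤ (X : ℝ) ^ (1 / 20 : ℝ) :=
      Real.rpow_le_rpow_of_exponent_le hX1.le (by linarith)
    have h2 : ((⌊(X : ℝ) ^ δ⌋₊ : ℕ) : ℝ) ≤ (X : ℝ) ^ δ := Nat.floor_le (by positivity)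
    exact_mod_cast h2.trans (h1.trans hz)
  · exact lt_of_lt_of_le (Real.one_lt_rpow hX1 (by norm_num)) hz

theorem ling_U (A0 : ℝ) (h : Pool.Agent.LIN.St_SV A0)
    (hCv : Pool.Agent.LIN.St_Cv2) : St_LGU A0 := by
  intro ε hε
  obtain ⟨δ₀, hδ₀, h1⟩ := h (min ε (1 / 2)) (lt_min hε (by norm_num))
  set ε₁ := min ε (1 / 2) with hε₁
  have hε₁0 : 0 < ε₁ := lt_min hε (by norm_num)
  have hε₁1 : ε₁ ≤ ε := min_le_left _ _
  have hε₁2 : ε₁ ≤ 1 / 2 := min_le_right _ _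
  refine ⟨min δ₀ (1 / 30), 3, lt_min hδ₀ (by norm_num), fun δ hδ hδ1 J => ?_⟩
  obtain ⟨η, X₀, hη, h2⟩ := h1 δ hδ (hδ1.trans (min_le_left _ _))
  filter_upwards [ling_dens δ η hδ hη J, eventually_ge_atTop X₀, eventually_ge_atTop 2]
    with X hD hX0 hX2 z D hz hzD hDz hDX g hg
  have hX1 : (1 : ℝ) ≤ X := by exact_mod_cast (by omega : 1 ≤ X)
  have hXp : (0 : ℝ) < X := by linarith
  obtain ⟨hwz, hz1⟩ := ling_rpow X hX2 δ (hδ1.trans (min_le_right _ _)) z hz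
  have hzX : z ≤ X := by exact_mod_cast hzD.trans hDX
  have hD1 : 1 < D := lt_of_lt_of_le hz1 hzD
  have hD8 : (z : ℝ) ≤ D ^ 8 := hzD.trans (le_self_pow₀ hD1.le (by norm_num))
  obtain ⟨c, hc1, hc2, hc3⟩ := (h2 X _ z hX0 rfl hwz hzX).1 D hD8 hDz hD1 hDX
  have hpow : (X : ℝ) ^ ε₁ ≤ (X : ℝ) ^ ε := Real.rpow_le_rpow_of_exponent_le hX1 hε₁1
  refine ⟨c, fun d hd => ?_, fun d => ?_, ?_, hc2⟩
  · obtain ⟨a1, a2, a3⟩ := hc1.supp d hd
    exact ⟨a1, a2, a3.trans (mul_le_mul_of_nonneg_left hpow (by linarith))⟩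
  · refine (hc1.bound d).trans ?_
    have : (1 : ℝ) ≤ ((3 : ℕ) : ℝ) ^ d.primeFactors.card := one_le_pow₀ (by norm_num)
    push_cast at this ⊢
    linarith
  · have hN : D * (X : ℝ) ^ ε₁ ≤ ((X ^ 2 : ℕ) : ℝ) := by
      have h5 : (X : ℝ) ^ ε₁ ≤ (X : ℝ) ^ (1 : ℝ) :=
        Real.rpow_le_rpow_of_exponent_le hX1 (by linarith)
      rw [Real.rpow_one] at h5
      push_cast
      rw [pow_two]
      exact mul_le_mul hDX h5 (by positivity) hXp.le
    have h6 := (hCv c z _ hc1).1 (X ^ 2) hN (fun T => ∏ p ∈ T, g p)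
    rw [h6]
    have h7 := hc3 g (hD z g hzX hg)
    refine le_trans h7 ?_
    have hV := ling_VV_nonneg g z (fun l hl => (hg.1 l hl).2.1)
    exact mul_le_mul_of_nonneg_left (by linarith) hV

theorem ling_L (A0 : ℝ) (h : Pool.Agent.LIN.St_SV A0)
    (hCv : Pool.Agent.LIN.St_Cv2) : St_LGL A0 := by
  intro ε hε
  obtain ⟨δ₀, hδ₀, h1⟩ := h (min ε (1 / 2)) (lt_min hε (by norm_num))
  set ε₁ := min ε (1 / 2) with hε₁
  have hε₁0 : 0 < ε₁ := lt_min hε (by norm_num)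
  have hε₁1 : ε₁ ≤ ε := min_le_left _ _
  have hε₁2 : ε₁ ≤ 1 / 2 := min_le_right _ _
  refine ⟨min δ₀ (1 / 30), 3, lt_min hδ₀ (by norm_num), fun δ hδ hδ1 J => ?_⟩
  obtain ⟨η, X₀, hη, h2⟩ := h1 δ hδ (hδ1.trans (min_le_left _ _))
  filter_upwards [ling_dens δ η hδ hη J, eventually_ge_atTop X₀, eventually_ge_atTop 2]
    with X hD hX0 hX2 z D hz hzD hDz hDX g hg
  have hX1 : (1 : ℝ) ≤ X := by exact_mod_cast (by omega : 1 ≤ X)
  have hXp : (0 : ℝ) < X := by linarith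
  obtain ⟨hwz, hz1⟩ := ling_rpow X hX2 δ (hδ1.trans (min_le_right _ _)) z hz
  have hzD' : (z : ℝ) ≤ D := le_trans (le_self_pow₀ hz1.le (by norm_num)) hzD
  have hzX : z ≤ X := by exact_mod_cast hzD'.trans hDX
  have hD1 : 1 < D := lt_of_lt_of_le hz1 hzD'
  obtain ⟨c, hc1, hc2, hc3⟩ := (h2 X _ z hX0 rfl hwz hzX).2 D hzD hDz hDX
  have hpow : (X : ℝ) ^ ε₁ ≤ (X : ℝ) ^ ε := Real.rpow_le_rpow_of_exponent_le hX1 hε₁1
  refine ⟨c, fun d hd => ?_, fun d => ?_, ?_, hc2⟩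
  · obtain ⟨a1, a2, a3⟩ := hc1.supp d hd
    exact ⟨a1, a2, a3.trans (mul_le_mul_of_nonneg_left hpow (by linarith))⟩
  · refine (hc1.bound d).trans ?_
    have : (1 : ℝ) ≤ ((3 : ℕ) : ℝ) ^ d.primeFactors.card := one_le_pow₀ (by norm_num)
    push_cast at this ⊢
    linarith
  · have hN : D * (X : ℝ) ^ ε₁ ≤ ((X ^ 2 : ℕ) : ℝ) := by
      have h5 : (X : ℝ) ^ ε₁ ≤ (X : ℝ) ^ (1 : ℝ) :=
        Real.rpow_le_rpow_of_exponent_le hX1 (by linarith)
      rw [Real.rpow_one] at h5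
      push_cast
      rw [pow_two]
      exact mul_le_mul hDX h5 (by positivity) hXp.le
    have h6 := (hCv c z _ hc1).1 (X ^ 2) hN (fun T => ∏ p ∈ T, g p)
    rw [h6]
    have h7 := hc3 g (hD z g hzX hg)
    refine le_trans ?_ h7
    have hV := ling_VV_nonneg g z (fun l hl => (hg.1 l hl).2.1)
    refine mul_le_mul_of_nonneg_left ?_ hV
    have e : A0 * (Real.log (Real.log D / Real.log z - 1) * Real.log z / Real.log D) =
        A0 * Real.log (Real.log D / Real.log z - 1) * (Real.log z / Real.log D) := by ring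
    rw [e]
    linarith

/-- densities of CH are densities of CU -/
theorem ling_dns (w z J : ℕ) (g : ℕ → ℝ) (h : Dns w z J g) : DnsG w z J g := by
  refine ⟨h.1, fun l hl hw hz => ?_, h.2.2⟩
  rcases h.2.1 l hl hw hz with h1 | h1
  · exact Or.inl h1
  · refine Or.inr ⟨?_, h1.le⟩
    rw [h1]
    have h2 : (2 : ℝ) ≤ l := by exact_mod_cast hl.two_le
    exact one_div_le_one_div_of_le (by linarith) (by linarith)

theorem ling_exp (X : ℕ) (hX : 1 ≤ X) (z : ℕ) (hz : (X : ℝ) ^ (1 / 10 : ℝ) ≤ z) :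
    (X : ℝ) ^ (1 / 20 : ℝ) ≤ z := by
  have hX1 : (1 : ℝ) ≤ X := by exact_mod_cast hX
  exact (Real.rpow_le_rpow_of_exponent_le hX1 (by norm_num)).trans hz

/-- keep this signature -/
theorem thm_LinG (h : Pool.Agent.LIN.St_SVe) (hCv : Pool.Agent.LIN.St_Cv2) :
    St_LG ∧ Pool.Agent.CH.St_Lin := by
  obtain ⟨A0, hA0, hSV⟩ := h
  have hU := ling_U A0 hSV hCv
  have hL := ling_L A0 hSV hCv
  refine ⟨⟨A0, hA0, hU, hL⟩, A0, hA0, ?_, ?_⟩
  · intro ε hε
    obtain ⟨δ₀, C, h1, h2⟩ := hU ε hε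
    refine ⟨δ₀, C, h1, fun δ hδ hδ1 J => ?_⟩
    filter_upwards [h2 δ hδ hδ1 J, eventually_ge_atTop 1] with X hX hX1 z D hz h3 h4 h5 g hg
    exact hX z D (ling_exp X hX1 z hz) h3 h4 h5 g (ling_dns _ _ _ _ hg)
  · intro ε hε
    obtain ⟨δ₀, C, h1, h2⟩ := hL ε hε
    refine ⟨δ₀, C, h1, fun δ hδ hδ1 J => ?_⟩
    filter_upwards [h2 δ hδ hδ1 J, eventually_ge_atTop 1] with X hX hX1 z D hz h3 h4 h5 g hg
    exact hX z D (ling_exp X hX1 z hz) h3 h4 h5 g (ling_dns _ _ _ _ hg)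

end Pool.Agent.CU
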