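import Mathlib
import Pool.Agent.CU.Stmts
import Pool.Agent.GV.Asm
import Pool.Agent.MT.Wt
import Pool.Agent.BVX.AddLS

set_option autoImplicit false

/-!
# CU / PI

Primes in the intervals `(a, a + m]`, `m ≥ n / (log n)^A`, `a ≤ n`.

Fejer kernel `F(x) = |∑_{j < H} e(j (x - x₀)/N)|²`, `N = 2 x₀`, `H` a power of `log N`.
`∑ (Λ(x) - 1) η(x/N) F(x)` is small by the theorem of Siegel and Walfisz with twisted weights
(`swz`), `∑ η(x/N) F(x) ≥ N H / 64`, and `F(x) ≤ N² / (4 m²)` for `|x - x₀| ≥ m`.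
-/

namespace Pool.Agent.CU

open Finset Filter Pool.Agent.MT Pool.Agent.CH

theorem pi_ee_sub (x : ℝ) : ‖BVX.ee x - 1‖ ≤ 2 * Real.pi * |x| := by
  have h := Complex.norm_exp_I_mul_ofReal_sub_one (2 * Real.pi * x)
  have h2 : ‖BVX.ee x - 1‖ = ‖2 * Real.sin (2 * Real.pi * x / 2)‖ := by
    rw [← h]
    unfold BVX.ee
    rw [mul_comm]
  rw [h2, Real.norm_eq_abs, abs_mul, abs_of_pos (by norm_num : (0 : ℝ) < 2)]
  have h3 : |Real.sin (2 * Real.pi * x / 2)| ≤ |2 * Real.pi * x / 2| := Real.abs_sin_le_abs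
  have h4 : |2 * Real.pi * x / 2| = Real.pi * |x| := by
    rw [show 2 * Real.pi * x / 2 = Real.pi * x by ring, abs_mul, abs_of_pos Real.pi_pos]
  rw [h4] at h3
  linarith

theorem pi_DD_ge (H : ℕ) (hH : 1 ≤ H) (t : ℝ) (ht : |t| ≤ 1 / (16 * H)) :
    (H : ℝ) ^ 2 / 4 ≤ ‖BVX.DD H t‖ ^ 2 := by
  have hHR : (1 : ℝ) ≤ H := by exact_mod_cast hH
  have h1 : ‖BVX.DD H t - H‖ ≤ H / 2 := by
    have h2 : BVX.DD H t - H = ∑ j ∈ range H, (BVX.ee (j * t) - 1) := by
      unfold BVX.DD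
      rw [sum_sub_distrib]
      simp
    rw [h2]
    refine (norm_sum_le _ _).trans ?_
    have h3 : ∀ j ∈ range H, ‖BVX.ee (j * t) - 1‖ ≤ 1 / 2 := by
      intro j hj
      refine (pi_ee_sub _).trans ?_
      rw [abs_mul, abs_of_nonneg (Nat.cast_nonneg j)]
      have h4 : (j : ℝ) ≤ H := by exact_mod_cast (mem_range.mp hj).le
      have h5 : (j : ℝ) * |t| ≤ H * (1 / (16 * H)) :=
        mul_le_mul h4 ht (abs_nonneg _) (by positivity)
      have h6 : (H : ℝ) * (1 / (16 * H)) = 1 / 16 := by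
        field_simp
      rw [h6] at h5
      have h7 : Real.pi < 4 := Real.pi_lt_four
      have h8 : 0 ≤ (j : ℝ) * |t| := by positivity
      nlinarith [Real.pi_pos]
    refine (sum_le_sum h3).trans ?_
    rw [sum_const, card_range, nsmul_eq_mul]
    linarith
  have h2 : (H : ℝ) / 2 ≤ ‖BVX.DD H t‖ := by
    have h3 : ‖(H : ℂ)‖ ≤ ‖BVX.DD H t‖ + ‖BVX.DD H t - H‖ := by
      have : (H : ℂ) = BVX.DD H t - (BVX.DD H t - H) := by ring
      calc ‖(H : ℂ)‖ = ‖BVX.DD H t - (BVX.DD H t - H)‖ := by rw [← this]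
        _ ≤ _ := norm_sub_le _ _
    rw [Complex.norm_natCast] at h3
    linarith
  have h3 : ((H : ℝ) / 2) ^ 2 ≤ ‖BVX.DD H t‖ ^ 2 := pow_le_pow_left₀ (by positivity) h2 2
  calc (H : ℝ) ^ 2 / 4 = ((H : ℝ) / 2) ^ 2 := by ring
    _ ≤ _ := h3

theorem pi_dd (t : ℝ) (ht : |t| ≤ 1 / 2) : |t| ≤ BVX.dd t := by
  unfold BVX.dd
  by_cases h : round t = 0
  · rw [h]
    simp
  · have h1 : (1 : ℝ) ≤ |((round t : ℤ) : ℝ)| := by
      have : (1 : ℤ) ≤ |round t| := Int.one_le_abs h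
      exact_mod_cast this
    have h2 : |((round t : ℤ) : ℝ)| ≤ |t - round t| + |t| := by
      have : ((round t : ℤ) : ℝ) = t - (t - round t) := by ring
      calc |((round t : ℤ) : ℝ)| = |t - (t - round t)| := by rw [← this]
        _ ≤ |t| + |t - round t| := abs_sub _ _
        _ = _ := by ring
    linarith

theorem pi_DD_sq (H : ℕ) (t : ℝ) : ((‖BVX.DD H t‖ ^ 2 : ℝ) : ℂ) =
    ∑ j ∈ range H, ∑ k ∈ range H, BVX.ee (((j : ℝ) - k) * t) := by
  have h1 : ((‖BVX.DD H t‖ ^ 2 : ℝ) : ℂ) = BVX.DD H t * star (BVX.DD H t) := by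
    rw [Complex.star_def, Complex.mul_conj, Complex.normSq_eq_norm_sq]
  rw [h1]
  unfold BVX.DD
  rw [star_sum, sum_mul_sum]
  refine sum_congr rfl fun j _ => sum_congr rfl fun k _ => ?_
  rw [BVX.ee_star, ← BVX.ee_add]
  congr 1
  ring

/-- the exponential sums -/
theorem pi_expand (η : ℝ → ℝ) (N H : ℕ) (y E : ℝ) (hN : 1 ≤ N)
    (hE : ∀ b : ℝ, |b| ≤ H → ‖∑ n ∈ range (N + 1),
      (((ArithmeticFunction.vonMangoldt n : ℝ) : ℂ) - 1) * GV.wt η N b n‖ ≤ E) :
    |∑ n ∈ range (N + 1), (lam n - 1) * η ((n : ℝ) / N) *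
      ‖BVX.DD H (((n : ℝ) - y) / N)‖ ^ 2| ≤ (H : ℝ) ^ 2 * E := by
  have hNR : (0 : ℝ) < N := by exact_mod_cast hN
  have h1 : ((∑ n ∈ range (N + 1), (lam n - 1) * η ((n : ℝ) / N) *
      ‖BVX.DD H (((n : ℝ) - y) / N)‖ ^ 2 : ℝ) : ℂ) =
      ∑ j ∈ range H, ∑ k ∈ range H, BVX.ee (-(((j : ℝ) - k) * (y / N))) *
        ∑ n ∈ range (N + 1),
          (((ArithmeticFunction.vonMangoldt n : ℝ) : ℂ) - 1) * GV.wt η N ((j : ℝ) - k) n := by
    rw [Complex.ofReal_sum]
    have h2 : ∀ n ∈ range (N + 1), (((lam n - 1) * η ((n : ℝ) / N) *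
        ‖BVX.DD H (((n : ℝ) - y) / N)‖ ^ 2 : ℝ) : ℂ) =
        ∑ j ∈ range H, ∑ k ∈ range H, BVX.ee (-(((j : ℝ) - k) * (y / N))) *
          ((((ArithmeticFunction.vonMangoldt n : ℝ) : ℂ) - 1) *
            GV.wt η N ((j : ℝ) - k) n) := by
      intro n _
      rw [Complex.ofReal_mul, pi_DD_sq, mul_sum]
      refine sum_congr rfl fun j _ => ?_
      rw [mul_sum]
      refine sum_congr rfl fun k _ => ?_
      have h3 : BVX.ee (((j : ℝ) - k) * (((n : ℝ) - y) / N)) =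
          BVX.ee (-(((j : ℝ) - k) * (y / N))) * GV.ee (((j : ℝ) - k) * n / N) := by
        have h4 : GV.ee (((j : ℝ) - k) * n / N) = BVX.ee (((j : ℝ) - k) * n / N) := rfl
        rw [h4, ← BVX.ee_add]
        congr 1
        field_simp
        ring
      rw [h3]
      unfold GV.wt lam
      push_cast
      ring
    rw [sum_congr rfl h2, sum_comm]
    refine sum_congr rfl fun j _ => ?_
    rw [sum_comm]
    refine sum_congr rfl fun k _ => ?_
    rw [mul_sum]
  have h2 : |∑ n ∈ range (N + 1), (lam n - 1) * η ((n : ℝ) / N) *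
      ‖BVX.DD H (((n : ℝ) - y) / N)‖ ^ 2| =
      ‖((∑ n ∈ range (N + 1), (lam n - 1) * η ((n : ℝ) / N) *
      ‖BVX.DD H (((n : ℝ) - y) / N)‖ ^ 2 : ℝ) : ℂ)‖ := by
    rw [Complex.norm_real, Real.norm_eq_abs]
  rw [h2, h1]
  refine (norm_sum_le _ _).trans ?_
  have h3 : ∀ j ∈ range H, ‖∑ k ∈ range H, BVX.ee (-(((j : ℝ) - k) * (y / N))) *
        ∑ n ∈ range (N + 1),
          (((ArithmeticFunction.vonMangoldt n : ℝ) : ℂ) - 1) * GV.wt η N ((j : ℝ) - k) n‖ ≤
      H * E := by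
    intro j hj
    refine (norm_sum_le _ _).trans ?_
    have h4 : ∀ k ∈ range H, ‖BVX.ee (-(((j : ℝ) - k) * (y / N))) *
        ∑ n ∈ range (N + 1),
          (((ArithmeticFunction.vonMangoldt n : ℝ) : ℂ) - 1) * GV.wt η N ((j : ℝ) - k) n‖ ≤
        E := by
      intro k hk
      rw [norm_mul, BVX.norm_ee, one_mul]
      apply hE
      have hj' : (j : ℝ) ≤ H := by exact_mod_cast (mem_range.mp hj).le
      have hk' : (k : ℝ) ≤ H := by exact_mod_cast (mem_range.mp hk).le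
      have hj0 : (0 : ℝ) ≤ j := Nat.cast_nonneg j
      have hk0 : (0 : ℝ) ≤ k := Nat.cast_nonneg k
      rw [abs_le]
      constructor <;> linarith
    refine (sum_le_sum h4).trans ?_
    rw [sum_const, card_range, nsmul_eq_mul]
  refine (sum_le_sum h3).trans ?_
  rw [sum_const, card_range, nsmul_eq_mul]
  apply le_of_eq
  ring

/-- lower bound for the smooth sum -/
theorem pi_lower (η : ℝ → ℝ) (hη : IsWt η) (N H x0 : ℕ) (hN : N = 2 * x0) (hx0 : 1 ≤ x0)
    (hH : 1 ≤ H) :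
    (N : ℝ) * H / 64 ≤ ∑ n ∈ range (N + 1), η ((n : ℝ) / N) *
      ‖BVX.DD H (((n : ℝ) - x0) / N)‖ ^ 2 := by
  have hNR : (0 : ℝ) < N := by
    have : 0 < N := by omega
    exact_mod_cast this
  have hHR : (1 : ℝ) ≤ H := by exact_mod_cast hH
  set k : ℕ := ⌊(N : ℝ) / (16 * H)⌋₊ with hk
  have hk1 : (k : ℝ) ≤ (N : ℝ) / (16 * H) := Nat.floor_le (by positivity)
  have hk2 : (N : ℝ) / (16 * H) < k + 1 := Nat.lt_floor_add_one _
  have hk3 : (k : ℝ) / N ≤ 1 / (16 * H) := by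
    rw [div_le_iff₀ hNR]
    calc (k : ℝ) ≤ (N : ℝ) / (16 * H) := hk1
      _ = 1 / (16 * H) * N := by ring
  have hk4 : (1 : ℝ) / (16 * H) ≤ 1 / 16 := by
    apply one_div_le_one_div_of_le (by norm_num)
    linarith
  have hk5 : (k : ℝ) ≤ N / 16 := by
    have : (k : ℝ) / N ≤ 1 / 16 := hk3.trans hk4
    rw [div_le_iff₀ hNR] at this
    linarith
  have hNx : (N : ℝ) = 2 * x0 := by
    rw [hN]
    push_cast
    ring
  have hsub : Icc x0 (x0 + k) ⊆ range (N + 1) := by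
    intro n hn
    rw [mem_Icc] at hn
    rw [mem_range]
    have h1 : (k : ℝ) ≤ x0 := by
      have : (0 : ℝ) ≤ x0 := Nat.cast_nonneg x0
      linarith
    have h2 : k ≤ x0 := by exact_mod_cast h1
    omega
  have hterm : ∀ n ∈ Icc x0 (x0 + k), (H : ℝ) ^ 2 / 4 ≤ η ((n : ℝ) / N) *
      ‖BVX.DD H (((n : ℝ) - x0) / N)‖ ^ 2 := by
    intro n hn
    rw [mem_Icc] at hn
    have h1 : (x0 : ℝ) ≤ n := by exact_mod_cast hn.1
    have h2 : (n : ℝ) ≤ x0 + k := by exact_mod_cast hn.2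
    have h3 : η ((n : ℝ) / N) = 1 := by
      apply hη.one
      · rw [le_div_iff₀ hNR]
        linarith
      · rw [div_le_iff₀ hNR]
        linarith
    rw [h3, one_mul]
    apply pi_DD_ge H hH
    rw [abs_of_nonneg (div_nonneg (by linarith) hNR.le)]
    refine le_trans ?_ hk3
    apply div_le_div_of_nonneg_right _ hNR.le
    linarith
  have hnonneg : ∀ n ∈ range (N + 1), n ∉ Icc x0 (x0 + k) → 0 ≤ η ((n : ℝ) / N) *
      ‖BVX.DD H (((n : ℝ) - x0) / N)‖ ^ 2 := fun n _ _ =>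
    mul_nonneg (hη.nonneg _) (by positivity)
  have h1 : ∑ n ∈ Icc x0 (x0 + k), η ((n : ℝ) / N) * ‖BVX.DD H (((n : ℝ) - x0) / N)‖ ^ 2 ≤
      ∑ n ∈ range (N + 1), η ((n : ℝ) / N) * ‖BVX.DD H (((n : ℝ) - x0) / N)‖ ^ 2 :=
    sum_le_sum_of_subset_of_nonneg hsub hnonneg
  refine le_trans ?_ h1
  refine le_trans ?_ (sum_le_sum hterm)
  rw [sum_const, Nat.card_Icc, nsmul_eq_mul]
  have h2 : ((x0 + k + 1 - x0 : ℕ) : ℝ) = k + 1 := by
    have : x0 + k + 1 - x0 = k + 1 := by omega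
    rw [this]
    push_cast
    ring
  rw [h2]
  calc (N : ℝ) * H / 64 = (N : ℝ) / (16 * H) * ((H : ℝ) ^ 2 / 4) := by
        field_simp
        ring
    _ ≤ (k + 1) * ((H : ℝ) ^ 2 / 4) := mul_le_mul_of_nonneg_right hk2.le (by positivity)

/-- upper bound if there is no prime near `x0` -/
theorem pi_upper (η : ℝ → ℝ) (hη : IsWt η) (N H x0 m : ℕ) (P : ℝ) (hN : N = 2 * x0)
    (hx0 : 1 ≤ x0) (hm : 1 ≤ m) (hP : (N : ℝ) ≤ m * P) (hP1 : 0 ≤ P)
    (hno : ∀ p : ℕ, p.Prime → ¬ (x0 < p + m ∧ p < x0 + m)) :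
    ∑ n ∈ range (N + 1), lam n * η ((n : ℝ) / N) * ‖BVX.DD H (((n : ℝ) - x0) / N)‖ ^ 2 ≤
      (N + 1) * (Real.log N * P ^ 2) + (H : ℝ) ^ 2 * (2 * Real.sqrt N * Real.log N) := by
  have hN1 : 1 ≤ N := by omega
  have hNR : (0 : ℝ) < N := by exact_mod_cast hN1
  have hNR1 : (1 : ℝ) ≤ N := by exact_mod_cast hN1
  have hlog : 0 ≤ Real.log N := Real.log_nonneg hNR1
  have hmR : (1 : ℝ) ≤ m := by exact_mod_cast hm
  have hNx : (N : ℝ) = 2 * x0 := by
    rw [hN]
    push_cast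
    ring
  have hlamnn : ∀ n : ℕ, 0 ≤ lam n := fun n => ArithmeticFunction.vonMangoldt_nonneg
  have hterm : ∀ n ∈ range (N + 1),
      lam n * η ((n : ℝ) / N) * ‖BVX.DD H (((n : ℝ) - x0) / N)‖ ^ 2 ≤
      Real.log N * P ^ 2 + (H : ℝ) ^ 2 * (if ¬ n.Prime then lam n else 0) := by
    intro n hn
    have hnN : (n : ℝ) ≤ N := by exact_mod_cast Nat.lt_succ_iff.mp (mem_range.mp hn)
    have hn0 : (0 : ℝ) ≤ n := Nat.cast_nonneg n
    have h1 := hη.nonneg ((n : ℝ) / N)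
    have h2 := hη.le_one ((n : ℝ) / N)
    by_cases hp : n.Prime
    · rw [if_neg (not_not.mpr hp), mul_zero, add_zero]
      have h3 : lam n ≤ Real.log N := by
        refine ArithmeticFunction.vonMangoldt_le_log.trans ?_
        exact Real.log_le_log (by exact_mod_cast hp.pos) hnN
      have habs : (m : ℝ) ≤ |(n : ℝ) - x0| := by
        have h4 := hno n hp
        rw [not_and_or] at h4
        rcases h4 with h4 | h4
        · have h5 : n + m ≤ x0 := by omega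
          have h6 : (n : ℝ) + m ≤ x0 := by exact_mod_cast h5
          rw [abs_sub_comm, abs_of_nonneg (by linarith)]
          linarith
        · have h5 : x0 + m ≤ n := by omega
          have h6 : (x0 : ℝ) + m ≤ n := by exact_mod_cast h5
          rw [abs_of_nonneg (by linarith)]
          linarith
      have ht : |((n : ℝ) - x0) / N| = |(n : ℝ) - x0| / N := by
        rw [abs_div, abs_of_pos hNR]
      have ht1 : |((n : ℝ) - x0) / N| ≤ 1 / 2 := by
        rw [ht, div_le_iff₀ hNR, abs_le]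
        constructor <;> linarith
      have ht2 : (m : ℝ) / N ≤ |((n : ℝ) - x0) / N| := by
        rw [ht]
        exact div_le_div_of_nonneg_right habs hNR.le
      have hdd : (m : ℝ) / N ≤ BVX.dd (((n : ℝ) - x0) / N) := ht2.trans (pi_dd _ ht1)
      have hmN : 0 < (m : ℝ) / N := by positivity
      have h5 := BVX.DD_le' H (((n : ℝ) - x0) / N) (lt_of_lt_of_le hmN hdd)
      have h6 : 1 / (4 * BVX.dd (((n : ℝ) - x0) / N) ^ 2) ≤ P ^ 2 := by
        have h7 : 1 / (4 * BVX.dd (((n : ℝ) - x0) / N) ^ 2) ≤ 1 / (4 * ((m : ℝ) / N) ^ 2) := by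
          apply one_div_le_one_div_of_le (by positivity)
          have := pow_le_pow_left₀ hmN.le hdd 2
          linarith
        refine h7.trans ?_
        have h8 : 1 / (4 * ((m : ℝ) / N) ^ 2) = ((N : ℝ) / m) ^ 2 / 4 := by
          field_simp
        rw [h8]
        have h9 : (N : ℝ) / m ≤ P := by
          rw [div_le_iff₀ (by linarith)]
          linarith
        have h10 : ((N : ℝ) / m) ^ 2 ≤ P ^ 2 := pow_le_pow_left₀ (by positivity) h9 2
        nlinarith [sq_nonneg P]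
      calc lam n * η ((n : ℝ) / N) * ‖BVX.DD H (((n : ℝ) - x0) / N)‖ ^ 2
          ≤ lam n * 1 * P ^ 2 := by
            apply mul_le_mul _ (h5.trans h6) (by positivity) (by
              have := hlamnn n
              linarith)
            exact mul_le_mul_of_nonneg_left h2 (hlamnn n)
        _ = lam n * P ^ 2 := by ring
        _ ≤ Real.log N * P ^ 2 := mul_le_mul_of_nonneg_right h3 (by positivity)
    · rw [if_pos hp]
      have h3 : ‖BVX.DD H (((n : ℝ) - x0) / N)‖ ^ 2 ≤ (H : ℝ) ^ 2 :=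
        pow_le_pow_left₀ (norm_nonneg _) (BVX.DD_le H _) 2
      have h4 : lam n * η ((n : ℝ) / N) * ‖BVX.DD H (((n : ℝ) - x0) / N)‖ ^ 2 ≤
          lam n * 1 * (H : ℝ) ^ 2 := by
        apply mul_le_mul _ h3 (by positivity) (by
          have := hlamnn n
          linarith)
        exact mul_le_mul_of_nonneg_left h2 (hlamnn n)
      have h5 : 0 ≤ Real.log N * P ^ 2 := by positivity
      linarith
  refine (sum_le_sum hterm).trans ?_
  rw [sum_add_distrib, sum_const, card_range, nsmul_eq_mul, ← mul_sum]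
  push_cast
  apply add_le_add le_rfl
  apply mul_le_mul_of_nonneg_left _ (by positivity)
  have h1 := Chebyshev.psi_sub_theta_le hNR1
  rw [Chebyshev.psi_sub_theta_eq_sum_not_prime, Nat.floor_natCast, sum_filter] at h1
  refine le_trans (le_of_eq ?_) h1
  have h2 : range (N + 1) = insert 0 (Ioc 0 N) := by
    ext n
    simp only [mem_range, mem_insert, mem_Ioc]
    omega
  rw [h2, sum_insert (by simp)]
  have h3 : (if ¬ Nat.Prime 0 then lam 0 else 0) = 0 := by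
    unfold lam
    simp
  rw [h3, zero_add]
  rfl

theorem pi_key (A : ℕ) : ∀ᶠ N : ℕ in atTop, ∀ x0 m : ℕ, N = 2 * x0 → 1 ≤ m →
    (N : ℝ) ≤ m * Real.log N ^ A → ∃ p : ℕ, p.Prime ∧ x0 < p + m ∧ p < x0 + m := by
  obtain ⟨η, hη⟩ := exists_wt
  set B : ℕ := 2 * A + 4 with hB
  have hS := GV.swz η hη (B + 1) (B + 1)
  have hT : Tendsto (fun N : ℕ => Real.log (N : ℝ)) atTop atTop :=
    Real.tendsto_log_atTop.comp tendsto_natCast_atTop_atTop
  have hL : ∀ᶠ N : ℕ in atTop, (1000 : ℝ) ≤ Real.log N := hT.eventually_ge_atTop 1000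
  have hlo : ∀ᶠ x : ℝ in atTop, 16 * Real.log x ^ (2 * B + 4) ≤ x := by
    have h1 := (Real.isLittleO_pow_log_id_atTop (n := 2 * B + 4)).bound
      (show (0 : ℝ) < 1 / 16 by norm_num)
    filter_upwards [h1, eventually_ge_atTop (1 : ℝ)] with x hx hx1
    rw [id, Real.norm_eq_abs, Real.norm_eq_abs, abs_of_nonneg (by linarith : (0 : ℝ) ≤ x)] at hx
    have := (le_abs_self _).trans hx
    linarith
  have hlo' : ∀ᶠ N : ℕ in atTop, 16 * Real.log (N : ℝ) ^ (2 * B + 4) ≤ N :=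
    tendsto_natCast_atTop_atTop.eventually hlo
  filter_upwards [hS, hL, hlo', eventually_ge_atTop 2] with N hS hL hlo hN2 x0 m hNx hm hNm
  by_contra hcon
  have hno : ∀ p : ℕ, p.Prime → ¬ (x0 < p + m ∧ p < x0 + m) := by
    intro p hp h
    exact hcon ⟨p, hp, h.1, h.2⟩
  have hx0 : 1 ≤ x0 := by omega
  set L : ℝ := Real.log N with hLdef
  have hL1 : (1 : ℝ) ≤ L := by linarith
  have hNR : (2 : ℝ) ≤ N := by exact_mod_cast hN2
  set H : ℕ := ⌈L ^ B⌉₊ with hH
  have hLB : (1 : ℝ) ≤ L ^ B := one_le_pow₀ hL1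
  have hH1 : L ^ B ≤ H := Nat.le_ceil _
  have hH2 : (H : ℝ) ≤ 2 * L ^ B := by
    have : (H : ℝ) < L ^ B + 1 := Nat.ceil_lt_add_one (by positivity)
    linarith
  have hHn : 1 ≤ H := by
    have : (1 : ℝ) ≤ H := hLB.trans hH1
    exact_mod_cast this
  have hHR : (1 : ℝ) ≤ H := by exact_mod_cast hHn
  have hH3 : (H : ℝ) ≤ L ^ (B + 1) := by
    rw [pow_succ]
    nlinarith
  have h1 := pi_expand η N H x0 (N / L ^ (B + 1)) (by omega) (fun b hb => hS b (hb.trans hH3))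
  have h2 := pi_lower η hη N H x0 hNx hx0 hHn
  have h3 := pi_upper η hη N H x0 m (L ^ A) hNx hx0 hm hNm (by positivity) hno
  have h4 : ∑ n ∈ range (N + 1), (lam n - 1) * η ((n : ℝ) / N) *
      ‖BVX.DD H (((n : ℝ) - x0) / N)‖ ^ 2 =
      ∑ n ∈ range (N + 1), lam n * η ((n : ℝ) / N) * ‖BVX.DD H (((n : ℝ) - x0) / N)‖ ^ 2 -
      ∑ n ∈ range (N + 1), η ((n : ℝ) / N) * ‖BVX.DD H (((n : ℝ) - x0) / N)‖ ^ 2 := by
    rw [← sum_sub_distrib]
    refine sum_congr rfl fun n _ => ?_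
    ring
  rw [h4] at h1
  have h5 := (abs_le.mp h1).1
  have hkey : (N : ℝ) * H / 64 ≤ (N + 1) * (L * (L ^ A) ^ 2) +
      (H : ℝ) ^ 2 * (2 * Real.sqrt N * L) + (H : ℝ) ^ 2 * (N / L ^ (B + 1)) := by
    linarith
  -- the three terms are at most `N H / L` each up to constants
  have hNH : 0 < (N : ℝ) * H := by positivity
  have t1 : (N + 1) * (L * (L ^ A) ^ 2) ≤ 2 * (N * H / L) := by
    have e1 : (L ^ A) ^ 2 * L ^ 4 = L ^ B := by
      rw [hB, pow_add, ← pow_mul, mul_comm A 2]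
    have e2 : L * (L ^ A) ^ 2 * L ≤ H := by
      refine le_trans ?_ hH1
      rw [← e1]
      have : L * (L ^ A) ^ 2 * L = (L ^ A) ^ 2 * L ^ 2 := by ring
      rw [this]
      apply mul_le_mul_of_nonneg_left _ (by positivity)
      exact pow_le_pow_right₀ hL1 (by norm_num)
    have e3 : L * (L ^ A) ^ 2 ≤ H / L := by
      rw [le_div_iff₀ (by linarith)]
      exact e2
    calc (N + 1) * (L * (L ^ A) ^ 2) ≤ (2 * N) * (H / L) := by
          apply mul_le_mul (by linarith) e3 (by positivity) (by positivity)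
      _ = 2 * (N * H / L) := by ring
  have t3 : (H : ℝ) ^ 2 * (N / L ^ (B + 1)) ≤ 2 * (N * H / L) := by
    have e1 : (H : ℝ) ^ 2 * (N / L ^ (B + 1)) = (N * H / L) * (H / L ^ B) := by
      rw [pow_succ L B]
      field_simp
    rw [e1]
    have e2 : (H : ℝ) / L ^ B ≤ 2 := by
      rw [div_le_iff₀ (by positivity)]
      exact hH2
    have e3 : 0 ≤ (N : ℝ) * H / L := by positivity
    nlinarith
  have t2 : (H : ℝ) ^ 2 * (2 * Real.sqrt N * L) ≤ N * H / L := by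
    have e0 : 4 * L ^ (B + 2) ≤ Real.sqrt N := by
      apply Real.le_sqrt_of_sq_le
      calc (4 * L ^ (B + 2)) ^ 2 = 16 * L ^ (2 * B + 4) := by
            rw [mul_pow, ← pow_mul]
            congr 1
            · norm_num
            · congr 1
              ring
        _ ≤ N := hlo
    have e1 : (H : ℝ) * (2 * L ^ 2) ≤ Real.sqrt N := by
      refine le_trans ?_ e0
      calc (H : ℝ) * (2 * L ^ 2) ≤ (2 * L ^ B) * (2 * L ^ 2) :=
            mul_le_mul_of_nonneg_right hH2 (by positivity)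
        _ = 4 * L ^ (B + 2) := by ring
    have e2 : Real.sqrt N * Real.sqrt N = N := Real.mul_self_sqrt (by linarith)
    rw [le_div_iff₀ (by linarith)]
    calc (H : ℝ) ^ 2 * (2 * Real.sqrt N * L) * L
        = H * Real.sqrt N * (H * (2 * L ^ 2)) := by ring
      _ ≤ H * Real.sqrt N * Real.sqrt N := mul_le_mul_of_nonneg_left e1 (by positivity)
      _ = N * H := by rw [mul_assoc, e2]; ring
  have hfin : (N : ℝ) * H / 64 ≤ 5 * (N * H / L) := by linarith
  have e4 : (N : ℝ) * H / L ≤ N * H / 1000 := by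
    apply div_le_div_of_nonneg_left hNH.le (by norm_num) hL
  linarith

/-- keep this signature -/
theorem thm_PI : St_PI := by
  intro A
  obtain ⟨N₀, hN₀⟩ := eventually_atTop.mp (pi_key (A + 1))
  have hT : Tendsto (fun N : ℕ => Real.log (N : ℝ)) atTop atTop :=
    Real.tendsto_log_atTop.comp tendsto_natCast_atTop_atTop
  have hL : ∀ᶠ n : ℕ in atTop, (3 * 2 ^ (A + 3) : ℝ) ≤ Real.log n := hT.eventually_ge_atTop _
  have hlo : ∀ᶠ x : ℝ in atTop, Real.log x ^ (2 * A) ≤ x := by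
    have h1 := (Real.isLittleO_pow_log_id_atTop (n := 2 * A)).bound
      (show (0 : ℝ) < 1 by norm_num)
    filter_upwards [h1, eventually_ge_atTop (1 : ℝ)] with x hx hx1
    rw [id, Real.norm_eq_abs, Real.norm_eq_abs, abs_of_nonneg (by linarith : (0 : ℝ) ≤ x)] at hx
    have := (le_abs_self _).trans hx
    linarith
  have hlo' : ∀ᶠ N : ℕ in atTop, Real.log (N : ℝ) ^ (2 * A) ≤ N :=
    tendsto_natCast_atTop_atTop.eventually hlo
  filter_upwards [hL, hlo', eventually_ge_atTop (N₀ ^ 2 + 5)] with n hL hlo hn a m han hnm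
  have hnR : ((N₀ ^ 2 + 5 : ℕ) : ℝ) ≤ n := by exact_mod_cast hn
  push_cast at hnR
  set L : ℝ := Real.log n with hLdef
  have hpow : (1 : ℝ) ≤ 2 ^ (A + 3) := one_le_pow₀ (by norm_num)
  have hL1 : (1 : ℝ) ≤ L := by linarith
  have hLA : (0 : ℝ) < L ^ A := by positivity
  have hn0 : (0 : ℝ) < n := by nlinarith [sq_nonneg (N₀ : ℝ)]
  have hsq : Real.sqrt n * Real.sqrt n = n := Real.mul_self_sqrt hn0.le
  have hLAsqrt : L ^ A ≤ Real.sqrt n := by
    apply Real.le_sqrt_of_sq_le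
    calc (L ^ A) ^ 2 = L ^ (2 * A) := by rw [← pow_mul, mul_comm]
      _ ≤ n := hlo
  have hs0 : 0 < Real.sqrt n := Real.sqrt_pos.mpr hn0
  have hsm : Real.sqrt n ≤ m := by
    have h1 : Real.sqrt n * Real.sqrt n ≤ m * Real.sqrt n := by
      rw [hsq]
      refine hnm.trans ?_
      exact mul_le_mul_of_nonneg_left hLAsqrt (Nat.cast_nonneg m)
    exact le_of_mul_le_mul_right h1 hs0
  have hs2 : (2 : ℝ) ≤ Real.sqrt n := by
    apply Real.le_sqrt_of_sq_le
    nlinarith [sq_nonneg (N₀ : ℝ)]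
  have hm2R : (2 : ℝ) ≤ m := hs2.trans hsm
  have hm2 : 2 ≤ m := by exact_mod_cast hm2R
  rcases Nat.eq_zero_or_pos a with ha | ha
  · exact ⟨2, Nat.prime_two, by omega, by omega⟩
  rcases le_or_gt a m with ham | ham
  · obtain ⟨p, hp, h1, h2⟩ := Nat.exists_prime_lt_and_le_two_mul a (by omega)
    exact ⟨p, hp, h1, by omega⟩
  -- main case
  set m' : ℕ := m / 2 with hm'
  set N : ℕ := 2 * (a + m') with hN
  have haR : (a : ℝ) ≤ n := by exact_mod_cast han
  have hmaR : (m : ℝ) ≤ a := by exact_mod_cast ham.le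
  have hm'R : (m : ℝ) / 4 ≤ m' := by
    have : m ≤ 4 * m' := by omega
    have h2 : (m : ℝ) ≤ 4 * m' := by exact_mod_cast this
    linarith
  have hm'R2 : (m' : ℝ) ≤ m / 2 := by
    have : 2 * m' ≤ m := by omega
    have h2 : 2 * (m' : ℝ) ≤ m := by exact_mod_cast this
    linarith
  have hNR : (N : ℝ) = 2 * (a + m') := by
    rw [hN]
    push_cast
    ring
  have hNs : Real.sqrt n ≤ N := by
    rw [hNR]
    have : (0 : ℝ) ≤ m' := Nat.cast_nonneg _
    linarith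
  have hNn : (N : ℝ) ≤ 3 * n := by
    rw [hNR]
    linarith
  have hNN₀ : N₀ ≤ N := by
    have h1 : (N₀ : ℝ) ≤ Real.sqrt n := by
      apply Real.le_sqrt_of_sq_le
      linarith
    have h2 : (N₀ : ℝ) ≤ N := h1.trans hNs
    exact_mod_cast h2
  have hlogN : L / 2 ≤ Real.log N := by
    have h1 : Real.log (Real.sqrt n) ≤ Real.log N := Real.log_le_log hs0 hNs
    rw [Real.log_sqrt hn0.le] at h1
    exact h1
  have hcond : (N : ℝ) ≤ m' * Real.log N ^ (A + 1) := by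
    have h1 : (L / 2) ^ (A + 1) ≤ Real.log N ^ (A + 1) :=
      pow_le_pow_left₀ (by positivity) hlogN _
    have h2 : (m : ℝ) / 4 * (L / 2) ^ (A + 1) ≤ m' * Real.log N ^ (A + 1) :=
      mul_le_mul hm'R h1 (by positivity) (Nat.cast_nonneg _)
    refine le_trans ?_ h2
    have h3 : (m : ℝ) / 4 * (L / 2) ^ (A + 1) = (m * L ^ A) * (L / 2 ^ (A + 3)) := by
      rw [div_pow, pow_succ L A, pow_add (2 : ℝ) A 3, pow_succ (2 : ℝ) A]
      field_simp
      ring
    rw [h3]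
    have h4 : (3 : ℝ) ≤ L / 2 ^ (A + 3) := by
      rw [le_div_iff₀ (by positivity)]
      exact hL
    calc (N : ℝ) ≤ n * 3 := by linarith
      _ ≤ (m * L ^ A) * (L / 2 ^ (A + 3)) := mul_le_mul hnm h4 (by norm_num) (by positivity)
  obtain ⟨p, hp, h1, h2⟩ := hN₀ N hNN₀ (a + m') m' hN (by omega) hcond
  exact ⟨p, hp, by omega, by omega⟩

end Pool.Agent.CU
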