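import Mathlib
import Pool.Agent.CU.Stmts
import Pool.Agent.BVX.MulLS

set_option autoImplicit false

/-!
# CU / PV

The inequality of Polya and Vinogradov for primitive characters, with the constant one.
-/

namespace Pool.Agent.CU

open Finset Filter Pool.Agent.MT Pool.Agent.CH

open Pool.Agent.BVX in
theorem pv_sum_ee (u v : ℕ) (x : ℝ) : ∑ n ∈ Ioc u v, ee (n * x) =
    ee (((u + 1 : ℕ) : ℝ) * x) * DD (v - u) x := by
  have h1 : Ioc u v = Ico (u + 1) (v + 1) := by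
    ext n
    rw [mem_Ioc, mem_Ico]
    omega
  rw [h1, sum_Ico_eq_sum_range]
  unfold DD
  rw [mul_sum, show v + 1 - (u + 1) = v - u by omega]
  refine sum_congr rfl fun j _ => ?_
  rw [← ee_add]
  congr 1
  push_cast
  ring

open Pool.Agent.BVX in
theorem pv_dd (q b : ℕ) (hb : 0 < b) (hbq : b < q) :
    0 < dd ((b : ℝ) / q) ∧
      1 / (2 * dd ((b : ℝ) / q)) ≤ (q : ℝ) / 2 * (1 / (b : ℝ) + 1 / ((q - b : ℕ) : ℝ)) := by
  have hq0 : (0 : ℝ) < q := by exact_mod_cast (by omega)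
  have hb0 : (0 : ℝ) < b := by exact_mod_cast hb
  have hc0 : (0 : ℝ) < ((q - b : ℕ) : ℝ) := by exact_mod_cast (by omega)
  have hc : ((q - b : ℕ) : ℝ) = (q : ℝ) - b := by
    rw [Nat.cast_sub hbq.le]
  have hkey : (b : ℝ) / q ≤ dd ((b : ℝ) / q) ∨ ((q - b : ℕ) : ℝ) / q ≤ dd ((b : ℝ) / q) := by
    unfold dd
    rcases le_or_gt (round ((b : ℝ) / q)) 0 with h | h
    · left
      have h1 : ((round ((b : ℝ) / q) : ℤ) : ℝ) ≤ 0 := by exact_mod_cast h
      rw [abs_of_nonneg (by have : 0 < (b : ℝ) / q := by positivity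
                            linarith)]
      linarith
    · right
      have h1 : (1 : ℝ) ≤ ((round ((b : ℝ) / q) : ℤ) : ℝ) := by exact_mod_cast h
      have h2 : (b : ℝ) / q ≤ 1 := by
        rw [div_le_one hq0]
        exact_mod_cast hbq.le
      rw [abs_of_nonpos (by linarith), hc, sub_div, div_self hq0.ne']
      linarith
  have e1 : 1 / (2 * ((b : ℝ) / q)) = (q : ℝ) / 2 * (1 / (b : ℝ)) := by
    field_simp
  have e2 : 1 / (2 * (((q - b : ℕ) : ℝ) / q)) = (q : ℝ) / 2 * (1 / ((q - b : ℕ) : ℝ)) := by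
    field_simp
  have p1 : 0 < (b : ℝ) / q := by positivity
  have p2 : 0 < ((q - b : ℕ) : ℝ) / q := by positivity
  have n1 : 0 ≤ (q : ℝ) / 2 * (1 / (b : ℝ)) := by positivity
  have n2 : 0 ≤ (q : ℝ) / 2 * (1 / ((q - b : ℕ) : ℝ)) := by positivity
  rcases hkey with h | h
  · have hd : 0 < dd ((b : ℝ) / q) := lt_of_lt_of_le p1 h
    refine ⟨hd, ?_⟩
    have h3 : 1 / (2 * dd ((b : ℝ) / q)) ≤ 1 / (2 * ((b : ℝ) / q)) :=
      one_div_le_one_div_of_le (by positivity) (by linarith)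
    rw [e1] at h3
    rw [mul_add]
    linarith
  · have hd : 0 < dd ((b : ℝ) / q) := lt_of_lt_of_le p2 h
    refine ⟨hd, ?_⟩
    have h3 : 1 / (2 * dd ((b : ℝ) / q)) ≤ 1 / (2 * (((q - b : ℕ) : ℝ) / q)) :=
      one_div_le_one_div_of_le (by positivity) (by linarith)
    rw [e2] at h3
    rw [mul_add]
    linarith

theorem pv_harm (q : ℕ) (hq : 2 ≤ q) :
    ∑ b ∈ (range q).erase 0, ((q : ℝ) / 2 * (1 / (b : ℝ) + 1 / ((q - b : ℕ) : ℝ))) ≤
      q * (1 + Real.log q) := by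
  have h1 : (range q).erase 0 = Icc 1 (q - 1) := by
    ext b
    rw [mem_erase, mem_range, mem_Icc]
    omega
  rw [h1, ← mul_sum, sum_add_distrib]
  have h2 : ∑ b ∈ Icc 1 (q - 1), 1 / ((q - b : ℕ) : ℝ) = ∑ b ∈ Icc 1 (q - 1), 1 / (b : ℝ) := by
    refine sum_nbij' (fun b => q - b) (fun b => q - b) ?_ ?_ ?_ ?_ ?_
    · intro b hb
      rw [mem_Icc] at hb ⊢
      omega
    · intro b hb
      rw [mem_Icc] at hb ⊢
      omega
    · intro b hb
      rw [mem_Icc] at hb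
      omega
    · intro b hb
      rw [mem_Icc] at hb
      omega
    · intro b _
      rfl
  rw [h2]
  have h3 : ∑ b ∈ Icc 1 (q - 1), 1 / (b : ℝ) = ((harmonic (q - 1) : ℚ) : ℝ) := by
    rw [harmonic_eq_sum_Icc]
    push_cast
    refine sum_congr rfl fun b _ => ?_
    rw [one_div]
  have h4 := harmonic_le_one_add_log (q - 1)
  have h5 : Real.log ((q - 1 : ℕ) : ℝ) ≤ Real.log q := by
    apply Real.log_le_log
    · exact_mod_cast (by omega)
    · exact_mod_cast (by omega)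
  rw [h3]
  have hq0 : (0 : ℝ) < q := by exact_mod_cast (by omega)
  have e : (q : ℝ) / 2 * (((harmonic (q - 1) : ℚ) : ℝ) + ((harmonic (q - 1) : ℚ) : ℝ)) =
      q * ((harmonic (q - 1) : ℚ) : ℝ) := by ring
  rw [e]
  apply mul_le_mul_of_nonneg_left _ hq0.le
  linarith

open Pool.Agent.BVX in
/-- keep this signature -/
theorem thm_PV : St_PV := by
  refine ⟨1, one_pos, ?_⟩
  intro q u v hq χ hχ
  rw [mem_prim] at hχ
  have hne : NeZero q := ⟨by omega⟩
  have hq2 : 2 ≤ q := by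
    by_contra h
    have h1 : q = 1 := by omega
    subst h1
    exact hχ.2 (DirichletCharacter.level_one χ)
  have hqR : (0 : ℝ) < q := by exact_mod_cast (by omega)
  have hp := isPrimitive_inv χ hχ.1
  set ψ : AddChar (ZMod q) ℂ := ZMod.stdAddChar (N := q) with hψ
  have hg := gauss_sq χ⁻¹ hp
  rw [← hψ] at hg
  have hg1 : ‖gaussSum χ⁻¹ ψ‖ = Real.sqrt q := by
    rw [← hg, Real.sqrt_sq (norm_nonneg _)]
  have e0 : gaussSum χ⁻¹ ψ * ∑ j ∈ Ioc u v, χ (j : ZMod q) =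
      ∑ b : ZMod q, χ⁻¹ b * ∑ j ∈ Ioc u v, ψ ((j : ZMod q) * b) := by
    rw [mul_sum]
    have e1 : ∀ n ∈ Ioc u v, gaussSum χ⁻¹ ψ * χ (n : ZMod q) =
        ∑ b : ZMod q, χ⁻¹ b * ψ ((n : ZMod q) * b) := by
      intro n _
      have e2 := gaussSum_mulShift_of_isPrimitive ψ hp (n : ZMod q)
      rw [inv_inv] at e2
      rw [mul_comm, ← e2]
      unfold gaussSum
      refine sum_congr rfl fun b _ => ?_
      rw [AddChar.mulShift_apply]
    rw [sum_congr rfl e1, sum_comm]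
    refine sum_congr rfl fun b _ => ?_
    rw [mul_sum]
  have e3 : ∀ b : ZMod q, ‖χ⁻¹ b * ∑ j ∈ Ioc u v, ψ ((j : ZMod q) * b)‖ ≤
      (fun k : ℕ => if k = 0 then (0 : ℝ) else
        (q : ℝ) / 2 * (1 / (k : ℝ) + 1 / ((q - k : ℕ) : ℝ))) b.val := by
    intro b
    change _ ≤ if b.val = 0 then (0 : ℝ) else
        (q : ℝ) / 2 * (1 / (b.val : ℝ) + 1 / ((q - b.val : ℕ) : ℝ))
    by_cases hb : b.val = 0
    · rw [if_pos hb]
      have hb0 : b = 0 := (ZMod.val_eq_zero b).mp hb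
      have hnu : ¬ IsUnit (0 : ZMod q) := by
        have : Fact (1 < q) := ⟨by omega⟩
        exact not_isUnit_zero
      rw [hb0, MulChar.map_nonunit _ hnu, zero_mul, norm_zero]
    · rw [if_neg hb]
      have hbpos : 0 < b.val := Nat.pos_of_ne_zero hb
      obtain ⟨hd, hd2⟩ := pv_dd q b.val hbpos (ZMod.val_lt b)
      have h1 : ∑ j ∈ Ioc u v, ψ ((j : ZMod q) * b) =
          ee (((u + 1 : ℕ) : ℝ) * ((b.val : ℝ) / q)) * DD (v - u) ((b.val : ℝ) / q) := by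
        rw [← pv_sum_ee]
        refine sum_congr rfl fun j _ => ?_
        rw [hψ, std_ee]
      rw [norm_mul, h1, norm_mul, norm_ee, one_mul]
      have h2 : ‖χ⁻¹ b‖ ≤ 1 := DirichletCharacter.norm_le_one _ _
      have h3 : ‖DD (v - u) ((b.val : ℝ) / q)‖ ≤ 1 / (2 * dd ((b.val : ℝ) / q)) := by
        have h4 := DD_le' (v - u) _ hd
        have h5 : 1 / (4 * dd ((b.val : ℝ) / q) ^ 2) = (1 / (2 * dd ((b.val : ℝ) / q))) ^ 2 := by
          field_simp
          ring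
        rw [h5] at h4
        exact (pow_le_pow_iff_left₀ (norm_nonneg _) (by positivity) two_ne_zero).mp h4
      calc ‖χ⁻¹ b‖ * ‖DD (v - u) ((b.val : ℝ) / q)‖ ≤ 1 * ‖DD (v - u) ((b.val : ℝ) / q)‖ :=
            mul_le_mul_of_nonneg_right h2 (norm_nonneg _)
        _ ≤ 1 / (2 * dd ((b.val : ℝ) / q)) := by rw [one_mul]; exact h3
        _ ≤ _ := hd2
  have e4 : ∑ b : ZMod q, (fun k : ℕ => if k = 0 then (0 : ℝ) else
        (q : ℝ) / 2 * (1 / (k : ℝ) + 1 / ((q - k : ℕ) : ℝ))) b.val =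
      ∑ k ∈ range q, (fun k : ℕ => if k = 0 then (0 : ℝ) else
        (q : ℝ) / 2 * (1 / (k : ℝ) + 1 / ((q - k : ℕ) : ℝ))) k := by
    refine sum_nbij' (fun b => b.val) (fun b => (b : ZMod q)) ?_ ?_ ?_ ?_ ?_
    · intro b _
      rw [mem_range]
      exact ZMod.val_lt b
    · intro b _
      exact mem_univ _
    · intro b _
      simp
    · intro b hb
      rw [mem_range] at hb
      exact ZMod.val_cast_of_lt hb
    · intro b _
      rfl
  have e5 : ∑ k ∈ range q, (fun k : ℕ => if k = 0 then (0 : ℝ) else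
        (q : ℝ) / 2 * (1 / (k : ℝ) + 1 / ((q - k : ℕ) : ℝ))) k ≤ q * (1 + Real.log q) := by
    refine le_trans (le_of_eq ?_) (pv_harm q hq2)
    rw [← Finset.sum_erase (range q) (a := 0) (by simp)]
    refine sum_congr rfl fun k hk => ?_
    rw [mem_erase] at hk
    rw [if_neg hk.1]
  have e6 : Real.sqrt q * ‖∑ j ∈ Ioc u v, χ (j : ZMod q)‖ ≤ q * (1 + Real.log q) := by
    rw [← hg1, ← norm_mul, e0]
    calc _ ≤ ∑ b : ZMod q, ‖χ⁻¹ b * ∑ j ∈ Ioc u v, ψ ((j : ZMod q) * b)‖ := norm_sum_le _ _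
      _ ≤ _ := sum_le_sum fun b _ => e3 b
      _ = _ := e4
      _ ≤ _ := e5
  have hs : 0 < Real.sqrt q := Real.sqrt_pos.mpr hqR
  have hss : Real.sqrt q * Real.sqrt q = q := Real.mul_self_sqrt hqR.le
  rw [one_mul]
  have e7 : Real.sqrt q * ‖∑ j ∈ Ioc u v, χ (j : ZMod q)‖ ≤
      Real.sqrt q * (Real.sqrt q * (1 + Real.log q)) := by
    rw [← mul_assoc, hss]
    exact e6
  exact le_of_mul_le_mul_left e7 hs

end Pool.Agent.CU
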