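import Mathlib
import Pool.Agent.CU.Stmts
import Pool.Agent.CH.SP
import Pool.Agent.CH.ASum

set_option autoImplicit false

/-!
# CU / T4P

The upper bound for the weighted sum over the primes `p` in `(z4, y4]` of the sifted sums over the
`q` divisible by `p`.
-/

namespace Pool.Agent.CU

open Finset Filter Pool.Agent.MT Pool.Agent.CH

theorem T4P_tl_nonneg {η : ℝ → ℝ} (hη : IsWt η) (N m n q : ℕ) : 0 ≤ tl η N m n q :=
  mul_nonneg (hη.nonneg _) (sum_nonneg fun _ _ => SP_lam_nonneg _)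

/-- the density of a squarefree modulus -/
theorem T4P_density (w d : ℕ) (hd : Squarefree d) :
    1 / (d : ℝ) * ∏ l ∈ d.primeFactors, ((OmT w l).card : ℝ) = ∏ l ∈ d.primeFactors, gT w l := by
  have h1 : (d : ℝ) = ∏ l ∈ d.primeFactors, (l : ℝ) := by
    rw [← Nat.cast_prod, Nat.prod_primeFactors_of_squarefree hd]
  unfold gT
  rw [prod_div_distrib, ← h1]
  ring

/-- the sieve bound for one prime `p` -/
theorem T4P_one (h2 : St_Gen) {η : ℝ → ℝ} (hη : IsWt η) {w z N m n p : ℕ} {θ : ℝ} (hN : 1 ≤ N)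
    (hθ : θ ≤ 1) (hp : p.Prime) (hzp : z < p)
    (hcard : ∀ l : ℕ, l.Prime → (OmT w l).card ≤ 3)
    (E : ℕ → ℝ) (hE0 : ∀ d, 0 ≤ E d)
    (hE : ∀ f c : ℕ, 1 ≤ f → (f : ℝ) ≤ (N : ℝ) ^ θ → c < f →
      |TAP η N m n f c - psi0 (etaR η) (m * N) / f| ≤ E f)
    (c : ℕ → ℝ)
    (hc1 : ∀ d, c d ≠ 0 → Squarefree d ∧ (∀ l ∈ d.primeFactors, l ≤ z) ∧
      ((p * d : ℕ) : ℝ) ≤ (N : ℝ) ^ θ)
    (hc4 : ∀ S : Finset ℕ, S ⊆ pr z → (if S = ∅ then (1 : ℝ) else 0) ≤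
      ∑ T ∈ S.powerset, c (∏ l ∈ T, l))
    {V : ℝ} (hc3 : ∑ d ∈ Icc 1 (N ^ 2), c d * ∏ l ∈ d.primeFactors, gT w l ≤ V) :
    SSp η w z p N m n ≤ psi0 (etaR η) (m * N) / p * V +
        ∑ d ∈ Icc 1 (N ^ 2), |c d| * ((3 : ℝ) ^ d.primeFactors.card * E (p * d)) := by
  classical
  have hN1 : (1 : ℝ) ≤ N := by exact_mod_cast hN
  have hNθ : (N : ℝ) ^ θ ≤ N := by
    calc (N : ℝ) ^ θ ≤ (N : ℝ) ^ (1 : ℝ) := Real.rpow_le_rpow_of_exponent_le hN1 hθ
      _ = N := Real.rpow_one _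
  have hpd : ∀ d, c d ≠ 0 → p * d ≤ N ∧ 1 ≤ d ∧ p.Coprime d := by
    intro d hd
    obtain ⟨h3, h4, h5⟩ := hc1 d hd
    refine ⟨by exact_mod_cast h5.trans hNθ, Nat.pos_of_ne_zero h3.ne_zero, ?_⟩
    rw [Nat.Prime.coprime_iff_not_dvd hp]
    intro h6
    have := h4 p (Nat.mem_primeFactors.2 ⟨hp, h6, h3.ne_zero⟩)
    omega
  set ϖ : ℕ → ℝ := fun q => if p ∣ q then tl η N m n q else 0 with hϖ
  have hterm : ∀ q : ℕ, 0 ≤ tl η N m n q := fun q => T4P_tl_nonneg hη N m n q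
  have hstep1 : SSp η w z p N m n ≤ ∑ q ∈ range (N + 1), ϖ q *
        ∑ T ∈ ((pr z).filter (fun l => q % l ∈ OmT w l)).powerset, c (∏ l ∈ T, l) := by
    unfold SSp
    rw [sum_filter]
    refine sum_le_sum fun q _ => ?_
    have hS := hc4 ((pr z).filter (fun l => q % l ∈ OmT w l)) (filter_subset _ _)
    simp only [hϖ]
    by_cases hpq : p ∣ q
    · rw [if_pos hpq]
      by_cases h3 : ∀ l ∈ pr z, q % l ∉ OmT w l
      · rw [if_pos ⟨h3, hpq⟩]
        rw [if_pos (filter_eq_empty_iff.2 h3)] at hS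
        exact le_mul_of_one_le_right (hterm q) hS
      · rw [if_neg (fun h => h3 h.1)]
        refine mul_nonneg (hterm q) (le_trans ?_ hS)
        split_ifs <;> norm_num
    · rw [if_neg hpq, zero_mul, if_neg (fun h => hpq h.2)]
  have hgen := h2 ϖ c (fun d => 1 / ((p * d : ℕ) : ℝ)) (fun d => E (p * d))
    (OmT w) (pr z) N (N ^ 2) 3 (psi0 (etaR η) (m * N))
    (fun l hl => (mem_filter.1 hl).2)
    (fun l hl => ⟨filter_subset _ _, hcard l (mem_filter.1 hl).2⟩)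
    (by
      intro d hd
      obtain ⟨h3, h4, -⟩ := hc1 d hd
      obtain ⟨h6, h7, -⟩ := hpd d hd
      refine ⟨h3, ?_, ?_⟩
      · intro l hl
        exact mem_filter.2 ⟨mem_range.2 (Nat.lt_succ_of_le (h4 l hl)),
          Nat.prime_of_mem_primeFactors hl⟩
      · have h8 : d ≤ p * d := Nat.le_mul_of_pos_left d hp.pos
        nlinarith)
    (fun d => hE0 _)
    (by
      intro d hd a had hal
      obtain ⟨h3, h4, h5⟩ := hc1 d hd
      obtain ⟨h6, h7, h8⟩ := hpd d hd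
      obtain ⟨c', hc'1, hc'2, hc'3, hc'4⟩ := SP_crt hp h8 had
      have hsum : ∑ q ∈ (range (N + 1)).filter (fun q => q % d = a), ϖ q =
          TAP η N m n (p * d) c' := by
        unfold TAP
        simp only [hϖ]
        rw [← sum_filter, filter_filter]
        refine sum_congr ?_ fun _ _ => rfl
        ext q
        simp only [mem_filter]
        rw [hc'4 q]
      have hE' := hE (p * d) c' (Nat.mul_pos hp.pos h7) h5 hc'1
      rw [hsum]
      simp only [mul_one_div]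
      exact hE')
  have hmain : ∑ d ∈ Icc 1 (N ^ 2), c d * (1 / ((p * d : ℕ) : ℝ) *
      ∏ l ∈ d.primeFactors, ((OmT w l).card : ℝ)) =
      1 / (p : ℝ) * ∑ d ∈ Icc 1 (N ^ 2), c d * ∏ l ∈ d.primeFactors, gT w l := by
    rw [mul_sum]
    refine sum_congr rfl fun d _ => ?_
    by_cases hd : c d = 0
    · rw [hd, zero_mul, zero_mul, mul_zero]
    · obtain ⟨h3, h4, h5⟩ := hc1 d hd
      have h10 := T4P_density w d h3
      rw [← h10]
      push_cast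
      rw [← one_div_mul_one_div]
      ring
  have hM := SP_psi0_nonneg hη (m * N)
  have hp1 : (0 : ℝ) < (p : ℝ) := by exact_mod_cast hp.pos
  have hcoef : 0 ≤ psi0 (etaR η) (m * N) / (p : ℝ) := div_nonneg hM hp1.le
  have h3 := (abs_le.1 hgen).2
  rw [hmain] at h3
  have h4 : psi0 (etaR η) (m * N) * (1 / (p : ℝ) *
      ∑ d ∈ Icc 1 (N ^ 2), c d * ∏ l ∈ d.primeFactors, gT w l) ≤
      psi0 (etaR η) (m * N) / (p : ℝ) * V := by
    rw [← mul_assoc, mul_one_div]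
    exact mul_le_mul_of_nonneg_left hc3 hcoef
  have h5 : ∑ d ∈ Icc 1 (N ^ 2), |c d| * (((3 : ℕ) : ℝ) ^ d.primeFactors.card * E (p * d)) =
      ∑ d ∈ Icc 1 (N ^ 2), |c d| * ((3 : ℝ) ^ d.primeFactors.card * E (p * d)) := by
    norm_num
  rw [h5] at h3
  linarith

/-- the density is admissible for the sieve -/
theorem T4P_Dns (h4 : St_DensT) (w z : ℕ) : DnsG w z 0 (gT w) := by
  obtain ⟨d1, -, -, -⟩ := h4
  refine ⟨fun l hl => ?_, fun l hl hwl _ => ?_, ?_⟩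
  · obtain ⟨-, e1, e2, e3, -⟩ := d1 w l hl
    exact ⟨e1, e2, e3⟩
  · obtain ⟨-, -, -, -, e4⟩ := d1 w l hl
    refine Or.inr ⟨(e4 hwl).ge, ?_⟩
    rw [e4 hwl]
    have : (2 : ℝ) ≤ l := by exact_mod_cast hl.two_le
    exact one_div_le_one_div_of_le (by linarith) (by linarith)
  · rw [Nat.le_zero, card_eq_zero, filter_eq_empty_iff]
    rintro l hl ⟨hwl, h0⟩
    have hlp : l.Prime := (mem_filter.1 hl).2
    obtain ⟨-, -, -, -, e4⟩ := d1 w l hlp
    rw [e4 hwl] at h0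
    have : (0 : ℝ) < l := by exact_mod_cast hlp.pos
    have h5 : (0 : ℝ) < 1 / (l : ℝ) := by positivity
    linarith

/-- the general form: `z = N^a`, level `N^lam`, weights `W` -/
theorem T4P_gen (A0 : ℝ) (hA0 : 0 < A0) (h0 : St_LGU A0) (h2 : St_Gen) (h3 : St_VLow)
    (h4 : St_DensT) (h5 : St_P1) {η : ℝ → ℝ} (hη : IsWt η) {a lam L t τ ε : ℝ} (z y : ℕ → ℕ)
    (W : ℕ → ℕ → ℝ) (ha : 0 < a) (hlam : lam ≤ 1) (hτ : 0 < τ) (hL0 : 0 ≤ L) (hL1 : L ≤ 1 / 2)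
    (ht0 : 0 < t) (ht2 : t ≤ 1 / 2) (hε : 0 < ε) (ht3 : t * (6 * A0 + 12) ≤ ε)
    (hsz : ∀ᶠ N : ℕ in atTop, (N : ℝ) ^ (1 / 20 : ℝ) ≤ z N ∧ 2 ≤ z N ∧
      (z N : ℝ) ≤ (N : ℝ) ^ a ∧ (z N : ℝ) ≤ N ∧ ∀ p ∈ (pr (y N)).filter (fun p => z N < p),
        (z N : ℝ) ≤ (N : ℝ) ^ (lam - τ) / p ∧ (N : ℝ) ^ (lam - τ) / p ≤ (z N : ℝ) ^ 3 ∧
        (N : ℝ) ^ (lam - τ) / p ≤ N ∧ 0 ≤ W N p ∧ W N p ≤ 1)
    (hS : ∀ᶠ N : ℕ in atTop, ∑ p ∈ (pr (y N)).filter (fun p => z N < p),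
      W N p * (1 / p * (a / (lam - τ - Real.log p / Real.log N))) ≤ L + t) :
    ∃ δ₁ : ℝ, 0 < δ₁ ∧ ∀ δ : ℝ, 0 < δ → δ ≤ δ₁ → ∃ (A K : ℕ),
    ∀ᶠ N : ℕ in atTop, ∀ m n : ℕ, Tile N m n →
      Lev η N m n (lam - τ / 2) K (m * N / Real.log N ^ A) →
      ∑ p ∈ (pr (y N)).filter (fun p => z N < p), W N p * SSp η (wN δ N) (z N) p N m n ≤
        (A0 * L + ε) * UT η δ N m (z N) := by
  classical
  set e1 : ℝ := min t (τ / 2) with he1
  have he0 : 0 < e1 := lt_min ht0 (by linarith)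
  have het : e1 ≤ t := min_le_left _ _
  have heτ : e1 ≤ τ / 2 := min_le_right _ _
  obtain ⟨δ₀, C, hδ₀, hLin⟩ := h0 e1 he0
  obtain ⟨c0, k, hc0, hVL⟩ := h3
  refine ⟨δ₀, hδ₀, fun δ hδ hδa => ⟨k + 1, 6 * C + 6, ?_⟩⟩
  set θ : ℝ := lam - τ / 2 with hθ
  have hI := SP_int_ge hη
  have hP1 := h5 (etaR η) (SP_etaR hη) t ht0
  rw [SP_int_etaR] at hP1
  set I : ℝ := ∫ u in (0 : ℝ)..1, η u with hIdef
  obtain ⟨M₀, hM₀⟩ := eventually_atTop.1 hP1
  filter_upwards [hsz, hS, hLin δ hδ hδa 0, eventually_ge_atTop M₀,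
    SP_logdiv (4 * C / (ε * c0)), SP_logdiv 1, eventually_ge_atTop 3]
    with N hsz hS hLU hNM hf2 hf3 hN3
  obtain ⟨s2, s3, s4, s4', s5⟩ := hsz
  intro m n hT hLev
  obtain ⟨g1, g5, g6⟩ := hT
  obtain ⟨E, hE0, hE1, hE2⟩ := hLev
  have hN1 : (1 : ℝ) < N := by exact_mod_cast (by omega : 1 < N)
  have hN0 : (0 : ℝ) < N := by linarith
  have hlogN : 0 < Real.log N := by linarith
  set zz := z N with hz
  set w := wN δ N with hw
  have hDns : DnsG ⌊(N : ℝ) ^ δ⌋₊ zz 0 (gT w) := T4P_Dns h4 _ _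
  obtain ⟨d1, -, -, -⟩ := h4
  have hθ1 : θ ≤ 1 := by rw [hθ]; linarith
  set Q := (pr (y N)).filter (fun p => zz < p) with hQ
  have hQp : ∀ p ∈ Q, p.Prime ∧ zz < p := by
    intro p hp
    obtain ⟨a1, a2⟩ := mem_filter.1 hp
    obtain ⟨a3, a4⟩ := mem_filter.1 a1
    exact ⟨a4, a2⟩
  have hz2 : (2 : ℝ) ≤ zz := by exact_mod_cast s3
  have hzpos : (0 : ℝ) < zz := by linarith
  have hlogz0 : 0 < Real.log zz := Real.log_pos (by linarith)
  have hlogz : Real.log zz ≤ a * Real.log N := by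
    have a1 := Real.log_le_log hzpos s4
    rwa [Real.log_rpow hN0] at a1
  have hLc : ∀ p, ∃ c : ℕ → ℝ, p ∈ Q →
      (∀ d, c d ≠ 0 → Squarefree d ∧ (∀ l ∈ d.primeFactors, l ≤ zz) ∧
        (d : ℝ) ≤ (N : ℝ) ^ (lam - τ) / p * (N : ℝ) ^ e1) ∧
      (∀ d, |c d| ≤ C * (C : ℝ) ^ d.primeFactors.card) ∧
      (∑ d ∈ Icc 1 (N ^ 2), c d * ∏ l ∈ d.primeFactors, gT w l ≤
        VV (gT w) zz * (A0 * Real.log zz / Real.log ((N : ℝ) ^ (lam - τ) / p) + e1)) ∧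
      ∀ S : Finset ℕ, S ⊆ pr zz → (if S = ∅ then (1 : ℝ) else 0) ≤
        ∑ T ∈ S.powerset, c (∏ l ∈ T, l) := by
    intro p
    by_cases hp : p ∈ Q
    · obtain ⟨a1, a2, a3, -, -⟩ := s5 p hp
      obtain ⟨c, hc⟩ := hLU zz ((N : ℝ) ^ (lam - τ) / p) s2 a1 a2 a3 (gT w) hDns
      exact ⟨c, fun _ => hc⟩
    · exact ⟨0, fun h => absurd h hp⟩
  choose c hc using hLc
  have hc1 : ∀ p ∈ Q, ∀ d, c p d ≠ 0 → Squarefree d ∧ (∀ l ∈ d.primeFactors, l ≤ zz) ∧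
      ((p * d : ℕ) : ℝ) ≤ (N : ℝ) ^ θ := by
    intro p hp d hd
    obtain ⟨a1, a2, a3⟩ := (hc p hp).1 d hd
    refine ⟨a1, a2, ?_⟩
    have b0 : (0 : ℝ) < p := by exact_mod_cast (hQp p hp).1.pos
    push_cast
    calc (p : ℝ) * d ≤ p * ((N : ℝ) ^ (lam - τ) / p * (N : ℝ) ^ e1) :=
          mul_le_mul_of_nonneg_left a3 b0.le
      _ = (N : ℝ) ^ (lam - τ) * (N : ℝ) ^ e1 := by
          field_simp
      _ = (N : ℝ) ^ (lam - τ + e1) := (Real.rpow_add hN0 _ _).symm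
      _ ≤ (N : ℝ) ^ θ := Real.rpow_le_rpow_of_exponent_le hN1.le (by rw [hθ]; linarith)
  have hV1 : ∀ l : ℕ, l.Prime → 0 ≤ gT w l ∧ gT w l ≤ 1 / 2 ∧ gT w l ≤ 4 / (l : ℝ) := by
    intro l hl
    obtain ⟨-, e1, e2, e3, -⟩ := d1 w l hl
    exact ⟨e1, e2, e3⟩
  have hVB0 : c0 / Real.log N ^ k ≤ VV (gT w) zz := by
    have a1 := hVL zz (gT w) s3 hV1
    refine le_trans ?_ a1
    have a2 : Real.log zz ≤ Real.log N := Real.log_le_log hzpos s4'
    exact div_le_div_of_nonneg_left hc0.le (pow_pos hlogz0 k) (pow_le_pow_left₀ hlogz0.le a2 k)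
  have hVBpos : 0 < VV (gT w) zz := lt_of_lt_of_le (by positivity) hVB0
  have hψ := SP_psi0_nonneg hη (m * N)
  -- one prime
  have hupos : ∀ p ∈ Q, 0 < lam - τ - Real.log p / Real.log N ∧
      lam - τ - Real.log p / Real.log N ≤ 3 * a ∧
      Real.log ((N : ℝ) ^ (lam - τ) / p) = Real.log N * (lam - τ - Real.log p / Real.log N) := by
    intro p hp
    obtain ⟨a1, a2⟩ := hQp p hp
    obtain ⟨b3, b4, b5, -, -⟩ := s5 p hp
    have hu : Real.log ((N : ℝ) ^ (lam - τ) / p) =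
        Real.log N * (lam - τ - Real.log p / Real.log N) := by
      have b0 : (p : ℝ) ≠ 0 := by exact_mod_cast a1.ne_zero
      rw [Real.log_div (by positivity) b0, Real.log_rpow hN0]
      field_simp
    have e2 : 0 < Real.log ((N : ℝ) ^ (lam - τ) / p) :=
      lt_of_lt_of_le hlogz0 (Real.log_le_log hzpos b3)
    have e3 : Real.log ((N : ℝ) ^ (lam - τ) / p) ≤ 3 * (a * Real.log N) := by
      have b6 := Real.log_le_log (lt_of_lt_of_le hzpos b3) b4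
      rw [Real.log_pow] at b6
      push_cast at b6
      linarith
    rw [hu] at e2 e3
    refine ⟨(mul_pos_iff_of_pos_left hlogN).1 e2, ?_, hu⟩
    have e4 : Real.log N * (lam - τ - Real.log p / Real.log N) ≤ Real.log N * (3 * a) := by
      linarith
    exact le_of_mul_le_mul_left e4 hlogN
  have hgood : ∀ p ∈ Q, W N p * SSp η w zz p N m n ≤
      psi0 (etaR η) (m * N) * VV (gT w) zz * ((A0 + 3 * t) * (W N p * (1 / p *
          (a / (lam - τ - Real.log p / Real.log N))))) +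
        ∑ d ∈ Icc 1 (N ^ 2), |c p d| * ((3 : ℝ) ^ d.primeFactors.card * E (p * d)) := by
    intro p hpQ
    obtain ⟨a1, a2⟩ := hQp p hpQ
    obtain ⟨b3, b4, b5, b6, b7⟩ := s5 p hpQ
    obtain ⟨-, -, c3, c4⟩ := hc p hpQ
    obtain ⟨hu0, hu1, hu⟩ := hupos p hpQ
    have hone := T4P_one h2 hη (w := w) (z := zz) (N := N) (m := m) (n := n) (θ := θ)
      (by omega) hθ1 a1 a2 (fun l hl => (d1 w l hl).1) E hE0 hE1 (c p) (hc1 p hpQ) c4 c3
    have hR : 0 ≤ ∑ d ∈ Icc 1 (N ^ 2),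
        |c p d| * ((3 : ℝ) ^ d.primeFactors.card * E (p * d)) :=
      sum_nonneg fun d _ => mul_nonneg (abs_nonneg _) (mul_nonneg (by positivity) (hE0 _))
    have hone' := mul_le_mul_of_nonneg_left hone b6
    rw [mul_add] at hone'
    refine hone'.trans (add_le_add ?_ (mul_le_of_le_one_left hR b7))
    set u : ℝ := lam - τ - Real.log p / Real.log N with hudef
    rw [hu]
    have hkey : A0 * Real.log zz / (Real.log N * u) + e1 ≤ (A0 + 3 * t) * (a / u) := by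
      have e2 : A0 * Real.log zz / (Real.log N * u) ≤ A0 * (a / u) := by
        rw [← mul_div_assoc, div_le_div_iff₀ (by positivity) (by positivity)]
        have : A0 * Real.log zz ≤ A0 * (a * Real.log N) := mul_le_mul_of_nonneg_left hlogz hA0.le
        nlinarith
      have e3 : e1 ≤ 3 * t * (a / u) := by
        rw [← mul_div_assoc, le_div_iff₀ (by positivity)]
        nlinarith
      linarith [add_mul A0 (3 * t) (a / u)]
    have hcoef : 0 ≤ W N p * (psi0 (etaR η) (m * N) / (p : ℝ) * VV (gT w) zz) :=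
      mul_nonneg b6 (mul_nonneg (div_nonneg hψ (Nat.cast_nonneg _)) hVBpos.le)
    calc W N p * (psi0 (etaR η) (m * N) / (p : ℝ) *
          (VV (gT w) zz * (A0 * Real.log zz / (Real.log N * u) + e1))) =
          W N p * (psi0 (etaR η) (m * N) / (p : ℝ) * VV (gT w) zz) *
            (A0 * Real.log zz / (Real.log N * u) + e1) := by ring
      _ ≤ W N p * (psi0 (etaR η) (m * N) / (p : ℝ) * VV (gT w) zz) *
            ((A0 + 3 * t) * (a / u)) := mul_le_mul_of_nonneg_left hkey hcoef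
      _ = _ := by ring
  have herr := SP_err (N := N) (z := zz) (C := C) (θ := θ) (by omega) hθ1
    Q hQp c hc1 (fun p hp => (hc p hp).2.1) E hE0
  have hsplit : ∑ p ∈ Q, W N p * SSp η w zz p N m n ≤
      psi0 (etaR η) (m * N) * VV (gT w) zz * ((A0 + 3 * t) * (L + t)) +
        C * (m * N / Real.log N ^ (k + 1)) := by
    refine (sum_le_sum hgood).trans ?_
    rw [sum_add_distrib]
    refine add_le_add ?_ ?_
    · rw [← mul_sum, ← mul_sum]
      refine mul_le_mul_of_nonneg_left ?_ (mul_nonneg hψ hVBpos.le)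
      exact mul_le_mul_of_nonneg_left hS (by positivity)
    · refine herr.trans ?_
      exact mul_le_mul_of_nonneg_left hE2 (Nat.cast_nonneg _)
  refine hsplit.trans ?_
  -- the main term
  have hm0 : (0 : ℝ) < m := by exact_mod_cast g1
  have hmN0 : 0 < (m : ℝ) * N := mul_pos hm0 hN0
  have hpsi : psi0 (etaR η) (m * N) ≤ (1 + 2 * t) * (I * (m * N)) := by
    have a1 : M₀ ≤ m * N := hNM.trans (Nat.le_mul_of_pos_left N g1)
    have a2 := (abs_le.1 (hM₀ (m * N) a1)).2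
    push_cast at a2
    have a4 : t * ((m : ℝ) * N) ≤ 2 * t * (I * (m * N)) := by
      have : t * ((m : ℝ) * N) * (1 / 2) ≤ t * ((m : ℝ) * N) * I :=
        mul_le_mul_of_nonneg_left hI (by positivity)
      nlinarith
    nlinarith
  have hUU : UT η δ N m zz = I * (m * N) * VV (gT w) zz := rfl
  have hUU0 : 0 < UT η δ N m zz := by
    rw [hUU]
    have : 0 < I := by linarith
    positivity
  have hmain : psi0 (etaR η) (m * N) * VV (gT w) zz * ((A0 + 3 * t) * (L + t)) ≤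
      (A0 * L + ε / 2) * UT η δ N m zz := by
    have a3 : psi0 (etaR η) (m * N) * VV (gT w) zz ≤ (1 + 2 * t) * UT η δ N m zz := by
      rw [hUU]
      calc psi0 (etaR η) (m * N) * VV (gT w) zz ≤
            (1 + 2 * t) * (I * (m * N)) * VV (gT w) zz :=
            mul_le_mul_of_nonneg_right hpsi hVBpos.le
        _ = _ := by ring
    have a4 : 0 ≤ (A0 + 3 * t) * (L + t) := by positivity
    calc psi0 (etaR η) (m * N) * VV (gT w) zz *
          ((A0 + 3 * t) * (L + t)) ≤ (1 + 2 * t) * UT η δ N m zz * ((A0 + 3 * t) * (L + t)) :=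
          mul_le_mul_of_nonneg_right a3 a4
      _ = (1 + 2 * t) * ((A0 + 3 * t) * (L + t)) * UT η δ N m zz := by ring
      _ ≤ _ := mul_le_mul_of_nonneg_right (SP_num hA0 hL0 hL1 ht0.le ht2 ht3) hUU0.le
  -- the error term
  have hUlow : 1 / 2 * (m * N) * (c0 / Real.log N ^ k) ≤ UT η δ N m zz := by
    rw [hUU]
    exact mul_le_mul (mul_le_mul_of_nonneg_right hI hmN0.le) hVB0 (by positivity)
      (mul_nonneg (by linarith) hmN0.le)
  have hL0 : 0 < Real.log N ^ k := pow_pos hlogN k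
  have hεc : 0 < ε * c0 := mul_pos hε hc0
  have herr2 : C * (m * N / Real.log N ^ (k + 1)) ≤ ε / 4 * (m * N * (c0 / Real.log N ^ k)) := by
    rw [div_le_iff₀ hεc] at hf2
    have a1 : ε / 4 * (m * N * (c0 / Real.log N ^ k)) =
        m * N / (4 * Real.log N ^ k) * (ε * c0) := by
      field_simp
    have a2 : C * (m * N / Real.log N ^ (k + 1)) = m * N / (4 * Real.log N ^ k) *
        (4 * C / Real.log N) := by
      rw [pow_succ]
      field_simp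
    rw [a1, a2]
    refine mul_le_mul_of_nonneg_left ?_ (by positivity)
    rw [div_le_iff₀ hlogN]
    linarith
  have herr3 : ε / 4 * (m * N * (c0 / Real.log N ^ k)) ≤ ε / 2 * UT η δ N m zz := by
    have := mul_le_mul_of_nonneg_left hUlow (by linarith : 0 ≤ ε / 2)
    nlinarith
  have hfin : (A0 * L + ε / 2) * UT η δ N m zz + ε / 2 * UT η δ N m zz =
      (A0 * L + ε) * UT η δ N m zz := by ring
  linarith

/-! ### The numerical part -/

theorem T4P_log1 : Real.log (20 / 7) ≤ 10515 / 10000 := by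
  have h1 := Real.log_le_sub_one_of_pos (x := 20 / 7 / Real.exp 1) (by positivity)
  rw [Real.log_div (by norm_num) (Real.exp_pos 1).ne', Real.log_exp] at h1
  have h2 := Real.exp_one_gt_d9
  have h3 : 20 / 7 / Real.exp 1 ≤ 10515 / 10000 := by
    rw [div_le_iff₀ (by positivity)]
    linarith
  linarith

theorem T4P_log2 : Real.log (8 / 21) ≤ - (96 / 100) := by
  have h1 := Real.log_le_sub_one_of_pos (x := 8 / 21 * Real.exp 1) (by positivity)
  rw [Real.log_mul (by norm_num) (Real.exp_pos 1).ne', Real.log_exp] at h1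
  have h2 := Real.exp_one_lt_d9
  linarith

theorem T4P_alg1 (x u : ℝ) (hx : x ≠ 0) (hu : u ≠ 0) (h : u = 1 / 3 - x) :
    1 / 12 * (3 * x⁻¹ + 6 / 5 * (-1 / u)) = (1 - 21 / 5 * x) * (1 / 12 / u) / x := by
  field_simp
  rw [h]
  ring

theorem T4P_alg2 (x x' u u' : ℝ) (hu : u ≠ 0) (hu' : u' ≠ 0) (h : u = 1 / 3 - x)
    (h' : u' = 1 / 3 - x') : (1 - 21 / 5 * x) * (1 / 12 / u) - (1 - 21 / 5 * x') * (1 / 12 / u') =
    (x' - x) / (30 * (u * u')) := by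
  field_simp
  rw [h, h']
  ring

theorem T4P_int : ∫ x in (1 / 12 : ℝ)..(5 / 21), (1 - 21 / 5 * x) * (1 / 12 / (1 / 3 - x)) / x ≤
    17 / 100 := by
  have hx : ∀ x ∈ Set.uIcc (1 / 12 : ℝ) (5 / 21), 0 < x ∧ 0 < 1 / 3 - x := by
    intro x hx
    rw [Set.uIcc_of_le (by norm_num), Set.mem_Icc] at hx
    exact ⟨by linarith [hx.1], by linarith [hx.2]⟩
  have hder : ∀ x ∈ Set.uIcc (1 / 12 : ℝ) (5 / 21), HasDerivAt
      (fun x => 1 / 12 * (3 * Real.log x + 6 / 5 * Real.log (1 / 3 - x)))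
      ((1 - 21 / 5 * x) * (1 / 12 / (1 / 3 - x)) / x) x := by
    intro x hx'
    obtain ⟨k1, k2⟩ := hx x hx'
    have d1 : HasDerivAt (fun x : ℝ => 1 / 3 - x) (-1) x := (hasDerivAt_id x).const_sub (1 / 3)
    have d2 := (((Real.hasDerivAt_log k1.ne').const_mul 3).add
      ((d1.log k2.ne').const_mul (6 / 5))).const_mul (1 / 12)
    have e : 1 / 12 * (3 * x⁻¹ + 6 / 5 * (-1 / (1 / 3 - x))) =
        (1 - 21 / 5 * x) * (1 / 12 / (1 / 3 - x)) / x := T4P_alg1 x _ k1.ne' k2.ne' rfl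
    rw [← e]
    exact d2
  have hint : IntervalIntegrable (fun x => (1 - 21 / 5 * x) * (1 / 12 / (1 / 3 - x)) / x)
      MeasureTheory.volume (1 / 12) (5 / 21) := by
    apply ContinuousOn.intervalIntegrable
    intro x hx'
    obtain ⟨k1, k2⟩ := hx x hx'
    apply ContinuousAt.continuousWithinAt
    apply ContinuousAt.div
    · apply ContinuousAt.mul
      · fun_prop
      · apply ContinuousAt.div continuousAt_const
        · fun_prop
        · exact k2.ne'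
    · fun_prop
    · exact k1.ne'
  rw [intervalIntegral.integral_eq_sub_of_hasDerivAt hder hint]
  have e1 : (1 / 3 - 5 / 21 : ℝ) = 2 / 21 := by norm_num
  have e2 : (1 / 3 - 1 / 12 : ℝ) = 1 / 4 := by norm_num
  rw [e1, e2]
  have e3 : Real.log (20 / 7) = Real.log (5 / 21) - Real.log (1 / 12) := by
    rw [← Real.log_div (by norm_num) (by norm_num)]
    norm_num
  have e4 : Real.log (8 / 21) = Real.log (2 / 21) - Real.log (1 / 4) := by
    rw [← Real.log_div (by norm_num) (by norm_num)]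
    norm_num
  have h1 := T4P_log1
  have h2 := T4P_log2
  rw [e3] at h1
  rw [e4] at h2
  linarith

theorem T4P_sum (h : St_MR) : ∀ᶠ N : ℕ in atTop,
    ∑ p ∈ (pr (y4 N)).filter (fun p => z4 N < p), (1 - 21 / 5 * (Real.log p / Real.log N)) *
      (1 / p * (1 / 12 / (1 / 3 - 1 / 200 - Real.log p / Real.log N))) ≤ 1 / 5 := by
  have hMR := h (1 / 12) (5 / 21) 4 (1 / 100) (by norm_num) (by norm_num) (by norm_num)
  filter_upwards [hMR, eventually_ge_atTop 3] with N hN hN3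
  have hNr : (3 : ℝ) ≤ N := by exact_mod_cast hN3
  have hN0 : (0 : ℝ) < N := by linarith
  have hlog : 0 < Real.log N := Real.log_pos (by linarith)
  have hg1 : ∀ x : ℝ, 1 / 12 ≤ x → x ≤ 5 / 21 → 2 / 21 ≤ 1 / 3 - x := by
    intro x _ hx2
    linarith
  have key := hN (1 / 12) (5 / 21) le_rfl (by norm_num) le_rfl
    (fun x => (1 - 21 / 5 * x) * (1 / 12 / (1 / 3 - x))) (by
      intro x hx1 hx2
      have k1 := hg1 x hx1 hx2
      have k2 : 0 ≤ 1 - 21 / 5 * x := by linarith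
      have k3 : 1 / 12 / (1 / 3 - x) ≤ 1 := by
        rw [div_le_one (by linarith)]
        linarith
      have k4 : 0 ≤ 1 / 12 / (1 / 3 - x) := div_nonneg (by norm_num) (by linarith)
      rw [abs_of_nonneg (mul_nonneg k2 k4)]
      nlinarith) (by
      intro x x' hx1 hx2 hx1' hx2'
      have k1 := hg1 x hx1 hx2
      have k2 := hg1 x' hx1' hx2'
      have k3 : (1 / 3 - x) ≠ 0 := by linarith
      have k4 : (1 / 3 - x') ≠ 0 := by linarith
      have e : (1 - 21 / 5 * x) * (1 / 12 / (1 / 3 - x)) -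
          (1 - 21 / 5 * x') * (1 / 12 / (1 / 3 - x')) =
          (x' - x) / (30 * ((1 / 3 - x) * (1 / 3 - x'))) := T4P_alg2 x x' _ _ k3 k4 rfl rfl
      have k5 : (2 / 21 : ℝ) * (2 / 21) ≤ (1 / 3 - x) * (1 / 3 - x') :=
        mul_le_mul k1 k2 (by norm_num) (by linarith)
      rw [e, abs_div, abs_of_pos (show 0 < 30 * ((1 / 3 - x) * (1 / 3 - x')) by
        linarith), div_le_iff₀ (by linarith), abs_sub_comm]
      have k6 := abs_nonneg (x - x')
      nlinarith)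
  have hkey := (abs_le.1 key).2
  have hint := T4P_int
  have hQ : (pr (y4 N)).filter (fun p => z4 N < p) =
      (range (⌊(N : ℝ) ^ (5 / 21 : ℝ)⌋₊ + 1)).filter (fun p : ℕ => p.Prime ∧
        (N : ℝ) ^ (1 / 12 : ℝ) < p ∧ (p : ℝ) ≤ (N : ℝ) ^ (5 / 21 : ℝ)) := by
    ext p
    simp only [pr, mem_filter, mem_range]
    constructor
    · rintro ⟨⟨h1, h2⟩, h3⟩
      unfold y4 at h1
      unfold z4 at h3
      exact ⟨h1, h2, (Nat.floor_lt (by positivity)).1 h3,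
        (Nat.le_floor_iff (by positivity)).1 (by omega)⟩
    · rintro ⟨h1, h2, h3, h4⟩
      exact ⟨⟨h1, h2⟩, (Nat.floor_lt (by positivity)).2 h3⟩
  rw [hQ]
  set Q := (range (⌊(N : ℝ) ^ (5 / 21 : ℝ)⌋₊ + 1)).filter (fun p : ℕ => p.Prime ∧
        (N : ℝ) ^ (1 / 12 : ℝ) < p ∧ (p : ℝ) ≤ (N : ℝ) ^ (5 / 21 : ℝ)) with hQdef
  have hQx : ∀ p ∈ Q, 1 / 12 ≤ Real.log p / Real.log N ∧ Real.log p / Real.log N ≤ 5 / 21 ∧
      (0 : ℝ) < (p : ℝ) := by
    intro p hp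
    rw [hQdef, mem_filter] at hp
    obtain ⟨-, -, k1, k2⟩ := hp
    have k3 : (0 : ℝ) < (N : ℝ) ^ (1 / 12 : ℝ) := by positivity
    have k4 : (0 : ℝ) < p := k3.trans k1
    refine ⟨?_, ?_, k4⟩
    · rw [le_div_iff₀ hlog, ← Real.log_rpow hN0]
      exact Real.log_le_log k3 k1.le
    · rw [div_le_iff₀ hlog, ← Real.log_rpow hN0]
      exact Real.log_le_log k4 k2
  have hterm : ∀ p ∈ Q, (1 - 21 / 5 * (Real.log p / Real.log N)) *
      (1 / p * (1 / 12 / (1 / 3 - 1 / 200 - Real.log p / Real.log N))) ≤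
      400 / 379 * ((1 - 21 / 5 * (Real.log p / Real.log N)) *
        (1 / 12 / (1 / 3 - Real.log p / Real.log N)) / p) := by
    intro p hp
    obtain ⟨k1, k2, k3⟩ := hQx p hp
    set x := Real.log p / Real.log N with hx
    have k4 := hg1 x k1 k2
    have k5 : 0 ≤ (1 - 21 / 5 * x) / p := div_nonneg (by linarith) k3.le
    have k6 : 1 / 12 / (1 / 3 - 1 / 200 - x) ≤ 400 / 379 * (1 / 12 / (1 / 3 - x)) := by
      rw [← mul_div_assoc, div_le_div_iff₀ (by linarith) (by linarith)]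
      linarith
    calc (1 - 21 / 5 * x) * (1 / p * (1 / 12 / (1 / 3 - 1 / 200 - x))) =
          (1 - 21 / 5 * x) / p * (1 / 12 / (1 / 3 - 1 / 200 - x)) := by ring
      _ ≤ (1 - 21 / 5 * x) / p * (400 / 379 * (1 / 12 / (1 / 3 - x))) :=
          mul_le_mul_of_nonneg_left k6 k5
      _ = _ := by ring
  refine (sum_le_sum hterm).trans ?_
  rw [← mul_sum]
  linarith

theorem T4P_sizes : ∀ᶠ N : ℕ in atTop, (N : ℝ) ^ (1 / 20 : ℝ) ≤ z4 N ∧ 2 ≤ z4 N ∧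
      (z4 N : ℝ) ≤ (N : ℝ) ^ (1 / 12 : ℝ) ∧ (z4 N : ℝ) ≤ N ∧
      ∀ p ∈ (pr (y4 N)).filter (fun p => z4 N < p),
        (z4 N : ℝ) ≤ (N : ℝ) ^ (1 / 3 - 1 / 200 : ℝ) / p ∧
        (N : ℝ) ^ (1 / 3 - 1 / 200 : ℝ) / p ≤ (z4 N : ℝ) ^ 3 ∧
        (N : ℝ) ^ (1 / 3 - 1 / 200 : ℝ) / p ≤ N ∧
        0 ≤ 1 - 21 / 5 * (Real.log p / Real.log N) ∧
        1 - 21 / 5 * (Real.log p / Real.log N) ≤ 1 := by
  filter_upwards [eventually_ge_atTop 3, SP_log 2 0 (s := 1 / 30) (by norm_num),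
    SP_log 2 0 (s := 1 / 600) (by norm_num), SP_log 2 0 (s := 1 / 20) (by norm_num)]
    with N h3 a1 a2 a3
  rw [pow_zero, mul_one] at a1 a2 a3
  have hN3 : (3 : ℝ) ≤ N := by exact_mod_cast h3
  have hN1 : (1 : ℝ) ≤ N := by linarith
  have hN0 : (0 : ℝ) < N := by linarith
  have hlog : 0 < Real.log N := Real.log_pos (by linarith)
  have hpow : ∀ a b : ℝ, (N : ℝ) ^ a * (N : ℝ) ^ b = (N : ℝ) ^ (a + b) := fun a b =>
    (Real.rpow_add hN0 a b).symm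
  have hge1 : ∀ a : ℝ, 0 ≤ a → 1 ≤ (N : ℝ) ^ a := fun a ha => Real.one_le_rpow hN1 ha
  have hz1 : (N : ℝ) ^ (1 / 12 : ℝ) - 1 ≤ z4 N := (Nat.sub_one_lt_floor _).le
  have hz2 : (z4 N : ℝ) ≤ (N : ℝ) ^ (1 / 12 : ℝ) := Nat.floor_le (by positivity)
  have b1 : (N : ℝ) ^ (1 / 20 : ℝ) ≤ z4 N := by
    have e1 := hpow (1 / 20) (1 / 30)
    rw [show (1 / 20 + 1 / 30 : ℝ) = 1 / 12 by norm_num] at e1
    have e2 := hge1 (1 / 20) (by norm_num)
    have e3 : (N : ℝ) ^ (1 / 20 : ℝ) * 2 ≤ (N : ℝ) ^ (1 / 20 : ℝ) * (N : ℝ) ^ (1 / 30 : ℝ) :=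
      mul_le_mul_of_nonneg_left a1 (by linarith)
    linarith
  have b3 : (N : ℝ) ^ (49 / 600 : ℝ) ≤ z4 N := by
    have e1 := hpow (49 / 600) (1 / 600)
    rw [show (49 / 600 + 1 / 600 : ℝ) = 1 / 12 by norm_num] at e1
    have e2 := hge1 (49 / 600) (by norm_num)
    have e3 : (N : ℝ) ^ (49 / 600 : ℝ) * 2 ≤ (N : ℝ) ^ (49 / 600 : ℝ) * (N : ℝ) ^ (1 / 600 : ℝ) :=
      mul_le_mul_of_nonneg_left a2 (by linarith)
    linarith
  have hexp : ∀ a b : ℝ, a ≤ b → (N : ℝ) ^ a ≤ (N : ℝ) ^ b := fun a b hab =>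
    Real.rpow_le_rpow_of_exponent_le hN1 hab
  refine ⟨b1, ?_, hz2, hz2.trans ?_, ?_⟩
  · have : (2 : ℝ) ≤ z4 N := a3.trans b1
    exact_mod_cast this
  · calc (N : ℝ) ^ (1 / 12 : ℝ) ≤ (N : ℝ) ^ (1 : ℝ) := hexp _ _ (by norm_num)
      _ = N := Real.rpow_one _
  intro p hp
  obtain ⟨c1, c2⟩ := mem_filter.1 hp
  obtain ⟨c3, c4⟩ := mem_filter.1 c1
  have d1 : (N : ℝ) ^ (1 / 12 : ℝ) < p := (Nat.floor_lt (by positivity)).1 c2
  have d2 : (p : ℝ) ≤ (N : ℝ) ^ (5 / 21 : ℝ) := by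
    refine (Nat.le_floor_iff (by positivity)).1 ?_
    have := mem_range.1 c3
    unfold y4 at this
    omega
  have d0 : (0 : ℝ) < p := by exact_mod_cast c4.pos
  have d3 : (N : ℝ) ^ (1 / 3 - 1 / 200 : ℝ) / p ≤ (N : ℝ) ^ (49 / 200 : ℝ) := by
    rw [div_le_iff₀ d0]
    calc (N : ℝ) ^ (1 / 3 - 1 / 200 : ℝ) = (N : ℝ) ^ (49 / 200 : ℝ) * (N : ℝ) ^ (1 / 12 : ℝ) := by
          rw [hpow]
          norm_num
      _ ≤ (N : ℝ) ^ (49 / 200 : ℝ) * p := mul_le_mul_of_nonneg_left d1.le (by positivity)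
  refine ⟨?_, d3.trans ?_, d3.trans ?_, ?_, ?_⟩
  · rw [le_div_iff₀ d0]
    calc (z4 N : ℝ) * p ≤ (N : ℝ) ^ (1 / 12 : ℝ) * (N : ℝ) ^ (5 / 21 : ℝ) :=
          mul_le_mul hz2 d2 d0.le (by positivity)
      _ = (N : ℝ) ^ (1 / 12 + 5 / 21 : ℝ) := hpow _ _
      _ ≤ _ := hexp _ _ (by norm_num)
  · calc (N : ℝ) ^ (49 / 200 : ℝ) = ((N : ℝ) ^ (49 / 600 : ℝ)) ^ 3 := by
          rw [← Real.rpow_natCast, ← Real.rpow_mul hN0.le]
          norm_num
      _ ≤ (z4 N : ℝ) ^ 3 := pow_le_pow_left₀ (by positivity) b3 3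
  · calc (N : ℝ) ^ (49 / 200 : ℝ) ≤ (N : ℝ) ^ (1 : ℝ) := hexp _ _ (by norm_num)
      _ = N := Real.rpow_one _
  · have e1 : Real.log p / Real.log N ≤ 5 / 21 := by
      rw [div_le_iff₀ hlog, ← Real.log_rpow hN0]
      exact Real.log_le_log d0 d2
    linarith
  · have e1 : 0 ≤ Real.log p / Real.log N :=
      div_nonneg (Real.log_nonneg (by exact_mod_cast c4.one_le)) hlog.le
    linarith

/-- keep this signature -/
theorem thm_T4P (A0 : ℝ) (hA0 : 0 < A0) (h0 : St_LGU A0) (h2 : St_Gen) (h3 : St_VLow) (h4 : St_DensT) (h5 : St_P1) (h6 : St_MR) : St_T4P A0 := by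
  intro η hη ε hε
  have ht0 : 0 < min (1 / 2) (ε / (6 * A0 + 12)) := lt_min (by norm_num) (by positivity)
  have ht3 : min (1 / 2) (ε / (6 * A0 + 12)) * (6 * A0 + 12) ≤ ε := by
    have : min (1 / 2) (ε / (6 * A0 + 12)) ≤ ε / (6 * A0 + 12) := min_le_right _ _
    rwa [le_div_iff₀ (by positivity)] at this
  obtain ⟨δ₁, hδ₁, H⟩ := T4P_gen A0 hA0 h0 h2 h3 h4 h5 hη (a := 1 / 12) (lam := 1 / 3)
    (L := 1 / 5) (τ := 1 / 200) (ε := ε) z4 y4
    (fun N p => 1 - 21 / 5 * (Real.log p / Real.log N)) (by norm_num) (by norm_num)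
    (by norm_num) (by norm_num) (by norm_num) ht0 (min_le_left _ _) hε ht3 T4P_sizes
    (by
      filter_upwards [T4P_sum h6] with N hN
      linarith)
  refine ⟨δ₁, hδ₁, fun δ hδ hδ1 => ?_⟩
  obtain ⟨A, K, hH⟩ := H δ hδ hδ1
  refine ⟨1 / 3 - 1 / 200 / 2, A, K, by norm_num, by norm_num, ?_⟩
  filter_upwards [hH] with N hN m n hT hLev
  have := hN m n hT hLev
  rwa [mul_one_div] at this

end Pool.Agent.CU
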