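import Mathlib
import Pool.Agent.CU.Stmts
import Pool.Agent.CH.ABV
import Pool.Agent.GBQ.Div
import Pool.Agent.GV.Asm

set_option autoImplicit false

/-!
# CU / TBV2

As TBV3 but with GV.lc (large conductors, level theta' = (theta+1/2)/2, exponent delta) instead of LCm, and |JJ| <= min(m, C 2^.. sqrt r (1+log r)) (trivial bound |JJ| <= m).  G(r) = S(r) min(m, C sqrt r (1+log r)).  For e | m, dyadic blocks 2^j < r = e k <= 2^(j+1):
weight k^(-1+eps) min(m, C sqrt r (1+log r)) <= min (C sqrt e (1+log n), m (e/2^j)^(1-eps)), and sum S <= C (X + 2^j X^(1-delta)) (log X)^C.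
-/

namespace Pool.Agent.CU

open Finset Filter Pool.Agent.MT Pool.Agent.CH

/-- trivial bound -/
theorem tbv2_JJ (M u L : ℕ) {r : ℕ} (χ : DirichletCharacter ℂ r) : ‖JJ M u L χ‖ ≤ L := by
  unfold JJ
  calc ‖∑ j ∈ (Ioc u (u + L)).filter (fun j => j.Coprime M), χ (j : ZMod r)‖
      ≤ ∑ j ∈ (Ioc u (u + L)).filter (fun j => j.Coprime M), ‖χ (j : ZMod r)‖ :=
        norm_sum_le _ _
    _ ≤ ∑ j ∈ (Ioc u (u + L)).filter (fun j => j.Coprime M), (1 : ℝ) :=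
        sum_le_sum fun j _ => χ.norm_le_one _
    _ = (((Ioc u (u + L)).filter (fun j => j.Coprime M)).card : ℝ) := by simp
    _ ≤ ((Ioc u (u + L)).card : ℝ) := by exact_mod_cast card_filter_le _ _
    _ = L := by simp

/-- `(K + 1)^ω(k) ≤ C k^ε` -/
theorem tbv2_omega (K : ℕ) (ε : ℝ) (hε : 0 < ε) :
    ∃ C : ℝ, 0 < C ∧ ∀ k : ℕ, 1 ≤ k →
      ((K : ℝ) + 1) ^ k.primeFactors.card ≤ C * (k : ℝ) ^ ε := by
  obtain ⟨P, hP⟩ : ∃ P : ℕ, ((K : ℝ) + 1) ^ (1 / ε) ≤ P := exists_nat_ge _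
  have hK1 : (1 : ℝ) ≤ (K : ℝ) + 1 := by
    have : (0 : ℝ) ≤ K := Nat.cast_nonneg K
    linarith
  have hK0 : (0 : ℝ) ≤ (K : ℝ) + 1 := by linarith
  refine ⟨((K : ℝ) + 1) ^ (P + 1), by positivity, ?_⟩
  intro k hk
  have h2 : ∏ p ∈ k.primeFactors, ((K : ℝ) + 1) ≤
      ∏ p ∈ k.primeFactors, ((if p ≤ P then ((K : ℝ) + 1) else 1) * (p : ℝ) ^ ε) := by
    refine prod_le_prod (fun _ _ => hK0) ?_
    intro p hp
    have hp1 : (1 : ℝ) ≤ p := by
      exact_mod_cast (Nat.prime_of_mem_primeFactors hp).one_lt.le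
    have hpe : (1 : ℝ) ≤ (p : ℝ) ^ ε := Real.one_le_rpow hp1 hε.le
    by_cases h : p ≤ P
    · rw [if_pos h]
      exact le_mul_of_one_le_right hK0 hpe
    · rw [if_neg h, one_mul]
      have h3 : ((K : ℝ) + 1) ^ (1 / ε) ≤ p := by
        refine hP.trans ?_
        exact_mod_cast (not_le.1 h).le
      have h4 := Real.rpow_le_rpow (by positivity) h3 hε.le
      rw [← Real.rpow_mul hK0, one_div_mul_cancel hε.ne', Real.rpow_one] at h4
      exact h4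
  rw [prod_mul_distrib] at h2
  rw [prod_const] at h2
  have h5 : ∏ p ∈ k.primeFactors, (if p ≤ P then ((K : ℝ) + 1) else 1) ≤
      ((K : ℝ) + 1) ^ (P + 1) := by
    rw [← prod_filter, prod_const]
    refine pow_le_pow_right₀ hK1 ?_
    have h6 : (k.primeFactors.filter (fun p => p ≤ P)) ⊆ range (P + 1) := by
      intro p hp
      rw [mem_filter] at hp
      rw [mem_range]
      omega
    have := card_le_card h6
    rwa [card_range] at this
  have h7 : ∏ p ∈ k.primeFactors, (p : ℝ) ^ ε ≤ (k : ℝ) ^ ε := by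
    rw [Real.finsetProd_rpow _ _ (fun p _ => Nat.cast_nonneg p)]
    refine Real.rpow_le_rpow (prod_nonneg fun p _ => Nat.cast_nonneg p) ?_ hε.le
    have h8 : ((∏ p ∈ k.primeFactors, p : ℕ) : ℝ) ≤ (k : ℝ) := by
      exact_mod_cast Nat.le_of_dvd hk (Nat.prod_primeFactors_dvd k)
    rwa [Nat.cast_prod] at h8
  refine h2.trans ?_
  refine mul_le_mul h5 h7 (prod_nonneg fun p _ => ?_) (by positivity)
  exact Real.rpow_nonneg (Nat.cast_nonneg p) _

/-- divisor bound -/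
theorem tbv2_card (ε : ℝ) (hε : 0 < ε) :
    ∃ C : ℝ, 0 < C ∧ ∀ m : ℕ, 1 ≤ m → (m.divisors.card : ℝ) ≤ C * (m : ℝ) ^ ε := by
  obtain ⟨P, hP⟩ : ∃ P : ℕ, (2 : ℝ) ^ (1 / ε) ≤ P := exists_nat_ge _
  have hl2 : 0 < Real.log 2 := Real.log_pos (by norm_num)
  set M : ℝ := 1 + 1 / (ε * Real.log 2) with hM
  have hM1 : 1 ≤ M := by
    rw [hM]
    have : 0 < 1 / (ε * Real.log 2) := by positivity
    linarith
  have hM0 : 0 ≤ M := by linarith
  have hMe : 1 ≤ M * (ε * Real.log 2) := by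
    rw [hM, add_mul, one_div_mul_cancel (by positivity)]
    have : 0 < ε * Real.log 2 := by positivity
    linarith
  refine ⟨M ^ (P + 1), by positivity, ?_⟩
  intro m hm
  have hm0 : m ≠ 0 := by omega
  rw [Nat.card_divisors hm0]
  push_cast
  have h2 : ∏ p ∈ m.primeFactors, ((m.factorization p : ℝ) + 1) ≤
      ∏ p ∈ m.primeFactors, ((if p ≤ P then M else 1) *
        ((p : ℝ) ^ m.factorization p) ^ ε) := by
    refine prod_le_prod (fun _ _ => by positivity) ?_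
    intro p hp
    have hp2 : (2 : ℝ) ≤ p := by
      exact_mod_cast (Nat.prime_of_mem_primeFactors hp).two_le
    have hp0 : (0 : ℝ) ≤ p := by linarith
    set a := m.factorization p with ha
    have e1 : ((p : ℝ) ^ a) ^ ε = ((p : ℝ) ^ ε) ^ a := by
      rw [← Real.rpow_natCast, ← Real.rpow_natCast, ← Real.rpow_mul hp0, ← Real.rpow_mul hp0,
        mul_comm]
    by_cases h : p ≤ P
    · rw [if_pos h]
      have e2 : (2 : ℝ) ^ (ε * a) ≤ ((p : ℝ) ^ a) ^ ε := by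
        rw [e1, ← Real.rpow_natCast, ← Real.rpow_mul hp0]
        exact Real.rpow_le_rpow (by norm_num) hp2 (by positivity)
      have e3 : 1 + ε * a * Real.log 2 ≤ (2 : ℝ) ^ (ε * a) := by
        rw [Real.rpow_def_of_pos (by norm_num)]
        have := Real.add_one_le_exp (Real.log 2 * (ε * a))
        nlinarith
      have e4 : (a : ℝ) + 1 ≤ M * (1 + ε * a * Real.log 2) := by
        have ha0 : (0 : ℝ) ≤ a := Nat.cast_nonneg a
        have : (a : ℝ) ≤ M * (ε * Real.log 2) * a := le_mul_of_one_le_left ha0 hMe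
        nlinarith
      exact e4.trans (mul_le_mul_of_nonneg_left (e3.trans e2) hM0)
    · rw [if_neg h, one_mul]
      have h3 : (2 : ℝ) ^ (1 / ε) ≤ p := by
        refine hP.trans ?_
        exact_mod_cast (not_le.1 h).le
      have h4 := Real.rpow_le_rpow (by positivity) h3 hε.le
      rw [← Real.rpow_mul (by norm_num), one_div_mul_cancel hε.ne', Real.rpow_one] at h4
      rw [e1]
      have h5 : (2 : ℝ) ^ a ≤ ((p : ℝ) ^ ε) ^ a := pow_le_pow_left₀ (by norm_num) h4 a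
      have h6 : (a : ℝ) + 1 ≤ (2 : ℝ) ^ a := by
        have := Nat.lt_two_pow_self (n := a)
        exact_mod_cast this
      exact h6.trans h5
  rw [prod_mul_distrib] at h2
  have h5 : ∏ p ∈ m.primeFactors, (if p ≤ P then M else 1) ≤ M ^ (P + 1) := by
    rw [← prod_filter, prod_const]
    refine pow_le_pow_right₀ hM1 ?_
    have h6 : (m.primeFactors.filter (fun p => p ≤ P)) ⊆ range (P + 1) := by
      intro p hp
      rw [mem_filter] at hp
      rw [mem_range]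
      omega
    have := card_le_card h6
    rwa [card_range] at this
  have h7 : ∏ p ∈ m.primeFactors, ((p : ℝ) ^ m.factorization p) ^ ε = (m : ℝ) ^ ε := by
    rw [Real.finsetProd_rpow _ _ (fun p _ => by positivity)]
    congr 1
    have h8 := Nat.prod_factorization_pow_eq_self hm0
    rw [Finsupp.prod, Nat.support_factorization] at h8
    have h9 : ((∏ p ∈ m.primeFactors, p ^ m.factorization p : ℕ) : ℝ) = (m : ℝ) := by
      rw [h8]
    rw [← h9]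
    push_cast
    rfl
  rw [h7] at h2
  exact h2.trans (mul_le_mul_of_nonneg_right h5 (by positivity))

/-- dyadic blocks -/
theorem tbv2_dyadic (S w W : ℕ → ℝ) (hS : ∀ r, 0 ≤ S r) (hS1 : S 1 = 0) (e F J : ℕ)
    (he : 1 ≤ e) (hF : e * F ≤ 2 ^ (J + 1)) (hW0 : ∀ j, 0 ≤ W j)
    (hW : ∀ j ≤ J, ∀ k, 1 ≤ k → k ≤ F → 2 ^ j < e * k → e * k ≤ 2 * 2 ^ j → w k ≤ W j) :
    ∑ k ∈ Icc 1 F, w k * S (e * k) ≤
      ∑ j ∈ range (J + 1), W j * ∑ r ∈ Ioc (2 ^ j) (2 * 2 ^ j), S r := by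
  classical
  have h1 : ∀ k ∈ Icc 1 F, w k * S (e * k) ≤ ∑ j ∈ range (J + 1),
      if (2 ^ j < e * k ∧ e * k ≤ 2 * 2 ^ j) then W j * S (e * k) else 0 := by
    intro k hk
    rw [mem_Icc] at hk
    have hnn : ∀ j ∈ range (J + 1), 0 ≤
        (if (2 ^ j < e * k ∧ e * k ≤ 2 * 2 ^ j) then W j * S (e * k) else 0) := by
      intro j _
      split_ifs
      · exact mul_nonneg (hW0 j) (hS _)
      · exact le_rfl
    by_cases h : e * k = 1
    · rw [h, hS1, mul_zero]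
      exact sum_nonneg fun j _ => by
        split_ifs <;> simp
    · have hek : 0 < e * k := Nat.mul_pos he hk.1
      have hj1 : 2 ^ (Nat.log 2 (e * k - 1)) ≤ e * k - 1 := Nat.pow_log_le_self 2 (by omega)
      have hj2 : e * k - 1 < 2 ^ (Nat.log 2 (e * k - 1) + 1) := Nat.lt_pow_succ_log_self (by omega) _
      set j := Nat.log 2 (e * k - 1) with hj
      have hjJ : j ≤ J := by
        have h2 : 2 ^ j < 2 ^ (J + 1) := by
          have h3 : e * k ≤ e * F := Nat.mul_le_mul_left e hk.2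
          omega
        have := (Nat.pow_lt_pow_iff_right (by omega : 1 < 2)).1 h2
        omega
      rw [pow_succ] at hj2
      have hc : 2 ^ j < e * k ∧ e * k ≤ 2 * 2 ^ j := ⟨by omega, by omega⟩
      have h4 : w k * S (e * k) ≤ W j * S (e * k) :=
        mul_le_mul_of_nonneg_right (hW j hjJ k hk.1 hk.2 hc.1 hc.2) (hS _)
      refine h4.trans ?_
      have h5 := single_le_sum hnn (mem_range.2 (by omega : j < J + 1))
      rw [if_pos hc] at h5
      exact h5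
  refine (sum_le_sum h1).trans ?_
  rw [sum_comm]
  refine sum_le_sum fun j _ => ?_
  rw [← sum_filter, ← mul_sum]
  refine mul_le_mul_of_nonneg_left ?_ (hW0 j)
  have h6 : ∑ k ∈ (Icc 1 F).filter (fun k => 2 ^ j < e * k ∧ e * k ≤ 2 * 2 ^ j), S (e * k) =
      ∑ r ∈ ((Icc 1 F).filter (fun k => 2 ^ j < e * k ∧ e * k ≤ 2 * 2 ^ j)).image
        (fun k => e * k), S r := by
    rw [sum_image]
    intro a _ b _ hab
    exact Nat.eq_of_mul_eq_mul_left (by omega) hab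
  rw [h6]
  refine sum_le_sum_of_subset_of_nonneg ?_ fun r _ _ => hS r
  intro r hr
  rw [mem_image] at hr
  obtain ⟨k, hk, rfl⟩ := hr
  rw [mem_filter] at hk
  exact mem_Ioc.2 hk.2

/-- one divisor `e` of `m` -/
theorem tbv2_one (S : ℕ → ℝ) (hS : ∀ r, 0 ≤ S r) (hS1 : S 1 = 0) (X m e F C1 : ℕ)
    (C3 δ ε θ' L : ℝ) (hX : 3 ≤ X) (hC3 : 0 < C3) (hε0 : 0 < ε) (hε1 : ε ≤ 1 / 2)
    (hlc : ∀ R : ℕ, 1 ≤ R → (R : ℝ) ≤ (X : ℝ) ^ θ' →
      ∑ q ∈ Ioc R (2 * R), S q ≤ C1 * ((X : ℝ) + R * (X : ℝ) ^ (1 - δ)) * Real.log X ^ C1)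
    (he : 1 ≤ e) (hem : e ≤ m) (hF : 1 ≤ F) (hmF : (m : ℝ) * F ≤ (X : ℝ) ^ θ') (hθ' : θ' ≤ 1)
    (hL : Real.log X ≤ L) :
    ∑ k ∈ Icc 1 F, (k : ℝ) ^ (-1 + ε) * (S (e * k) *
      min (m : ℝ) (C3 * (Real.sqrt ((e * k : ℕ) : ℝ) * (1 + Real.log ((e * k : ℕ) : ℝ))))) ≤
    3 * L * (C1 * L ^ C1 * (C3 * Real.sqrt e * (1 + L) * X +
      (m : ℝ) ^ 2 * (X : ℝ) ^ (1 - δ + ε))) := by
  have hX0 : (0 : ℝ) < X := by exact_mod_cast (by omega : 0 < X)
  have hX1 : (1 : ℝ) ≤ X := by exact_mod_cast (by omega : 1 ≤ X)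
  have hlX : 1 ≤ Real.log X := by
    rw [Real.le_log_iff_exp_le hX0]
    have h1 := Real.exp_one_lt_d9
    have h2 : (3 : ℝ) ≤ X := by exact_mod_cast hX
    linarith
  have hL1 : 1 ≤ L := hlX.trans hL
  have hL0 : 0 ≤ L := by linarith
  have he0 : (0 : ℝ) < e := by exact_mod_cast he
  have he1 : (1 : ℝ) ≤ e := by exact_mod_cast he
  have hm0 : (0 : ℝ) ≤ m := Nat.cast_nonneg m
  have hemR : (e : ℝ) ≤ m := by exact_mod_cast hem
  have hXθ : (X : ℝ) ^ θ' ≤ X := by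
    calc (X : ℝ) ^ θ' ≤ (X : ℝ) ^ (1 : ℝ) := Real.rpow_le_rpow_of_exponent_le hX1 hθ'
      _ = X := Real.rpow_one _
  have heF : ((e * F : ℕ) : ℝ) ≤ (X : ℝ) ^ θ' := by
    push_cast
    exact (mul_le_mul_of_nonneg_right hemR (Nat.cast_nonneg F)).trans hmF
  set J := Nat.log 2 (e * F) with hJ
  have heF0 : 0 < e * F := Nat.mul_pos he hF
  have hJ1 : 2 ^ J ≤ e * F := Nat.pow_log_le_self 2 (by omega)
  have hJ2 : e * F ≤ 2 ^ (J + 1) := (Nat.lt_pow_succ_log_self (by omega) _).le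
  have hpow : ∀ j ≤ J, ((2 ^ j : ℕ) : ℝ) ≤ (X : ℝ) ^ θ' := by
    intro j hj
    have h1 : 2 ^ j ≤ e * F := (Nat.pow_le_pow_right (by omega) hj).trans hJ1
    refine le_trans ?_ heF
    exact_mod_cast h1
  set w : ℕ → ℝ := fun k => (k : ℝ) ^ (-1 + ε) *
    min (m : ℝ) (C3 * (Real.sqrt ((e * k : ℕ) : ℝ) * (1 + Real.log ((e * k : ℕ) : ℝ)))) with hw
  set W : ℕ → ℝ := fun j => min (C3 * Real.sqrt e * (1 + L))
    ((m : ℝ) * ((e : ℝ) / (2 ^ j : ℕ)) ^ (1 - ε)) with hWdef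
  have hW0 : ∀ j, 0 ≤ W j := fun j => le_min (by positivity) (by positivity)
  have hW : ∀ j ≤ J, ∀ k, 1 ≤ k → k ≤ F → 2 ^ j < e * k → e * k ≤ 2 * 2 ^ j → w k ≤ W j := by
    intro j _ k hk1 hkF h1 h2
    have hk0 : (0 : ℝ) < k := by exact_mod_cast hk1
    have hk1R : (1 : ℝ) ≤ k := by exact_mod_cast hk1
    have hke : (0 : ℝ) ≤ (k : ℝ) ^ (-1 + ε) := by positivity
    have hlek : Real.log ((e * k : ℕ) : ℝ) ≤ L := by
      refine le_trans (Real.log_le_log ?_ ?_) hL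
      · exact_mod_cast Nat.mul_pos he hk1
      · refine le_trans ?_ (heF.trans hXθ)
        exact_mod_cast Nat.mul_le_mul_left e hkF
    have hlek0 : 0 ≤ Real.log ((e * k : ℕ) : ℝ) := Real.log_natCast_nonneg _
    refine le_min ?_ ?_
    · calc w k ≤ (k : ℝ) ^ (-1 + ε) * (C3 * (Real.sqrt ((e * k : ℕ) : ℝ) *
            (1 + Real.log ((e * k : ℕ) : ℝ)))) :=
            mul_le_mul_of_nonneg_left (min_le_right _ _) hke
        _ ≤ (k : ℝ) ^ (-1 + ε) * (C3 * (Real.sqrt ((e * k : ℕ) : ℝ) * (1 + L))) := by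
            gcongr
        _ = C3 * Real.sqrt e * (1 + L) * ((k : ℝ) ^ (-1 + ε) * Real.sqrt k) := by
            push_cast
            rw [Real.sqrt_mul he0.le]
            ring
        _ ≤ C3 * Real.sqrt e * (1 + L) * 1 := by
            refine mul_le_mul_of_nonneg_left ?_ (by positivity)
            rw [Real.sqrt_eq_rpow, ← Real.rpow_add hk0]
            exact Real.rpow_le_one_of_one_le_of_nonpos hk1R (by linarith)
        _ = _ := by ring
    · calc w k ≤ (k : ℝ) ^ (-1 + ε) * m := mul_le_mul_of_nonneg_left (min_le_left _ _) hke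
        _ ≤ ((e : ℝ) / (2 ^ j : ℕ)) ^ (1 - ε) * m := by
            refine mul_le_mul_of_nonneg_right ?_ hm0
            have e1 : (k : ℝ) ^ (-1 + ε) = ((1 : ℝ) / k) ^ (1 - ε) := by
              rw [one_div, Real.inv_rpow hk0.le, ← Real.rpow_neg hk0.le]
              congr 1
              ring
            rw [e1]
            refine Real.rpow_le_rpow (by positivity) ?_ (by linarith)
            have hp : (0 : ℝ) < ((2 ^ j : ℕ) : ℝ) := by positivity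
            rw [div_le_div_iff₀ hk0 hp, one_mul]
            exact_mod_cast h1.le
        _ = _ := by ring
  have hdy := tbv2_dyadic S w W hS hS1 e F J he hJ2 hW0 hW
  have hlhs : ∑ k ∈ Icc 1 F, (k : ℝ) ^ (-1 + ε) * (S (e * k) *
      min (m : ℝ) (C3 * (Real.sqrt ((e * k : ℕ) : ℝ) * (1 + Real.log ((e * k : ℕ) : ℝ))))) =
      ∑ k ∈ Icc 1 F, w k * S (e * k) := by
    refine sum_congr rfl fun k _ => ?_
    rw [hw]
    ring
  rw [hlhs]
  refine hdy.trans ?_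
  have hblock : ∀ j ∈ range (J + 1), W j * ∑ r ∈ Ioc (2 ^ j) (2 * 2 ^ j), S r ≤
      C1 * L ^ C1 * (C3 * Real.sqrt e * (1 + L) * X + (m : ℝ) ^ 2 * (X : ℝ) ^ (1 - δ + ε)) := by
    intro j hj
    rw [mem_range] at hj
    have hR1 : 1 ≤ 2 ^ j := Nat.one_le_two_pow
    have hRX := hpow j (by omega)
    have h1 := hlc (2 ^ j) hR1 hRX
    set R : ℝ := ((2 ^ j : ℕ) : ℝ) with hR
    have hR0 : 0 < R := by rw [hR]; positivity
    have hR1' : 1 ≤ R := by rw [hR]; exact_mod_cast hR1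
    have hRX' : R ≤ X := hRX.trans hXθ
    have hlog : Real.log X ^ C1 ≤ L ^ C1 := pow_le_pow_left₀ (by linarith) hL _
    have hWR : W j * R ≤ (m : ℝ) ^ 2 * (X : ℝ) ^ ε := by
      calc W j * R ≤ ((m : ℝ) * ((e : ℝ) / R) ^ (1 - ε)) * R :=
            mul_le_mul_of_nonneg_right (min_le_right _ _) hR0.le
        _ = m * (e : ℝ) ^ (1 - ε) * R ^ ε := by
            rw [Real.div_rpow he0.le hR0.le]
            have e2 : R ^ ε * R ^ (1 - ε) = R := by
              rw [← Real.rpow_add hR0]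
              rw [show ε + (1 - ε) = 1 by ring, Real.rpow_one]
            have e3 : 0 < R ^ (1 - ε) := by positivity
            have e4 : R / R ^ (1 - ε) = R ^ ε := by
              rw [div_eq_iff e3.ne', e2]
            rw [← e4]
            ring
        _ ≤ m * m * (X : ℝ) ^ ε := by
            have e4 : (e : ℝ) ^ (1 - ε) ≤ m := by
              calc (e : ℝ) ^ (1 - ε) ≤ (e : ℝ) ^ (1 : ℝ) :=
                    Real.rpow_le_rpow_of_exponent_le he1 (by linarith)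
                _ = e := Real.rpow_one _
                _ ≤ m := hemR
            have e5 : R ^ ε ≤ (X : ℝ) ^ ε := Real.rpow_le_rpow hR0.le hRX' hε0.le
            gcongr
        _ = _ := by ring
    have hXδ : (0 : ℝ) ≤ (X : ℝ) ^ (1 - δ) := by positivity
    calc W j * ∑ r ∈ Ioc (2 ^ j) (2 * 2 ^ j), S r
        ≤ W j * (C1 * ((X : ℝ) + R * (X : ℝ) ^ (1 - δ)) * Real.log X ^ C1) :=
          mul_le_mul_of_nonneg_left h1 (hW0 j)
      _ ≤ W j * (C1 * ((X : ℝ) + R * (X : ℝ) ^ (1 - δ)) * L ^ C1) := by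
          refine mul_le_mul_of_nonneg_left ?_ (hW0 j)
          exact mul_le_mul_of_nonneg_left hlog (by positivity)
      _ = C1 * L ^ C1 * (W j * X + (W j * R) * (X : ℝ) ^ (1 - δ)) := by ring
      _ ≤ C1 * L ^ C1 * (C3 * Real.sqrt e * (1 + L) * X +
          ((m : ℝ) ^ 2 * (X : ℝ) ^ ε) * (X : ℝ) ^ (1 - δ)) := by
          have e6 : W j ≤ C3 * Real.sqrt e * (1 + L) := min_le_left _ _
          gcongr
      _ = _ := by
          rw [mul_assoc ((m : ℝ) ^ 2), ← Real.rpow_add hX0, show ε + (1 - δ) = 1 - δ + ε by ring]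
  refine (sum_le_sum hblock).trans ?_
  rw [sum_const, card_range, nsmul_eq_mul]
  refine mul_le_mul_of_nonneg_right ?_ (by positivity)
  have hl2 : (0.69 : ℝ) < Real.log 2 := by
    have := Real.log_two_gt_d9; linarith
  have h2 : (J : ℝ) * Real.log 2 ≤ L := by
    have h3 := Real.log_le_log (by positivity) ((hpow J le_rfl).trans hXθ)
    push_cast at h3
    rw [Real.log_pow] at h3
    exact h3.trans hL
  push_cast
  nlinarith

/-- sums over the divisors of `m` -/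
theorem tbv2_esum : ∃ C : ℝ, 0 < C ∧ ∀ m : ℕ, 1 ≤ m →
    ∑ e ∈ m.divisors, (2 : ℝ) ^ (m / e).primeFactors.card / m * Real.sqrt e ≤
      C * (m : ℝ) ^ (-(1 / 4) : ℝ) := by
  obtain ⟨Ca, hCa, ha⟩ := tbv2_omega 1 (1 / 2) (by norm_num)
  obtain ⟨Cd, hCd, hd⟩ := tbv2_card (1 / 4) (by norm_num)
  refine ⟨Ca * Cd, by positivity, ?_⟩
  intro m hm
  have hm0 : (0 : ℝ) < m := by exact_mod_cast hm
  have h1 : ∀ e ∈ m.divisors, (2 : ℝ) ^ (m / e).primeFactors.card / m * Real.sqrt e ≤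
      Ca * (m : ℝ) ^ (-(1 / 2) : ℝ) := by
    intro e he
    have hem := Nat.dvd_of_mem_divisors he
    have he0 : 0 < e := Nat.pos_of_dvd_of_pos hem hm
    have hg : 1 ≤ m / e := Nat.div_pos (Nat.le_of_dvd hm hem) he0
    have h2 := ha (m / e) hg
    have h3 : ((m / e : ℕ) : ℝ) * e = m := by exact_mod_cast Nat.div_mul_cancel hem
    norm_num at h2
    rw [← Real.sqrt_eq_rpow] at h2
    have h4 : Real.sqrt ((m / e : ℕ) : ℝ) * Real.sqrt e = Real.sqrt m := by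
      rw [← Real.sqrt_mul (Nat.cast_nonneg _), h3]
    calc (2 : ℝ) ^ (m / e).primeFactors.card / m * Real.sqrt e
        ≤ (Ca * Real.sqrt ((m / e : ℕ) : ℝ)) / m * Real.sqrt e := by gcongr
      _ = Ca * (Real.sqrt ((m / e : ℕ) : ℝ) * Real.sqrt e) / m := by ring
      _ = Ca * (m : ℝ) ^ (-(1 / 2) : ℝ) := by
          rw [h4, Real.sqrt_eq_rpow, mul_div_assoc]
          congr 1
          rw [div_eq_iff hm0.ne']
          nth_rewrite 3 [← Real.rpow_one (m : ℝ)]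
          rw [← Real.rpow_add hm0]
          norm_num
  calc ∑ e ∈ m.divisors, (2 : ℝ) ^ (m / e).primeFactors.card / m * Real.sqrt e
      ≤ ∑ e ∈ m.divisors, Ca * (m : ℝ) ^ (-(1 / 2) : ℝ) := sum_le_sum h1
    _ = (m.divisors.card : ℝ) * (Ca * (m : ℝ) ^ (-(1 / 2) : ℝ)) := by
        rw [sum_const, nsmul_eq_mul]
    _ ≤ (Cd * (m : ℝ) ^ (1 / 4 : ℝ)) * (Ca * (m : ℝ) ^ (-(1 / 2) : ℝ)) :=
        mul_le_mul_of_nonneg_right (hd m hm) (by positivity)
    _ = (Ca * Cd) * ((m : ℝ) ^ (1 / 4 : ℝ) * (m : ℝ) ^ (-(1 / 2) : ℝ)) := by ring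
    _ = _ := by
        rw [← Real.rpow_add hm0]
        norm_num

theorem tbv2_esum0 (m : ℕ) (hm : 1 ≤ m) :
    ∑ e ∈ m.divisors, (2 : ℝ) ^ (m / e).primeFactors.card / m ≤ m := by
  have hm0 : (0 : ℝ) < m := by exact_mod_cast hm
  have h1 : ∀ e ∈ m.divisors, (2 : ℝ) ^ (m / e).primeFactors.card / m ≤ 1 := by
    intro e he
    have hem := Nat.dvd_of_mem_divisors he
    have he0 : 0 < e := Nat.pos_of_dvd_of_pos hem hm
    have hg : 1 ≤ m / e := Nat.div_pos (Nat.le_of_dvd hm hem) he0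
    rw [div_le_one hm0]
    have h2 : 2 ^ (m / e).primeFactors.card ≤ m / e := by
      calc 2 ^ (m / e).primeFactors.card ≤ ∏ p ∈ (m / e).primeFactors, p := by
            apply pow_card_le_prod
            intro p hp
            exact (Nat.prime_of_mem_primeFactors hp).two_le
        _ ≤ m / e := Nat.le_of_dvd hg (Nat.prod_primeFactors_dvd _)
    have h3 : 2 ^ (m / e).primeFactors.card ≤ m := h2.trans (Nat.div_le_self _ _)
    exact_mod_cast h3
  calc ∑ e ∈ m.divisors, (2 : ℝ) ^ (m / e).primeFactors.card / m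
      ≤ ∑ e ∈ m.divisors, (1 : ℝ) := sum_le_sum h1
    _ = (m.divisors.card : ℝ) := by simp
    _ ≤ m := by exact_mod_cast Nat.card_divisors_le_self m

/-- the sum over all divisors -/
theorem tbv2_all (S : ℕ → ℝ) (hS : ∀ r, 0 ≤ S r) (hS1 : S 1 = 0) (X m F C1 : ℕ)
    (C3 C6 δ ε θ' L : ℝ) (hX : 3 ≤ X) (hC3 : 0 < C3) (hε0 : 0 < ε) (hε1 : ε ≤ 1 / 2)
    (hlc : ∀ R : ℕ, 1 ≤ R → (R : ℝ) ≤ (X : ℝ) ^ θ' →
      ∑ q ∈ Ioc R (2 * R), S q ≤ C1 * ((X : ℝ) + R * (X : ℝ) ^ (1 - δ)) * Real.log X ^ C1)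
    (hm : 1 ≤ m) (hF : 1 ≤ F) (hmF : (m : ℝ) * F ≤ (X : ℝ) ^ θ') (hθ' : θ' ≤ 1)
    (hL : Real.log X ≤ L)
    (h6 : ∑ e ∈ m.divisors, (2 : ℝ) ^ (m / e).primeFactors.card / m * Real.sqrt e ≤
      C6 * (m : ℝ) ^ (-(1 / 4) : ℝ)) :
    ∑ e ∈ m.divisors, (2 : ℝ) ^ (m / e).primeFactors.card / m *
      ∑ k ∈ Icc 1 F, (k : ℝ) ^ (-1 + ε) * (S (e * k) *
      min (m : ℝ) (C3 * (Real.sqrt ((e * k : ℕ) : ℝ) * (1 + Real.log ((e * k : ℕ) : ℝ))))) ≤
    3 * L * (C1 * L ^ C1) * (C3 * (1 + L) * X * (C6 * (m : ℝ) ^ (-(1 / 4) : ℝ)) +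
      (m : ℝ) ^ 3 * (X : ℝ) ^ (1 - δ + ε)) := by
  have hX0 : (0 : ℝ) < X := by exact_mod_cast (by omega : 0 < X)
  have hlX : 1 ≤ Real.log X := by
    rw [Real.le_log_iff_exp_le hX0]
    have h1 := Real.exp_one_lt_d9
    have h2 : (3 : ℝ) ≤ X := by exact_mod_cast hX
    linarith
  have hL1 : 1 ≤ L := hlX.trans hL
  have hL0 : 0 ≤ L := by linarith
  have h1 : ∀ e ∈ m.divisors, (2 : ℝ) ^ (m / e).primeFactors.card / m *
      ∑ k ∈ Icc 1 F, (k : ℝ) ^ (-1 + ε) * (S (e * k) *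
      min (m : ℝ) (C3 * (Real.sqrt ((e * k : ℕ) : ℝ) * (1 + Real.log ((e * k : ℕ) : ℝ))))) ≤
      3 * L * (C1 * L ^ C1) * (C3 * (1 + L) * X *
        ((2 : ℝ) ^ (m / e).primeFactors.card / m * Real.sqrt e) +
        (m : ℝ) ^ 2 * (X : ℝ) ^ (1 - δ + ε) * ((2 : ℝ) ^ (m / e).primeFactors.card / m)) := by
    intro e he
    have hem := Nat.dvd_of_mem_divisors he
    have he0 : 0 < e := Nat.pos_of_dvd_of_pos hem hm
    have h2 := tbv2_one S hS hS1 X m e F C1 C3 δ ε θ' L hX hC3 hε0 hε1 hlc he0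
      (Nat.le_of_dvd hm hem) hF hmF hθ' hL
    refine (mul_le_mul_of_nonneg_left h2 (by positivity)).trans (le_of_eq ?_)
    ring
  refine (sum_le_sum h1).trans ?_
  rw [← mul_sum, sum_add_distrib, ← mul_sum, ← mul_sum]
  have h7 := tbv2_esum0 m hm
  refine mul_le_mul_of_nonneg_left ?_ (by positivity)
  refine add_le_add (mul_le_mul_of_nonneg_left h6 (by positivity)) ?_
  refine (mul_le_mul_of_nonneg_left h7 (by positivity)).trans (le_of_eq ?_)
  ring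

/-- one modulus -/
theorem tbv2_E (η : ℝ → ℝ) (C2 C3 : ℝ) (N m n f c : ℕ) (hm : 1 ≤ m) (hf : 1 ≤ f)
    (hJB : ∀ m f r u L : ℕ, 1 ≤ m → 1 ≤ f → r ∣ m * f → ∀ χ ∈ prim r,
      ‖JJ (m * f) u L χ‖ ≤
        C3 * 2 ^ ((m / Nat.gcd r m).primeFactors.card + f.primeFactors.card) *
          (Real.sqrt r * (1 + Real.log r)))
    (h : |TAP η N m n f c - psi0 (etaR η) (m * N) / f| ≤
      C2 * (m * (1 + Real.log n) ^ 2 +
        m * N * 2 ^ (m * f).primeFactors.card / ((m * f).totient : ℝ)) +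
      1 / ((m * f).totient : ℝ) * ∑ r ∈ (m * f).divisors.erase 1, ∑ χ ∈ prim r,
        ‖JJ (m * f) (n - m * c - m) m χ‖ * ‖psiChi (etaR η) (m * N) χ‖) :
    |TAP η N m n f c - psi0 (etaR η) (m * N) / f| ≤
      C2 * (m * (1 + Real.log n) ^ 2 +
        m * N * 2 ^ (m * f).primeFactors.card / ((m * f).totient : ℝ)) +
      1 / ((m * f).totient : ℝ) * ∑ r ∈ (m * f).divisors.erase 1,
        2 ^ ((m / Nat.gcd r m).primeFactors.card + f.primeFactors.card) *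
          ((∑ χ ∈ prim r, ‖psiChi (etaR η) (m * N) χ‖) *
            min (m : ℝ) (C3 * (Real.sqrt r * (1 + Real.log r)))) := by
  refine h.trans ?_
  refine add_le_add le_rfl (mul_le_mul_of_nonneg_left ?_ (by positivity))
  refine sum_le_sum fun r hr => ?_
  have hr' := Nat.dvd_of_mem_divisors (mem_of_mem_erase hr)
  rw [← mul_assoc, mul_comm ((2 : ℝ) ^ _), mul_assoc, sum_mul]
  refine sum_le_sum fun χ hχ => ?_
  rw [mul_comm]
  refine mul_le_mul_of_nonneg_left ?_ (norm_nonneg _)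
  rw [mul_min_of_nonneg _ _ (by positivity)]
  refine le_min ?_ ?_
  · refine (tbv2_JJ _ _ _ χ).trans ?_
    exact le_mul_of_one_le_left (Nat.cast_nonneg m) (one_le_pow₀ (by norm_num))
  · refine (hJB m f r _ _ hm hf hr' χ hχ).trans (le_of_eq ?_)
    ring

/-- first two error terms -/
theorem tbv2_err (C2 C4 L : ℝ) (hC2 : 0 < C2) (hC4 : 0 < C4) (hL1 : 1 ≤ L) (m N F K : ℕ)
    (hm : 1 ≤ m) (hF : 1 ≤ F) (hLF : Real.log F ≤ L)
    (h4 : ∀ k : ℕ, 1 ≤ k → ((3 : ℕ) + 1 : ℝ) ^ k.primeFactors.card ≤ C4 * (k : ℝ) ^ (1 / 2 : ℝ)) :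
    ∑ f ∈ Icc 1 F, (K : ℝ) ^ f.primeFactors.card * (C2 * (m * (1 + L) ^ 2 +
        m * N * 2 ^ (m * f).primeFactors.card / ((m * f).totient : ℝ))) ≤
      C2 * (m * (1 + L) ^ (K + 2) * F) +
      C2 * (m * N * (C4 * (m : ℝ) ^ (-(1 / 2) : ℝ)) * (1 + L) ^ (4 * K)) := by
  have hm0 : (0 : ℝ) < m := by exact_mod_cast hm
  have hlF0 : 0 ≤ 1 + Real.log F := by
    have := Real.log_natCast_nonneg F
    linarith
  have hN0 : (0 : ℝ) ≤ N := Nat.cast_nonneg N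
  have s1 : ∑ f ∈ Icc 1 F, (K : ℝ) ^ f.primeFactors.card ≤ F * (1 + L) ^ K := by
    have e1 : ∀ f ∈ Icc 1 F, (K : ℝ) ^ f.primeFactors.card ≤
        F * ((K : ℝ) ^ f.primeFactors.card / f) := by
      intro f hf
      rw [mem_Icc] at hf
      have hf0 : (0 : ℝ) < f := by exact_mod_cast hf.1
      have hfF : (f : ℝ) ≤ F := by exact_mod_cast hf.2
      rw [mul_div_assoc', le_div_iff₀ hf0, mul_comm]
      exact mul_le_mul_of_nonneg_right hfF (by positivity)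
    refine (sum_le_sum e1).trans ?_
    rw [← mul_sum]
    refine mul_le_mul_of_nonneg_left ?_ (Nat.cast_nonneg F)
    exact (Pool.Agent.GV.bvw_omega_sum F hF K).trans (pow_le_pow_left₀ hlF0 (by linarith) _)
  have s2 : ∑ f ∈ Icc 1 F, ((4 * K : ℕ) : ℝ) ^ f.primeFactors.card / f ≤ (1 + L) ^ (4 * K) :=
    (Pool.Agent.GV.bvw_omega_sum F hF (4 * K)).trans (pow_le_pow_left₀ hlF0 (by linarith) _)
  have h5 : ∀ f ∈ Icc 1 F, (K : ℝ) ^ f.primeFactors.card * (C2 * (m * (1 + L) ^ 2 +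
        m * N * 2 ^ (m * f).primeFactors.card / ((m * f).totient : ℝ))) ≤
      C2 * (m * (1 + L) ^ 2) * (K : ℝ) ^ f.primeFactors.card +
      C2 * (m * N * (C4 * (m : ℝ) ^ (-(1 / 2) : ℝ))) *
        (((4 * K : ℕ) : ℝ) ^ f.primeFactors.card / f) := by
    intro f hf
    rw [mem_Icc] at hf
    have hf0 : (0 : ℝ) < f := by exact_mod_cast hf.1
    have e1 : (1 : ℝ) / ((m * f).totient : ℝ) ≤
        (2 ^ m.primeFactors.card / m) * (2 ^ f.primeFactors.card / f) := by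
      have g1 : m.totient * f.totient ≤ (m * f).totient := Nat.totient_super_multiplicative m f
      have gm : (0 : ℝ) < m.totient := by exact_mod_cast Nat.totient_pos.mpr hm
      have gf : (0 : ℝ) < f.totient := by exact_mod_cast Nat.totient_pos.mpr hf.1
      have g2 : (m.totient : ℝ) * f.totient ≤ ((m * f).totient : ℝ) := by exact_mod_cast g1
      calc 1 / ((m * f).totient : ℝ) ≤ 1 / ((m.totient : ℝ) * f.totient) :=
            one_div_le_one_div_of_le (by positivity) g2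
        _ = (1 / (m.totient : ℝ)) * (1 / (f.totient : ℝ)) := by rw [one_div_mul_one_div]
        _ ≤ _ := mul_le_mul (Pool.Agent.GV.bvw_totient m hm) (Pool.Agent.GV.bvw_totient f hf.1)
            (by positivity) (by positivity)
    have e2 : (2 : ℝ) ^ (m * f).primeFactors.card ≤
        2 ^ m.primeFactors.card * 2 ^ f.primeFactors.card := by
      rw [← pow_add]
      refine pow_le_pow_right₀ (by norm_num) ?_
      rw [Nat.primeFactors_mul (by omega) (by omega)]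
      exact card_union_le _ _
    have e3 : (2 : ℝ) ^ m.primeFactors.card * 2 ^ m.primeFactors.card ≤
        C4 * (m : ℝ) ^ (1 / 2 : ℝ) := by
      rw [← mul_pow]
      have := h4 m hm
      norm_num at this ⊢
      exact this
    have e4 : (m : ℝ) ^ (1 / 2 : ℝ) / m = (m : ℝ) ^ (-(1 / 2) : ℝ) := by
      rw [div_eq_iff hm0.ne']
      nth_rewrite 3 [← Real.rpow_one (m : ℝ)]
      rw [← Real.rpow_add hm0]
      norm_num
    have e5 : 2 ^ (m * f).primeFactors.card / ((m * f).totient : ℝ) ≤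
        (C4 * (m : ℝ) ^ (-(1 / 2) : ℝ)) * (4 ^ f.primeFactors.card / f) := by
      calc 2 ^ (m * f).primeFactors.card / ((m * f).totient : ℝ) =
            2 ^ (m * f).primeFactors.card * (1 / ((m * f).totient : ℝ)) := by ring
        _ ≤ (2 ^ m.primeFactors.card * 2 ^ f.primeFactors.card) *
            ((2 ^ m.primeFactors.card / m) * (2 ^ f.primeFactors.card / f)) :=
            mul_le_mul e2 e1 (by positivity) (by positivity)
        _ = (2 ^ m.primeFactors.card * 2 ^ m.primeFactors.card) / m *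
            ((2 ^ f.primeFactors.card * 2 ^ f.primeFactors.card) / f) := by ring
        _ ≤ (C4 * (m : ℝ) ^ (1 / 2 : ℝ)) / m *
            ((2 ^ f.primeFactors.card * 2 ^ f.primeFactors.card) / f) := by gcongr
        _ = _ := by
            rw [← mul_pow, mul_div_assoc, e4]
            norm_num
    have e6 : ((4 * K : ℕ) : ℝ) ^ f.primeFactors.card =
        (K : ℝ) ^ f.primeFactors.card * 4 ^ f.primeFactors.card := by
      push_cast
      rw [mul_pow, mul_comm]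
    rw [e6]
    have e7 : (m : ℝ) * N * 2 ^ (m * f).primeFactors.card / ((m * f).totient : ℝ) ≤
        m * N * ((C4 * (m : ℝ) ^ (-(1 / 2) : ℝ)) * (4 ^ f.primeFactors.card / f)) := by
      rw [mul_div_assoc]
      exact mul_le_mul_of_nonneg_left e5 (by positivity)
    calc (K : ℝ) ^ f.primeFactors.card * (C2 * (m * (1 + L) ^ 2 +
        m * N * 2 ^ (m * f).primeFactors.card / ((m * f).totient : ℝ)))
        ≤ (K : ℝ) ^ f.primeFactors.card * (C2 * (m * (1 + L) ^ 2 +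
          m * N * ((C4 * (m : ℝ) ^ (-(1 / 2) : ℝ)) * (4 ^ f.primeFactors.card / f)))) := by
          gcongr
      _ = _ := by ring
  refine (sum_le_sum h5).trans ?_
  rw [sum_add_distrib, ← mul_sum, ← mul_sum]
  refine add_le_add ?_ ?_
  · calc C2 * (m * (1 + L) ^ 2) * ∑ f ∈ Icc 1 F, (K : ℝ) ^ f.primeFactors.card
        ≤ C2 * (m * (1 + L) ^ 2) * (F * (1 + L) ^ K) :=
          mul_le_mul_of_nonneg_left s1 (by positivity)
      _ = _ := by rw [pow_add]; ring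
  · calc C2 * (m * N * (C4 * (m : ℝ) ^ (-(1 / 2) : ℝ))) *
        ∑ f ∈ Icc 1 F, ((4 * K : ℕ) : ℝ) ^ f.primeFactors.card / f
        ≤ C2 * (m * N * (C4 * (m : ℝ) ^ (-(1 / 2) : ℝ))) * (1 + L) ^ (4 * K) :=
          mul_le_mul_of_nonneg_left s2 (by positivity)
      _ = _ := by ring

theorem tbv2_p1 (C2 L N m F X n : ℝ) (A K : ℕ) (hC2 : 0 < C2) (hL : 1 ≤ L) (hm : 0 < m)
    (hN : 0 < N) (hX : X = m * N) (hF : F ≤ N ^ (1 / 2 : ℝ))
    (hn : n ^ (1 / 4 : ℝ) ≤ N ^ (1 / 2 : ℝ))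
    (h : 3 * C2 * 2 ^ (K + 2) * L ^ (K + 2 + A) ≤ n ^ (1 / 4 : ℝ)) :
    C2 * (m * (1 + L) ^ (K + 2) * F) ≤ X / (3 * L ^ A) := by
  have hL0 : 0 < L := by linarith
  have h1 : (1 + L) ^ (K + 2) ≤ 2 ^ (K + 2) * L ^ (K + 2) := by
    rw [← mul_pow]
    exact pow_le_pow_left₀ (by linarith) (by linarith) _
  have h2 : N ^ (1 / 2 : ℝ) * N ^ (1 / 2 : ℝ) = N := by
    rw [← Real.rpow_add hN]
    norm_num
  rw [le_div_iff₀ (by positivity), hX]
  have hN2 : 0 ≤ N ^ (1 / 2 : ℝ) := by positivity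
  calc C2 * (m * (1 + L) ^ (K + 2) * F) * (3 * L ^ A)
      ≤ C2 * (m * (2 ^ (K + 2) * L ^ (K + 2)) * N ^ (1 / 2 : ℝ)) * (3 * L ^ A) := by
        refine mul_le_mul_of_nonneg_right ?_ (by positivity)
        refine mul_le_mul_of_nonneg_left ?_ hC2.le
        refine (mul_le_mul_of_nonneg_left hF (by positivity)).trans ?_
        refine mul_le_mul_of_nonneg_right ?_ hN2
        exact mul_le_mul_of_nonneg_left h1 hm.le
    _ = m * N ^ (1 / 2 : ℝ) * (3 * C2 * 2 ^ (K + 2) * L ^ (K + 2 + A)) := by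
        rw [pow_add L (K + 2) A]
        ring
    _ ≤ m * N ^ (1 / 2 : ℝ) * N ^ (1 / 2 : ℝ) :=
        mul_le_mul_of_nonneg_left (h.trans hn) (by positivity)
    _ = m * N := by rw [mul_assoc, h2]

theorem tbv2_p2 (C2 C4 L N m X : ℝ) (A K B0 : ℕ) (hC2 : 0 < C2) (hC4 : 0 < C4) (hL : 1 ≤ L)
    (hm : 1 ≤ m) (hN : 0 < N) (hX : X = m * N) (hB : 4 * K + A + 1 ≤ B0)
    (hmB : L ^ B0 ≤ m ^ (1 / 4 : ℝ)) (h : 3 * C2 * C4 * 2 ^ (4 * K) ≤ L) :
    C2 * (m * N * (C4 * m ^ (-(1 / 2) : ℝ)) * (1 + L) ^ (4 * K)) ≤ X / (3 * L ^ A) := by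
  have hL0 : 0 < L := by linarith
  have hm0 : 0 < m := by linarith
  have h1 : (1 + L) ^ (4 * K) ≤ 2 ^ (4 * K) * L ^ (4 * K) := by
    rw [← mul_pow]
    exact pow_le_pow_left₀ (by linarith) (by linarith) _
  have h2 : L ^ (4 * K + A + 1) ≤ m ^ (1 / 4 : ℝ) := (pow_le_pow_right₀ hL hB).trans hmB
  have h3 : m ^ (1 / 4 : ℝ) * m ^ (-(1 / 2) : ℝ) ≤ 1 := by
    rw [← Real.rpow_add hm0]
    exact Real.rpow_le_one_of_one_le_of_nonpos hm (by norm_num)
  rw [le_div_iff₀ (by positivity), hX]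
  have hm2 : 0 ≤ m ^ (-(1 / 2) : ℝ) := by positivity
  calc C2 * (m * N * (C4 * m ^ (-(1 / 2) : ℝ)) * (1 + L) ^ (4 * K)) * (3 * L ^ A)
      ≤ C2 * (m * N * (C4 * m ^ (-(1 / 2) : ℝ)) * (2 ^ (4 * K) * L ^ (4 * K))) *
        (3 * L ^ A) := by gcongr
    _ = m * N * ((3 * C2 * C4 * 2 ^ (4 * K)) * L ^ (4 * K + A) * m ^ (-(1 / 2) : ℝ)) := by
        rw [pow_add L (4 * K) A]
        ring
    _ ≤ m * N * (L * L ^ (4 * K + A) * m ^ (-(1 / 2) : ℝ)) := by gcongr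
    _ = m * N * (L ^ (4 * K + A + 1) * m ^ (-(1 / 2) : ℝ)) := by rw [pow_succ']
    _ ≤ m * N * (m ^ (1 / 4 : ℝ) * m ^ (-(1 / 2) : ℝ)) := by gcongr
    _ ≤ m * N * 1 := by gcongr
    _ = m * N := mul_one _

theorem tbv2_p3 (C3 C6 δ L N m X n Y : ℝ) (A B0 C1 C5 : ℕ) (hC3 : 0 < C3) (hC6 : 0 < C6)
    (hL : 1 ≤ L) (hm : 1 ≤ m) (hN : 0 < N) (hn : 0 < n) (hX : X = m * N)
    (hB : C5 + C1 + 2 + A + 1 ≤ B0)
    (hmB : L ^ B0 ≤ m ^ (1 / 4 : ℝ))
    (h : 6 * (C5 * 2 ^ C5) * (3 * C1) * (C3 * 2 * C6) ≤ L)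
    (h4 : (6 * (C5 * 2 ^ C5) * (3 * C1) + 1) * L ^ (C5 + C1 + 1 + A) ≤ n ^ (δ / 4))
    (hY : Y ≤ X * n ^ (-(δ / 4))) :
    C5 * (1 + L) ^ C5 * (3 * L * (C1 * L ^ C1) * (C3 * (1 + L) * X * (C6 * m ^ (-(1 / 4) : ℝ)) +
      Y)) ≤ X / (3 * L ^ A) := by
  have hL0 : 0 < L := by linarith
  have hm0 : 0 < m := by linarith
  have hX0 : 0 < X := by rw [hX]; positivity
  have h1 : (1 + L) ^ C5 ≤ 2 ^ C5 * L ^ C5 := by
    rw [← mul_pow]
    exact pow_le_pow_left₀ (by linarith) (by linarith) _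
  have h2 : L ^ (C5 + C1 + 2 + A + 1) ≤ m ^ (1 / 4 : ℝ) := (pow_le_pow_right₀ hL hB).trans hmB
  have h3 : m ^ (1 / 4 : ℝ) * m ^ (-(1 / 4) : ℝ) = 1 := by
    rw [← Real.rpow_add hm0]
    norm_num
  have h5 : n ^ (δ / 4) * n ^ (-(δ / 4)) = 1 := by
    rw [← Real.rpow_add hn]
    norm_num
  have hm4 : 0 ≤ m ^ (-(1 / 4) : ℝ) := by positivity
  have hnδ : 0 ≤ n ^ (-(δ / 4)) := by positivity
  have e1 : C5 * (2 ^ C5 * L ^ C5) * (3 * L * (C1 * L ^ C1) * (C3 * (2 * L) * X *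
      (C6 * m ^ (-(1 / 4) : ℝ)))) * (6 * L ^ A) ≤ X := by
    calc C5 * (2 ^ C5 * L ^ C5) * (3 * L * (C1 * L ^ C1) * (C3 * (2 * L) * X *
        (C6 * m ^ (-(1 / 4) : ℝ)))) * (6 * L ^ A)
        = X * ((6 * (C5 * 2 ^ C5) * (3 * C1) * (C3 * 2 * C6)) * L ^ (C5 + C1 + 2 + A) *
          m ^ (-(1 / 4) : ℝ)) := by
          rw [pow_add L (C5 + C1 + 2) A, pow_add L (C5 + C1) 2, pow_add L C5 C1]
          ring
      _ ≤ X * (L * L ^ (C5 + C1 + 2 + A) * m ^ (-(1 / 4) : ℝ)) := by gcongr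
      _ = X * (L ^ (C5 + C1 + 2 + A + 1) * m ^ (-(1 / 4) : ℝ)) := by rw [pow_succ']
      _ ≤ X * (m ^ (1 / 4 : ℝ) * m ^ (-(1 / 4) : ℝ)) := by gcongr
      _ = X := by rw [h3, mul_one]
  have e2 : C5 * (2 ^ C5 * L ^ C5) * (3 * L * (C1 * L ^ C1) * (X * n ^ (-(δ / 4)))) *
      (6 * L ^ A) ≤ X := by
    calc C5 * (2 ^ C5 * L ^ C5) * (3 * L * (C1 * L ^ C1) * (X * n ^ (-(δ / 4)))) * (6 * L ^ A)
        = X * ((6 * (C5 * 2 ^ C5) * (3 * C1)) * L ^ (C5 + C1 + 1 + A) * n ^ (-(δ / 4))) := by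
          rw [pow_add L (C5 + C1 + 1) A, pow_add L (C5 + C1) 1, pow_add L C5 C1]
          ring
      _ ≤ X * ((6 * (C5 * 2 ^ C5) * (3 * C1) + 1) * L ^ (C5 + C1 + 1 + A) *
          n ^ (-(δ / 4))) := by
          gcongr
          linarith
      _ ≤ X * (n ^ (δ / 4) * n ^ (-(δ / 4))) := by gcongr
      _ = X := by rw [h5, mul_one]
  rw [le_div_iff₀ (by positivity)]
  have e3 : C5 * (1 + L) ^ C5 * (3 * L * (C1 * L ^ C1) * (C3 * (1 + L) * X *
      (C6 * m ^ (-(1 / 4) : ℝ)) + Y)) ≤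
      C5 * (2 ^ C5 * L ^ C5) * (3 * L * (C1 * L ^ C1) * (C3 * (2 * L) * X *
      (C6 * m ^ (-(1 / 4) : ℝ)) + X * n ^ (-(δ / 4)))) := by
    have g1 : 1 + L ≤ 2 * L := by linarith
    have g2 : C3 * (1 + L) * X * (C6 * m ^ (-(1 / 4) : ℝ)) + Y ≤
        C3 * (2 * L) * X * (C6 * m ^ (-(1 / 4) : ℝ)) + X * n ^ (-(δ / 4)) := by
      refine add_le_add ?_ hY
      gcongr
    have g3 : 0 ≤ C3 * (2 * L) * X * (C6 * m ^ (-(1 / 4) : ℝ)) + X * n ^ (-(δ / 4)) := by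
      positivity
    calc C5 * (1 + L) ^ C5 * (3 * L * (C1 * L ^ C1) * (C3 * (1 + L) * X *
        (C6 * m ^ (-(1 / 4) : ℝ)) + Y))
        ≤ C5 * (1 + L) ^ C5 * (3 * L * (C1 * L ^ C1) * (C3 * (2 * L) * X *
          (C6 * m ^ (-(1 / 4) : ℝ)) + X * n ^ (-(δ / 4)))) := by gcongr
      _ ≤ _ := by
          refine mul_le_mul_of_nonneg_right ?_ (by positivity)
          gcongr
  calc _ ≤ C5 * (2 ^ C5 * L ^ C5) * (3 * L * (C1 * L ^ C1) * (C3 * (2 * L) * X *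
      (C6 * m ^ (-(1 / 4) : ℝ)) + X * n ^ (-(δ / 4)))) * (3 * L ^ A) :=
        mul_le_mul_of_nonneg_right e3 (by positivity)
    _ = (C5 * (2 ^ C5 * L ^ C5) * (3 * L * (C1 * L ^ C1) * (C3 * (2 * L) * X *
      (C6 * m ^ (-(1 / 4) : ℝ)))) * (6 * L ^ A) +
      C5 * (2 ^ C5 * L ^ C5) * (3 * L * (C1 * L ^ C1) * (X * n ^ (-(δ / 4)))) *
      (6 * L ^ A)) / 2 := by ring
    _ ≤ (X + X) / 2 := by linarith
    _ = X := by ring

/-- keep this signature -/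
theorem thm_TBV2 (h1 : St_TRed) (h2 : St_JB) (h3 : St_TSum) : St_TBV2 := by
  intro η hη θ hθ0 hθ1
  classical
  obtain ⟨δ0, C1, hδ0, hlc0⟩ := Pool.Agent.GV.lc (etaR η) (abv_wt η hη) ((θ + 1 / 2) / 2)
    (by linarith) (by linarith)
  obtain ⟨C2, hC2, hTR⟩ := h1 η hη
  obtain ⟨C3, hC3, hJB⟩ := h2
  obtain ⟨C6, hC6, h6⟩ := tbv2_esum
  obtain ⟨C4, hC4, h4⟩ := tbv2_omega 3 (1 / 2) (by norm_num)
  obtain ⟨δ, hδ, hδδ0, hδ1⟩ : ∃ δ : ℝ, 0 < δ ∧ δ ≤ δ0 ∧ δ ≤ 1 :=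
    ⟨min δ0 1, lt_min hδ0 one_pos, min_le_left _ _, min_le_right _ _⟩
  obtain ⟨κ, hκ0, hκ1, hκ2, hκ3⟩ : ∃ κ : ℝ, 0 < κ ∧ κ ≤ δ / 32 ∧ κ ≤ (1 / 2 - θ) / 4 ∧
      κ ≤ 1 / 4 :=
    ⟨min (δ / 32) (min ((1 / 2 - θ) / 4) (1 / 4)),
      lt_min (by linarith) (lt_min (by linarith) (by norm_num)), min_le_left _ _,
      (min_le_right _ _).trans (min_le_left _ _), (min_le_right _ _).trans (min_le_right _ _)⟩
  refine ⟨κ, hκ0, ?_⟩
  intro A K
  obtain ⟨C5, h5⟩ := h3 K (δ / 4) (by linarith)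
  set B0 : ℕ := 4 * K + A + C1 + C5 + 4 with hB0
  refine ⟨4 * B0, ?_⟩
  set M1 : ℝ := 3 * C2 * 2 ^ (K + 2) with hM1
  set M2 : ℝ := 3 * C2 * C4 * 2 ^ (4 * K) with hM2
  set M3 : ℝ := 6 * (C5 * 2 ^ C5) * (3 * C1) * (C3 * 2 * C6) with hM3
  set M4 : ℝ := 6 * (C5 * 2 ^ C5) * (3 * C1) + 1 with hM4
  have hM1p : 0 < M1 := by positivity
  have hM4p : 0 < M4 := by positivity
  have hlog := (Real.tendsto_log_atTop.comp (tendsto_natCast_atTop_atTop (R := ℝ))).eventually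
    (eventually_ge_atTop (max (max M2 M3) 1))
  filter_upwards [eventually_ge_atTop 81, hlog, abv_log_pow (K + 2 + A) (1 / 4) M1 (by norm_num)
    hM1p, abv_log_pow (C5 + C1 + 1 + A) (δ / 4) M4 (by linarith) hM4p] with n hn81 hLM hev1 hev4
  simp only [Function.comp_apply] at hLM
  intro m N hT hmB hmκ
  obtain ⟨hm1, hT1, hT2⟩ := hT
  set L := Real.log n with hL
  have hLM2 : M2 ≤ L := (le_max_left _ _).trans ((le_max_left _ _).trans hLM)
  have hLM3 : M3 ≤ L := (le_max_right _ _).trans ((le_max_left _ _).trans hLM)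
  have hL1 : 1 ≤ L := (le_max_right _ _).trans hLM
  have hL0 : 0 < L := by linarith
  have hn0 : (0 : ℝ) < n := by exact_mod_cast (by omega : 0 < n)
  have hn1 : (1 : ℝ) ≤ n := by exact_mod_cast (by omega : 1 ≤ n)
  have hm0 : (0 : ℝ) < m := by exact_mod_cast hm1
  have hm1R : (1 : ℝ) ≤ m := by exact_mod_cast hm1
  -- size of N
  have hNq : (n : ℝ) ^ (1 / 2 : ℝ) ≤ N := by
    have e1 : ((n : ℝ) ^ (1 / 4 : ℝ)) ^ (4 : ℕ) = n := by
      rw [← Real.rpow_natCast, ← Real.rpow_mul hn0.le]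
      norm_num
    have e2 : ((n : ℝ) ^ (1 / 4 : ℝ)) ^ (2 : ℕ) = (n : ℝ) ^ (1 / 2 : ℝ) := by
      rw [← Real.rpow_natCast, ← Real.rpow_mul hn0.le]
      norm_num
    have e3 : (m : ℝ) ≤ (n : ℝ) ^ (1 / 4 : ℝ) :=
      hmκ.trans (Real.rpow_le_rpow_of_exponent_le hn1 hκ3)
    set r := (n : ℝ) ^ (1 / 4 : ℝ) with hr
    have hr0 : 0 ≤ r := by positivity
    have hr2 : 2 ≤ r := by
      by_contra hcon
      push Not at hcon
      have e4 : r ^ 4 ≤ 2 ^ 4 := pow_le_pow_left₀ hr0 hcon.le 4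
      have e5 : (81 : ℝ) ≤ n := by exact_mod_cast hn81
      linarith
    have e6 : (n : ℝ) < m * (N + 1) := by exact_mod_cast hT2
    have e7 : (n : ℝ) < r * (N + 1) := by
      refine e6.trans_le ?_
      exact mul_le_mul_of_nonneg_right e3 (by positivity)
    rw [← e2]
    rw [← e1] at e7
    have e8 : r * r ^ 3 < r * ((N : ℝ) + 1) := by
      calc r * r ^ 3 = r ^ 4 := by ring
        _ < _ := e7
    have e9 : r ^ 3 < (N : ℝ) + 1 := lt_of_mul_lt_mul_left e8 hr0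
    nlinarith [sq_nonneg r]
  have hq9 : (9 : ℝ) ≤ (n : ℝ) ^ (1 / 2 : ℝ) := by
    rw [← Real.sqrt_eq_rpow]
    refine Real.le_sqrt_of_sq_le ?_
    have e5 : (81 : ℝ) ≤ n := by exact_mod_cast hn81
    linarith
  have hN9R : (9 : ℝ) ≤ N := hq9.trans hNq
  have hN9 : 9 ≤ N := by exact_mod_cast hN9R
  have hN0 : (0 : ℝ) < N := by linarith
  have hN1 : (1 : ℝ) ≤ N := by linarith
  set X := m * N with hX
  have hNX : N ≤ X := Nat.le_mul_of_pos_left N hm1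
  have hX9 : 9 ≤ X := hN9.trans hNX
  have hXc : (X : ℝ) = m * N := by rw [hX]; push_cast; rfl
  have hX0 : (0 : ℝ) < X := by exact_mod_cast (by omega : 0 < X)
  have hX1 : (1 : ℝ) ≤ X := by exact_mod_cast (by omega : 1 ≤ X)
  have hNXR : (N : ℝ) ≤ X := by exact_mod_cast hNX
  have hXn : (X : ℝ) ≤ n := by exact_mod_cast hT1
  have hlX : Real.log X ≤ L := Real.log_le_log hX0 hXn
  -- F
  have hNθ1 : (1 : ℝ) ≤ (N : ℝ) ^ θ := Real.one_le_rpow hN1 hθ0.le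
  set F := ⌊(N : ℝ) ^ θ⌋₊ with hF
  have hF1 : 1 ≤ F := Nat.le_floor (by simpa using hNθ1)
  have hFle : (F : ℝ) ≤ (N : ℝ) ^ θ := Nat.floor_le (by positivity)
  have hθ' : (θ + 1 / 2) / 2 ≤ 1 := by linarith
  have hmF : (m : ℝ) * F ≤ (X : ℝ) ^ ((θ + 1 / 2) / 2) := by
    have e1 : (m : ℝ) ≤ (N : ℝ) ^ ((1 / 2 - θ) / 2) := by
      calc (m : ℝ) ≤ (n : ℝ) ^ κ := hmκ
        _ ≤ (n : ℝ) ^ ((1 / 2 - θ) / 4) := Real.rpow_le_rpow_of_exponent_le hn1 hκ2
        _ = ((n : ℝ) ^ (1 / 2 : ℝ)) ^ ((1 / 2 - θ) / 2) := by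
            rw [← Real.rpow_mul hn0.le]
            congr 1
            ring
        _ ≤ (N : ℝ) ^ ((1 / 2 - θ) / 2) := Real.rpow_le_rpow (by positivity) hNq (by linarith)
    calc (m : ℝ) * F ≤ (N : ℝ) ^ ((1 / 2 - θ) / 2) * (N : ℝ) ^ θ := by gcongr
      _ = (N : ℝ) ^ ((θ + 1 / 2) / 2) := by
          rw [← Real.rpow_add hN0]
          congr 1
          ring
      _ ≤ _ := Real.rpow_le_rpow hN0.le hNXR (by linarith)
  have hXθ : (X : ℝ) ^ ((θ + 1 / 2) / 2) ≤ X := by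
    calc (X : ℝ) ^ ((θ + 1 / 2) / 2) ≤ (X : ℝ) ^ (1 : ℝ) :=
          Real.rpow_le_rpow_of_exponent_le hX1 hθ'
      _ = X := Real.rpow_one _
  have hF0 : (0 : ℝ) < F := by exact_mod_cast hF1
  have hF1R : (1 : ℝ) ≤ F := by exact_mod_cast hF1
  have hmFL : Real.log ((m : ℝ) * F) ≤ L :=
    Real.log_le_log (by positivity) (hmF.trans (hXθ.trans hXn))
  have hFL : Real.log F ≤ L := by
    refine le_trans (Real.log_le_log hF0 ?_) hmFL
    exact le_mul_of_one_le_left hF0.le hm1R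
  have hlmF0 : 0 ≤ Real.log ((m : ℝ) * F) := by
    exact Real.log_nonneg (one_le_mul_of_one_le_of_one_le hm1R hF1R)
  -- S, G, E
  set S : ℕ → ℝ := fun r => ∑ χ ∈ prim r, ‖psiChi (etaR η) X χ‖ with hS
  have hS0 : ∀ r, 0 ≤ S r := fun r => sum_nonneg fun χ _ => norm_nonneg _
  have hS1 : S 1 = 0 := by
    rw [hS]
    refine sum_eq_zero fun χ hχ => ?_
    exact absurd (DirichletCharacter.level_one χ) ((mem_prim χ).1 hχ).2
  set G : ℕ → ℝ := fun r => S r * min (m : ℝ) (C3 * (Real.sqrt r * (1 + Real.log r))) with hG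
  have hG0 : ∀ r, 0 ≤ G r := by
    intro r
    refine mul_nonneg (hS0 r) (le_min hm0.le ?_)
    have := Real.log_natCast_nonneg r
    positivity
  have hlc : ∀ R : ℕ, 1 ≤ R → (R : ℝ) ≤ (X : ℝ) ^ ((θ + 1 / 2) / 2) →
      ∑ q ∈ Ioc R (2 * R), S q ≤ C1 * ((X : ℝ) + R * (X : ℝ) ^ (1 - δ)) * Real.log X ^ C1 := by
    intro R hR1 hR2
    refine (hlc0 X R (by omega) hR1 hR2).trans ?_
    have e1 : (X : ℝ) ^ (1 - δ0) ≤ (X : ℝ) ^ (1 - δ) :=
      Real.rpow_le_rpow_of_exponent_le hX1 (by linarith)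
    have e2 : 0 ≤ Real.log X := Real.log_nonneg hX1
    gcongr
  refine ⟨fun f => C2 * (m * (1 + L) ^ 2 +
      m * N * 2 ^ (m * f).primeFactors.card / ((m * f).totient : ℝ)) +
      1 / ((m * f).totient : ℝ) * ∑ r ∈ (m * f).divisors.erase 1,
        2 ^ ((m / Nat.gcd r m).primeFactors.card + f.primeFactors.card) * G r, ?_, ?_, ?_⟩
  · intro f
    have : 0 ≤ ∑ r ∈ (m * f).divisors.erase 1,
        2 ^ ((m / Nat.gcd r m).primeFactors.card + f.primeFactors.card) * G r :=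
      sum_nonneg fun r _ => mul_nonneg (by positivity) (hG0 r)
    positivity
  · intro f c hf hfN hc
    have hfN' : f ≤ N := by
      have e1 : (N : ℝ) ^ θ ≤ N := by
        calc (N : ℝ) ^ θ ≤ (N : ℝ) ^ (1 : ℝ) :=
              Real.rpow_le_rpow_of_exponent_le hN1 (by linarith)
          _ = N := Real.rpow_one _
      have : (f : ℝ) ≤ N := hfN.trans e1
      exact_mod_cast this
    exact tbv2_E η C2 C3 N m n f c hm1 hf hJB (hTR N m n f c (by omega) ⟨hm1, hT1, hT2⟩ hf hfN' hc)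
  · -- the sum
    have hsub : ∑ f ∈ (Icc 1 N).filter (fun f : ℕ => (f : ℝ) ≤ (N : ℝ) ^ θ),
        (K : ℝ) ^ f.primeFactors.card * (C2 * (m * (1 + L) ^ 2 +
          m * N * 2 ^ (m * f).primeFactors.card / ((m * f).totient : ℝ)) +
          1 / ((m * f).totient : ℝ) * ∑ r ∈ (m * f).divisors.erase 1,
          2 ^ ((m / Nat.gcd r m).primeFactors.card + f.primeFactors.card) * G r) ≤
        ∑ f ∈ Icc 1 F, (K : ℝ) ^ f.primeFactors.card * (C2 * (m * (1 + L) ^ 2 +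
          m * N * 2 ^ (m * f).primeFactors.card / ((m * f).totient : ℝ)) +
          1 / ((m * f).totient : ℝ) * ∑ r ∈ (m * f).divisors.erase 1,
          2 ^ ((m / Nat.gcd r m).primeFactors.card + f.primeFactors.card) * G r) := by
      refine sum_le_sum_of_subset_of_nonneg ?_ ?_
      · intro f hf
        rw [mem_filter, mem_Icc] at hf
        exact mem_Icc.2 ⟨hf.1.1, Nat.le_floor hf.2⟩
      · intro f _ _
        have : 0 ≤ ∑ r ∈ (m * f).divisors.erase 1,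
            2 ^ ((m / Nat.gcd r m).primeFactors.card + f.primeFactors.card) * G r :=
          sum_nonneg fun r _ => mul_nonneg (by positivity) (hG0 r)
        positivity
    refine hsub.trans ?_
    simp only [mul_add ((K : ℝ) ^ _)]
    rw [sum_add_distrib]
    have hb12 := tbv2_err C2 C4 L hC2 hC4 hL1 m N F K hm1 hF1 hFL h4
    have hb3 := h5 m F G hm1 hF1 hG0
    have hb4 := tbv2_all S hS0 hS1 X m F C1 C3 C6 δ (δ / 4) ((θ + 1 / 2) / 2) L (by omega) hC3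
      (by linarith) (by linarith) hlc hm1 hF1 hmF hθ' hlX (h6 m hm1)
    have hmB4 : L ^ B0 ≤ (m : ℝ) ^ (1 / 4 : ℝ) := by
      have e1 : (L ^ B0) ^ (4 : ℕ) ≤ m := by
        rw [← pow_mul, mul_comm]
        exact hmB
      have e2 : ((L ^ B0) ^ (4 : ℕ)) ^ (1 / 4 : ℝ) = L ^ B0 := by
        rw [← Real.rpow_natCast, ← Real.rpow_mul (by positivity)]
        norm_num
      rw [← e2]
      exact Real.rpow_le_rpow (by positivity) e1 (by norm_num)
    have hNhalf : (n : ℝ) ^ (1 / 4 : ℝ) ≤ (N : ℝ) ^ (1 / 2 : ℝ) := by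
      have e1 : ((n : ℝ) ^ (1 / 2 : ℝ)) ^ (1 / 2 : ℝ) = (n : ℝ) ^ (1 / 4 : ℝ) := by
        rw [← Real.rpow_mul hn0.le]
        norm_num
      rw [← e1]
      exact Real.rpow_le_rpow (by positivity) hNq (by norm_num)
    have hFhalf : (F : ℝ) ≤ (N : ℝ) ^ (1 / 2 : ℝ) :=
      hFle.trans (Real.rpow_le_rpow_of_exponent_le hN1 hθ1.le)
    have hY : (m : ℝ) ^ 3 * (X : ℝ) ^ (1 - δ + δ / 4) ≤ X * (n : ℝ) ^ (-(δ / 4)) := by
      have e1 : (m : ℝ) ^ 3 ≤ (n : ℝ) ^ (3 * δ / 32) := by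
        have e2 : (m : ℝ) ≤ (n : ℝ) ^ (δ / 32) :=
          hmκ.trans (Real.rpow_le_rpow_of_exponent_le hn1 hκ1)
        calc (m : ℝ) ^ 3 ≤ ((n : ℝ) ^ (δ / 32)) ^ 3 := pow_le_pow_left₀ hm0.le e2 3
          _ = (n : ℝ) ^ (3 * δ / 32) := by
              rw [← Real.rpow_natCast, ← Real.rpow_mul hn0.le]
              congr 1
              push_cast
              ring
      have e3 : (X : ℝ) ^ (1 - δ + δ / 4) = X * (X : ℝ) ^ (-(3 * δ / 4)) := by
        nth_rewrite 2 [← Real.rpow_one (X : ℝ)]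
        rw [← Real.rpow_add hX0]
        congr 1
        ring
      have e4 : (X : ℝ) ^ (-(3 * δ / 4)) ≤ (n : ℝ) ^ (-(3 * δ / 8)) := by
        have e5 : (n : ℝ) ^ (-(3 * δ / 8)) = ((n : ℝ) ^ (1 / 2 : ℝ)) ^ (-(3 * δ / 4)) := by
          rw [← Real.rpow_mul hn0.le]
          congr 1
          ring
        rw [e5]
        exact Real.rpow_le_rpow_of_nonpos (by positivity) (hNq.trans hNXR) (by linarith)
      calc (m : ℝ) ^ 3 * (X : ℝ) ^ (1 - δ + δ / 4)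
          = X * ((m : ℝ) ^ 3 * (X : ℝ) ^ (-(3 * δ / 4))) := by rw [e3]; ring
        _ ≤ X * ((n : ℝ) ^ (3 * δ / 32) * (n : ℝ) ^ (-(3 * δ / 8))) := by gcongr
        _ ≤ X * (n : ℝ) ^ (-(δ / 4)) := by
            refine mul_le_mul_of_nonneg_left ?_ hX0.le
            rw [← Real.rpow_add hn0]
            exact Real.rpow_le_rpow_of_exponent_le hn1 (by linarith)
    have q1 := tbv2_p1 C2 L N m F X n A K hC2 hL1 hm0 hN0 hXc hFhalf hNhalf hev1
    have q2 := tbv2_p2 C2 C4 L N m X A K B0 hC2 hC4 hL1 hm1R hN0 hXc (by omega) hmB4 hLM2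
    have q3 := tbv2_p3 C3 C6 δ L N m X n _ A B0 C1 C5 hC3 hC6 hL1 hm1R hN0 hn0 hXc (by omega)
      hmB4 hLM3 hev4 hY
    have q4 : C5 * (1 + Real.log ((m : ℝ) * F)) ^ C5 *
        ∑ e ∈ m.divisors, (2 : ℝ) ^ (m / e).primeFactors.card / m *
          ∑ k ∈ Icc 1 F, (k : ℝ) ^ (-1 + δ / 4) * G (e * k) ≤ X / (3 * L ^ A) := by
      refine le_trans ?_ q3
      have e1 : (1 + Real.log ((m : ℝ) * F)) ^ C5 ≤ (1 + L) ^ C5 :=
        pow_le_pow_left₀ (by linarith) (by linarith) _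
      have e2 : 0 ≤ ∑ e ∈ m.divisors, (2 : ℝ) ^ (m / e).primeFactors.card / m *
          ∑ k ∈ Icc 1 F, (k : ℝ) ^ (-1 + δ / 4) * G (e * k) :=
        sum_nonneg fun e _ => mul_nonneg (by positivity)
          (sum_nonneg fun k _ => mul_nonneg (by positivity) (hG0 _))
      exact mul_le_mul (mul_le_mul_of_nonneg_left e1 (Nat.cast_nonneg _)) hb4 e2 (by positivity)
    have q5 : (m : ℝ) * N / L ^ A = X / (3 * L ^ A) + X / (3 * L ^ A) + X / (3 * L ^ A) := by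
      rw [hXc]
      field_simp
      ring
    rw [q5]
    refine add_le_add ?_ (hb3.trans q4)
    exact hb12.trans (add_le_add q1 q2)

end Pool.Agent.CU
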