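import Mathlib
import Pool.Agent.CU.Stmts
import Pool.Agent.BVX.TypeII2

set_option autoImplicit false

/-!
# CU / TIIm: bilinear sums for the conductors that are multiples of `e` (copy of BVX / TypeII2)
-/

namespace Pool.Agent.CU

open Finset Filter MeasureTheory Pool.Agent.MT Pool.Agent.CH
open scoped ContDiff FourierTransform SchwartzMap

/-- separation of variables -/
private theorem tiim_sep (η : ℝ → ℝ) (hη : IsWt η) : ∃ g : ℝ → ℂ, Integrable g ∧
    ∀ x : ℝ, 0 < x → ((η x : ℝ) : ℂ) =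
      ∫ ξ : ℝ, Complex.exp (((2 * Real.pi * (ξ * Real.log x) : ℝ) : ℂ) * Complex.I) * g ξ := by
  set h : ℝ → ℂ := fun u => ((η (Real.exp u) : ℝ) : ℂ) with hh
  have h1 : ContDiff ℝ ∞ h :=
    Complex.ofRealCLM.contDiff.comp (hη.smooth.comp Real.contDiff_exp)
  have h2 : HasCompactSupport h := by
    refine HasCompactSupport.of_support_subset_isCompact
      (isCompact_Icc (a := Real.log (1 / 8)) (b := Real.log (7 / 8))) ?_
    intro u hu
    have h3 : η (Real.exp u) ≠ 0 := by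
      intro h0
      apply hu
      simp [hh, h0]
    obtain ⟨h4, h5⟩ := hη.supp _ h3
    constructor
    · exact ((Real.log_lt_iff_lt_exp (by norm_num)).2 h4).le
    · exact ((Real.lt_log_iff_exp_lt (by norm_num)).2 h5).le
  set H : 𝓢(ℝ, ℂ) := h2.toSchwartzMap h1 with hH
  have hHc : (H : ℝ → ℂ) = h := rfl
  have hFi : Integrable (𝓕 h) := by
    have := (𝓕 H : 𝓢(ℝ, ℂ)).integrable (μ := volume)
    rw [SchwartzMap.fourier_coe, hHc] at this
    exact this
  have hi : Integrable h := by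
    have := H.integrable (μ := volume)
    rwa [hHc] at this
  refine ⟨𝓕 h, hFi, fun x hx => ?_⟩
  have hinv := hi.fourierInv_fourier_eq hFi (v := Real.log x) h1.continuous.continuousAt
  have e1 : h (Real.log x) = ((η x : ℝ) : ℂ) := by simp only [hh, Real.exp_log hx]
  rw [← e1, ← hinv, Real.fourierInv_eq']
  refine integral_congr_ae (Filter.Eventually.of_forall fun ξ => ?_)
  simp only [smul_eq_mul]
  congr 3
  simp [mul_comm]

/-- the additive character -/
private noncomputable def tiim_e (ξ y : ℝ) : ℂ :=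
  Complex.exp (((2 * Real.pi * (ξ * y) : ℝ) : ℂ) * Complex.I)

private theorem tiim_e_norm (ξ y : ℝ) : ‖tiim_e ξ y‖ = 1 := Complex.norm_exp_ofReal_mul_I _

private theorem tiim_e_add (ξ x y : ℝ) :
    tiim_e ξ (x + y) = tiim_e ξ x * tiim_e ξ y := by
  rw [tiim_e, tiim_e, tiim_e, ← Complex.exp_add]
  congr 1
  push_cast
  ring

private theorem tiim_e_cont (y : ℝ) : Continuous fun ξ => tiim_e ξ y := by
  unfold tiim_e
  fun_prop

private theorem tiim_int {g : ℝ → ℂ} (hg : Integrable g) (y : ℝ) :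
    Integrable fun ξ => tiim_e ξ y * g ξ := by
  refine hg.mono ((tiim_e_cont y).aestronglyMeasurable.mul hg.1) ?_
  refine Filter.Eventually.of_forall fun ξ => ?_
  rw [norm_mul, tiim_e_norm, one_mul]

/-- keep this signature -/
theorem thm_TIIm (h : St_LSm) : St_TIIm := by
  intro η hη
  obtain ⟨C0, hC0, hLS⟩ := h
  obtain ⟨g, hg, hsep⟩ := tiim_sep η hη
  refine ⟨C0 * ((∫ ξ, ‖g ξ‖) + 1), by
    have : 0 ≤ ∫ ξ, ‖g ξ‖ := integral_nonneg fun ξ => norm_nonneg _
    positivity, ?_⟩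
  intro N e R M hN he hM a b
  set X : ℝ := ((M : ℝ) + e * (R : ℝ) ^ 2) * ∑ l ∈ Ioc M (2 * M), ‖a l‖ ^ 2 with hX
  set Y : ℝ := ((N : ℝ) / M + e * (R : ℝ) ^ 2) * ∑ k ∈ Icc 1 (N / M), ‖b k‖ ^ 2 with hY
  -- the two factors
  set A : (q : ℕ) → DirichletCharacter ℂ q → ℝ → ℂ := fun q χ ξ =>
    ∑ l ∈ Ioc M (2 * M), (a l * tiim_e ξ (Real.log l)) * χ (l : ZMod q) with hA
  set B : (q : ℕ) → DirichletCharacter ℂ q → ℝ → ℂ := fun q χ ξ =>
    ∑ k ∈ Icc 1 (N / M), (b k * tiim_e ξ (Real.log k)) * χ (k : ZMod q) with hB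
  set F : (q : ℕ) → DirichletCharacter ℂ q → ℝ → ℂ := fun q χ ξ =>
    ∑ l ∈ Ioc M (2 * M), ∑ k ∈ Icc 1 (N / M), (a l * b k * χ ((l * k : ℕ) : ZMod q)) *
      (tiim_e ξ (Real.log (((l * k : ℕ) : ℝ) / N)) * g ξ) with hF
  have hNpos : (0 : ℝ) < N := by exact_mod_cast hN
  have hMpos : (0 : ℝ) < M := by exact_mod_cast hM
  have hFi : ∀ q (χ : DirichletCharacter ℂ q), Integrable (F q χ) := by
    intro q χ
    exact integrable_finsetSum _ fun l _ => integrable_finsetSum _ fun k _ =>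
      (tiim_int hg _).const_mul _
  have hFAB : ∀ q (χ : DirichletCharacter ℂ q) ξ, ‖F q χ ξ‖ = ‖g ξ‖ * (‖A q χ ξ‖ * ‖B q χ ξ‖) := by
    intro q χ ξ
    have e1 : F q χ ξ = (g ξ * tiim_e ξ (-Real.log N)) * (A q χ ξ * B q χ ξ) := by
      simp only [hF, hA, hB]
      rw [Finset.sum_mul_sum, Finset.mul_sum]
      refine Finset.sum_congr rfl fun l hl => ?_
      rw [Finset.mul_sum]
      refine Finset.sum_congr rfl fun k hk => ?_
      have hl' : (0 : ℝ) < l := by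
        have := (Finset.mem_Ioc.1 hl).1
        exact_mod_cast (by omega : 0 < l)
      have hk' : (0 : ℝ) < k := by
        have := (Finset.mem_Icc.1 hk).1
        exact_mod_cast (by omega : 0 < k)
      have e2 : Real.log (((l * k : ℕ) : ℝ) / N) =
          Real.log l + Real.log k + -Real.log N := by
        rw [Nat.cast_mul, Real.log_div (by positivity) (by positivity),
          Real.log_mul hl'.ne' hk'.ne', sub_eq_add_neg]
      rw [e2, tiim_e_add, tiim_e_add, Nat.cast_mul, map_mul]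
      ring
    rw [e1, norm_mul, norm_mul, norm_mul, tiim_e_norm, mul_one]
  -- the sums as integrals
  have hS : ∀ q (χ : DirichletCharacter ℂ q),
      ∑ l ∈ Ioc M (2 * M), ∑ k ∈ Icc 1 (N / l), a l * b k *
        (χ ((l * k : ℕ) : ZMod q) * ((η (((l * k : ℕ) : ℝ) / N) : ℝ) : ℂ)) =
      ∫ ξ, F q χ ξ := by
    intro q χ
    have e1 : ∫ ξ, F q χ ξ = ∑ l ∈ Ioc M (2 * M), ∑ k ∈ Icc 1 (N / M),
        (a l * b k * χ ((l * k : ℕ) : ZMod q)) * ((η (((l * k : ℕ) : ℝ) / N) : ℝ) : ℂ) := by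
      simp only [hF]
      rw [integral_finsetSum _ fun l _ => integrable_finsetSum _ fun k _ =>
        (tiim_int hg _).const_mul _]
      refine Finset.sum_congr rfl fun l hl => ?_
      rw [integral_finsetSum _ fun k _ => (tiim_int hg _).const_mul _]
      refine Finset.sum_congr rfl fun k hk => ?_
      have hl' : 0 < l := by
        have := (Finset.mem_Ioc.1 hl).1
        omega
      have hk' : 0 < k := by
        have := (Finset.mem_Icc.1 hk).1
        omega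
      have hx : (0 : ℝ) < ((l * k : ℕ) : ℝ) / N := by
        have : (0 : ℝ) < ((l * k : ℕ) : ℝ) := by exact_mod_cast Nat.mul_pos hl' hk'
        positivity
      rw [integral_const_mul, hsep _ hx]
      rfl
    rw [e1]
    refine Finset.sum_congr rfl fun l hl => ?_
    obtain ⟨hl1, hl2⟩ := Finset.mem_Ioc.1 hl
    have hsub : Icc 1 (N / l) ⊆ Icc 1 (N / M) := by
      refine Finset.Icc_subset_Icc le_rfl ?_
      exact Nat.div_le_div_left hl1.le (by omega)
    have e2 : ∀ k ∈ Icc 1 (N / l), a l * b k *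
        (χ ((l * k : ℕ) : ZMod q) * ((η (((l * k : ℕ) : ℝ) / N) : ℝ) : ℂ)) =
        (a l * b k * χ ((l * k : ℕ) : ZMod q)) * ((η (((l * k : ℕ) : ℝ) / N) : ℝ) : ℂ) :=
      fun k _ => by ring
    rw [Finset.sum_congr rfl e2]
    refine Finset.sum_subset hsub fun k hk hk' => ?_
    have h1 : N / l < k := by
      by_contra h
      exact hk' (Finset.mem_Icc.2 ⟨(Finset.mem_Icc.1 hk).1, not_lt.1 h⟩)
    have h2 : N < l * k := by
      have := (Nat.div_lt_iff_lt_mul (by omega : 0 < l)).1 h1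
      rwa [mul_comm] at this
    have h3 : η (((l * k : ℕ) : ℝ) / N) = 0 := by
      by_contra h
      have h4 := (hη.supp _ h).2
      rw [div_lt_iff₀ hNpos] at h4
      have h5 : (N : ℝ) < ((l * k : ℕ) : ℝ) := by exact_mod_cast h2
      linarith
    rw [h3]
    simp
  -- the large sieve
  have hAl : ∀ ξ, ∑ q ∈ Icc 1 R, ∑ χ ∈ prim (e * q), ‖A (e * q) χ ξ‖ ^ 2 ≤ C0 * X := by
    intro ξ
    have h1 := hLS e R M (2 * M) he (by omega) (fun l => a l * tiim_e ξ (Real.log l))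
    simp only [norm_mul, tiim_e_norm, mul_one] at h1
    rw [show (((2 * M : ℕ) : ℝ) - M + e * (R : ℝ) ^ 2) = (M : ℝ) + e * (R : ℝ) ^ 2 by
      push_cast; ring] at h1
    rw [hX, ← mul_assoc]
    exact h1
  have hBl : ∀ ξ, ∑ q ∈ Icc 1 R, ∑ χ ∈ prim (e * q), ‖B (e * q) χ ξ‖ ^ 2 ≤ C0 * Y := by
    intro ξ
    have h1 := hLS e R 0 (N / M) he (Nat.zero_le _) (fun k => b k * tiim_e ξ (Real.log k))
    simp only [norm_mul, tiim_e_norm, mul_one] at h1
    have h2 : Ioc 0 (N / M) = Icc 1 (N / M) := by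
      ext k; simp only [Finset.mem_Ioc, Finset.mem_Icc]; omega
    rw [h2] at h1
    refine h1.trans ?_
    rw [hY, ← mul_assoc]
    refine mul_le_mul_of_nonneg_right ?_ (Finset.sum_nonneg fun k _ => sq_nonneg _)
    have h3 : ((N / M : ℕ) : ℝ) ≤ (N : ℝ) / M := Nat.cast_div_le
    refine mul_le_mul_of_nonneg_left ?_ hC0.le
    push_cast
    linarith
  have hCS : ∀ ξ, ∑ q ∈ Icc 1 R, ∑ χ ∈ prim (e * q), ‖A (e * q) χ ξ‖ * ‖B (e * q) χ ξ‖ ≤
      C0 * (Real.sqrt X * Real.sqrt Y) := by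
    intro ξ
    have h16 : Real.sqrt C0 * Real.sqrt C0 = C0 := Real.mul_self_sqrt hC0.le
    have hsX : Real.sqrt (C0 * X) = Real.sqrt C0 * Real.sqrt X := Real.sqrt_mul hC0.le _
    have hsY : Real.sqrt (C0 * Y) = Real.sqrt C0 * Real.sqrt Y := Real.sqrt_mul hC0.le _
    have h1 := Real.sum_mul_le_sqrt_mul_sqrt ((Icc 1 R).sigma fun q => prim (e * q))
      (fun p => ‖A (e * p.1) p.2 ξ‖) (fun p => ‖B (e * p.1) p.2 ξ‖)
    rw [Finset.sum_sigma, Finset.sum_sigma, Finset.sum_sigma] at h1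
    refine h1.trans ?_
    refine (mul_le_mul (Real.sqrt_le_sqrt (hAl ξ)) (Real.sqrt_le_sqrt (hBl ξ))
      (Real.sqrt_nonneg _) (Real.sqrt_nonneg _)).trans (le_of_eq ?_)
    rw [hsX, hsY]
    calc Real.sqrt C0 * Real.sqrt X * (Real.sqrt C0 * Real.sqrt Y)
        = (Real.sqrt C0 * Real.sqrt C0) * (Real.sqrt X * Real.sqrt Y) := by ring
      _ = C0 * (Real.sqrt X * Real.sqrt Y) := by rw [h16]
  calc ∑ q ∈ Icc 1 R, ∑ χ ∈ prim (e * q),
      ‖∑ l ∈ Ioc M (2 * M), ∑ k ∈ Icc 1 (N / l), a l * b k *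
        (χ ((l * k : ℕ) : ZMod (e * q)) * ((η (((l * k : ℕ) : ℝ) / N) : ℝ) : ℂ))‖
      = ∑ q ∈ Icc 1 R, ∑ χ ∈ prim (e * q), ‖∫ ξ, F (e * q) χ ξ‖ := by
        refine Finset.sum_congr rfl fun q _ => Finset.sum_congr rfl fun χ _ => ?_
        rw [hS]
    _ ≤ ∑ q ∈ Icc 1 R, ∑ χ ∈ prim (e * q), ∫ ξ, ‖F (e * q) χ ξ‖ :=
        Finset.sum_le_sum fun q _ => Finset.sum_le_sum fun χ _ => norm_integral_le_integral_norm _
    _ = ∫ ξ, ∑ q ∈ Icc 1 R, ∑ χ ∈ prim (e * q), ‖F (e * q) χ ξ‖ := by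
        rw [integral_finsetSum _ fun q _ => integrable_finsetSum _ fun χ _ => (hFi (e * q) χ).norm]
        refine Finset.sum_congr rfl fun q _ => ?_
        rw [integral_finsetSum _ fun χ _ => (hFi (e * q) χ).norm]
    _ ≤ ∫ ξ, ‖g ξ‖ * (C0 * (Real.sqrt X * Real.sqrt Y)) := by
        refine integral_mono (integrable_finsetSum _ fun q _ => integrable_finsetSum _ fun χ _ =>
          (hFi (e * q) χ).norm) (hg.norm.mul_const _) fun ξ => ?_
        simp only [hFAB, ← Finset.mul_sum]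
        exact mul_le_mul_of_nonneg_left (hCS ξ) (norm_nonneg _)
    _ = (∫ ξ, ‖g ξ‖) * (C0 * (Real.sqrt X * Real.sqrt Y)) := integral_mul_const _ _
    _ ≤ ((∫ ξ, ‖g ξ‖) + 1) * (C0 * (Real.sqrt X * Real.sqrt Y)) :=
        mul_le_mul_of_nonneg_right (by linarith) (by positivity)
    _ = C0 * ((∫ ξ, ‖g ξ‖) + 1) * Real.sqrt X * Real.sqrt Y := by ring

end Pool.Agent.CU
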