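import Mathlib
import Pool.Agent.CU.Stmts
import Pool.Agent.CH.ABV
import Pool.Agent.MT.Reduce
import Pool.Agent.MT.Wt

set_option autoImplicit false

/-!
# CU / TRed

X = m N.  q = c mod f, r < m and x = n - m q - r  <->  x = j mod m f with j = n - m c - r, i.e. j in Ioc (n-mc-m) (n-mc) =: I (m(c+1) <= m N <= n).  x <= X iff .. : eta(q/N) <> 0 only for N/8 < q < 7N/8.
(1) eta(q/N) against etaR eta (x/X) = eta(1 - x/X): 1 - x/X - q/N = (r - (n - mN))/(mN), absolute value <= 1/N, eta Lipschitz (MT/Wt.lean wt_lipschitz), number of pairs (q,r): <= m (N/f + 1), lam <= log n: error <= C m (1 + log n).  So TAP = sum_{j in I} psiAP (etaR eta) X (mf) j + O(..).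
(2) (j, mf) > 1: psiAP only sees prime powers of p | mf: total over j <= sum_{x <= X, (x,mf)>1} lam(x) <= omega(mf) log X <= C (1+log n)^2.
(3) (j, mf) = 1: orthogonality (MT/Reduce.lean orth): (1/phi(mf)) sum_chi conj(sum_{j in I,(j,mf)=1} chi(j)) psiChi(X, chi mod mf); primitive characters as in MT/Reduce.lean prim_sum: chi mod mf is induced by a primitive chi* mod r | mf; the j-sum is JJ (mf) (n-mc-m) m chi*; psiChi(chi) = psiChi(chi*) + O((1+log n)^2);
|JJ| <= m and (1/phi) sum_chi 1 <= 1, so this costs C m (1+log n)^2.  r = 1: the principal character: (1/phi(mf)) #{j in I : (j,mf)=1} (psi0 + O((1+log n)^2)), and #{j in I: (j,mf)=1} = m phi(mf)/(mf) + O(2^omega(mf)) (sum over g | rad), psi0 <= C X (Chebyshev): error C m N 2^omega(mf)/phi(mf).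
Pool/Agent/CH/ABV.lean (abv_wt, abv_bij, abv_diff, abv_near) contains the change of variable for one class and CH/PRed.lean, MT/Reduce.lean the characters.
-/

namespace Pool.Agent.CU

open Finset Filter Pool.Agent.MT Pool.Agent.CH

/-- sums over blocks -/
theorem TRed_blocks (m : ℕ) (g : ℕ → ℝ) (M : ℕ) :
    ∑ y ∈ range (m * M), g y = ∑ q ∈ range M, ∑ r ∈ range m, g (m * q + r) := by
  induction M with
  | zero => simp
  | succ M ih =>
    rw [sum_range_succ, ← ih, Nat.mul_succ, sum_range_add]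

/-- the weighted count in terms of `y = n - x` -/
theorem TRed_TAP (η : ℝ → ℝ) (N m n f c : ℕ) (hm : 1 ≤ m) (hc : c < f) :
    TAP η N m n f c = ∑ y ∈ range (m * (N + 1)),
      if (y / m) % f = c then lam (n - y) * η (((y / m : ℕ) : ℝ) / N) else 0 := by
  rw [TRed_blocks, TAP, sum_filter, Nat.mod_eq_of_lt hc]
  apply sum_congr rfl
  intro q _
  have hq : ∀ r ∈ range m, (m * q + r) / m = q := fun r hr => by
    rw [Nat.mul_add_div (by omega), Nat.div_eq_of_lt (mem_range.1 hr), add_zero]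
  by_cases hqc : q % f = c
  · rw [if_pos hqc, tl, mul_sum]
    apply sum_congr rfl
    intro r hr
    rw [hq r hr, if_pos hqc, Nat.sub_sub, mul_comm]
  · rw [if_neg hqc]
    symm
    apply sum_eq_zero
    intro r hr
    rw [hq r hr, if_neg hqc]

/-- the residue classes of the tile -/
theorem TRed_class {m n f c x : ℕ} (hm : 1 ≤ m) (hc : c < f) (hx : x ≤ n)
    (hcn : m * (c + 1) ≤ n) (h : ℝ) :
    ∑ j ∈ Ioc (n - m * c - m) (n - m * c - m + m), (if x % (m * f) = j % (m * f) then h else 0) =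
      if ((n - x) / m) % f = c then h else 0 := by
  have hmc : m * c + m ≤ n := by
    rw [← Nat.mul_succ]
    exact hcn
  have he : n - m * c - m + m = n - m * c := by omega
  rw [he]
  have hcf : m * c + m ≤ m * f := by
    rw [← Nat.mul_succ]
    exact Nat.mul_le_mul_left m hc
  have hkey : ∀ j ∈ Ioc (n - m * c - m) (n - m * c), (x % (m * f) = j % (m * f) ↔
      (n - x) % (m * f) = n - j) := by
    intro j hj
    rw [mem_Ioc] at hj
    have hjn : j ≤ n := by omega
    have hlt : n - j < m * f := by omega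
    constructor
    · intro h1
      have h2 : n - x ≡ n - j [MOD m * f] := by
        have h3 : x ≡ j [MOD m * f] := h1
        rw [Nat.modEq_iff_dvd] at h3 ⊢
        rw [Nat.cast_sub hx, Nat.cast_sub hjn]
        have e : ((n : ℤ) - j) - ((n : ℤ) - x) = -((j : ℤ) - x) := by ring
        rw [e]
        exact (dvd_neg).2 h3
      have h4 : (n - x) % (m * f) = (n - j) % (m * f) := h2
      rw [h4, Nat.mod_eq_of_lt hlt]
    · intro h1
      have h2 : n - x ≡ n - j [MOD m * f] := by
        change (n - x) % (m * f) = (n - j) % (m * f)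
        rw [h1, Nat.mod_eq_of_lt hlt]
      have h3 : x ≡ j [MOD m * f] := by
        rw [Nat.modEq_iff_dvd] at h2 ⊢
        rw [Nat.cast_sub hx, Nat.cast_sub hjn] at h2
        have e : ((j : ℤ) - x) = -(((n : ℤ) - j) - ((n : ℤ) - x)) := by ring
        rw [e]
        exact (dvd_neg).2 h2
      exact h3
  have hdiv : ((n - x) % (m * f)) / m = ((n - x) / m) % f := Nat.mod_mul_right_div_self _ _ _
  by_cases hcond : ((n - x) / m) % f = c
  · rw [if_pos hcond]
    rw [hcond] at hdiv
    have hlo : m * c ≤ (n - x) % (m * f) := by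
      rw [← hdiv]
      exact Nat.mul_div_le _ _
    have hhi : (n - x) % (m * f) < m * c + m := by
      have := Nat.lt_mul_div_succ ((n - x) % (m * f)) (show 0 < m by omega)
      rw [hdiv] at this
      rwa [Nat.mul_succ] at this
    have hj0 : n - (n - x) % (m * f) ∈ Ioc (n - m * c - m) (n - m * c) := by
      rw [mem_Ioc]
      constructor <;> omega
    rw [sum_eq_single (n - (n - x) % (m * f))]
    · rw [if_pos ((hkey _ hj0).2 (by omega))]
    · intro j hj hne
      rw [if_neg]
      intro h1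
      have h2 := (hkey j hj).1 h1
      rw [mem_Ioc] at hj
      exact hne (by omega)
    · intro h1
      exact absurd hj0 h1
  · rw [if_neg hcond]
    apply sum_eq_zero
    intro j hj
    rw [if_neg]
    intro h1
    have h2 := (hkey j hj).1 h1
    rw [mem_Ioc] at hj
    apply hcond
    rw [← hdiv, h2]
    have h3 : n - j = m * c + (n - j - m * c) := by omega
    rw [h3, Nat.mul_add_div (by omega), Nat.div_eq_of_lt (by omega), add_zero]

/-- the sum over the classes of the tile in terms of `y = n - x` -/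
theorem TRed_TS (η : ℝ → ℝ) (hη : IsWt η) (N m n f c : ℕ) (hN : 1 ≤ N) (hm : 1 ≤ m) (hc : c < f)
    (hfN : f ≤ N) (h1 : m * N ≤ n) (h2 : n < m * (N + 1)) :
    ∑ j ∈ Ioc (n - m * c - m) (n - m * c - m + m), psiAP (etaR η) (m * N) (m * f) j =
      ∑ y ∈ range (m * (N + 1)), if (y / m) % f = c then
        lam (n - y) * etaR η (((n - y : ℕ) : ℝ) / ((m * N : ℕ) : ℝ)) else 0 := by
  have hcn : m * (c + 1) ≤ n := (Nat.mul_le_mul_left m (by omega)).trans h1
  have hX : 0 < m * N := Nat.mul_pos hm hN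
  have e1 : ∑ j ∈ Ioc (n - m * c - m) (n - m * c - m + m), psiAP (etaR η) (m * N) (m * f) j =
      ∑ x ∈ range (m * N + 1), if ((n - x) / m) % f = c then
        lam x * etaR η ((x : ℝ) / ((m * N : ℕ) : ℝ)) else 0 := by
    simp only [psiAP, sum_filter]
    rw [sum_comm]
    apply sum_congr rfl
    intro x hx
    rw [mem_range] at hx
    exact TRed_class hm hc (by omega) hcn _
  rw [e1]
  have hW := abv_wt η hη
  -- extend to `n`
  have e2 : ∑ x ∈ range (m * N + 1), (if ((n - x) / m) % f = c then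
        lam x * etaR η ((x : ℝ) / ((m * N : ℕ) : ℝ)) else 0) =
      ∑ x ∈ range (n + 1), (if ((n - x) / m) % f = c then
        lam x * etaR η ((x : ℝ) / ((m * N : ℕ) : ℝ)) else 0) := by
    apply sum_subset
    · intro x hx
      rw [mem_range] at hx ⊢
      omega
    · intro x _ hx2
      rw [mem_range, not_lt] at hx2
      have h3 : etaR η ((x : ℝ) / ((m * N : ℕ) : ℝ)) = 0 := by
        apply wt_zero_of_large _ hW
        have h4 : (0 : ℝ) < ((m * N : ℕ) : ℝ) := by exact_mod_cast hX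
        have h5 : ((m * N : ℕ) : ℝ) ≤ x := by exact_mod_cast (by omega : m * N ≤ x)
        rw [le_div_iff₀ h4]
        linarith
      rw [h3, mul_zero, ite_self]
  rw [e2, ← sum_range_reflect]
  have e3 : ∑ y ∈ range (n + 1), (if ((n - (n + 1 - 1 - y)) / m) % f = c then
        lam (n + 1 - 1 - y) * etaR η (((n + 1 - 1 - y : ℕ) : ℝ) / ((m * N : ℕ) : ℝ)) else 0) =
      ∑ y ∈ range (n + 1), (if (y / m) % f = c then
        lam (n - y) * etaR η (((n - y : ℕ) : ℝ) / ((m * N : ℕ) : ℝ)) else 0) := by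
    apply sum_congr rfl
    intro y hy
    rw [mem_range] at hy
    have h3 : n + 1 - 1 - y = n - y := by omega
    have h4 : n - (n - y) = y := by omega
    rw [h3, h4]
  rw [e3]
  apply sum_subset
  · intro y hy
    rw [mem_range] at hy ⊢
    omega
  · intro y _ hy2
    rw [mem_range, not_lt] at hy2
    have h3 : n - y = 0 := by omega
    rw [h3]
    simp [lam]

theorem TRed_lam_le (x n : ℕ) (h : x ≤ n) : lam x ≤ Real.log n := by
  rcases Nat.eq_zero_or_pos x with h0 | h0
  · rw [h0]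
    simp only [lam, ArithmeticFunction.map_zero]
    exact Real.log_natCast_nonneg n
  · exact ArithmeticFunction.vonMangoldt_le_log.trans
      (Real.log_le_log (by exact_mod_cast h0) (by exact_mod_cast h))

theorem TRed_count (N f c : ℕ) (hf : 1 ≤ f) (hfN : f ≤ N) :
    (((range (N + 1)).filter (fun q => q % f = c)).card : ℝ) ≤ 2 * (N : ℝ) / f := by
  have h1 : ((range (N + 1)).filter (fun q => q % f = c)).card ≤ N / f + 1 := by
    rw [← card_range (N / f + 1)]
    apply card_le_card_of_injOn (fun q => q / f)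
    · intro q hq
      rw [mem_coe, mem_filter, mem_range] at hq
      rw [mem_coe, mem_range]
      exact Nat.lt_succ_of_le (Nat.div_le_div_right (by omega))
    · intro a ha b hb hab
      rw [mem_coe, mem_filter] at ha hb
      have h3 := Nat.div_add_mod a f
      have h4 := Nat.div_add_mod b f
      have hab' : a / f = b / f := hab
      rw [ha.2] at h3
      rw [hb.2, ← hab'] at h4
      omega
  have hfR : (0 : ℝ) < f := by exact_mod_cast hf
  have h2 : (((range (N + 1)).filter (fun q => q % f = c)).card : ℝ) ≤ (N : ℝ) / f + 1 := by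
    have h3 : (((range (N + 1)).filter (fun q => q % f = c)).card : ℝ) ≤ ((N / f : ℕ) : ℝ) + 1 := by
      exact_mod_cast h1
    have h4 := @Nat.cast_div_le ℝ _ _ _ N f
    linarith
  have h3 : (1 : ℝ) ≤ (N : ℝ) / f := by
    rw [le_div_iff₀ hfR, one_mul]
    exact_mod_cast hfN
  have h4 : 2 * (N : ℝ) / f = (N : ℝ) / f + (N : ℝ) / f := by ring
  linarith

/-- the change of variables -/
theorem TRed_change (η : ℝ → ℝ) (hη : IsWt η) (L : ℝ) (hL0 : 0 < L)
    (hL : ∀ x y : ℝ, |η x - η y| ≤ L * |x - y|) (N m n f c : ℕ) (hN : 1 ≤ N) (hm : 1 ≤ m)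
    (hf : 1 ≤ f) (hc : c < f) (hfN : f ≤ N) (h1 : m * N ≤ n) (h2 : n < m * (N + 1)) :
    |TAP η N m n f c -
      ∑ j ∈ Ioc (n - m * c - m) (n - m * c - m + m), psiAP (etaR η) (m * N) (m * f) j| ≤
      2 * L * (m * Real.log n) := by
  rw [TRed_TAP η N m n f c hm hc, TRed_TS η hη N m n f c hN hm hc hfN h1 h2, ← sum_sub_distrib]
  have hmR : (0 : ℝ) < m := by exact_mod_cast hm
  have hNR : (0 : ℝ) < N := by exact_mod_cast hN
  have hfR : (0 : ℝ) < f := by exact_mod_cast hf
  have hlog : 0 ≤ Real.log n := Real.log_natCast_nonneg n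
  have hB : 0 ≤ Real.log n * (L / N) := by positivity
  refine (abs_sum_le_sum_abs _ _).trans ?_
  have hterm : ∀ y ∈ range (m * (N + 1)),
      |(if (y / m) % f = c then lam (n - y) * η (((y / m : ℕ) : ℝ) / N) else 0) -
        (if (y / m) % f = c then
        lam (n - y) * etaR η (((n - y : ℕ) : ℝ) / ((m * N : ℕ) : ℝ)) else 0)| ≤
      (if (y / m) % f = c then Real.log n * (L / N) else 0) := by
    intro y hy
    by_cases hyc : (y / m) % f = c
    · rw [if_pos hyc, if_pos hyc, if_pos hyc]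
      rcases le_or_gt y n with hyn | hyn
      · rw [← mul_sub, abs_mul, abs_of_nonneg (show 0 ≤ lam (n - y) from
          ArithmeticFunction.vonMangoldt_nonneg)]
        refine mul_le_mul (TRed_lam_le _ _ (Nat.sub_le _ _)) ?_ (abs_nonneg _) hlog
        unfold etaR
        refine (hL _ _).trans ?_
        have h3 : (y : ℝ) = m * ((y / m : ℕ) : ℝ) + ((y % m : ℕ) : ℝ) := by
          exact_mod_cast (Nat.div_add_mod y m).symm
        have h4 : (((y / m : ℕ) : ℝ) / N) - (1 - ((n - y : ℕ) : ℝ) / ((m * N : ℕ) : ℝ)) =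
            (((n : ℝ) - m * N) - ((y % m : ℕ) : ℝ)) / (m * N) := by
          rw [Nat.cast_sub hyn, h3]
          push_cast
          field_simp
          ring
        rw [h4]
        have h5 : 0 ≤ ((n : ℝ) - m * N) := by
          have : ((m * N : ℕ) : ℝ) ≤ (n : ℝ) := by exact_mod_cast h1
          push_cast at this
          linarith
        have h6 : ((n : ℝ) - m * N) ≤ m := by
          have : (n : ℝ) < ((m * (N + 1) : ℕ) : ℝ) := by exact_mod_cast h2
          push_cast at this
          linarith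
        have h7 : (((y % m : ℕ) : ℝ)) ≤ m := by
          exact_mod_cast (Nat.mod_lt y (by omega)).le
        have h8 : (0 : ℝ) ≤ ((y % m : ℕ) : ℝ) := Nat.cast_nonneg _
        have h9 : |((n : ℝ) - m * N) - ((y % m : ℕ) : ℝ)| ≤ m := by
          rw [abs_le]
          constructor <;> linarith
        rw [abs_div, abs_of_pos (show (0 : ℝ) < m * N by positivity)]
        have h10 : |((n : ℝ) - m * N) - ((y % m : ℕ) : ℝ)| / (m * N) ≤ 1 / N := by
          rw [div_le_div_iff₀ (by positivity) hNR]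
          nlinarith
        calc L * (|((n : ℝ) - m * N) - ((y % m : ℕ) : ℝ)| / (m * N)) ≤ L * (1 / N) :=
              mul_le_mul_of_nonneg_left h10 hL0.le
          _ = L / N := by ring
      · have h3 : n - y = 0 := by omega
        rw [h3]
        have h4 : lam 0 = 0 := by simp [lam]
        rw [h4, zero_mul, zero_mul, sub_zero, abs_zero]
        exact hB
    · rw [if_neg hyc, if_neg hyc, if_neg hyc, sub_zero, abs_zero]
  refine (sum_le_sum hterm).trans ?_
  rw [TRed_blocks m (fun y => if (y / m) % f = c then Real.log n * (L / N) else 0) (N + 1)]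
  have e1 : ∀ q ∈ range (N + 1), ∑ r ∈ range m,
      (if ((m * q + r) / m) % f = c then Real.log n * (L / N) else 0) =
      if q % f = c then m * (Real.log n * (L / N)) else 0 := by
    intro q _
    have hq : ∀ r ∈ range m, (if ((m * q + r) / m) % f = c then Real.log n * (L / N) else 0) =
        if q % f = c then (Real.log n * (L / N)) else 0 := fun r hr => by
      rw [Nat.mul_add_div (by omega), Nat.div_eq_of_lt (mem_range.1 hr), add_zero]
    rw [sum_congr rfl hq, sum_const, card_range, nsmul_eq_mul]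
    split_ifs
    · rfl
    · rw [mul_zero]
  rw [sum_congr rfl e1, ← sum_filter, sum_const, nsmul_eq_mul]
  calc (((range (N + 1)).filter (fun q => q % f = c)).card : ℝ) *
        (m * (Real.log n * (L / N))) ≤ (2 * (N : ℝ) / f) * (m * (Real.log n * (L / N))) :=
        mul_le_mul_of_nonneg_right (TRed_count N f c hf hfN) (by positivity)
    _ = 2 * L * (m * Real.log n) / f := by
        field_simp
    _ ≤ 2 * L * (m * Real.log n) := by
        apply div_le_self (by positivity)
        exact_mod_cast hf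

/-- the number of integers of an interval without prime factors in `P` -/
theorem TRed_sieve (P : Finset ℕ) (hP : ∀ p ∈ P, p.Prime) : ∀ a b : ℕ, a ≤ b →
    |(((Ioc a b).filter (fun j => ∀ p ∈ P, ¬ p ∣ j)).card : ℝ) -
      ((b : ℝ) - a) * ∏ p ∈ P, (1 - (p : ℝ)⁻¹)| ≤ 2 ^ (P.card + 1) - 1 := by
  induction P using Finset.induction_on with
  | empty =>
    intro a b hab
    simp only [notMem_empty, false_imp_iff, implies_true, filter_true, Nat.card_Ioc, prod_empty,
      mul_one, card_empty]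
    rw [Nat.cast_sub hab, sub_self, abs_zero]
    norm_num
  | insert p P hp ih =>
    intro a b hab
    have hpp : p.Prime := hP p (mem_insert_self p P)
    have ih := ih (fun q hq => hP q (mem_insert_of_mem hq))
    have hpR : (0 : ℝ) < p := by exact_mod_cast hpp.pos
    have h1 : ((Ioc a b).filter (fun j => ∀ q ∈ insert p P, ¬ q ∣ j)).card +
        ((Ioc (a / p) (b / p)).filter (fun j => ∀ q ∈ P, ¬ q ∣ j)).card =
        ((Ioc a b).filter (fun j => ∀ q ∈ P, ¬ q ∣ j)).card := by
      have h2 : ((Ioc (a / p) (b / p)).filter (fun j => ∀ q ∈ P, ¬ q ∣ j)).card =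
          ((Ioc a b).filter (fun j => (∀ q ∈ P, ¬ q ∣ j) ∧ p ∣ j)).card := by
        apply card_bij (fun i _ => p * i)
        · intro i hi
          rw [mem_filter, mem_Ioc] at hi ⊢
          obtain ⟨⟨h3, h4⟩, h5⟩ := hi
          refine ⟨⟨?_, ?_⟩, ?_, dvd_mul_right p i⟩
          · rw [Nat.div_lt_iff_lt_mul hpp.pos] at h3
            rwa [mul_comm]
          · rw [Nat.le_div_iff_mul_le hpp.pos] at h4
            rwa [mul_comm]
          · intro q hq hd
            rcases (Nat.Prime.dvd_mul (hP q (mem_insert_of_mem hq))).1 hd with h6 | h6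
            · have h7 := (Nat.prime_dvd_prime_iff_eq (hP q (mem_insert_of_mem hq)) hpp).1 h6
              rw [h7] at hq
              exact hp hq
            · exact h5 q hq h6
        · intro i _ j _ hij
          exact Nat.eq_of_mul_eq_mul_left hpp.pos hij
        · intro j hj
          rw [mem_filter, mem_Ioc] at hj
          obtain ⟨⟨h3, h4⟩, h5, i, rfl⟩ := hj
          refine ⟨i, ?_, rfl⟩
          rw [mem_filter, mem_Ioc]
          refine ⟨⟨?_, ?_⟩, fun q hq hd => h5 q hq (hd.mul_left p)⟩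
          · rw [Nat.div_lt_iff_lt_mul hpp.pos, mul_comm]
            exact h3
          · rw [Nat.le_div_iff_mul_le hpp.pos, mul_comm]
            exact h4
      rw [h2]
      have h3 : (Ioc a b).filter (fun j => ∀ q ∈ insert p P, ¬ q ∣ j) =
          (Ioc a b).filter (fun j => (∀ q ∈ P, ¬ q ∣ j) ∧ ¬ p ∣ j) := by
        apply filter_congr
        intro j _
        rw [forall_mem_insert]
        tauto
      rw [h3, ← filter_filter, ← filter_filter, add_comm]
      exact card_filter_add_card_filter_not _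
    have h1R : (((Ioc a b).filter (fun j => ∀ q ∈ insert p P, ¬ q ∣ j)).card : ℝ) =
        (((Ioc a b).filter (fun j => ∀ q ∈ P, ¬ q ∣ j)).card : ℝ) -
        (((Ioc (a / p) (b / p)).filter (fun j => ∀ q ∈ P, ¬ q ∣ j)).card : ℝ) := by
      have : (((Ioc a b).filter (fun j => ∀ q ∈ insert p P, ¬ q ∣ j)).card : ℝ) +
        (((Ioc (a / p) (b / p)).filter (fun j => ∀ q ∈ P, ¬ q ∣ j)).card : ℝ) =
        (((Ioc a b).filter (fun j => ∀ q ∈ P, ¬ q ∣ j)).card : ℝ) := by exact_mod_cast h1
      linarith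
    have i1 := ih a b hab
    have i2 := ih (a / p) (b / p) (Nat.div_le_div_right hab)
    have hpi0 : 0 ≤ ∏ p ∈ P, (1 - (p : ℝ)⁻¹) := prod_nonneg fun q hq => by
      have h3 : (1 : ℝ) ≤ q := by exact_mod_cast (hP q (mem_insert_of_mem hq)).one_lt.le
      have := inv_le_one_of_one_le₀ h3
      linarith
    have hpi1 : ∏ p ∈ P, (1 - (p : ℝ)⁻¹) ≤ 1 := prod_le_one
      (fun q hq => by
        have h3 : (1 : ℝ) ≤ q := by exact_mod_cast (hP q (mem_insert_of_mem hq)).one_lt.le
        have := inv_le_one_of_one_le₀ h3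
        linarith)
      (fun q hq => by
        have : (0 : ℝ) ≤ (q : ℝ)⁻¹ := by positivity
        linarith)
    have hfl : |(((b / p : ℕ) : ℝ) - ((a / p : ℕ) : ℝ)) - ((b : ℝ) - a) * (p : ℝ)⁻¹| ≤ 1 := by
      have hb1 := @Nat.cast_div_le ℝ _ _ _ b p
      have ha1 := @Nat.cast_div_le ℝ _ _ _ a p
      have hb2 : (b : ℝ) / p < ((b / p : ℕ) : ℝ) + 1 := by
        rw [div_lt_iff₀ hpR]
        have := Nat.lt_mul_div_succ b hpp.pos
        have h3 : (b : ℝ) < (p : ℝ) * (((b / p : ℕ) : ℝ) + 1) := by exact_mod_cast this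
        linarith
      have ha2 : (a : ℝ) / p < ((a / p : ℕ) : ℝ) + 1 := by
        rw [div_lt_iff₀ hpR]
        have := Nat.lt_mul_div_succ a hpp.pos
        have h3 : (a : ℝ) < (p : ℝ) * (((a / p : ℕ) : ℝ) + 1) := by exact_mod_cast this
        linarith
      have h3 : ((b : ℝ) - a) * (p : ℝ)⁻¹ = (b : ℝ) / p - (a : ℝ) / p := by ring
      rw [h3, abs_le]
      constructor <;> linarith
    rw [prod_insert hp, card_insert_of_notMem hp, h1R]
    have hsplit : (((Ioc a b).filter (fun j => ∀ q ∈ P, ¬ q ∣ j)).card : ℝ) -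
        (((Ioc (a / p) (b / p)).filter (fun j => ∀ q ∈ P, ¬ q ∣ j)).card : ℝ) -
        ((b : ℝ) - a) * ((1 - (p : ℝ)⁻¹) * ∏ p ∈ P, (1 - (p : ℝ)⁻¹)) =
        ((((Ioc a b).filter (fun j => ∀ q ∈ P, ¬ q ∣ j)).card : ℝ) -
          ((b : ℝ) - a) * ∏ p ∈ P, (1 - (p : ℝ)⁻¹)) -
        ((((Ioc (a / p) (b / p)).filter (fun j => ∀ q ∈ P, ¬ q ∣ j)).card : ℝ) -
          (((b / p : ℕ) : ℝ) - ((a / p : ℕ) : ℝ)) * ∏ p ∈ P, (1 - (p : ℝ)⁻¹)) -
        ((((b / p : ℕ) : ℝ) - ((a / p : ℕ) : ℝ)) - ((b : ℝ) - a) * (p : ℝ)⁻¹) *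
          ∏ p ∈ P, (1 - (p : ℝ)⁻¹) := by ring
    rw [hsplit]
    have i3 : |((((b / p : ℕ) : ℝ) - ((a / p : ℕ) : ℝ)) - ((b : ℝ) - a) * (p : ℝ)⁻¹) *
          ∏ p ∈ P, (1 - (p : ℝ)⁻¹)| ≤ 1 := by
      rw [abs_mul, abs_of_nonneg hpi0]
      exact mul_le_one₀ hfl hpi0 hpi1
    rw [abs_le] at i1 i2 i3 ⊢
    have h2 : (2 : ℝ) ^ (P.card + 1 + 1) = 2 * 2 ^ (P.card + 1) := by ring
    rw [h2]
    constructor <;> linarith [i1.1, i1.2, i2.1, i2.2, i3.1, i3.2]

/-- the same for the integers coprime to `Q` -/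
theorem TRed_cop (Q u L : ℕ) (hQ : 1 ≤ Q) :
    |(((Ioc u (u + L)).filter (fun j => j.Coprime Q)).card : ℝ) -
      (L : ℝ) * ((Q.totient : ℝ) / Q)| ≤ 2 * 2 ^ Q.primeFactors.card := by
  have h1 := TRed_sieve Q.primeFactors (fun p hp => Nat.prime_of_mem_primeFactors hp) u (u + L)
    (by omega)
  have h2 : (Ioc u (u + L)).filter (fun j => j.Coprime Q) =
      (Ioc u (u + L)).filter (fun j => ∀ p ∈ Q.primeFactors, ¬ p ∣ j) := by
    apply filter_congr
    intro j _
    constructor
    · intro h p hp hd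
      exact Nat.Prime.not_coprime_iff_dvd.2 ⟨p, Nat.prime_of_mem_primeFactors hp, hd,
        Nat.dvd_of_mem_primeFactors hp⟩ h
    · intro h
      by_contra hcon
      obtain ⟨p, hp, h3, h4⟩ := Nat.Prime.not_coprime_iff_dvd.1 hcon
      exact h p (Nat.mem_primeFactors.2 ⟨hp, h4, by omega⟩) h3
  have hQR : (0 : ℝ) < Q := by exact_mod_cast hQ
  have h3 : (Q.totient : ℝ) / Q = ∏ p ∈ Q.primeFactors, (1 - (p : ℝ)⁻¹) := by
    have h4 := Nat.totient_eq_mul_prod_factors Q
    have h5 : (Q.totient : ℝ) = Q * ∏ p ∈ Q.primeFactors, (1 - (p : ℝ)⁻¹) := by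
      have h6 := congrArg (fun x : ℚ => (x : ℝ)) h4
      push_cast at h6
      exact h6
    rw [h5]
    field_simp
  rw [h2, h3]
  have h4 : (((u + L : ℕ) : ℝ) - u) = L := by
    push_cast
    ring
  rw [h4] at h1
  refine h1.trans ?_
  have h5 : (2 : ℝ) ^ (Q.primeFactors.card + 1) = 2 * 2 ^ Q.primeFactors.card := by ring
  linarith

/-- passing to primitive characters -/
theorem TRed_prim_sum (G : ∀ r : ℕ, DirichletCharacter ℂ r → ℝ) (hG : ∀ r χ, 0 ≤ G r χ)
    (q : ℕ) (hq : 1 ≤ q) [NeZero q] [DecidableEq (DirichletCharacter ℂ q)] :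
    ∑ χ ∈ (univ : Finset (DirichletCharacter ℂ q)).erase 1,
      G χ.conductor χ.primitiveCharacter ≤
      ∑ r ∈ q.divisors.erase 1, ∑ χ ∈ prim r, G r χ := by
  classical
  set f : DirichletCharacter ℂ q → (Σ r : ℕ, DirichletCharacter ℂ r) :=
    fun χ => ⟨χ.conductor, χ.primitiveCharacter⟩ with hf
  have hinj : Function.Injective f := by
    have hl : Function.LeftInverse
        (fun x : (Σ r : ℕ, DirichletCharacter ℂ r) =>
          if h : x.1 ∣ q then DirichletCharacter.changeLevel h x.2 else 1) f := by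
      intro χ
      have h0 : (f χ).1 ∣ q := χ.conductor_dvd_level
      simp only
      rw [dif_pos h0]
      exact χ.changeLevel_primitiveCharacter
    exact hl.injective
  have e1 : ∑ r ∈ q.divisors.erase 1, ∑ χ ∈ prim r, G r χ =
      ∑ x ∈ (q.divisors.erase 1).sigma prim, G x.1 x.2 := by
    rw [sum_sigma]
  rw [e1]
  have e2 : ∑ χ ∈ (univ : Finset (DirichletCharacter ℂ q)).erase 1,
      G χ.conductor χ.primitiveCharacter =
      ∑ x ∈ ((univ : Finset (DirichletCharacter ℂ q)).erase 1).image f,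
        G x.1 x.2 := by
    rw [sum_image fun x _ y _ h => hinj h]
  rw [e2]
  refine sum_le_sum_of_subset_of_nonneg ?_ fun _ _ _ => hG _ _
  intro x hx
  rw [mem_image] at hx
  obtain ⟨χ, hχ, rfl⟩ := hx
  rw [mem_erase] at hχ
  rw [mem_sigma, mem_erase, Nat.mem_divisors, mem_prim]
  refine ⟨⟨fun h => hχ.1 (DirichletCharacter.eq_one_iff_conductor_eq_one.mpr h),
    χ.conductor_dvd_level, by omega⟩, χ.primitiveCharacter_isPrimitive, fun h => hχ.1 ?_⟩
  rw [← χ.changeLevel_primitiveCharacter]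
  have h' : χ.primitiveCharacter = 1 := h
  rw [h', DirichletCharacter.changeLevel_one]

/-- the sum over the residue classes -/
theorem TRed_K (Q u m : ℕ) (χ : DirichletCharacter ℂ Q) :
    ‖∑ j ∈ (Ioc u (u + m)).filter (fun j => j.Coprime Q), χ ((j : ZMod Q)⁻¹)‖ =
      ‖JJ Q u m χ.primitiveCharacter‖ := by
  have h1 : ∀ j ∈ (Ioc u (u + m)).filter (fun j => j.Coprime Q),
      χ ((j : ZMod Q)⁻¹) = (starRingEnd ℂ) (χ.primitiveCharacter (j : ZMod χ.conductor)) := by
    intro j hj
    rw [mem_filter] at hj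
    have hu : IsUnit (j : ZMod Q) := (ZMod.isUnit_iff_coprime j Q).mpr hj.2
    have h2 := χ.primitiveCharacter_apply_of_isCoprime (a := (j : ℤ))
      (by exact_mod_cast Nat.isCoprime_iff_coprime.mpr hj.2)
    have h3 : χ.primitiveCharacter (j : ZMod χ.conductor) = χ (j : ZMod Q) := by
      simpa using h2
    rw [h3]
    have h4 : ‖χ (j : ZMod Q)‖ = 1 := by
      obtain ⟨v, hv⟩ := hu
      rw [← hv]
      exact χ.unit_norm_eq_one v
    rw [← Complex.inv_eq_conj h4]
    apply eq_inv_of_mul_eq_one_left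
    rw [← map_mul, ZMod.inv_mul_of_unit _ hu, map_one]
  rw [sum_congr rfl h1, ← map_sum, RCLike.norm_conj]
  rfl

theorem TRed_JJ_le (Q u m : ℕ) {r : ℕ} (χ : DirichletCharacter ℂ r) : ‖JJ Q u m χ‖ ≤ m := by
  unfold JJ
  refine (norm_sum_le _ _).trans ?_
  calc ∑ j ∈ (Ioc u (u + m)).filter (fun j => j.Coprime Q), ‖χ (j : ZMod r)‖
      ≤ ∑ j ∈ (Ioc u (u + m)).filter (fun j => j.Coprime Q), (1 : ℝ) :=
        sum_le_sum fun j _ => χ.norm_le_one _
    _ = (((Ioc u (u + m)).filter (fun j => j.Coprime Q)).card : ℝ) := by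
        rw [sum_const, nsmul_eq_mul, mul_one]
    _ ≤ m := by
        have h1 := card_filter_le (Ioc u (u + m)) (fun j => j.Coprime Q)
        rw [Nat.card_Ioc] at h1
        exact_mod_cast (by omega : ((Ioc u (u + m)).filter (fun j => j.Coprime Q)).card ≤ m)

theorem TRed_prim_near (η : ℝ → ℝ) (hη : IsWt η) (N q : ℕ) (hN : 2 ≤ N) (hq : 1 ≤ q) (hqN : q ≤ N)
    (χ : DirichletCharacter ℂ q) :
    ‖psiChi η N χ - psiChi η N χ.primitiveCharacter‖ ≤ 2 * Real.log N ^ 2 := by
  refine Reduce.twist η hη N q hN hq hqN (fun n => χ (n : ZMod q))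
    (fun n => χ.primitiveCharacter (n : ZMod χ.conductor)) ?_ ?_ ?_
  · intro n hn
    have := χ.primitiveCharacter_apply_of_isCoprime (a := (n : ℤ))
      (by exact_mod_cast Nat.isCoprime_iff_coprime.mpr hn)
    simpa using this.symm
  · intro n hn
    exact MulChar.map_nonunit χ fun h => hn ((ZMod.isUnit_iff_coprime n q).mp h)
  · intro n
    exact χ.primitiveCharacter.norm_le_one _

theorem TRed_one_near (η : ℝ → ℝ) (hη : IsWt η) (N q : ℕ) (hN : 2 ≤ N) (hq : 1 ≤ q)
    (hqN : q ≤ N) :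
    ‖psiChi η N (1 : DirichletCharacter ℂ q) - ((psi0 η N : ℝ) : ℂ)‖ ≤ 2 * Real.log N ^ 2 := by
  have h := Reduce.twist η hη N q hN hq hqN (fun n => (1 : DirichletCharacter ℂ q) (n : ZMod q))
    (fun _ => 1) ?_ ?_ ?_
  · have e : ((psi0 η N : ℝ) : ℂ) = ∑ n ∈ range (N + 1),
        (((ArithmeticFunction.vonMangoldt n : ℝ) : ℂ) * 1) * ((η ((n : ℝ) / N) : ℝ) : ℂ) := by
      rw [psi0, Complex.ofReal_sum]
      refine sum_congr rfl fun n _ => ?_
      push_cast
      ring
    rw [e]
    exact h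
  · intro n hn
    exact MulChar.one_apply ((ZMod.isUnit_iff_coprime n q).mpr hn)
  · intro n hn
    exact MulChar.map_nonunit _ fun h => hn ((ZMod.isUnit_iff_coprime n q).mp h)
  · intro n
    simp

theorem TRed_split (η : ℝ → ℝ) (N q u m : ℕ) (hq : 1 ≤ q) [NeZero q]
    [DecidableEq (DirichletCharacter ℂ q)] :
    (q.totient : ℂ) * ((∑ j ∈ (Ioc u (u + m)).filter (fun j => j.Coprime q), psiAP η N q j -
        (((Ioc u (u + m)).filter (fun j => j.Coprime q)).card : ℝ) *
          (psi0 η N / (q.totient : ℝ)) : ℝ) : ℂ) =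
      (((Ioc u (u + m)).filter (fun j => j.Coprime q)).card : ℂ) *
        (psiChi η N (1 : DirichletCharacter ℂ q) - ((psi0 η N : ℝ) : ℂ)) +
        ∑ χ ∈ (univ : Finset (DirichletCharacter ℂ q)).erase 1,
          (∑ j ∈ (Ioc u (u + m)).filter (fun j => j.Coprime q), χ ((j : ZMod q)⁻¹)) *
            psiChi η N χ := by
  have hφ : 0 < (q.totient : ℝ) := by
    exact_mod_cast Nat.totient_pos.mpr (by omega)
  have hφc : (q.totient : ℂ) ≠ 0 := by
    exact_mod_cast hφ.ne'
  have h1 : (∑ j ∈ (Ioc u (u + m)).filter (fun j => j.Coprime q),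
      (1 : DirichletCharacter ℂ q) ((j : ZMod q)⁻¹)) =
      (((Ioc u (u + m)).filter (fun j => j.Coprime q)).card : ℂ) := by
    have h3 : ∀ j ∈ (Ioc u (u + m)).filter (fun j => j.Coprime q),
        (1 : DirichletCharacter ℂ q) ((j : ZMod q)⁻¹) = 1 := by
      intro j hj
      rw [mem_filter] at hj
      have hu : IsUnit (j : ZMod q) := (ZMod.isUnit_iff_coprime j q).mpr hj.2
      refine MulChar.one_apply ?_
      exact IsUnit.of_mul_eq_one _ (ZMod.inv_mul_of_unit _ hu)
    rw [sum_congr rfl h3, sum_const, nsmul_eq_mul, mul_one]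
  have h2 : ∑ χ : DirichletCharacter ℂ q,
      (∑ j ∈ (Ioc u (u + m)).filter (fun j => j.Coprime q), χ ((j : ZMod q)⁻¹)) *
        psiChi η N χ =
      (((Ioc u (u + m)).filter (fun j => j.Coprime q)).card : ℂ) *
        psiChi η N (1 : DirichletCharacter ℂ q) +
        ∑ χ ∈ (univ : Finset (DirichletCharacter ℂ q)).erase 1,
          (∑ j ∈ (Ioc u (u + m)).filter (fun j => j.Coprime q), χ ((j : ZMod q)⁻¹)) *
            psiChi η N χ := by
    rw [← add_sum_erase univ _ (mem_univ (1 : DirichletCharacter ℂ q)), h1]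
  have h3 : (q.totient : ℂ) * ((∑ j ∈ (Ioc u (u + m)).filter (fun j => j.Coprime q),
      psiAP η N q j : ℝ) : ℂ) = ∑ χ : DirichletCharacter ℂ q,
      (∑ j ∈ (Ioc u (u + m)).filter (fun j => j.Coprime q), χ ((j : ZMod q)⁻¹)) *
        psiChi η N χ := by
    rw [Complex.ofReal_sum, mul_sum]
    have h4 : ∀ j ∈ (Ioc u (u + m)).filter (fun j => j.Coprime q),
        (q.totient : ℂ) * ((psiAP η N q j : ℝ) : ℂ) =
        ∑ χ : DirichletCharacter ℂ q, χ ((j : ZMod q)⁻¹) * psiChi η N χ := by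
      intro j hj
      rw [mem_filter] at hj
      exact Reduce.orth η N q j hq hj.2
    rw [sum_congr rfl h4, sum_comm]
    apply sum_congr rfl
    intro χ _
    rw [sum_mul]
  rw [Complex.ofReal_sub, mul_sub, h3, h2]
  push_cast
  field_simp
  ring

theorem TRed_chars (η : ℝ → ℝ) (hη : IsWt η) (N q u m : ℕ) (hN : 2 ≤ N) (hq : 1 ≤ q)
    (hqN : q ≤ N) :
    |∑ j ∈ (Ioc u (u + m)).filter (fun j => j.Coprime q), psiAP η N q j -
        (((Ioc u (u + m)).filter (fun j => j.Coprime q)).card : ℝ) *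
          (psi0 η N / (q.totient : ℝ))| ≤ 2 * m * Real.log N ^ 2 +
      1 / (q.totient : ℝ) * ∑ r ∈ q.divisors.erase 1, ∑ χ ∈ prim r,
        ‖JJ q u m χ‖ * ‖psiChi η N χ‖ := by
  classical
  have : NeZero q := ⟨by omega⟩
  have hφ : 0 < (q.totient : ℝ) := by
    exact_mod_cast Nat.totient_pos.mpr (by omega)
  set L : ℝ := Real.log N ^ 2 with hL
  have hL0 : 0 ≤ L := sq_nonneg _
  have hJm : (((Ioc u (u + m)).filter (fun j => j.Coprime q)).card : ℝ) ≤ m := by
    have h1 := card_filter_le (Ioc u (u + m)) (fun j => j.Coprime q)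
    rw [Nat.card_Ioc] at h1
    exact_mod_cast (by omega : ((Ioc u (u + m)).filter (fun j => j.Coprime q)).card ≤ m)
  have hsplit := TRed_split η N q u m hq
  have e2 : ∀ χ : DirichletCharacter ℂ q,
      ‖(∑ j ∈ (Ioc u (u + m)).filter (fun j => j.Coprime q), χ ((j : ZMod q)⁻¹)) *
        psiChi η N χ‖ ≤
      m * (2 * L) + ‖JJ q u m χ.primitiveCharacter‖ * ‖psiChi η N χ.primitiveCharacter‖ := by
    intro χ
    rw [norm_mul, TRed_K]
    have h3 := TRed_JJ_le q u m χ.primitiveCharacter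
    have h4 := TRed_prim_near η hη N q hN hq hqN χ
    have h5 := norm_sub_norm_le (psiChi η N χ) (psiChi η N χ.primitiveCharacter)
    have h6 : ‖psiChi η N χ‖ ≤ 2 * L + ‖psiChi η N χ.primitiveCharacter‖ := by linarith
    calc ‖JJ q u m χ.primitiveCharacter‖ * ‖psiChi η N χ‖ ≤
          ‖JJ q u m χ.primitiveCharacter‖ * (2 * L + ‖psiChi η N χ.primitiveCharacter‖) :=
          mul_le_mul_of_nonneg_left h6 (norm_nonneg _)
      _ = ‖JJ q u m χ.primitiveCharacter‖ * (2 * L) +
          ‖JJ q u m χ.primitiveCharacter‖ * ‖psiChi η N χ.primitiveCharacter‖ := by ring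
      _ ≤ _ := by
          have := mul_le_mul_of_nonneg_right h3 (show 0 ≤ 2 * L by linarith)
          linarith
  have hc : ((univ : Finset (DirichletCharacter ℂ q)).erase 1).card + 1 = q.totient := by
    rw [card_erase_of_mem (mem_univ _), card_univ, ← Nat.card_eq_fintype_card,
      DirichletCharacter.card_eq_totient_of_hasEnoughRootsOfUnity ℂ q]
    have : 0 < q.totient := Nat.totient_pos.mpr (by omega)
    omega
  have hc' : (((univ : Finset (DirichletCharacter ℂ q)).erase 1).card : ℝ) + 1 = q.totient := by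
    exact_mod_cast hc
  have hone := TRed_one_near η hη N q hN hq hqN
  have hone' : ‖(((Ioc u (u + m)).filter (fun j => j.Coprime q)).card : ℂ) *
        (psiChi η N (1 : DirichletCharacter ℂ q) - ((psi0 η N : ℝ) : ℂ))‖ ≤ m * (2 * L) := by
    rw [norm_mul, Complex.norm_natCast]
    exact mul_le_mul hJm hone (norm_nonneg _) (Nat.cast_nonneg _)
  have hnorm : (q.totient : ℝ) *
      |∑ j ∈ (Ioc u (u + m)).filter (fun j => j.Coprime q), psiAP η N q j -
        (((Ioc u (u + m)).filter (fun j => j.Coprime q)).card : ℝ) *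
          (psi0 η N / (q.totient : ℝ))| ≤
      2 * m * L * q.totient + ∑ r ∈ q.divisors.erase 1, ∑ χ ∈ prim r,
        ‖JJ q u m χ‖ * ‖psiChi η N χ‖ := by
    have e1 : (q.totient : ℝ) *
      |∑ j ∈ (Ioc u (u + m)).filter (fun j => j.Coprime q), psiAP η N q j -
        (((Ioc u (u + m)).filter (fun j => j.Coprime q)).card : ℝ) *
          (psi0 η N / (q.totient : ℝ))| =
        ‖(q.totient : ℂ) * ((∑ j ∈ (Ioc u (u + m)).filter (fun j => j.Coprime q),
          psiAP η N q j - (((Ioc u (u + m)).filter (fun j => j.Coprime q)).card : ℝ) *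
          (psi0 η N / (q.totient : ℝ)) : ℝ) : ℂ)‖ := by
      rw [norm_mul, Complex.norm_real, Real.norm_eq_abs, Complex.norm_natCast]
    rw [e1, hsplit]
    calc _ ≤ m * (2 * L) + ∑ χ ∈ (univ : Finset (DirichletCharacter ℂ q)).erase 1,
          (m * (2 * L) +
            ‖JJ q u m χ.primitiveCharacter‖ * ‖psiChi η N χ.primitiveCharacter‖) :=
        (norm_add_le _ _).trans (add_le_add hone' ((norm_sum_le _ _).trans
          (sum_le_sum fun χ _ => e2 χ)))
      _ = 2 * m * L * q.totient + ∑ χ ∈ (univ : Finset (DirichletCharacter ℂ q)).erase 1,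
          ‖JJ q u m χ.primitiveCharacter‖ * ‖psiChi η N χ.primitiveCharacter‖ := by
        rw [sum_add_distrib, sum_const, nsmul_eq_mul, ← hc']
        ring
      _ ≤ _ := by
        have := TRed_prim_sum (fun r χ => ‖JJ q u m χ‖ * ‖psiChi η N χ‖)
          (fun r χ => mul_nonneg (norm_nonneg _) (norm_nonneg _)) q hq
        linarith
  rw [← mul_le_mul_iff_right₀ hφ]
  refine hnorm.trans (le_of_eq ?_)
  field_simp

/-- the classes which are not coprime to the modulus -/
theorem TRed_non (W : ℝ → ℝ) (hW : IsWt W) (X Q u m : ℕ) (hX : 2 ≤ X) (hQ : 1 ≤ Q)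
    (hQX : Q ≤ X) :
    |∑ j ∈ (Ioc u (u + m)).filter (fun j => ¬ j.Coprime Q), psiAP W X Q j| ≤
      m * (2 * Real.log X ^ 2) := by
  have h1 : ∀ j ∈ (Ioc u (u + m)).filter (fun j => ¬ j.Coprime Q),
      |psiAP W X Q j| ≤ 2 * Real.log X ^ 2 := by
    intro j hj
    rw [mem_filter] at hj
    have h0 : 0 ≤ psiAP W X Q j :=
      sum_nonneg fun x _ => mul_nonneg ArithmeticFunction.vonMangoldt_nonneg (hW.nonneg _)
    rw [abs_of_nonneg h0]
    refine le_trans ?_ (noncoprime_part X Q hX hQ hQX)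
    unfold psiAP
    have h2 : (range (X + 1)).filter (fun x => x % Q = j % Q) ⊆
        (range (X + 1)).filter (fun x => ¬ x.Coprime Q) := by
      intro x hx
      rw [mem_filter] at hx ⊢
      refine ⟨hx.1, fun h3 => hj.2 ?_⟩
      have h4 : x ≡ j [MOD Q] := hx.2
      have h5 := h4.gcd_eq
      unfold Nat.Coprime at h3 ⊢
      rw [← h5]
      exact h3
    refine (sum_le_sum_of_subset_of_nonneg h2 fun x _ _ =>
      mul_nonneg ArithmeticFunction.vonMangoldt_nonneg (hW.nonneg _)).trans ?_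
    exact sum_le_sum fun x _ =>
      mul_le_of_le_one_right ArithmeticFunction.vonMangoldt_nonneg (hW.le_one _)
  refine (abs_sum_le_sum_abs _ _).trans ((sum_le_sum h1).trans ?_)
  rw [sum_const, nsmul_eq_mul]
  apply mul_le_mul_of_nonneg_right _ (by positivity)
  have h2 := card_filter_le (Ioc u (u + m)) (fun j => ¬ j.Coprime Q)
  rw [Nat.card_Ioc] at h2
  exact_mod_cast (by omega : ((Ioc u (u + m)).filter (fun j => ¬ j.Coprime Q)).card ≤ m)

/-- the main term -/
theorem TRed_main (W : ℝ → ℝ) (hW : IsWt W) (N m f u : ℕ) (hm : 1 ≤ m) (hf : 1 ≤ f) :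
    |(((Ioc u (u + m)).filter (fun j => j.Coprime (m * f))).card : ℝ) *
      (psi0 W (m * N) / ((m * f).totient : ℝ)) - psi0 W (m * N) / f| ≤
      12 * (m * N * 2 ^ (m * f).primeFactors.card / ((m * f).totient : ℝ)) := by
  have hQ : 1 ≤ m * f := Nat.mul_pos hm hf
  have hφ : 0 < ((m * f).totient : ℝ) := by
    exact_mod_cast Nat.totient_pos.mpr (by omega)
  have hmR : (0 : ℝ) < m := by exact_mod_cast hm
  have hfR : (0 : ℝ) < f := by exact_mod_cast hf
  have h1 := TRed_cop (m * f) u m hQ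
  have h0 : 0 ≤ psi0 W (m * N) :=
    sum_nonneg fun x _ => mul_nonneg ArithmeticFunction.vonMangoldt_nonneg (hW.nonneg _)
  have h2 := psi0_upper W hW (m * N)
  have h3 : (m : ℝ) * (((m * f).totient : ℝ) / ((m * f : ℕ) : ℝ)) = ((m * f).totient : ℝ) / f := by
    push_cast
    field_simp
  rw [h3] at h1
  have h4 : (((Ioc u (u + m)).filter (fun j => j.Coprime (m * f))).card : ℝ) *
      (psi0 W (m * N) / ((m * f).totient : ℝ)) - psi0 W (m * N) / f =
      (psi0 W (m * N) / ((m * f).totient : ℝ)) *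
      ((((Ioc u (u + m)).filter (fun j => j.Coprime (m * f))).card : ℝ) -
        ((m * f).totient : ℝ) / f) := by
    field_simp
  rw [h4, abs_mul, abs_of_nonneg (div_nonneg h0 hφ.le)]
  calc psi0 W (m * N) / ((m * f).totient : ℝ) *
      |(((Ioc u (u + m)).filter (fun j => j.Coprime (m * f))).card : ℝ) -
        ((m * f).totient : ℝ) / f| ≤
      (6 * ((m * N : ℕ) : ℝ)) / ((m * f).totient : ℝ) *
        (2 * 2 ^ (m * f).primeFactors.card) := by
        apply mul_le_mul _ h1 (abs_nonneg _) (by positivity)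
        exact div_le_div_of_nonneg_right h2 hφ.le
    _ = _ := by
        push_cast
        ring

/-- keep this signature -/
theorem thm_TRed : St_TRed := by
  intro η hη
  obtain ⟨L, hL0, hL⟩ := wt_lipschitz η hη
  refine ⟨2 * L + 16, by positivity, ?_⟩
  intro N m n f c hN hT hf hfN hc
  obtain ⟨hm, h1, h2⟩ := hT
  have hW := abv_wt η hη
  have hX : 2 ≤ m * N := by nlinarith
  have hQ : 1 ≤ m * f := Nat.mul_pos hm hf
  have hQX : m * f ≤ m * N := Nat.mul_le_mul_left m hfN
  have hmR : (1 : ℝ) ≤ m := by exact_mod_cast hm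
  have hφ : 0 < ((m * f).totient : ℝ) := by
    exact_mod_cast Nat.totient_pos.mpr (by omega)
  have a1 := TRed_change η hη L hL0 hL N m n f c (by omega) hm hf hc hfN h1 h2
  have a2 := TRed_chars (etaR η) hW (m * N) (m * f) (n - m * c - m) m hX hQ hQX
  have a3 := TRed_non (etaR η) hW (m * N) (m * f) (n - m * c - m) m hX hQ hQX
  have a4 := TRed_main (etaR η) hW N m f (n - m * c - m) hm hf
  have a5 := sum_filter_add_sum_filter_not (Ioc (n - m * c - m) (n - m * c - m + m))
    (fun j => j.Coprime (m * f)) (fun j => psiAP (etaR η) (m * N) (m * f) j)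
  have b0 : 0 ≤ Real.log n := Real.log_natCast_nonneg n
  have b1 : Real.log ((m * N : ℕ) : ℝ) ≤ Real.log n :=
    Real.log_le_log (by exact_mod_cast (by omega : 0 < m * N)) (by exact_mod_cast h1)
  have b2 : 0 ≤ Real.log ((m * N : ℕ) : ℝ) := Real.log_natCast_nonneg _
  have b3 : Real.log ((m * N : ℕ) : ℝ) ^ 2 ≤ (1 + Real.log n) ^ 2 :=
    pow_le_pow_left₀ b2 (by linarith) 2
  have b4 : Real.log n ≤ (1 + Real.log n) ^ 2 := by nlinarith
  have c1 : 2 * L * (m * Real.log n) ≤ 2 * L * (m * (1 + Real.log n) ^ 2) := by gcongr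
  have c2 : 2 * (m : ℝ) * Real.log ((m * N : ℕ) : ℝ) ^ 2 ≤ 2 * m * (1 + Real.log n) ^ 2 := by
    gcongr
  have c3 : (m : ℝ) * (2 * Real.log ((m * N : ℕ) : ℝ) ^ 2) ≤ m * (2 * (1 + Real.log n) ^ 2) := by
    gcongr
  have c4 : 0 ≤ (m : ℝ) * (1 + Real.log n) ^ 2 := by positivity
  have c5 : 0 ≤ m * N * 2 ^ (m * f).primeFactors.card / ((m * f).totient : ℝ) := by positivity
  have c6 : 0 ≤ L * (m * N * 2 ^ (m * f).primeFactors.card / ((m * f).totient : ℝ)) := by
    positivity
  rw [abs_le] at a1 a2 a3 a4 ⊢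
  constructor
  · linarith [a1.1, a2.1, a3.1, a4.1]
  · linarith [a1.2, a2.2, a3.2, a4.2]

end Pool.Agent.CU
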