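import Mathlib
import Pool.Agent.CU.Stmts
import Pool.Agent.GBQ.Div

set_option autoImplicit false

/-!
# CU / TSB

The switched sum over the pairs `(q, r)`: for every `r` with `(n - r, m) = 1` the upper bound sieve
with the weights of `St_LGU` for the density `gBT`, summation over `r` by `St_AvgR`.
-/

namespace Pool.Agent.CU

open Finset Filter Pool.Agent.MT Pool.Agent.CH

private lemma tsb_int (η : ℝ → ℝ) (hη : IsWt η) : 1 / 2 ≤ ∫ t in (0 : ℝ)..1, η t := by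
  have hc : Continuous η := hη.smooth.continuous
  have h1 : ∫ t in (0 : ℝ)..1, η t = (∫ t in (0 : ℝ)..(1 / 4), η t) +
      (∫ t in (1 / 4 : ℝ)..(3 / 4), η t) + ∫ t in (3 / 4 : ℝ)..1, η t := by
    rw [intervalIntegral.integral_add_adjacent_intervals (hc.intervalIntegrable _ _)
      (hc.intervalIntegrable _ _), intervalIntegral.integral_add_adjacent_intervals
      (hc.intervalIntegrable _ _) (hc.intervalIntegrable _ _)]
  have h2 : 0 ≤ ∫ t in (0 : ℝ)..(1 / 4), η t :=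
    intervalIntegral.integral_nonneg (by norm_num) (fun x _ => hη.nonneg x)
  have h3 : 0 ≤ ∫ t in (3 / 4 : ℝ)..1, η t :=
    intervalIntegral.integral_nonneg (by norm_num) (fun x _ => hη.nonneg x)
  have h4 : ∫ t in (1 / 4 : ℝ)..(3 / 4), η t = 1 / 2 := by
    have : ∫ t in (1 / 4 : ℝ)..(3 / 4), η t = ∫ t in (1 / 4 : ℝ)..(3 / 4), (1 : ℝ) := by
      apply intervalIntegral.integral_congr
      intro x hx
      rw [Set.uIcc_of_le (by norm_num)] at hx
      exact hη.one x hx.1 hx.2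
    rw [this, intervalIntegral.integral_const]
    norm_num
  linarith

private lemma tsb_tot (d : ℕ) (hd : Squarefree d) :
    (d.totient : ℝ) = ∏ l ∈ d.primeFactors, ((l : ℝ) - 1) := by
  have h1 := Nat.totient_mul_prod_primeFactors d
  have h2 := Nat.prod_primeFactors_of_squarefree hd
  rw [h2] at h1
  have hd0 : 0 < d := Nat.pos_of_ne_zero hd.ne_zero
  have h3 : d.totient = ∏ p ∈ d.primeFactors, (p - 1) := by
    apply Nat.eq_of_mul_eq_mul_right hd0
    rw [h1, mul_comm]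
  rw [h3]
  push_cast
  apply Finset.prod_congr rfl
  intro p hp
  have := (Nat.prime_of_mem_primeFactors hp).one_lt
  rw [Nat.cast_sub this.le, Nat.cast_one]

private lemma tsb_VV_pos (g : ℕ → ℝ) (z : ℕ) (h : ∀ l : ℕ, l.Prime → g l ≤ 1 / 2) : 0 < VV g z := by
  unfold VV
  apply Finset.prod_pos
  intro l hl
  have hp : l.Prime := (Finset.mem_filter.mp hl).2
  have := h l hp
  linarith

private lemma tsb_choose (A0 ε : ℝ) (hε : 0 < ε) : ∃ t : ℝ, 0 < t ∧ t ≤ 1 ∧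
    (cB + t) * (3 / 8 + t) * (A0 * (2 / 3 + t) + t) ≤ A0 * (cB / 4) + ε / 2 := by
  have hf : Continuous (fun t : ℝ => (cB + t) * (3 / 8 + t) * (A0 * (2 / 3 + t) + t)) := by
    fun_prop
  have h0 : (fun t : ℝ => (cB + t) * (3 / 8 + t) * (A0 * (2 / 3 + t) + t)) 0 <
      A0 * (cB / 4) + ε / 2 := by
    show (cB + 0) * (3 / 8 + 0) * (A0 * (2 / 3 + 0) + 0) < A0 * (cB / 4) + ε / 2
    linarith
  have h1 : ∀ᶠ t in nhds (0 : ℝ), (fun t : ℝ => (cB + t) * (3 / 8 + t) *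
      (A0 * (2 / 3 + t) + t)) t < A0 * (cB / 4) + ε / 2 :=
    hf.continuousAt.eventually_lt continuousAt_const h0
  have h2 : ∀ᶠ t in nhdsWithin (0 : ℝ) (Set.Ioi 0), 0 < t ∧ t < 1 :=
    Ioo_mem_nhdsGT (by norm_num)
  obtain ⟨t, ht1, ht2⟩ := ((h1.filter_mono nhdsWithin_le_nhds).and h2).exists
  exact ⟨t, ht2.1, ht2.2.le, ht1.le⟩

private lemma tsb_rpow_large (a c : ℝ) (ha : 0 < a) : ∀ᶠ N : ℕ in atTop, c ≤ (N : ℝ) ^ a :=
  tendsto_natCast_atTop_atTop.eventually ((tendsto_rpow_atTop ha).eventually_ge_atTop c)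

private lemma tsb_log_large (c : ℝ) : ∀ᶠ N : ℕ in atTop, c ≤ Real.log N :=
  tendsto_natCast_atTop_atTop.eventually (Real.tendsto_log_atTop.eventually_ge_atTop c)

private lemma tsb_num : ∀ᶠ N : ℕ in atTop, Par N (zN N) (yN N) ∧ 2 ≤ zN N ∧
    (yN N : ℝ) ≤ 2 * (N : ℝ) ^ (1 / 3 : ℝ) ∧ 16 ≤ N := by
  filter_upwards [tsb_rpow_large (1 / 40) 2 (by norm_num), tsb_rpow_large (1 / 15) 2 (by norm_num),
    tsb_rpow_large (1 / 10) 2 (by norm_num), eventually_ge_atTop 16] with N e1 e2 e3 hN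
  have hN0 : (0 : ℝ) < N := by exact_mod_cast (by omega : 0 < N)
  have hz : (N : ℝ) ^ (1 / 10 : ℝ) ≤ zN N := by
    have h1 : (N : ℝ) ^ (1 / 8 : ℝ) = (N : ℝ) ^ (1 / 40 : ℝ) * (N : ℝ) ^ (1 / 10 : ℝ) := by
      rw [← Real.rpow_add hN0]
      norm_num
    have h2 : (N : ℝ) ^ (1 / 8 : ℝ) < zN N + 1 := Nat.lt_floor_add_one _
    nlinarith [mul_le_mul_of_nonneg_right e1 (by positivity : (0 : ℝ) ≤ (N : ℝ) ^ (1 / 10 : ℝ))]
  have hy1 : (yN N : ℝ) ≤ 2 * (N : ℝ) ^ (1 / 3 : ℝ) := by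
    have h1 : (yN N : ℝ) < (N : ℝ) ^ (1 / 3 : ℝ) + 1 := Nat.ceil_lt_add_one (by positivity)
    have h2 : (1 : ℝ) ≤ (N : ℝ) ^ (1 / 3 : ℝ) :=
      Real.one_le_rpow (by exact_mod_cast (by omega : 1 ≤ N)) (by norm_num)
    linarith
  refine ⟨⟨hz, ?_⟩, ?_, hy1, hN⟩
  · have h1 : (N : ℝ) ^ (2 / 5 : ℝ) = (N : ℝ) ^ (1 / 15 : ℝ) * (N : ℝ) ^ (1 / 3 : ℝ) := by
      rw [← Real.rpow_add hN0]
      norm_num
    rw [h1]
    refine hy1.trans ?_
    exact mul_le_mul_of_nonneg_right e2 (by positivity)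
  · have : (2 : ℝ) ≤ zN N := e3.trans hz
    exact_mod_cast this


/-- the sieve with remainder for one class -/
private lemma tsb_sieve (h2 : St_Gen) (N z y D' C K : ℕ) (D θ T : ℝ) (η : ℝ → ℝ) (hη : IsWt η)
    (w m n' : ℕ) (c E : ℕ → ℝ) (hN : 1 ≤ N) (hθ : θ ≤ 1)
    (hκ : ∀ l : ℕ, l.Prime → (OmB w m n' l).card ≤ 3)
    (hD' : D' = ⌊(N : ℝ) ^ θ⌋₊) (hDθ : D ≤ (N : ℝ) ^ θ) (hK : K = 3 * C)
    (c1 : ∀ d, c d ≠ 0 → Squarefree d ∧ (∀ p ∈ d.primeFactors, p ≤ y) ∧ (d : ℝ) ≤ D)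
    (c2 : ∀ d, |c d| ≤ C * (C : ℝ) ^ d.primeFactors.card)
    (c4 : ∀ S : Finset ℕ, S ⊆ pr y → (if S = ∅ then (1 : ℝ) else 0) ≤
      ∑ T ∈ S.powerset, c (∏ l ∈ T, l))
    (E1 : ∀ q, 0 ≤ E q)
    (E2 : ∀ q b : ℕ, 1 ≤ q → (q : ℝ) ≤ (N : ℝ) ^ θ → b.Coprime q →
      |BAP η N z y q b - B0 η N z y / (q.totient : ℝ)| ≤ E q)
    (E3 : ∑ q ∈ (Icc 1 N).filter (fun q : ℕ => (q : ℝ) ≤ (N : ℝ) ^ θ),
      (K : ℝ) ^ q.primeFactors.card * E q ≤ T) :
    ∑ q ∈ (range (N + 1)).filter (fun q => ∀ l ∈ pr y, q % l ∉ OmB w m n' l),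
      bt z y q * η ((q : ℝ) / N) ≤ B0 η N z y * (∑ d ∈ Icc 1 D', c d * ((1 / (d.totient : ℝ)) *
      ∏ l ∈ d.primeFactors, ((OmB w m n' l).card : ℝ))) + C * T := by
  have hN1 : (1 : ℝ) ≤ N := by exact_mod_cast hN
  have hbt : ∀ q, 0 ≤ bt z y q := by
    intro q
    unfold bt
    split_ifs <;> norm_num
  have hϖ : ∀ q : ℕ, 0 ≤ bt z y q * η ((q : ℝ) / N) := fun q => mul_nonneg (hbt q) (hη.nonneg _)
  have hD'N : D' ≤ N := by
    rw [hD']
    have : (N : ℝ) ^ θ ≤ N := by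
      calc (N : ℝ) ^ θ ≤ (N : ℝ) ^ (1 : ℝ) := Real.rpow_le_rpow_of_exponent_le hN1 hθ
        _ = N := Real.rpow_one _
    exact Nat.floor_le_of_le this
  have hcD : ∀ d, c d ≠ 0 → d ≤ D' := by
    intro d hd
    rw [hD']
    exact Nat.le_floor ((c1 d hd).2.2.trans hDθ)
  have hG := h2 (fun q => bt z y q * η ((q : ℝ) / N)) c (fun d => 1 / (d.totient : ℝ)) E
    (OmB w m n') (pr y) N D' 3 (B0 η N z y) (fun l hl => (Finset.mem_filter.mp hl).2)
    (fun l hl => ⟨Finset.filter_subset _ _, hκ l (Finset.mem_filter.mp hl).2⟩)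
    (by
      intro d hd
      refine ⟨(c1 d hd).1, ?_, hcD d hd⟩
      intro p hp
      unfold pr
      rw [Finset.mem_filter, Finset.mem_range]
      exact ⟨Nat.lt_succ_of_le ((c1 d hd).2.1 p hp), Nat.prime_of_mem_primeFactors hp⟩) E1
    (by
      intro d hd a had ha
      have hd1 : 1 ≤ d := Nat.pos_of_ne_zero (c1 d hd).1.ne_zero
      have hcop : a.Coprime d := by
        rw [Nat.coprime_iff_gcd_eq_one]
        by_contra hg
        obtain ⟨p, hp, hpg⟩ := Nat.exists_prime_and_dvd hg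
        have hpa : p ∣ a := hpg.trans (Nat.gcd_dvd_left _ _)
        have hpd : p ∣ d := hpg.trans (Nat.gcd_dvd_right _ _)
        have hmem := ha p (Nat.mem_primeFactors.mpr ⟨hp, hpd, by omega⟩)
        unfold OmB at hmem
        rw [Finset.mem_filter] at hmem
        exact hmem.2.1 (Nat.mod_eq_zero_of_dvd hpa)
      have hle : (d : ℝ) ≤ (N : ℝ) ^ θ := (c1 d hd).2.2.trans hDθ
      have := E2 d a hd1 hle hcop
      unfold BAP at this
      rw [Nat.mod_eq_of_lt had] at this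
      have e : B0 η N z y / (d.totient : ℝ) = B0 η N z y * (1 / (d.totient : ℝ)) := by ring
      rw [e] at this
      exact this)
  -- error term
  have herr : ∑ d ∈ Icc 1 D', |c d| * (((3 : ℕ) : ℝ) ^ d.primeFactors.card * E d) ≤ C * T := by
    have s1 : Icc 1 D' = (Icc 1 N).filter (fun q : ℕ => (q : ℝ) ≤ (N : ℝ) ^ θ) := by
      ext d
      rw [Finset.mem_Icc, Finset.mem_filter, Finset.mem_Icc, hD']
      constructor
      · rintro ⟨a1, a2⟩
        have a3 : (d : ℝ) ≤ (N : ℝ) ^ θ := (Nat.le_floor_iff (by positivity)).mp a2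
        rw [← hD'] at a2
        exact ⟨⟨a1, a2.trans hD'N⟩, a3⟩
      · rintro ⟨⟨a1, -⟩, a3⟩
        exact ⟨a1, Nat.le_floor a3⟩
    calc ∑ d ∈ Icc 1 D', |c d| * (((3 : ℕ) : ℝ) ^ d.primeFactors.card * E d)
        ≤ ∑ d ∈ Icc 1 D', C * ((K : ℝ) ^ d.primeFactors.card * E d) := by
          apply Finset.sum_le_sum
          intro d _
          have a1 : |c d| * (((3 : ℕ) : ℝ) ^ d.primeFactors.card * E d) ≤
              (C * (C : ℝ) ^ d.primeFactors.card) *
                (((3 : ℕ) : ℝ) ^ d.primeFactors.card * E d) :=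
            mul_le_mul_of_nonneg_right (c2 d) (mul_nonneg (by positivity) (E1 d))
          refine a1.trans (le_of_eq ?_)
          rw [hK]
          push_cast
          rw [mul_pow]
          ring
      _ = C * ∑ d ∈ (Icc 1 N).filter (fun q : ℕ => (q : ℝ) ≤ (N : ℝ) ^ θ),
            (K : ℝ) ^ d.primeFactors.card * E d := by
          rw [← Finset.mul_sum, s1]
      _ ≤ C * T := mul_le_mul_of_nonneg_left E3 (by positivity)
  -- upper bound for the indicator
  have hind : ∑ q ∈ (range (N + 1)).filter (fun q => ∀ l ∈ pr y, q % l ∉ OmB w m n' l),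
      bt z y q * η ((q : ℝ) / N) ≤ ∑ q ∈ range (N + 1), bt z y q * η ((q : ℝ) / N) *
        ∑ T ∈ ((pr y).filter (fun l => q % l ∈ OmB w m n' l)).powerset, c (∏ l ∈ T, l) := by
    rw [Finset.sum_filter]
    apply Finset.sum_le_sum
    intro q _
    have h5 := c4 ((pr y).filter (fun l => q % l ∈ OmB w m n' l)) (Finset.filter_subset _ _)
    split_ifs with hq
    · have he : (pr y).filter (fun l => q % l ∈ OmB w m n' l) = ∅ :=
        Finset.filter_eq_empty_iff.mpr (fun l hl => hq l hl)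
      rw [if_pos he] at h5
      have := mul_le_mul_of_nonneg_left h5 (hϖ q)
      rwa [mul_one] at this
    · have h6 : (0 : ℝ) ≤ ∑ T ∈ ((pr y).filter (fun l => q % l ∈ OmB w m n' l)).powerset,
          c (∏ l ∈ T, l) := by
        refine le_trans ?_ h5
        split_ifs <;> norm_num
      exact mul_nonneg (hϖ q) h6
  have h6 := (abs_le.mp hG).2
  refine hind.trans ((sub_le_iff_le_add.mp h6).trans ?_)
  rw [add_comm]
  exact add_le_add le_rfl herr

/-- the number of prime factors is small on average: `2^ω(m) ≤ 4 √m` -/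
private lemma tsb_omega (m : ℕ) (hm : 1 ≤ m) :
    (2 : ℝ) ^ m.primeFactors.card ≤ 4 * Real.sqrt m := by
  have h1 : (4 : ℝ) ^ m.primeFactors.card ≤ 16 * m := by
    have e1 : m.primeFactors.card = (m.primeFactors.filter (fun p => p < 4)).card +
        (m.primeFactors.filter (fun p => ¬ p < 4)).card :=
      (Finset.card_filter_add_card_filter_not _).symm
    have e2 : (m.primeFactors.filter (fun p => p < 4)).card ≤ 2 := by
      have : m.primeFactors.filter (fun p => p < 4) ⊆ ({2, 3} : Finset ℕ) := by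
        intro p hp
        rw [Finset.mem_filter] at hp
        have h2 := (Nat.prime_of_mem_primeFactors hp.1).two_le
        have h3 := hp.2
        simp only [Finset.mem_insert, Finset.mem_singleton]
        omega
      exact (Finset.card_le_card this).trans (by decide)
    have e3 : (4 : ℝ) ^ (m.primeFactors.filter (fun p => ¬ p < 4)).card ≤ m := by
      have e4 : (4 : ℝ) ^ (m.primeFactors.filter (fun p => ¬ p < 4)).card ≤
          ∏ p ∈ m.primeFactors.filter (fun p => ¬ p < 4), (p : ℝ) := by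
        rw [← Finset.prod_const]
        apply Finset.prod_le_prod
        · intro p _
          norm_num
        · intro p hp
          have h5 : 4 ≤ p := by
            have := (Finset.mem_filter.mp hp).2
            omega
          exact_mod_cast h5
      have e5 : ∏ p ∈ m.primeFactors.filter (fun p => ¬ p < 4), p ∣ m :=
        (Finset.prod_dvd_prod_of_subset _ _ _ (Finset.filter_subset _ _)).trans
          (Nat.prod_primeFactors_dvd m)
      have e6 : ∏ p ∈ m.primeFactors.filter (fun p => ¬ p < 4), p ≤ m :=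
        Nat.le_of_dvd (by omega) e5
      refine e4.trans ?_
      have e8 := (Nat.cast_le (α := ℝ)).mpr e6
      rwa [Nat.cast_prod] at e8
    rw [e1, pow_add]
    have e7 : (4 : ℝ) ^ (m.primeFactors.filter (fun p => p < 4)).card ≤ 4 ^ 2 :=
      pow_le_pow_right₀ (by norm_num) e2
    calc (4 : ℝ) ^ (m.primeFactors.filter (fun p => p < 4)).card *
        4 ^ (m.primeFactors.filter (fun p => ¬ p < 4)).card ≤ 4 ^ 2 * m :=
          mul_le_mul e7 e3 (by positivity) (by norm_num)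
      _ = 16 * m := by norm_num
  have h2 : ((2 : ℝ) ^ m.primeFactors.card) ^ 2 ≤ (4 * Real.sqrt m) ^ 2 := by
    rw [← pow_mul, mul_comm, pow_mul, mul_pow, Real.sq_sqrt (by positivity)]
    norm_num
    exact h1
  exact le_of_sq_le_sq h2 (by positivity)

private lemma tsb_phi (d : ℕ) (hd : Squarefree d) :
    1 / (d.totient : ℝ) ≤ (2 : ℝ) ^ d.primeFactors.card / d := by
  have hd0 : 0 < d := Nat.pos_of_ne_zero hd.ne_zero
  have h1 : (d : ℝ) = ∏ l ∈ d.primeFactors, (l : ℝ) := by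
    have h9 := congrArg (Nat.cast : ℕ → ℝ) (Nat.prod_primeFactors_of_squarefree hd).symm
    rwa [Nat.cast_prod] at h9
  have h2 : (0 : ℝ) < d.totient := by exact_mod_cast Nat.totient_pos.mpr hd0
  rw [div_le_div_iff₀ h2 (by exact_mod_cast hd0), one_mul]
  nth_rewrite 1 [h1]
  rw [tsb_tot d hd, ← Finset.prod_const, ← Finset.prod_mul_distrib]
  apply Finset.prod_le_prod
  · intro l _
    positivity
  · intro l hl
    have h3 : (2 : ℝ) ≤ l := by exact_mod_cast (Nat.prime_of_mem_primeFactors hl).two_le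
    linarith

/-- the error of the average over `r` -/
private lemma tsb_err (N D' C C' m y : ℕ) (D : ℝ) (c : ℕ → ℝ) (hN : 1 ≤ N) (hD' : D' ≤ N)
    (c1 : ∀ d, c d ≠ 0 → Squarefree d ∧ (∀ p ∈ d.primeFactors, p ≤ y) ∧ (d : ℝ) ≤ D)
    (c2 : ∀ d, |c d| ≤ C * (C : ℝ) ^ d.primeFactors.card) :
    ∑ d ∈ Icc 1 D', |c d| * ((1 / (d.totient : ℝ)) *
      ((C' : ℝ) ^ d.primeFactors.card * 2 ^ m.primeFactors.card)) ≤
    C * 2 ^ m.primeFactors.card * (1 + Real.log N) ^ (2 * (C * C')) := by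
  have h1 := Pool.Agent.GBQ.thm_Div (2 * (C * C')) N hN
  have h2 : ∑ d ∈ Icc 1 D', |c d| * ((1 / (d.totient : ℝ)) *
      ((C' : ℝ) ^ d.primeFactors.card * 2 ^ m.primeFactors.card)) ≤
      ∑ d ∈ Icc 1 D', C * 2 ^ m.primeFactors.card *
        (((2 * (C * C') : ℕ) : ℝ) ^ d.primeFactors.card / d) := by
    apply Finset.sum_le_sum
    intro d hd
    have hd1 : 1 ≤ d := (Finset.mem_Icc.mp hd).1
    have hd0 : (0 : ℝ) < d := by exact_mod_cast hd1
    by_cases hc : c d = 0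
    · rw [hc, abs_zero, zero_mul]
      positivity
    · have h3 := tsb_phi d (c1 d hc).1
      calc |c d| * ((1 / (d.totient : ℝ)) *
          ((C' : ℝ) ^ d.primeFactors.card * 2 ^ m.primeFactors.card)) ≤
          (C * (C : ℝ) ^ d.primeFactors.card) * (((2 : ℝ) ^ d.primeFactors.card / d) *
          ((C' : ℝ) ^ d.primeFactors.card * 2 ^ m.primeFactors.card)) := by
            apply mul_le_mul (c2 d) _ (by positivity) (by positivity)
            exact mul_le_mul_of_nonneg_right h3 (by positivity)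
        _ = C * 2 ^ m.primeFactors.card *
          (((2 * (C * C') : ℕ) : ℝ) ^ d.primeFactors.card / d) := by
            push_cast
            rw [mul_pow, mul_pow]
            ring
  refine h2.trans ?_
  rw [← Finset.mul_sum]
  apply mul_le_mul_of_nonneg_left _ (by positivity)
  refine le_trans ?_ h1
  apply Finset.sum_le_sum_of_subset_of_nonneg
  · exact Finset.Icc_subset_Icc_right hD'
  · intro d _ _
    positivity

/-- average over `r` of the main terms -/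
private lemma tsb_avg (N D' C' w m n : ℕ) (y : ℕ) (D : ℝ) (c : ℕ → ℝ)
    (hA : ∀ w m n d : ℕ, 1 ≤ m → m ≤ w → m ≤ n → Squarefree d →
      |∑ r ∈ (range m).filter (fun r => (n - r).Coprime m),
        ∏ l ∈ d.primeFactors, ((OmB w m (n - r) l).card : ℝ) -
      (m.totient : ℝ) * ∏ l ∈ d.primeFactors, (((l : ℝ) - 1) * gBT w m l)| ≤
      (C' : ℝ) ^ d.primeFactors.card * 2 ^ m.primeFactors.card)
    (hm : 1 ≤ m) (hmw : m ≤ w) (hmn : m ≤ n) (hD' : D' ≤ N) (hDD : ∀ d, c d ≠ 0 → d ≤ D')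
    (c1 : ∀ d, c d ≠ 0 → Squarefree d ∧ (∀ p ∈ d.primeFactors, p ≤ y) ∧ (d : ℝ) ≤ D) :
    ∑ r ∈ (range m).filter (fun r => (n - r).Coprime m),
      (∑ d ∈ Icc 1 D', c d * ((1 / (d.totient : ℝ)) *
        ∏ l ∈ d.primeFactors, ((OmB w m (n - r) l).card : ℝ))) ≤
    (m.totient : ℝ) * ∑ d ∈ Icc 1 (N ^ 2), c d * ∏ p ∈ d.primeFactors, gBT w m p +
    ∑ d ∈ Icc 1 D', |c d| * ((1 / (d.totient : ℝ)) *
      ((C' : ℝ) ^ d.primeFactors.card * 2 ^ m.primeFactors.card)) := by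
  have hsub : Icc 1 D' ⊆ Icc 1 (N ^ 2) := by
    apply Finset.Icc_subset_Icc_right
    nlinarith
  have h1 : ∑ d ∈ Icc 1 (N ^ 2), c d * ∏ p ∈ d.primeFactors, gBT w m p =
      ∑ d ∈ Icc 1 D', c d * ∏ p ∈ d.primeFactors, gBT w m p := by
    symm
    apply Finset.sum_subset hsub
    intro d hd1 hd2
    have : c d = 0 := by
      by_contra hd
      apply hd2
      rw [Finset.mem_Icc] at hd1 ⊢
      exact ⟨hd1.1, hDD d hd⟩
    rw [this, zero_mul]
  rw [h1, Finset.sum_comm, Finset.mul_sum, ← Finset.sum_add_distrib]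
  apply Finset.sum_le_sum
  intro d _
  by_cases hc : c d = 0
  · rw [hc]
    simp
  have hsq := (c1 d hc).1
  have hd0 : 0 < d := Nat.pos_of_ne_zero hsq.ne_zero
  have hphi : (0 : ℝ) < d.totient := by exact_mod_cast Nat.totient_pos.mpr hd0
  have h2 := hA w m n d hm hmw hmn hsq
  set S := ∑ r ∈ (range m).filter (fun r => (n - r).Coprime m),
    ∏ l ∈ d.primeFactors, ((OmB w m (n - r) l).card : ℝ) with hS
  have h3 : ∑ r ∈ (range m).filter (fun r => (n - r).Coprime m),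
      c d * ((1 / (d.totient : ℝ)) * ∏ l ∈ d.primeFactors, ((OmB w m (n - r) l).card : ℝ)) =
      c d * ((1 / (d.totient : ℝ)) * S) := by
    rw [hS, Finset.mul_sum, Finset.mul_sum]
  rw [h3]
  have h4 : ∏ l ∈ d.primeFactors, (((l : ℝ) - 1) * gBT w m l) =
      (d.totient : ℝ) * ∏ p ∈ d.primeFactors, gBT w m p := by
    rw [Finset.prod_mul_distrib, tsb_tot d hsq]
  rw [h4] at h2
  set G := ∏ p ∈ d.primeFactors, gBT w m p with hG
  set R := (C' : ℝ) ^ d.primeFactors.card * 2 ^ m.primeFactors.card with hR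
  have h5 : c d * ((1 / (d.totient : ℝ)) * S) - (m.totient : ℝ) * (c d * G) =
      c d * ((1 / (d.totient : ℝ)) * (S - (m.totient : ℝ) * ((d.totient : ℝ) * G))) := by
    field_simp
  have h6 : |c d * ((1 / (d.totient : ℝ)) * (S - (m.totient : ℝ) * ((d.totient : ℝ) * G)))| ≤
      |c d| * ((1 / (d.totient : ℝ)) * R) := by
    rw [abs_mul, abs_mul, abs_of_pos (by positivity : (0 : ℝ) < 1 / (d.totient : ℝ))]
    apply mul_le_mul_of_nonneg_left _ (abs_nonneg _)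
    exact mul_le_mul_of_nonneg_left h2 (by positivity)
  have h7 := (abs_le.mp h6).2
  linarith

/-- interchange of the sums over `q` and `r` -/
private lemma tsb_swap (η : ℝ → ℝ) (w z y N m n : ℕ) :
    SBT η w z y N m n = ∑ r ∈ (range m).filter (fun r => (n - r).Coprime m),
      ∑ q ∈ (range (N + 1)).filter (fun q => ∀ l ∈ pr y, q % l ∉ OmB w m (n - r) l),
        bt z y q * η ((q : ℝ) / N) := by
  unfold SBT
  have h1 : ∀ q ∈ range (N + 1), bt z y q * η ((q : ℝ) / N) *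
      (((range m).filter (fun r => (n - r).Coprime m ∧
        ∀ l ∈ pr y, q % l ∉ OmB w m (n - r) l)).card : ℝ) =
      ∑ r ∈ (range m).filter (fun r => (n - r).Coprime m),
        if (∀ l ∈ pr y, q % l ∉ OmB w m (n - r) l) then bt z y q * η ((q : ℝ) / N) else 0 := by
    intro q _
    rw [← Finset.sum_filter, Finset.sum_const, Finset.filter_filter, nsmul_eq_mul, mul_comm]
  rw [Finset.sum_congr rfl h1, Finset.sum_comm]
  apply Finset.sum_congr rfl
  intro r _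
  rw [Finset.sum_filter]

private lemma tsb_Dns (h4 : St_DensT) (N m : ℕ) (δ : ℝ) (hm : 1 ≤ m) (hmw : m ≤ wN δ N) :
    DnsG ⌊(N : ℝ) ^ δ⌋₊ (yN N) 0 (gBT (wN δ N) m) := by
  obtain ⟨-, d2, -, -⟩ := h4
  have hnd : ∀ l : ℕ, ⌊(N : ℝ) ^ δ⌋₊ < l → ¬ l ∣ m := by
    intro l hl h
    have h1 := Nat.le_of_dvd (by omega) h
    have h2 : m ≤ ⌊(N : ℝ) ^ δ⌋₊ := hmw
    omega
  refine ⟨?_, ?_, ?_⟩
  · intro l hl
    obtain ⟨e1, e2, e3, -⟩ := d2 (wN δ N) m l hl
    exact ⟨e1, e2, e3⟩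
  · intro l hl hwl _
    obtain ⟨-, -, -, e4⟩ := d2 (wN δ N) m l hl
    right
    rw [e4 hwl (hnd l hwl)]
    refine ⟨le_rfl, ?_⟩
    have h1 : (1 : ℝ) < l := by exact_mod_cast hl.one_lt
    exact one_div_le_one_div_of_le (by linarith) (by linarith)
  · rw [Nat.le_zero, Finset.card_eq_zero, Finset.filter_eq_empty_iff]
    rintro l hl ⟨hwl, h0⟩
    have hlp : l.Prime := (Finset.mem_filter.mp hl).2
    obtain ⟨-, -, -, e4⟩ := d2 (wN δ N) m l hlp
    rw [e4 hwl (hnd l hwl)] at h0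
    have h1 : (0 : ℝ) < l := by exact_mod_cast hlp.pos
    have h2 : (0 : ℝ) < 1 / (l : ℝ) := by positivity
    linarith

private lemma tsb_v2 (I m N L V c₀ ε : ℝ) (k : ℕ) (hI : 0 < I) (hm : 0 < m) (hN : 0 < N)
    (hL : 1 ≤ L) (hε : 0 < ε) (v1 : c₀ / L ^ k ≤ V) :
    (ε * c₀ / 4) * I * (m * N) / (L ^ k * L) ≤ (ε / 4) * (I * (m * N) * V) / L := by
  have hL0 : 0 < L := by linarith
  have v3 : (ε / 4) * (I * (m * N) * (c₀ / L ^ k)) / L ≤ (ε / 4) * (I * (m * N) * V) / L := by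
    apply div_le_div_of_nonneg_right _ hL0.le
    apply mul_le_mul_of_nonneg_left _ (by positivity)
    exact mul_le_mul_of_nonneg_left v1 (by positivity)
  refine le_trans (le_of_eq ?_) v3
  field_simp

private lemma tsb_e1 (I m N L V c₀ ε C : ℝ) (k : ℕ) (hI : 1 / 2 ≤ I) (hm : 0 < m) (hN : 0 < N)
    (hL : 1 ≤ L) (hε : 0 < ε) (hc₀ : 0 < c₀) (v1 : c₀ / L ^ k ≤ V)
    (v4 : C ≤ (ε * c₀ / 8) * L) :
    m * (C * (N / L ^ (k + 2))) ≤ (ε / 4) * (I * (m * N) * V) / L := by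
  have hL0 : 0 < L := by linarith
  refine le_trans ?_ (tsb_v2 I m N L V c₀ ε k (by linarith) hm hN hL hε v1)
  have v5 : C ≤ (ε * c₀ / 4) * I * L := by
    have : (ε * c₀ / 8) * L ≤ (ε * c₀ / 4) * I * L := by
      apply mul_le_mul_of_nonneg_right _ hL0.le
      have : 0 < ε * c₀ / 4 := by positivity
      nlinarith
    linarith
  have v6 : m * (C * (N / L ^ (k + 2))) = C * (m * N) / L ^ (k + 2) := by
    ring
  rw [v6, pow_add, div_le_div_iff₀ (by positivity) (by positivity)]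
  have h8 := mul_le_mul_of_nonneg_right v5 (by positivity : (0 : ℝ) ≤ m * N * (L ^ k * L))
  calc C * (m * N) * (L ^ k * L) = C * (m * N * (L ^ k * L)) := by ring
    _ ≤ (ε * c₀ / 4) * I * L * (m * N * (L ^ k * L)) := h8
    _ = (ε * c₀ / 4) * I * (m * N) * (L ^ k * L ^ 2) := by ring

private lemma tsb_e2 (I m N L V c₀ ε C b Q W : ℝ) (k K2 : ℕ) (hI : 0 < I) (hm : 0 < m)
    (hN : 0 < N) (hL : 1 ≤ L) (hε : 0 < ε) (hC : 0 ≤ C) (hb : 0 ≤ b) (hW0 : 0 ≤ W)
    (v1 : c₀ / L ^ k ≤ V) (w1 : Q ≤ (b + 1) * I * N) (w3 : W ≤ 4 * (m / L ^ (K2 + k + 2)))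
    (w9 : (b + 1) * C * 4 * 2 ^ K2 ≤ (ε * c₀ / 4) * L) :
    Q * (C * W * (1 + L) ^ K2) ≤ (ε / 4) * (I * (m * N) * V) / L := by
  have hL0 : 0 < L := by linarith
  refine le_trans ?_ (tsb_v2 I m N L V c₀ ε k hI hm hN hL hε v1)
  have w6 : (1 + L) ^ K2 ≤ 2 ^ K2 * L ^ K2 := by
    rw [← mul_pow]
    apply pow_le_pow_left₀ (by linarith)
    linarith
  have w7 : Q * (C * W * (1 + L) ^ K2) ≤ ((b + 1) * I * N) *
      (C * (4 * (m / L ^ (K2 + k + 2))) * (2 ^ K2 * L ^ K2)) := by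
    apply mul_le_mul w1 _ (by positivity) (by positivity)
    apply mul_le_mul _ w6 (by positivity) (by positivity)
    exact mul_le_mul_of_nonneg_left w3 hC
  refine w7.trans ?_
  have w8 : ((b + 1) * I * N) * (C * (4 * (m / L ^ (K2 + k + 2))) * (2 ^ K2 * L ^ K2)) =
      ((b + 1) * C * 4 * 2 ^ K2) * I * (m * N) / L ^ (k + 2) := by
    have e : K2 + k + 2 = K2 + (k + 2) := by ring
    rw [e, pow_add L K2 (k + 2)]
    field_simp
  rw [w8, pow_add, div_le_div_iff₀ (by positivity) (by positivity)]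
  have w10 : 0 ≤ I * (m * N) * (L ^ k * L) := by positivity
  calc (b + 1) * C * 4 * 2 ^ K2 * I * (m * N) * (L ^ k * L) =
      (b + 1) * C * 4 * 2 ^ K2 * (I * (m * N) * (L ^ k * L)) := by ring
    _ ≤ (ε * c₀ / 4) * L * (I * (m * N) * (L ^ k * L)) := mul_le_mul_of_nonneg_right w9 w10
    _ = (ε * c₀ / 4) * I * (m * N) * (L ^ k * L ^ 2) := by ring

private lemma tsb_W (N m : ℕ) (a : ℕ) (hm : 1 ≤ m) (hL : 1 ≤ Real.log N)
    (hB : Real.log N ^ (2 * a) ≤ m) :
    (2 : ℝ) ^ m.primeFactors.card ≤ 4 * (m / Real.log N ^ a) := by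
  have hm0 : (0 : ℝ) < m := by exact_mod_cast (by omega : 0 < m)
  refine (tsb_omega m hm).trans ?_
  have w4 : Real.log N ^ a ≤ Real.sqrt m := by
    apply Real.le_sqrt_of_sq_le
    rw [← pow_mul, mul_comm]
    exact hB
  have w5 : Real.sqrt m ≤ m / Real.log N ^ a := by
    rw [le_div_iff₀ (by positivity)]
    calc Real.sqrt m * Real.log N ^ a ≤ Real.sqrt m * Real.sqrt m :=
          mul_le_mul_of_nonneg_left w4 (Real.sqrt_nonneg _)
      _ = m := Real.mul_self_sqrt hm0.le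
  linarith

private lemma tsb_F (N : ℕ) (A0 t : ℝ) (hA0 : 0 < A0) (ht : 0 < t) (ht1 : t ≤ 1) (hN : 16 ≤ N)
    (hy1 : (yN N : ℝ) ≤ 2 * (N : ℝ) ^ (1 / 3 : ℝ)) (hy3 : (N : ℝ) ^ (1 / 3 : ℝ) ≤ yN N)
    (g7 : 12 * Real.log 2 / t ≤ Real.log N) :
    A0 * Real.log (yN N) / Real.log ((N : ℝ) ^ (1 / 2 - t / 12 : ℝ)) + t / 24 ≤
      A0 * (2 / 3 + t) + t := by
  have hN0 : (0 : ℝ) < N := by exact_mod_cast (by omega : 0 < N)
  have hN1 : (1 : ℝ) < N := by exact_mod_cast (by omega : 1 < N)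
  have hlog : 0 < Real.log N := Real.log_pos hN1
  have a1 : A0 * Real.log (yN N) / Real.log ((N : ℝ) ^ (1 / 2 - t / 12 : ℝ)) ≤
      A0 * (2 / 3 + t) := by
    rw [Real.log_rpow hN0]
    have hpos : 0 < (1 / 2 - t / 12) * Real.log N := mul_pos (by linarith) hlog
    rw [div_le_iff₀ hpos]
    have a2 : Real.log (yN N) ≤ Real.log 2 + (1 / 3) * Real.log N := by
      have hyp : (0 : ℝ) < yN N := lt_of_lt_of_le (by positivity) hy3
      calc Real.log (yN N) ≤ Real.log (2 * (N : ℝ) ^ (1 / 3 : ℝ)) := Real.log_le_log hyp hy1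
        _ = Real.log 2 + (1 / 3) * Real.log N := by
          rw [Real.log_mul (by norm_num) (by positivity), Real.log_rpow hN0]
    have a3 : 12 * Real.log 2 ≤ t * Real.log N := by
      rw [div_le_iff₀ ht] at g7
      linarith
    have a4 : Real.log (yN N) ≤ (2 / 3 + t) * ((1 / 2 - t / 12) * Real.log N) := by
      nlinarith [mul_nonneg (mul_nonneg ht.le (by linarith : (0 : ℝ) ≤ 1 - t)) hlog.le,
        mul_pos ht hlog]
    calc A0 * Real.log (yN N) ≤ A0 * ((2 / 3 + t) * ((1 / 2 - t / 12) * Real.log N)) :=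
          mul_le_mul_of_nonneg_left a4 hA0.le
      _ = A0 * (2 / 3 + t) * ((1 / 2 - t / 12) * Real.log N) := by ring
  linarith

private lemma tsb_m1 (Q I N L X φ Vy Vz mV F A0 t ε : ℝ) (hA0 : 0 < A0) (ht : 0 < t)
    (hft : (cB + t) * (3 / 8 + t) * (A0 * (2 / 3 + t) + t) ≤ A0 * (cB / 4) + ε / 2)
    (hQ : 0 ≤ Q) (g3 : Q ≤ (cB + t) * I * N / L) (hφ : 0 ≤ φ) (hVy : 0 < Vy)
    (hyz : Vy ≤ (3 / 8 + t) * Vz) (hF : F ≤ A0 * (2 / 3 + t) + t) (hmV : 0 < mV)
    (hVV : φ * Vz = mV) (hX : X = I * N * mV) (hX0 : 0 ≤ X) (hL : 0 < L) :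
    Q * (φ * (Vy * F)) ≤ (A0 * (cB / 4) + ε / 2) * X / L := by
  have hF' : 0 ≤ A0 * (2 / 3 + t) + t := by positivity
  have b1 : φ * (Vy * F) ≤ (3 / 8 + t) * (A0 * (2 / 3 + t) + t) * mV := by
    calc φ * (Vy * F) ≤ φ * (((3 / 8 + t) * Vz) * (A0 * (2 / 3 + t) + t)) := by
          apply mul_le_mul_of_nonneg_left _ hφ
          refine (mul_le_mul_of_nonneg_left hF hVy.le).trans ?_
          exact mul_le_mul_of_nonneg_right hyz hF'
      _ = (3 / 8 + t) * (A0 * (2 / 3 + t) + t) * (φ * Vz) := by ring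
      _ = (3 / 8 + t) * (A0 * (2 / 3 + t) + t) * mV := by rw [hVV]
  have b2 : 0 ≤ (3 / 8 + t) * (A0 * (2 / 3 + t) + t) * mV := by positivity
  calc Q * (φ * (Vy * F)) ≤ Q * ((3 / 8 + t) * (A0 * (2 / 3 + t) + t) * mV) :=
        mul_le_mul_of_nonneg_left b1 hQ
    _ ≤ ((cB + t) * I * N / L) * ((3 / 8 + t) * (A0 * (2 / 3 + t) + t) * mV) :=
        mul_le_mul_of_nonneg_right g3 b2
    _ = ((cB + t) * (3 / 8 + t) * (A0 * (2 / 3 + t) + t)) * (X / L) := by
        rw [hX]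
        ring
    _ ≤ (A0 * (cB / 4) + ε / 2) * (X / L) :=
        mul_le_mul_of_nonneg_right hft (by positivity)
    _ = (A0 * (cB / 4) + ε / 2) * X / L := by ring

/-- keep this signature -/
theorem thm_TSB (A0 : ℝ) (hA0 : 0 < A0) (h0 : St_LGU A0) (h1 : St_PBVW) (h2 : St_Gen) (h3 : St_VLow) (h4 : St_DensT) (h5 : St_BMass) (h6 : St_VRG) (h7 : St_AvgR) : St_TSB A0 := by
  intro η hη ε hε
  obtain ⟨t, ht, ht1, hft⟩ := tsb_choose A0 ε hε
  obtain ⟨δ₀, C, hδ₀, hL⟩ := h0 (t / 24) (by positivity)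
  obtain ⟨c₀, k, hc₀, hV⟩ := h3
  obtain ⟨C', hAv⟩ := h7
  have hI := tsb_int η hη
  set I := ∫ t in (0 : ℝ)..1, η t with hIdef
  have hIpos : 0 < I := by linarith
  obtain ⟨K2, hK2⟩ : ∃ K2 : ℕ, K2 = 2 * (C * C') := ⟨_, rfl⟩
  refine ⟨min δ₀ (1 / 16), by positivity, ?_⟩
  intro δ hδ hδ1
  have hδa : δ ≤ δ₀ := hδ1.trans (min_le_left _ _)
  have hδb : δ ≤ 1 / 16 := hδ1.trans (min_le_right _ _)
  refine ⟨2 * (K2 + k + 2), ?_⟩
  filter_upwards [hL δ hδ hδa 0, h1 η hη (1 / 2 - t / 24) (by linarith) (by linarith)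
    (k + 2) (3 * C), h5 η hη t ht, h6 δ t hδ (by linarith) ht, tsb_num,
    tsb_log_large (12 * Real.log 2 / t),
    tsb_log_large (C / (ε * c₀ / 8)), tsb_log_large 1,
    tsb_log_large ((|cB| + 1) * C * 4 * 2 ^ K2 / (ε * c₀ / 4))] with N g1 g2 g3 g4 g5 g7 g8 g9 g10
  intro m n hT hBm hmw
  obtain ⟨s1, s5, s6⟩ := hT
  obtain ⟨hPar, hz2, hy1, hN16⟩ := g5
  have hN0 : (0 : ℝ) < N := by exact_mod_cast (by omega : 0 < N)
  have hN1 : (1 : ℝ) < N := by exact_mod_cast (by omega : 1 < N)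
  have hlog : 0 < Real.log N := Real.log_pos hN1
  have hm0 : (0 : ℝ) < m := by exact_mod_cast (by omega : 0 < m)
  have hmn : m ≤ n := by
    have : m * 1 ≤ m * N := Nat.mul_le_mul_left m (by omega)
    omega
  have hDns := tsb_Dns h4 N m δ s1 hmw
  obtain ⟨t1, t2, t3, t4⟩ := h4
  -- the linear sieve
  have hD1 : (yN N : ℝ) ≤ (N : ℝ) ^ (1 / 2 - t / 12 : ℝ) := by
    refine hPar.2.trans ?_
    exact Real.rpow_le_rpow_of_exponent_le hN1.le (by linarith)
  have hy3 : (N : ℝ) ^ (1 / 3 : ℝ) ≤ yN N := Nat.le_ceil _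
  have hD2 : (N : ℝ) ^ (1 / 2 - t / 12 : ℝ) ≤ (N : ℝ) := by
    calc (N : ℝ) ^ (1 / 2 - t / 12 : ℝ) ≤ (N : ℝ) ^ (1 : ℝ) :=
          Real.rpow_le_rpow_of_exponent_le hN1.le (by linarith)
      _ = N := Real.rpow_one _
  have hD3 : (N : ℝ) ^ (1 / 2 - t / 12 : ℝ) ≤ (yN N : ℝ) ^ 3 := by
    refine hD2.trans ?_
    calc (N : ℝ) = ((N : ℝ) ^ (1 / 3 : ℝ)) ^ 3 := by
          rw [← Real.rpow_natCast, ← Real.rpow_mul hN0.le]
          norm_num
      _ ≤ (yN N : ℝ) ^ 3 := pow_le_pow_left₀ (by positivity) hy3 3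
  have hy10 : (N : ℝ) ^ (1 / 20 : ℝ) ≤ yN N := by
    refine le_trans ?_ hy3
    exact Real.rpow_le_rpow_of_exponent_le hN1.le (by norm_num)
  obtain ⟨c, c1, c2, c3, c4⟩ := g1 (yN N) _ hy10 hD1 hD3 hD2 _ hDns
  obtain ⟨E, E1, E2, E3⟩ := g2 (zN N) (yN N) hPar
  have hDθ : (N : ℝ) ^ (1 / 2 - t / 12 : ℝ) * (N : ℝ) ^ (t / 24 : ℝ) ≤
      (N : ℝ) ^ (1 / 2 - t / 24 : ℝ) := by
    rw [← Real.rpow_add hN0]
    apply le_of_eq
    congr 1
    ring
  set D' := ⌊(N : ℝ) ^ (1 / 2 - t / 24 : ℝ)⌋₊ with hD'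
  have hD'N : D' ≤ N := by
    have : (N : ℝ) ^ (1 / 2 - t / 24 : ℝ) ≤ N := by
      calc (N : ℝ) ^ (1 / 2 - t / 24 : ℝ) ≤ (N : ℝ) ^ (1 : ℝ) :=
            Real.rpow_le_rpow_of_exponent_le hN1.le (by linarith)
        _ = N := Real.rpow_one _
    exact Nat.floor_le_of_le this
  have hDD : ∀ d, c d ≠ 0 → d ≤ D' := by
    intro d hd
    exact Nat.le_floor ((c1 d hd).2.2.trans hDθ)
  have hB0 : 0 ≤ B0 η N (zN N) (yN N) := by
    apply Finset.sum_nonneg
    intro q _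
    refine mul_nonneg ?_ (hη.nonneg _)
    unfold bt
    split_ifs <;> norm_num
  have key : SBT η (wN δ N) (zN N) (yN N) N m n ≤
      B0 η N (zN N) (yN N) * ((m.totient : ℝ) * (VV (gBT (wN δ N) m) (yN N) *
        (A0 * Real.log (yN N) / Real.log ((N : ℝ) ^ (1 / 2 - t / 12 : ℝ)) + t / 24)) +
        C * 2 ^ m.primeFactors.card * (1 + Real.log N) ^ K2) +
      m * (C * (N / Real.log N ^ (k + 2))) := by
    rw [tsb_swap]
    have k1 : ∀ r ∈ (range m).filter (fun r => (n - r).Coprime m),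
        ∑ q ∈ (range (N + 1)).filter
          (fun q => ∀ l ∈ pr (yN N), q % l ∉ OmB (wN δ N) m (n - r) l),
          bt (zN N) (yN N) q * η ((q : ℝ) / N) ≤
        B0 η N (zN N) (yN N) * (∑ d ∈ Icc 1 D', c d * ((1 / (d.totient : ℝ)) *
          ∏ l ∈ d.primeFactors, ((OmB (wN δ N) m (n - r) l).card : ℝ))) +
          C * (N / Real.log N ^ (k + 2)) := by
      intro r hr
      exact tsb_sieve h2 N (zN N) (yN N) D' C (3 * C)
        ((N : ℝ) ^ (1 / 2 - t / 12 : ℝ) * (N : ℝ) ^ (t / 24 : ℝ)) (1 / 2 - t / 24)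
        (N / Real.log N ^ (k + 2)) η hη (wN δ N) m (n - r) c E (by omega) (by linarith)
        (fun l hl => t3 (wN δ N) m (n - r) l hl (Finset.mem_filter.mp hr).2) hD' hDθ rfl
        c1 c2 c4 E1 E2 E3
    refine (Finset.sum_le_sum k1).trans ?_
    rw [Finset.sum_add_distrib, ← Finset.mul_sum]
    apply add_le_add
    · apply mul_le_mul_of_nonneg_left _ hB0
      refine (tsb_avg N D' C' (wN δ N) m n (yN N) _ c hAv s1 hmw hmn hD'N hDD c1).trans ?_
      apply add_le_add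
      · exact mul_le_mul_of_nonneg_left c3 (by positivity)
      · rw [hK2]
        exact tsb_err N D' C C' m (yN N) _ c (by omega) hD'N c1 c2
    · rw [Finset.sum_const, nsmul_eq_mul]
      apply mul_le_mul_of_nonneg_right _ (by positivity)
      have k2 : ((range m).filter (fun r => (n - r).Coprime m)).card ≤ m := by
        refine (Finset.card_filter_le _ _).trans ?_
        rw [Finset.card_range]
      exact_mod_cast k2
  refine key.trans ?_
  -- numerical estimates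
  have hVz : 0 < VV (gBT (wN δ N) m) (zN N) :=
    tsb_VV_pos _ _ (fun l hl => (t2 (wN δ N) m l hl).2.1)
  have hVy : 0 < VV (gBT (wN δ N) m) (yN N) :=
    tsb_VV_pos _ _ (fun l hl => (t2 (wN δ N) m l hl).2.1)
  have hVT : 0 < VV (gT (wN δ N)) (zN N) :=
    tsb_VV_pos _ _ (fun l hl => (t1 (wN δ N) l hl).2.2.1)
  have hwz : wN δ N ≤ zN N := by
    unfold wN zN
    apply Nat.floor_le_floor
    exact Real.rpow_le_rpow_of_exponent_le hN1.le (by linarith)
  have hVV : (m.totient : ℝ) * VV (gBT (wN δ N) m) (zN N) = m * VV (gT (wN δ N)) (zN N) := by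
    rw [t4 (wN δ N) m (zN N) s1 hmw hwz]
    field_simp
  have hyz := g4 _ hDns
  have hF := tsb_F N A0 t hA0 ht ht1 hN16 hy1 hy3 g7
  have m1 : B0 η N (zN N) (yN N) * ((m.totient : ℝ) * (VV (gBT (wN δ N) m) (yN N) *
      (A0 * Real.log (yN N) / Real.log ((N : ℝ) ^ (1 / 2 - t / 12 : ℝ)) + t / 24))) ≤
      (A0 * (cB / 4) + ε / 2) * (I * (m * N) * VV (gT (wN δ N)) (zN N)) / Real.log N :=
    tsb_m1 _ I N (Real.log N) _ _ _ (VV (gBT (wN δ N) m) (zN N))
      (m * VV (gT (wN δ N)) (zN N)) _ A0 t ε hA0 ht hft hB0 g3 (by positivity) hVy hyz hF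
      (by positivity) hVV (by ring) (by positivity) hlog
  -- lower bound for the product
  have v1 : c₀ / Real.log N ^ k ≤ VV (gT (wN δ N)) (zN N) := by
    refine le_trans ?_ (hV (zN N) (gT (wN δ N)) hz2
      (fun l hl => ⟨(t1 (wN δ N) l hl).2.1, (t1 (wN δ N) l hl).2.2.1,
        (t1 (wN δ N) l hl).2.2.2.1⟩))
    have hzp : (1 : ℝ) < zN N := by exact_mod_cast (by omega : 1 < zN N)
    have hzl : 0 < Real.log (zN N) := Real.log_pos hzp
    apply div_le_div_of_nonneg_left hc₀.le (by positivity)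
    apply pow_le_pow_left₀ hzl.le
    apply Real.log_le_log (by linarith)
    have : (zN N : ℝ) ≤ (N : ℝ) ^ (1 / 8 : ℝ) := Nat.floor_le (by positivity)
    refine this.trans ?_
    calc (N : ℝ) ^ (1 / 8 : ℝ) ≤ (N : ℝ) ^ (1 : ℝ) :=
          Real.rpow_le_rpow_of_exponent_le hN1.le (by norm_num)
      _ = N := Real.rpow_one _
  -- first error
  have m2 : (m : ℝ) * (C * (N / Real.log N ^ (k + 2))) ≤
      (ε / 4) * (I * (m * N) * VV (gT (wN δ N)) (zN N)) / Real.log N := by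
    apply tsb_e1 I m N (Real.log N) _ c₀ ε C k hI hm0 hN0 g9 hε hc₀ v1
    rw [div_le_iff₀ (by positivity)] at g8
    linarith
  -- second error
  have m3 : B0 η N (zN N) (yN N) *
      (C * 2 ^ m.primeFactors.card * (1 + Real.log N) ^ K2) ≤
      (ε / 4) * (I * (m * N) * VV (gT (wN δ N)) (zN N)) / Real.log N := by
    apply tsb_e2 I m N (Real.log N) _ c₀ ε C |cB| _ _ k K2 hIpos hm0 hN0 g9 hε (by positivity)
      (abs_nonneg _) (by positivity) v1
    · refine g3.trans ?_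
      have hX : 0 ≤ (cB + t) * I * N / Real.log N := hB0.trans g3
      have w2 : (cB + t) * I * N / Real.log N ≤ (cB + t) * I * N := by
        apply div_le_self _ g9
        have := mul_nonneg hX hlog.le
        rwa [div_mul_cancel₀ _ hlog.ne'] at this
      refine w2.trans ?_
      apply mul_le_mul_of_nonneg_right _ hN0.le
      apply mul_le_mul_of_nonneg_right _ hIpos.le
      linarith [le_abs_self cB]
    · exact tsb_W N m _ s1 g9 hBm
    · rw [div_le_iff₀ (by positivity)] at g10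
      linarith
  unfold UT
  rw [← hIdef]
  have e : (A0 * (cB / 4) + ε) * (I * (m * N) * VV (gT (wN δ N)) (zN N)) / Real.log N =
      (A0 * (cB / 4) + ε / 2) * (I * (m * N) * VV (gT (wN δ N)) (zN N)) / Real.log N +
      (ε / 4) * (I * (m * N) * VV (gT (wN δ N)) (zN N)) / Real.log N +
      (ε / 4) * (I * (m * N) * VV (gT (wN δ N)) (zN N)) / Real.log N := by ring
  rw [e, mul_add]
  exact add_le_add (add_le_add m1 m3) m2

end Pool.Agent.CU
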