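import Mathlib
import Pool.Agent.CU.Stmts
import Pool.Agent.CH.SP
import Pool.Agent.CU.T4P

set_option autoImplicit false

/-!
# CU / TSP

The upper bound for the sum over the primes `p` in `(zN, yN]` of the sifted sums over the `q`
divisible by `p`.
-/

namespace Pool.Agent.CU

open Finset Filter Pool.Agent.MT Pool.Agent.CH

theorem TSP_sizes {τ : ℝ} (hτ : 0 < τ) (hτ' : τ ≤ 1 / 100) : ∀ᶠ N : ℕ in atTop,
    (N : ℝ) ^ (1 / 20 : ℝ) ≤ zN N ∧ 2 ≤ zN N ∧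
      (zN N : ℝ) ≤ (N : ℝ) ^ (1 / 8 : ℝ) ∧ (zN N : ℝ) ≤ N ∧
      ∀ p ∈ (pr (yN N)).filter (fun p => zN N < p),
        (zN N : ℝ) ≤ (N : ℝ) ^ (1 / 2 - τ) / p ∧
        (N : ℝ) ^ (1 / 2 - τ) / p ≤ (zN N : ℝ) ^ 3 ∧
        (N : ℝ) ^ (1 / 2 - τ) / p ≤ N ∧ (0 : ℝ) ≤ 1 ∧ (1 : ℝ) ≤ 1 := by
  filter_upwards [SP_sizes hτ hτ' (δ := 1 / 8) (by norm_num) le_rfl 0] with N hsz
  obtain ⟨h3, s2, s3, s4, s5, s6, -, -, -, -⟩ := hsz
  have hN1 : (1 : ℝ) ≤ N := by exact_mod_cast (by omega : 1 ≤ N)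
  have hN0 : (0 : ℝ) < N := by linarith
  have hexp : ∀ a b : ℝ, a ≤ b → (N : ℝ) ^ a ≤ (N : ℝ) ^ b := fun a b hab =>
    Real.rpow_le_rpow_of_exponent_le hN1 hab
  refine ⟨(hexp _ _ (by norm_num)).trans s2, s3, s4, s4.trans ?_, ?_⟩
  · calc (N : ℝ) ^ (1 / 8 : ℝ) ≤ (N : ℝ) ^ (1 : ℝ) := hexp _ _ (by norm_num)
      _ = N := Real.rpow_one _
  intro p hp
  obtain ⟨c1, c2⟩ := mem_filter.1 hp
  obtain ⟨c3, c4⟩ := mem_filter.1 c1
  have b0 : (0 : ℝ) < p := by exact_mod_cast c4.pos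
  have b1 : (N : ℝ) ^ (1 / 8 : ℝ) < p := (Nat.floor_lt (by positivity)).1 c2
  have b2 : (p : ℝ) ≤ yN N := by
    have := mem_range.1 c3
    exact_mod_cast (by omega : p ≤ yN N)
  have b3 : (N : ℝ) ^ (1 / 2 - τ) / p ≤ (N : ℝ) ^ (3 / 8 - τ) := by
    rw [div_le_iff₀ b0]
    calc (N : ℝ) ^ (1 / 2 - τ) = (N : ℝ) ^ (3 / 8 - τ) * (N : ℝ) ^ (1 / 8 : ℝ) := by
          rw [← Real.rpow_add hN0]
          congr 1
          ring
      _ ≤ (N : ℝ) ^ (3 / 8 - τ) * p := mul_le_mul_of_nonneg_left b1.le (by positivity)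
  refine ⟨?_, b3.trans s6, b3.trans ?_, zero_le_one, le_rfl⟩
  · rw [le_div_iff₀ b0]
    calc (zN N : ℝ) * p ≤ (N : ℝ) ^ (1 / 8 : ℝ) * yN N :=
          mul_le_mul s4 b2 b0.le (by positivity)
      _ ≤ _ := s5
  · calc (N : ℝ) ^ (3 / 8 - τ) ≤ (N : ℝ) ^ (1 : ℝ) := hexp _ _ (by linarith)
      _ = N := Real.rpow_one _

/-- keep this signature -/
theorem thm_TSP (A0 : ℝ) (hA0 : 0 < A0) (h0 : St_LGU A0) (h2 : St_Gen) (h3 : St_VLow) (h4 : St_DensT) (h5 : St_P1) (h6 : St_ASum) : St_TSP A0 := by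
  intro η hη ε hε
  obtain ⟨L0, L1⟩ := SP_log6
  have ht0 : 0 < min (1 / 2) (ε / (6 * A0 + 12)) := lt_min (by norm_num) (by positivity)
  have ht3 : min (1 / 2) (ε / (6 * A0 + 12)) * (6 * A0 + 12) ≤ ε := by
    have : min (1 / 2) (ε / (6 * A0 + 12)) ≤ ε / (6 * A0 + 12) := min_le_right _ _
    rwa [le_div_iff₀ (by positivity)] at this
  set t : ℝ := min (1 / 2) (ε / (6 * A0 + 12)) with ht
  obtain ⟨τ₀, hτ₀, hτall⟩ := h6 t ht0
  set τ : ℝ := min τ₀ (1 / 100) with hτd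
  have hτ : 0 < τ := lt_min hτ₀ (by norm_num)
  have hτ1 : τ ≤ 1 / 100 := min_le_right _ _
  have hASum := hτall τ hτ.le (min_le_left _ _)
  obtain ⟨δ₁, hδ₁, H⟩ := T4P_gen A0 hA0 h0 h2 h3 h4 h5 hη (a := 1 / 8) (lam := 1 / 2)
    (L := Real.log 6 / 4) (t := t) (τ := τ) (ε := ε) zN yN (fun _ _ => 1) (by norm_num)
    (by norm_num) hτ L0 L1 ht0 (min_le_left _ _) hε ht3 (TSP_sizes hτ hτ1)
    (by
      filter_upwards [hASum, TSP_sizes hτ hτ1, eventually_ge_atTop 3] with N hN hsz hN3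
      obtain ⟨-, s3, -, -, s5⟩ := hsz
      refine le_trans (sum_le_sum fun p hp => ?_) hN
      obtain ⟨b3, b4, b5, -, -⟩ := s5 p hp
      obtain ⟨c1, c2⟩ := mem_filter.1 hp
      obtain ⟨c3, c4⟩ := mem_filter.1 c1
      have hN1 : (1 : ℝ) < N := by exact_mod_cast (by omega : 1 < N)
      have hN0 : (0 : ℝ) < N := by linarith
      have hlogN : 0 < Real.log N := Real.log_pos hN1
      have hz2 : (2 : ℝ) ≤ zN N := by exact_mod_cast s3
      have hzpos : (0 : ℝ) < zN N := by linarith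
      have hlogz0 : 0 < Real.log (zN N) := Real.log_pos (by linarith)
      have hp2 : (2 : ℝ) ≤ p := by exact_mod_cast c4.two_le
      have hu : Real.log ((N : ℝ) ^ (1 / 2 - τ) / p) =
          Real.log N * (1 / 2 - τ - Real.log p / Real.log N) := by
        have b0 : (p : ℝ) ≠ 0 := by linarith
        rw [Real.log_div (by positivity) b0, Real.log_rpow hN0]
        field_simp
      have e2 : 0 < Real.log ((N : ℝ) ^ (1 / 2 - τ) / p) :=
        lt_of_lt_of_le hlogz0 (Real.log_le_log hzpos b3)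
      rw [hu] at e2
      have e3 := (mul_pos_iff_of_pos_left hlogN).1 e2
      set u : ℝ := 1 / 2 - τ - Real.log p / Real.log N with hudef
      rw [one_mul, ← one_div_mul_one_div]
      have e4 : (1 : ℝ) / 8 / u = 1 / (8 * u) := by rw [div_div]
      rw [e4]
      exact mul_le_mul_of_nonneg_right (one_div_le_one_div_of_le (by linarith) (by linarith))
        (by positivity))
  refine ⟨δ₁, hδ₁, fun δ hδ hδ1 => ?_⟩
  obtain ⟨A, K, hH⟩ := H δ hδ hδ1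
  refine ⟨1 / 2 - τ / 2, A, K, by linarith, by linarith, ?_⟩
  filter_upwards [hH] with N hN m n hT hLev
  have := hN m n hT hLev
  simpa only [one_mul] using this

end Pool.Agent.CU
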