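import Mathlib
import Pool.Agent.CU.Stmts
import Pool.Agent.GV.BVW

set_option autoImplicit false

/-!
# CU / TSum

For r | m f put e = gcd(r,m), k = r/e: e | m, k | f (k | (m/e) f, (k, m/e) = 1), k <= F.  Since G >= 0 the left side is <= sum_{e | m} 2^omega(m/e) sum_{k <= F} G(e k) sum_{f <= F, k | f} K^omega(f) 2^omega(f)/phi(m f).  f = k f': omega(f) <= omega(k) + omega(f'), phi(m k f') >= phi(m) phi(k) phi(f'),
sum_{f' <= F} (2K)^omega(f')/phi(f') <= (C(1 + log F))^C, m/phi(m) <= C (1 + log m), (2K)^omega(k)/phi(k) <= C k^(-1+eps) (C depends on K, eps).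
-/

namespace Pool.Agent.CU

open Finset Filter Pool.Agent.MT Pool.Agent.CH

/-- `(K + 1)^ω(k) ≤ C k^ε` -/
theorem tsum_omega (K : ℕ) (ε : ℝ) (hε : 0 < ε) :
    ∃ C : ℝ, 0 < C ∧ ∀ k : ℕ, 1 ≤ k →
      ((K : ℝ) + 1) ^ k.primeFactors.card ≤ C * (k : ℝ) ^ ε := by
  obtain ⟨P, hP⟩ : ∃ P : ℕ, ((K : ℝ) + 1) ^ (1 / ε) ≤ P := exists_nat_ge _
  have hK1 : (1 : ℝ) ≤ (K : ℝ) + 1 := by
    have : (0 : ℝ) ≤ K := Nat.cast_nonneg K
    linarith
  have hK0 : (0 : ℝ) ≤ (K : ℝ) + 1 := by linarith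
  refine ⟨((K : ℝ) + 1) ^ (P + 1), by positivity, ?_⟩
  intro k hk
  have h2 : ∏ p ∈ k.primeFactors, ((K : ℝ) + 1) ≤
      ∏ p ∈ k.primeFactors, ((if p ≤ P then ((K : ℝ) + 1) else 1) * (p : ℝ) ^ ε) := by
    refine prod_le_prod (fun _ _ => hK0) ?_
    intro p hp
    have hp1 : (1 : ℝ) ≤ p := by
      exact_mod_cast (Nat.prime_of_mem_primeFactors hp).one_lt.le
    have hpe : (1 : ℝ) ≤ (p : ℝ) ^ ε := Real.one_le_rpow hp1 hε.le
    by_cases h : p ≤ P
    · rw [if_pos h]
      exact le_mul_of_one_le_right hK0 hpe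
    · rw [if_neg h, one_mul]
      have h3 : ((K : ℝ) + 1) ^ (1 / ε) ≤ p := by
        refine hP.trans ?_
        exact_mod_cast (not_le.1 h).le
      have h4 := Real.rpow_le_rpow (by positivity) h3 hε.le
      rw [← Real.rpow_mul hK0, one_div_mul_cancel hε.ne', Real.rpow_one] at h4
      exact h4
  rw [prod_mul_distrib] at h2
  rw [prod_const] at h2
  have h5 : ∏ p ∈ k.primeFactors, (if p ≤ P then ((K : ℝ) + 1) else 1) ≤
      ((K : ℝ) + 1) ^ (P + 1) := by
    rw [← prod_filter, prod_const]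
    refine pow_le_pow_right₀ hK1 ?_
    have h6 : (k.primeFactors.filter (fun p => p ≤ P)) ⊆ range (P + 1) := by
      intro p hp
      rw [mem_filter] at hp
      rw [mem_range]
      omega
    have := card_le_card h6
    rwa [card_range] at this
  have h7 : ∏ p ∈ k.primeFactors, (p : ℝ) ^ ε ≤ (k : ℝ) ^ ε := by
    rw [Real.finsetProd_rpow _ _ (fun p _ => Nat.cast_nonneg p)]
    refine Real.rpow_le_rpow (prod_nonneg fun p _ => Nat.cast_nonneg p) ?_ hε.le
    have h8 : ((∏ p ∈ k.primeFactors, p : ℕ) : ℝ) ≤ (k : ℝ) := by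
      exact_mod_cast Nat.le_of_dvd hk (Nat.prod_primeFactors_dvd k)
    rwa [Nat.cast_prod] at h8
  refine h2.trans ?_
  refine mul_le_mul h5 h7 (prod_nonneg fun p _ => ?_) (by positivity)
  exact Real.rpow_nonneg (Nat.cast_nonneg p) _

/-- one modulus: the divisors of `m f` -/
theorem tsum_div (m f : ℕ) (hm : 1 ≤ m) (hf : 1 ≤ f) (w : ℕ → ℝ) (hw : ∀ e, 0 ≤ w e)
    (G : ℕ → ℝ) (hG : ∀ r, 0 ≤ G r) :
    ∑ r ∈ (m * f).divisors.erase 1, w (Nat.gcd r m) * G r ≤
      ∑ e ∈ m.divisors, w e * ∑ k ∈ f.divisors, G (e * k) := by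
  classical
  have h1 : ∑ r ∈ (m * f).divisors.erase 1, w (Nat.gcd r m) * G r ≤
      ∑ r ∈ (m * f).divisors, w (Nat.gcd r m) * G r :=
    sum_le_sum_of_subset_of_nonneg (erase_subset _ _) fun r _ _ => mul_nonneg (hw _) (hG _)
  refine h1.trans ?_
  have h2 : ∑ e ∈ m.divisors, w e * ∑ k ∈ f.divisors, G (e * k) =
      ∑ x ∈ m.divisors ×ˢ f.divisors, w x.1 * G (x.1 * x.2) := by
    rw [sum_product]
    refine sum_congr rfl fun e _ => ?_
    rw [mul_sum]
  rw [h2]
  have h3 : ∑ r ∈ (m * f).divisors, w (Nat.gcd r m) * G r =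
      ∑ x ∈ (m * f).divisors.image (fun r => (Nat.gcd r m, r / Nat.gcd r m)),
        w x.1 * G (x.1 * x.2) := by
    rw [sum_image]
    · refine sum_congr rfl fun r _ => ?_
      dsimp only
      rw [Nat.mul_div_cancel' (Nat.gcd_dvd_left r m)]
    · intro r _ s _ hrs
      have e1 : Nat.gcd r m = Nat.gcd s m := congrArg Prod.fst hrs
      have e2 : r / Nat.gcd r m = s / Nat.gcd s m := congrArg Prod.snd hrs
      rw [← Nat.mul_div_cancel' (Nat.gcd_dvd_left r m), e2, e1,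
        Nat.mul_div_cancel' (Nat.gcd_dvd_left s m)]
  rw [h3]
  refine sum_le_sum_of_subset_of_nonneg ?_ fun x _ _ => mul_nonneg (hw _) (hG _)
  intro x hx
  rw [mem_image] at hx
  obtain ⟨r, hr, rfl⟩ := hx
  have hr' := Nat.dvd_of_mem_divisors hr
  rw [mem_product]
  refine ⟨Nat.mem_divisors.2 ⟨Nat.gcd_dvd_right r m, by omega⟩, ?_⟩
  refine Nat.mem_divisors.2 ⟨?_, by omega⟩
  dsimp only
  have hg : 0 < Nat.gcd r m := Nat.gcd_pos_of_pos_right _ (by omega)
  have h4 : r / Nat.gcd r m ∣ m / Nat.gcd r m * f := by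
    have h5 : r / Nat.gcd r m * Nat.gcd r m ∣ (m / Nat.gcd r m * f) * Nat.gcd r m := by
      rw [Nat.div_mul_cancel (Nat.gcd_dvd_left r m)]
      have : m / Nat.gcd r m * f * Nat.gcd r m = m / Nat.gcd r m * Nat.gcd r m * f := by ring
      rw [this, Nat.div_mul_cancel (Nat.gcd_dvd_right r m)]
      exact hr'
    exact Nat.dvd_of_mul_dvd_mul_right hg h5
  exact (Nat.coprime_div_gcd_div_gcd hg).dvd_of_dvd_mul_left h4

/-- exchange of the sums over `f` and its divisors -/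
theorem tsum_swap (K F : ℕ) (H : ℕ → ℝ) (hH : ∀ k, 0 ≤ H k) :
    ∑ f ∈ Icc 1 F, ((K : ℝ) + 1) ^ f.primeFactors.card / f * ∑ k ∈ f.divisors, H k ≤
      (∑ k ∈ Icc 1 F, ((K : ℝ) + 1) ^ k.primeFactors.card / k * H k) *
        ∑ f ∈ Icc 1 F, ((K : ℝ) + 1) ^ f.primeFactors.card / f := by
  classical
  have hK1 : (1 : ℝ) ≤ (K : ℝ) + 1 := by
    have : (0 : ℝ) ≤ K := Nat.cast_nonneg K
    linarith
  have hK0 : (0 : ℝ) ≤ (K : ℝ) + 1 := by linarith
  have ha0 : ∀ f : ℕ, 0 ≤ ((K : ℝ) + 1) ^ f.primeFactors.card / f := fun f => by positivity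
  have h1 : ∀ f ∈ Icc 1 F, ((K : ℝ) + 1) ^ f.primeFactors.card / f * ∑ k ∈ f.divisors, H k =
      ∑ k ∈ Icc 1 F, if k ∣ f then ((K : ℝ) + 1) ^ f.primeFactors.card / f * H k else 0 := by
    intro f hf
    rw [mem_Icc] at hf
    rw [mul_sum, ← sum_filter]
    refine sum_congr ?_ fun _ _ => rfl
    ext k
    rw [Nat.mem_divisors, mem_filter, mem_Icc]
    constructor
    · rintro ⟨h, h0⟩
      exact ⟨⟨Nat.pos_of_dvd_of_pos h (by omega), (Nat.le_of_dvd (by omega) h).trans hf.2⟩, h⟩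
    · rintro ⟨_, h⟩
      exact ⟨h, by omega⟩
  rw [sum_congr rfl h1, sum_comm, sum_mul]
  refine sum_le_sum fun k hk => ?_
  rw [mem_Icc] at hk
  rw [← sum_filter]
  have h2 : ∑ f ∈ (Icc 1 F).filter (fun f => k ∣ f), ((K : ℝ) + 1) ^ f.primeFactors.card / f * H k ≤
      ∑ f ∈ (Icc 1 F).image (fun f => k * f), ((K : ℝ) + 1) ^ f.primeFactors.card / f * H k := by
    refine sum_le_sum_of_subset_of_nonneg ?_ fun f _ _ => mul_nonneg (ha0 f) (hH k)
    intro f hf
    rw [mem_filter, mem_Icc] at hf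
    obtain ⟨⟨hf1, hf2⟩, g, rfl⟩ := hf
    rw [mem_image]
    refine ⟨g, ?_, rfl⟩
    rw [mem_Icc]
    constructor
    · exact Nat.pos_of_mul_pos_left (a := k) (by omega)
    · exact (Nat.le_mul_of_pos_left g (by omega)).trans hf2
  refine h2.trans ?_
  rw [sum_image]
  · rw [mul_assoc, mul_comm (H k), ← mul_assoc, mul_sum, sum_mul]
    refine sum_le_sum fun g hg => ?_
    rw [mem_Icc] at hg
    refine mul_le_mul_of_nonneg_right ?_ (hH k)
    rw [div_mul_div_comm, ← pow_add]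
    push_cast
    refine div_le_div_of_nonneg_right ?_ (by positivity)
    refine pow_le_pow_right₀ hK1 ?_
    rw [Nat.primeFactors_mul (by omega) (by omega)]
    exact card_union_le _ _
  · intro a _ b _ hab
    exact Nat.eq_of_mul_eq_mul_left (by omega) hab

/-- totient of `m f` -/
theorem tsum_tot (m f : ℕ) (hm : 1 ≤ m) (hf : 1 ≤ f) :
    1 / ((m * f).totient : ℝ) ≤ (1 / (m.totient : ℝ)) * (2 ^ f.primeFactors.card / f) := by
  have h1 : m.totient * f.totient ≤ (m * f).totient := Nat.totient_super_multiplicative m f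
  have hm0 : (0 : ℝ) < m.totient := by exact_mod_cast Nat.totient_pos.mpr hm
  have hf0 : (0 : ℝ) < f.totient := by exact_mod_cast Nat.totient_pos.mpr hf
  have h2 : (m.totient : ℝ) * f.totient ≤ ((m * f).totient : ℝ) := by exact_mod_cast h1
  calc 1 / ((m * f).totient : ℝ) ≤ 1 / ((m.totient : ℝ) * f.totient) :=
        one_div_le_one_div_of_le (by positivity) h2
    _ = (1 / (m.totient : ℝ)) * (1 / (f.totient : ℝ)) := by rw [one_div_mul_one_div]
    _ ≤ _ := mul_le_mul_of_nonneg_left (Pool.Agent.GV.bvw_totient f hf) (by positivity)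

theorem tsum_pb_prod (S : Finset ℕ) (hS : ∀ a ∈ S, 2 ≤ a) :
    ∏ a ∈ S, ((a : ℝ) / ((a : ℝ) - 1)) ≤ (S.card : ℝ) + 1 := by
  classical
  induction S using Finset.induction_on_max with
  | empty => simp
  | insert a s hmax ih =>
    have ha : a ∉ s := fun h => lt_irrefl a (hmax a h)
    have ha2 : 2 ≤ a := hS a (mem_insert_self a s)
    have ih' := ih (fun b hb => hS b (mem_insert_of_mem hb))
    have hcard : s.card + 1 ≤ a - 1 := by
      have h1 : insert a s ⊆ Icc 2 a := by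
        intro b hb
        rw [mem_Icc]
        refine ⟨hS b hb, ?_⟩
        rcases mem_insert.mp hb with h | h
        · exact h.le
        · exact (hmax b h).le
      have h2 := card_le_card h1
      rw [card_insert_of_notMem ha, Nat.card_Icc] at h2
      omega
    have hc : ((s.card : ℝ) + 1) ≤ (a : ℝ) - 1 := by
      have h1 : ((s.card + 1 : ℕ) : ℝ) ≤ ((a - 1 : ℕ) : ℝ) := by exact_mod_cast hcard
      rw [Nat.cast_sub (by omega)] at h1
      push_cast at h1
      exact h1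
    have hs0 : (0 : ℝ) ≤ s.card := Nat.cast_nonneg _
    rw [prod_insert ha, card_insert_of_notMem ha]
    have h3 : (a : ℝ) / ((a : ℝ) - 1) ≤ ((s.card : ℝ) + 2) / ((s.card : ℝ) + 1) := by
      rw [div_le_div_iff₀ (by linarith) (by linarith)]
      nlinarith
    have h4 : 0 ≤ ∏ a ∈ s, ((a : ℝ) / ((a : ℝ) - 1)) := by
      apply prod_nonneg
      intro b hb
      have : (2 : ℝ) ≤ b := by exact_mod_cast hS b (mem_insert_of_mem hb)
      apply div_nonneg <;> linarith
    calc (a : ℝ) / ((a : ℝ) - 1) * ∏ a ∈ s, ((a : ℝ) / ((a : ℝ) - 1))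
        ≤ ((s.card : ℝ) + 2) / ((s.card : ℝ) + 1) * ((s.card : ℝ) + 1) := by
          apply mul_le_mul h3 ih' h4 (by positivity)
      _ = (s.card : ℝ) + 2 := by field_simp
      _ = _ := by push_cast; ring

theorem tsum_pb_omega (m : ℕ) (hm : 1 ≤ m) :
    (m.primeFactors.card : ℝ) ≤ Real.log m / Real.log 2 := by
  have h1 : 2 ^ m.primeFactors.card ≤ m := by
    calc 2 ^ m.primeFactors.card ≤ ∏ p ∈ m.primeFactors, p := by
          apply pow_card_le_prod
          intro p hp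
          exact (Nat.prime_of_mem_primeFactors hp).two_le
      _ ≤ m := Nat.le_of_dvd hm (Nat.prod_primeFactors_dvd m)
  have h2 : ((2 : ℝ)) ^ m.primeFactors.card ≤ m := by exact_mod_cast h1
  have h3 := Real.log_le_log (by positivity) h2
  rw [Real.log_pow] at h3
  rw [le_div_iff₀ (Real.log_pos (by norm_num))]
  exact h3

theorem tsum_pb_totient (m : ℕ) (hm : 1 ≤ m) :
    1 / (m.totient : ℝ) ≤ (1 + Real.log m / Real.log 2) / m := by
  have hm0 : (0 : ℝ) < m := by exact_mod_cast hm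
  have hφ : (0 : ℝ) < m.totient := by exact_mod_cast Nat.totient_pos.mpr hm
  have h1 : ((m.totient * ∏ p ∈ m.primeFactors, p : ℕ) : ℝ) =
      ((m * ∏ p ∈ m.primeFactors, (p - 1) : ℕ) : ℝ) := by
    rw [Nat.totient_mul_prod_primeFactors]
  push_cast at h1
  have hp2 : ∀ p ∈ m.primeFactors, 2 ≤ p := fun p hp => (Nat.prime_of_mem_primeFactors hp).two_le
  have h2 : ∏ p ∈ m.primeFactors, ((p - 1 : ℕ) : ℝ) = ∏ p ∈ m.primeFactors, ((p : ℝ) - 1) := by
    refine prod_congr rfl fun p hp => ?_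
    have := hp2 p hp
    rw [Nat.cast_sub (by omega)]; simp
  have hpos : 0 < ∏ p ∈ m.primeFactors, ((p : ℝ) - 1) := by
    apply prod_pos
    intro p hp
    have : (2 : ℝ) ≤ p := by exact_mod_cast hp2 p hp
    linarith
  have h3 : (m : ℝ) / m.totient = ∏ p ∈ m.primeFactors, ((p : ℝ) / ((p : ℝ) - 1)) := by
    rw [prod_div_distrib, div_eq_div_iff hφ.ne' hpos.ne', ← h2, ← h1]
    ring
  have h4 : (m : ℝ) / m.totient ≤ 1 + Real.log m / Real.log 2 := by
    rw [h3]
    have := tsum_pb_prod m.primeFactors hp2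
    have h5 := tsum_pb_omega m hm
    linarith
  rw [le_div_iff₀ hm0]
  calc 1 / (m.totient : ℝ) * m = (m : ℝ) / m.totient := by ring
    _ ≤ _ := h4


/-- keep this signature -/
theorem thm_TSum : St_TSum := by
  intro K ε hε
  obtain ⟨C0, hC0, hom⟩ := tsum_omega (4 * K + 3) ε hε
  obtain ⟨C1, hC1⟩ : ∃ C1 : ℕ, 3 * C0 ≤ C1 := exists_nat_ge _
  refine ⟨max C1 (4 * K + 5), ?_⟩
  intro m F G hm hF hG
  set Q : ℕ := 4 * K + 3 with hQ
  have hm0 : (0 : ℝ) < m := by exact_mod_cast hm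
  have hmF : (1 : ℝ) ≤ (m : ℝ) * F := by
    have : 1 ≤ m * F := Nat.mul_pos hm hF
    exact_mod_cast this
  have hL : 0 ≤ Real.log ((m : ℝ) * F) := Real.log_nonneg hmF
  set L := 1 + Real.log ((m : ℝ) * F) with hLdef
  have hL1 : 1 ≤ L := by linarith
  have hL0 : 0 ≤ L := by linarith
  have hm1 : (1 : ℝ) ≤ m := by exact_mod_cast hm
  have hF1 : (1 : ℝ) ≤ F := by exact_mod_cast hF
  have hlm : 1 + Real.log m / Real.log 2 ≤ 3 * L := by
    have h1 : Real.log m ≤ Real.log ((m : ℝ) * F) :=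
      Real.log_le_log hm0 (le_mul_of_one_le_right hm0.le hF1)
    have h2 : (0.69 : ℝ) < Real.log 2 := by
      have := Real.log_two_gt_d9; linarith
    have h0 : 0 ≤ Real.log m := Real.log_nonneg hm1
    have h3 : Real.log m / Real.log 2 ≤ 2 * Real.log m := by
      rw [div_le_iff₀ (by linarith)]
      nlinarith
    linarith
  have hlF : 1 + Real.log F ≤ L := by
    have h1 : Real.log F ≤ Real.log ((m : ℝ) * F) :=
      Real.log_le_log (by linarith) (le_mul_of_one_le_left (by linarith) hm1)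
    linarith
  have hlF0 : 0 ≤ 1 + Real.log F := by
    have := Real.log_nonneg hF1
    linarith
  -- weights
  set w : ℕ → ℝ := fun e => 2 ^ (m / e).primeFactors.card with hw
  have hw0 : ∀ e, 0 ≤ w e := fun e => by positivity
  set Hf : ℕ → ℝ := fun k => ∑ e ∈ m.divisors, w e * G (e * k) with hH
  have hH0 : ∀ k, 0 ≤ Hf k := fun k => sum_nonneg fun e _ => mul_nonneg (hw0 e) (hG _)
  have hQc : (Q : ℝ) + 1 = 4 * ((K : ℝ) + 1) := by
    rw [hQ]; push_cast; ring
  have hK0 : (0 : ℝ) ≤ K := Nat.cast_nonneg K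
  -- one f
  have h1 : ∀ f ∈ Icc 1 F, (K : ℝ) ^ f.primeFactors.card * (1 / ((m * f).totient : ℝ) *
      ∑ r ∈ (m * f).divisors.erase 1,
        2 ^ ((m / Nat.gcd r m).primeFactors.card + f.primeFactors.card) * G r) ≤
      1 / (m.totient : ℝ) * (((Q : ℝ) + 1) ^ f.primeFactors.card / f * ∑ k ∈ f.divisors, Hf k) := by
    intro f hf
    rw [mem_Icc] at hf
    have e1 : ∑ r ∈ (m * f).divisors.erase 1,
        2 ^ ((m / Nat.gcd r m).primeFactors.card + f.primeFactors.card) * G r =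
        2 ^ f.primeFactors.card * ∑ r ∈ (m * f).divisors.erase 1, w (Nat.gcd r m) * G r := by
      rw [mul_sum]
      refine sum_congr rfl fun r _ => ?_
      rw [hw, pow_add]
      ring
    have e2 : ∑ e ∈ m.divisors, w e * ∑ k ∈ f.divisors, G (e * k) = ∑ k ∈ f.divisors, Hf k := by
      rw [hH, sum_comm]
      refine sum_congr rfl fun e _ => ?_
      rw [mul_sum]
    have e3 := tsum_div m f hm hf.1 w hw0 G hG
    rw [e2] at e3
    rw [e1]
    have e4 := tsum_tot m f hm hf.1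
    have e5 : 0 ≤ ∑ r ∈ (m * f).divisors.erase 1, w (Nat.gcd r m) * G r :=
      sum_nonneg fun r _ => mul_nonneg (hw0 _) (hG _)
    have e6 : 0 ≤ ∑ k ∈ f.divisors, Hf k := sum_nonneg fun k _ => hH0 k
    have hf0 : (0 : ℝ) < f := by exact_mod_cast hf.1
    have e7 : (K : ℝ) ^ f.primeFactors.card ≤ ((K : ℝ) + 1) ^ f.primeFactors.card :=
      pow_le_pow_left₀ hK0 (by linarith) _
    calc (K : ℝ) ^ f.primeFactors.card * (1 / ((m * f).totient : ℝ) *
          (2 ^ f.primeFactors.card * ∑ r ∈ (m * f).divisors.erase 1, w (Nat.gcd r m) * G r))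
        ≤ ((K : ℝ) + 1) ^ f.primeFactors.card *
          ((1 / (m.totient : ℝ)) * (2 ^ f.primeFactors.card / f) *
          (2 ^ f.primeFactors.card * ∑ k ∈ f.divisors, Hf k)) := by
          gcongr
      _ = _ := by
          have e8 : ((Q : ℝ) + 1) ^ f.primeFactors.card =
              ((K : ℝ) + 1) ^ f.primeFactors.card * 2 ^ f.primeFactors.card *
                2 ^ f.primeFactors.card := by
            rw [← mul_pow, ← mul_pow, hQc]
            congr 1
            ring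
          rw [e8]
          ring
  have h2 := tsum_swap Q F Hf hH0
  have h3 : ∑ f ∈ Icc 1 F, ((Q : ℝ) + 1) ^ f.primeFactors.card / f ≤ L ^ (Q + 1) := by
    have h4 := Pool.Agent.GV.bvw_omega_sum F hF (Q + 1)
    push_cast at h4
    exact h4.trans (pow_le_pow_left₀ hlF0 hlF _)
  have h5 : ∑ k ∈ Icc 1 F, ((Q : ℝ) + 1) ^ k.primeFactors.card / k * Hf k ≤
      C0 * ∑ k ∈ Icc 1 F, (k : ℝ) ^ (-1 + ε) * Hf k := by
    rw [mul_sum]
    refine sum_le_sum fun k hk => ?_
    rw [mem_Icc] at hk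
    have hk0 : (0 : ℝ) < k := by exact_mod_cast hk.1
    rw [← mul_assoc]
    refine mul_le_mul_of_nonneg_right ?_ (hH0 k)
    rw [Real.rpow_add hk0, Real.rpow_neg_one, div_eq_mul_inv]
    calc ((Q : ℝ) + 1) ^ k.primeFactors.card * (k : ℝ)⁻¹ ≤ (C0 * (k : ℝ) ^ ε) * (k : ℝ)⁻¹ :=
          mul_le_mul_of_nonneg_right (hom k hk.1) (by positivity)
      _ = _ := by ring
  have h6 : 0 ≤ ∑ k ∈ Icc 1 F, (k : ℝ) ^ (-1 + ε) * Hf k :=
    sum_nonneg fun k _ => mul_nonneg (by positivity) (hH0 k)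
  have h7 : ∑ k ∈ Icc 1 F, (k : ℝ) ^ (-1 + ε) * Hf k =
      m * ∑ e ∈ m.divisors, (2 : ℝ) ^ (m / e).primeFactors.card / m *
        ∑ k ∈ Icc 1 F, (k : ℝ) ^ (-1 + ε) * G (e * k) := by
    rw [mul_sum, hH]
    simp only [mul_sum]
    rw [sum_comm]
    refine sum_congr rfl fun e _ => ?_
    refine sum_congr rfl fun k _ => ?_
    rw [hw]
    field_simp
  have h8 := tsum_pb_totient m hm
  set S := ∑ e ∈ m.divisors, (2 : ℝ) ^ (m / e).primeFactors.card / m *
        ∑ k ∈ Icc 1 F, (k : ℝ) ^ (-1 + ε) * G (e * k) with hS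
  have hS0 : 0 ≤ S := by
    refine sum_nonneg fun e _ => mul_nonneg (by positivity) (sum_nonneg fun k _ => ?_)
    exact mul_nonneg (by positivity) (hG _)
  calc ∑ f ∈ Icc 1 F, (K : ℝ) ^ f.primeFactors.card * (1 / ((m * f).totient : ℝ) *
      ∑ r ∈ (m * f).divisors.erase 1,
        2 ^ ((m / Nat.gcd r m).primeFactors.card + f.primeFactors.card) * G r)
      ≤ ∑ f ∈ Icc 1 F, 1 / (m.totient : ℝ) *
        (((Q : ℝ) + 1) ^ f.primeFactors.card / f * ∑ k ∈ f.divisors, Hf k) := sum_le_sum h1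
    _ = 1 / (m.totient : ℝ) * ∑ f ∈ Icc 1 F,
        ((Q : ℝ) + 1) ^ f.primeFactors.card / f * ∑ k ∈ f.divisors, Hf k := by rw [mul_sum]
    _ ≤ ((3 * L) / m) * ((C0 * (m * S)) * L ^ (Q + 1)) := by
        have e1 : 1 / (m.totient : ℝ) ≤ (3 * L) / m :=
          h8.trans (div_le_div_of_nonneg_right hlm hm0.le)
        have e2 : ∑ f ∈ Icc 1 F,
            ((Q : ℝ) + 1) ^ f.primeFactors.card / f * ∑ k ∈ f.divisors, Hf k ≤
            (C0 * (m * S)) * L ^ (Q + 1) := by
          refine h2.trans ?_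
          rw [← h7]
          exact mul_le_mul h5 h3 (sum_nonneg fun f _ => by positivity)
            (mul_nonneg hC0.le h6)
        refine mul_le_mul e1 e2 ?_ (by positivity)
        exact sum_nonneg fun f _ => mul_nonneg (by positivity) (sum_nonneg fun k _ => hH0 k)
    _ = (3 * C0) * L ^ (Q + 2) * S := by
        rw [pow_succ L (Q + 1)]
        field_simp
    _ ≤ ((max C1 (4 * K + 5) : ℕ) : ℝ) * L ^ (max C1 (4 * K + 5)) * S := by
        have e1 : (3 * C0) ≤ ((max C1 (4 * K + 5) : ℕ) : ℝ) := by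
          refine hC1.trans ?_
          exact_mod_cast le_max_left _ _
        have e2 : L ^ (Q + 2) ≤ L ^ (max C1 (4 * K + 5)) := by
          refine pow_le_pow_right₀ hL1 ?_
          refine le_trans ?_ (le_max_right _ _)
          omega
        refine mul_le_mul_of_nonneg_right ?_ hS0
        exact mul_le_mul e1 e2 (by positivity) (by positivity)

end Pool.Agent.CU
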