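import Mathlib
import Pool.Agent.CU.Stmts
import Pool.Agent.CH.VR

set_option autoImplicit false

/-!
# CU / VRG

Mertens for the linear part of the density: for `w < l ≤ y` now `g l ≥ 1/l` (no exceptional `l`
because `J = 0`), the rest is as in CH / VR.
-/

namespace Pool.Agent.CU

open Finset Filter Pool.Agent.MT Pool.Agent.CH

/-- keep this signature -/
theorem thm_VRG : St_VRG := by
  intro δ ε hδ hδ8 hε
  set κ : ℝ := min (1 / 2) (ε / 2) with hκ
  have hκ0 : 0 < κ := by rw [hκ]; exact lt_min (by norm_num) (by linarith)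
  have hκ1 : κ ≤ 1 / 2 := min_le_left _ _
  have hκ2 : κ ≤ ε / 2 := min_le_right _ _
  have hMR := thm_MR (1 / 8) (1 / 3) 1 κ (by norm_num) (by norm_num) hκ0
  filter_upwards [hMR, eventually_ge_atTop 1] with N hN1 hN3
  intro g hg
  obtain ⟨hgb, hgl, hgJ⟩ := hg
  have hN0 : (1 : ℝ) ≤ N := by exact_mod_cast hN3
  -- `z ≤ y`, `w ≤ z`
  have hzy : zN N ≤ yN N := by
    unfold zN yN
    apply (Nat.floor_le_ceil _).trans
    apply Nat.ceil_le_ceil
    exact Real.rpow_le_rpow_of_exponent_le hN0 (by norm_num)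
  have hwz : ⌊(N : ℝ) ^ δ⌋₊ ≤ zN N := by
    unfold zN
    apply Nat.floor_le_floor
    exact Real.rpow_le_rpow_of_exponent_le hN0 hδ8.le
  have hsplit : VV g (yN N) = VV g (zN N) * ∏ l ∈ pr (yN N) \ pr (zN N), (1 - g l) := by
    unfold VV
    rw [mul_comm, prod_sdiff (vr_pr_mono hzy)]
  have hVV0 : 0 ≤ VV g (zN N) := by
    unfold VV
    apply prod_nonneg
    intro l hl
    unfold pr at hl
    rw [mem_filter] at hl
    have := (hgb l hl.2).2.1
    linarith
  set D := pr (yN N) \ pr (zN N) with hD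
  have hDmem : ∀ l ∈ D, l.Prime ∧ zN N < l ∧ l ≤ yN N := by
    intro l hl
    rw [hD, Finset.mem_sdiff] at hl
    unfold pr at hl
    rw [mem_filter, mem_filter, mem_range, mem_range] at hl
    refine ⟨hl.1.2, ?_, by omega⟩
    by_contra hcon
    exact hl.2 ⟨by omega, hl.1.2⟩
  have hge : ∀ l ∈ D, 1 / (l : ℝ) ≤ g l := by
    intro l hl
    obtain ⟨h1, h2, h3⟩ := hDmem l hl
    rcases hgl l h1 (lt_of_le_of_lt hwz h2) h3 with h4 | h4
    · exfalso
      rw [Nat.le_zero, Finset.card_eq_zero, Finset.filter_eq_empty_iff] at hgJ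
      refine hgJ (x := l) ?_ ⟨lt_of_le_of_lt hwz h2, h4⟩
      unfold pr
      rw [mem_filter, mem_range]
      exact ⟨by omega, h1⟩
    · exact h4.1
  have hprod : ∏ l ∈ D, (1 - g l) ≤ ∏ l ∈ D, Real.exp (-(1 / (l : ℝ))) := by
    apply Finset.prod_le_prod
    · intro l hl
      have := (hgb l (hDmem l hl).1).2.1
      linarith
    · intro l hl
      have h1 := hge l hl
      have h2 := Real.add_one_le_exp (-(1 / (l : ℝ)))
      linarith
  rw [← Real.exp_sum] at hprod
  -- the sum of reciprocals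
  have hsum : Real.log (8 / 3) - κ ≤ ∑ l ∈ D, 1 / (l : ℝ) := by
    have h1 := hN1 (1 / 8) (1 / 3) le_rfl (by norm_num) le_rfl (fun _ => 1)
      (fun x _ _ => by simp) (fun x x' _ _ _ _ => by simp)
    rw [abs_le] at h1
    have h2 : ∫ x in (1 / 8 : ℝ)..(1 / 3 : ℝ), 1 / x = Real.log (8 / 3) := by
      rw [integral_one_div_of_pos (by norm_num) (by norm_num)]
      norm_num
    have h1' := h1.1
    have h3 : ∫ x in (1 / 8 : ℝ)..(1 / 3 : ℝ), (fun _ : ℝ => (1 : ℝ)) x / x =
        Real.log (8 / 3) := h2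
    have h4 : ∑ p ∈ (range (⌊(N : ℝ) ^ (1 / 3 : ℝ)⌋₊ + 1)).filter (fun p : ℕ => p.Prime ∧
        (N : ℝ) ^ (1 / 8 : ℝ) < p ∧ (p : ℝ) ≤ (N : ℝ) ^ (1 / 3 : ℝ)), 1 / (p : ℝ) ≤
        ∑ l ∈ D, 1 / (l : ℝ) := by
      apply sum_le_sum_of_subset_of_nonneg
      · intro p hp
        rw [mem_filter, mem_range] at hp
        obtain ⟨hp1, hp2, hp3, hp4⟩ := hp
        rw [hD, Finset.mem_sdiff]
        unfold pr
        rw [mem_filter, mem_filter, mem_range, mem_range]
        refine ⟨⟨?_, hp2⟩, ?_⟩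
        · have : p ≤ yN N := by
            unfold yN
            have := hp4.trans (Nat.le_ceil _)
            exact_mod_cast this
          omega
        · rintro ⟨h5, -⟩
          have h6 : zN N < p := by
            unfold zN
            have h7 := Nat.floor_le (Real.rpow_nonneg (by linarith : (0 : ℝ) ≤ N) (1 / 8 : ℝ))
            exact_mod_cast lt_of_le_of_lt h7 hp3
          omega
      · intro l _ _
        positivity
    linarith
  have hlog : Real.exp (-Real.log (8 / 3)) = 3 / 8 := by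
    rw [Real.exp_neg, Real.exp_log (by norm_num)]
    norm_num
  have hfin : ∏ l ∈ D, (1 - g l) ≤ 3 / 8 + ε := by
    refine hprod.trans ?_
    rw [sum_neg_distrib]
    calc Real.exp (-∑ l ∈ D, 1 / (l : ℝ))
        ≤ Real.exp (-Real.log (8 / 3) + 2 * κ) := by
          apply Real.exp_le_exp.2
          linarith
      _ = 3 / 8 * Real.exp (2 * κ) := by rw [Real.exp_add, hlog]
      _ ≤ 3 / 8 * (1 + 2 * κ + (2 * κ) ^ 2) := by
          have h6 : Real.exp (2 * κ) ≤ 1 + 2 * κ + (2 * κ) ^ 2 := by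
            have h7 := Real.abs_exp_sub_one_sub_id_le (x := 2 * κ)
              (by rw [abs_of_pos (by linarith)]; linarith)
            rw [abs_le] at h7
            linarith [h7.2]
          linarith
      _ ≤ 3 / 8 + ε := by nlinarith
  rw [hsplit, mul_comm]
  exact mul_le_mul_of_nonneg_right hfin hVV0

end Pool.Agent.CU
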