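import Mathlib
import Pool.Agent.CU.Stmts

set_option autoImplicit false

/-!
# CU / Wt4

The weight `1 - (5/4) ∑ (1 - (21/5) log p / log N)` detects four prime factors.
-/

namespace Pool.Agent.CU

open Finset Filter Pool.Agent.MT Pool.Agent.CH

open scoped ArithmeticFunction.Omega

/-- keep this signature -/
theorem thm_Wt4 : St_Wt4 := by
  classical
  intro N q hq1 hqN hsq hw
  refine ⟨by omega, ?_⟩
  have hq0 : q ≠ 0 := by omega
  have hN2 : 2 ≤ N := by omega
  have hNR : (2 : ℝ) ≤ N := by exact_mod_cast hN2
  have hqR : (0 : ℝ) < q := by exact_mod_cast hq1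
  have hL : 0 < Real.log N := Real.log_pos (by linarith)
  have hlq : Real.log q < Real.log N := Real.log_lt_log hqR (by exact_mod_cast hqN)
  set w : ℕ → ℝ := fun p => 1 - 21 / 5 * (Real.log p / Real.log N) with hwdef
  have h1 : ∑ p ∈ q.primeFactors, (q.factorization p : ℝ) * w p =
      (Ω q : ℝ) - 21 / 5 * (Real.log q / Real.log N) := by
    have e1 : (Ω q : ℝ) = ∑ p ∈ q.primeFactors, (q.factorization p : ℝ) := by
      rw [ArithmeticFunction.cardFactors_eq_sum_factorization, Finsupp.sum]
      push_cast
      rfl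
    have e2 : Real.log q = ∑ p ∈ q.primeFactors, (q.factorization p : ℝ) * Real.log p := by
      rw [Real.log_nat_eq_sum_factorization, Finsupp.sum]
      rfl
    rw [e1, e2, Finset.sum_div, Finset.mul_sum, ← Finset.sum_sub_distrib]
    apply Finset.sum_congr rfl
    intro p _
    rw [hwdef]
    ring
  have h2 : ∑ p ∈ q.primeFactors, (q.factorization p : ℝ) * w p ≤
      ∑ p ∈ (pr (y4 N)).filter (fun p => p ∣ q), w p := by
    have hsub : (pr (y4 N)).filter (fun p => p ∣ q) ⊆ q.primeFactors := by
      intro p hp
      rw [Finset.mem_filter, pr, Finset.mem_filter] at hp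
      exact Nat.mem_primeFactors.2 ⟨hp.1.2, hp.2, hq0⟩
    rw [← Finset.sum_sdiff hsub]
    have h3 : ∑ p ∈ q.primeFactors \ (pr (y4 N)).filter (fun p => p ∣ q),
        (q.factorization p : ℝ) * w p ≤ 0 := by
      apply Finset.sum_nonpos
      intro p hp
      rw [Finset.mem_sdiff] at hp
      have hpp := Nat.prime_of_mem_primeFactors hp.1
      have hpq := Nat.dvd_of_mem_primeFactors hp.1
      have hpy : y4 N < p := by
        by_contra hcon
        apply hp.2
        rw [Finset.mem_filter, pr, Finset.mem_filter, Finset.mem_range]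
        exact ⟨⟨by omega, hpp⟩, hpq⟩
      have h4 : (N : ℝ) ^ (5 / 21 : ℝ) < p := by
        have h5 := Nat.lt_floor_add_one ((N : ℝ) ^ (5 / 21 : ℝ))
        have h6 : ((y4 N : ℕ) : ℝ) + 1 ≤ p := by exact_mod_cast hpy
        unfold y4 at h6
        linarith
      have h7 : 5 / 21 * Real.log N < Real.log p := by
        rw [← Real.log_rpow (by linarith)]
        exact Real.log_lt_log (by positivity) h4
      have h8 : w p ≤ 0 := by
        rw [hwdef]
        have h9 : 5 / 21 ≤ Real.log p / Real.log N := by
          rw [le_div_iff₀ hL]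
          exact h7.le
        show 1 - 21 / 5 * (Real.log p / Real.log N) ≤ 0
        linarith
      exact mul_nonpos_of_nonneg_of_nonpos (Nat.cast_nonneg _) h8
    have h4 : ∑ p ∈ (pr (y4 N)).filter (fun p => p ∣ q), (q.factorization p : ℝ) * w p =
        ∑ p ∈ (pr (y4 N)).filter (fun p => p ∣ q), w p := by
      apply Finset.sum_congr rfl
      intro p hp
      rw [Finset.mem_filter, pr, Finset.mem_filter, Finset.mem_range] at hp
      have hpp := hp.1.2
      have h5 : 1 ≤ q.factorization p :=
        (hpp.dvd_iff_one_le_factorization hq0).1 hp.2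
      have h6 : ¬ 2 ≤ q.factorization p := by
        intro h7
        exact hsq p hpp (by omega) ((hpp.pow_dvd_iff_le_factorization hq0).2 h7)
      have h7 : q.factorization p = 1 := by omega
      rw [h7]
      ring
    linarith
  have h3 : Real.log q / Real.log N < 1 := by
    rw [div_lt_one hL]
    exact hlq
  have h4 : (Ω q : ℝ) < 5 := by
    have hw' : 0 < 1 - 5 / 4 * ∑ p ∈ (pr (y4 N)).filter (fun p => p ∣ q), w p := hw
    linarith
  have h5 : Ω q < 5 := by exact_mod_cast h4
  omega

end Pool.Agent.CU
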