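import Mathlib
import Pool.Agent.CU.PV
import Pool.Agent.CU.LSm
import Pool.Agent.CU.TIIm
import Pool.Agent.CU.LCm
import Pool.Agent.CU.JB
import Pool.Agent.CU.TRed
import Pool.Agent.CU.TSum
import Pool.Agent.CU.TBV3
import Pool.Agent.CU.TBV2
import Pool.Agent.CU.LinG
import Pool.Agent.CU.DensT
import Pool.Agent.CU.VRG
import Pool.Agent.CU.T4A
import Pool.Agent.CU.T4P
import Pool.Agent.CU.Wt4
import Pool.Agent.CU.Fin4
import Pool.Agent.CU.TSA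
import Pool.Agent.CU.TSP
import Pool.Agent.CU.AvgR
import Pool.Agent.CU.TSB
import Pool.Agent.CU.FinT
import Pool.Agent.CU.PI
import Pool.Agent.CU.FinD
import Pool.Agent.CH.Asm

set_option autoImplicit false

/-!
# CU: assembly
-/

namespace Pool.Agent.CU

open Finset Filter Pool.Agent.MT Pool.Agent.CH

theorem fin4 (h : St_LG) : St_Fin4 := by
  obtain ⟨A0, hA0, hU, hL⟩ := h
  exact thm_Fin4 ⟨A0, hA0, thm_T4A A0 hA0 hL thm_Gen thm_VLow thm_DensT thm_P1,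
    thm_T4P A0 hA0 hU thm_Gen thm_VLow thm_DensT thm_P1 thm_MR⟩ thm_Wt4
    (thm_TBV3 thm_TRed (thm_JB thm_PV) thm_TSum (thm_LCm thm_PV (thm_TIIm thm_LSm)))
    thm_VLow thm_DensT

theorem finT (h : St_LG) : St_FinT := by
  obtain ⟨A0, hA0, hU, hL⟩ := h
  have hPBVW := thm_PBVW (thm_PBV thm_PRed thm_PLC thm_PSW)
  exact thm_FinT ⟨A0, hA0, thm_TSA A0 hA0 hL thm_Gen thm_VLow thm_DensT thm_P1,
    thm_TSP A0 hA0 hU thm_Gen thm_VLow thm_DensT thm_P1 (thm_ASum thm_MR),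
    thm_TSB A0 hA0 hU hPBVW thm_Gen thm_VLow thm_DensT (thm_BMass thm_MR thm_P2) thm_VRG
      thm_AvgR⟩ thm_cB thm_Wt (thm_TBV2 thm_TRed (thm_JB thm_PV) thm_TSum) thm_VLow thm_DensT

end Pool.Agent.CU
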