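import Mathlib
import Pool.Agent.CU.Stmts

set_option autoImplicit false

/-!
# CU: the four ranges of `m` together
-/

namespace Pool.Agent.CU

open Finset Filter Pool.Agent.MT Pool.Agent.CH

theorem final_mono {k l n : ℕ} (h : k ≤ l) (hn : Nat.IsAtMostAlmostPrime k n) :
    Nat.IsAtMostAlmostPrime l n := ⟨hn.1, hn.2.trans h⟩

theorem final_two {k : ℕ} (h : 1 ≤ k) : Nat.IsAtMostAlmostPrime k 2 := by
  refine ⟨by norm_num, ?_⟩
  rw [ArithmeticFunction.cardFactors_apply_prime Nat.prime_two]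
  exact h

theorem final_all (h4 : St_Fin4) (hT : St_FinT) (hD : St_FinD) (hC : St_Chen) : St_All := by
  obtain ⟨R1, B1, h4⟩ := h4
  obtain ⟨R2, B2, κ, hκ, hT⟩ := hT
  obtain ⟨R3, hC⟩ := hC
  refine ⟨R1 + R2 + R3 + 1, κ, hκ, ?_⟩
  have hlog : ∀ᶠ n : ℕ in atTop, (2 : ℝ) ≤ Real.log n :=
    (Real.tendsto_log_atTop.comp tendsto_natCast_atTop_atTop).eventually_ge_atTop 2
  filter_upwards [h4, hT, hD (B1 + B2 + 1), hC (B1 + B2), hlog] with n h4 hT hD hC hlog m hm
  have hlog1 : (1 : ℝ) ≤ Real.log n := by linarith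
  have hm1 : 1 ≤ m := hm.1
  have hmn : 2 * m + 1 < n := hm.2.1
  rcases le_or_gt (m : ℝ) (Real.log n ^ (B1 + B2)) with hs | hs
  · -- small `m`
    obtain ⟨p, hp, hpn, h2, h3⟩ := hC m hm hs
    have hq : 2 ≤ (n - p) / m := by
      by_contra hlt
      have h5 : (n - p) / m ≤ 1 := by omega
      have h6 : ((n - p) / m) ^ 2 - 2 = 0 := by
        have : ((n - p) / m) ^ 2 ≤ 1 ^ 2 := Nat.pow_le_pow_left h5 2
        omega
      exact h3.1 h6
    exact ⟨p, hp, hpn, hq, final_mono (by norm_num) h2, fun _ => h2, final_mono (by omega) h3⟩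
  have hsB : ∀ B, B ≤ B1 + B2 → Real.log n ^ B ≤ m := fun B hB =>
    (pow_le_pow_right₀ hlog1 hB).trans hs.le
  set N := n / m with hN
  have htile : Tile N m n := by
    refine ⟨hm1, Nat.mul_div_le n m, ?_⟩
    exact Nat.lt_mul_div_succ n (by omega)
  rcases le_or_gt (Real.log n ^ (B1 + B2)) (N : ℝ) with hbig | hbig
  · rcases le_or_gt (m : ℝ) ((n : ℝ) ^ κ) with hk | hk
    · obtain ⟨p, hp, hpn, hq, h2, h3⟩ := hT m N htile (hsB B2 (by omega)) hk
      exact ⟨p, hp, hpn, hq, final_mono (by norm_num) h2, fun _ => h2,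
        final_mono (by omega) h3⟩
    · obtain ⟨p, hp, hpn, hq, h2, h3⟩ := h4 m N htile (hsB B1 (by omega))
        ((pow_le_pow_right₀ hlog1 (by omega)).trans hbig)
      exact ⟨p, hp, hpn, hq, h2, fun h => absurd h (not_le.2 hk), final_mono (by omega) h3⟩
  · -- large `m`
    have hlt : (n : ℝ) ≤ m * Real.log n ^ (B1 + B2 + 1) := by
      have h5 : (n : ℝ) < m * (N + 1) := by exact_mod_cast htile.2.2
      have hm0 : (0 : ℝ) < m := by exact_mod_cast hm1
      have h6 : (N : ℝ) + 1 ≤ Real.log n ^ (B1 + B2 + 1) := by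
        have h7 : (1 : ℝ) ≤ Real.log n ^ (B1 + B2) := one_le_pow₀ hlog1
        rw [pow_succ]
        nlinarith
      calc (n : ℝ) ≤ m * (N + 1) := h5.le
        _ ≤ _ := mul_le_mul_of_nonneg_left h6 hm0.le
    obtain ⟨p, hp, hpn, hq⟩ := hD m hm1 hmn hlt
    refine ⟨p, hp, hpn, by omega, ?_, fun _ => ?_, ?_⟩
    · rw [hq]
      exact final_two (by norm_num)
    · rw [hq]
      exact final_two (by norm_num)
    · rw [hq]
      exact final_two (by omega)

end Pool.Agent.CU
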