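import Mathlib
import Pool.Agent.CU.Asm
import Pool.Agent.CU.Final
import Pool.Agent.LIN.Asm

set_option autoImplicit false

/-!
# CU: all but finitely many admissible pairs
-/

namespace Pool.Agent.CU

open Finset Filter Pool.Agent.MT Pool.Agent.CH

theorem chen : St_Chen := chen_of_lin (thm_LinG Pool.Agent.LIN.sve Pool.Agent.LIN.thm_Cv2).2

theorem main : St_All := by
  have hLG := (thm_LinG Pool.Agent.LIN.sve Pool.Agent.LIN.thm_Cv2).1
  exact final_all (fin4 hLG) (finT hLG) (thm_FinD thm_PI) chen

end Pool.Agent.CU
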